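import Pool.Agent.Work.MP_b30479_gt.TBS.DT.Stmt

/-!
# Two-bridge links with long twist regions: definitions for the public statement

The link of `ltWord [b_0, ..., b_M]` has a diagram with `M + 1` twist regions.  Its complement is
glued from `2 M` ideal octahedra (two for each of the `M` turning points, one for each of the two
neighbouring twist regions) and filled along the `M + 1` crossing circles; each octahedron is cut
into four ideal tetrahedra around an axis.
-/

namespace Pool.Agent.Work.MP_b30479_gtS.LT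

open Finset

/-- `e^{2πiw}` -/
noncomputable def ee (w : ℂ) : ℂ := Complex.exp (2 * Real.pi * Complex.I * w)

/-- The Bloch-Wigner dilogarithm `D` on the whole plane (the volume of the ideal tetrahedron with
shape `z`): `D(z) = Im Li₂(z) + arg(1-z) log|z|` for `|z| ≤ 1` and `D(z) = -D(1/z)` for
`|z| > 1`. -/
noncomputable def BW (z : ℂ) : ℝ := if ‖z‖ ≤ 1 then DT.BWd z else -DT.BWd z⁻¹

/-- The volume of one octahedron: its four tetrahedra have the shapes `x`, `-q/x`, `x`, `-1/(qx)`
(of product `1`). -/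
noncomputable def rvol (x q : ℂ) : ℝ := 2 * BW x + BW (-(q / x)) + BW (-(1 / (q * x)))

/-- The volume, `x_j = e^{2πiy_j}`, `q_i = e^{2πiζ_i}`. -/
noncomputable def volL {M : ℕ} (y : Fin M → ℂ) (ζ : Fin (M + 1) → ℂ) : ℝ :=
  ∑ j : Fin M, (rvol (ee (y j)) (ee (ζ j.castSucc)) + rvol (ee (y j)) (ee (ζ j.succ)))

/-- All four tetrahedra of the octahedron (`x = e^{2πiw}`, `q = e^{2πiζ}`) have shapes with
positive imaginary part, the arguments of the shapes being `2π` times `Re w`, `1/2 + Re ζ - Re w`,
`Re w`, `1/2 - Re ζ - Re w`. -/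
def Pos (w ζ : ℂ) : Prop := |ζ.re| < w.re ∧ |ζ.re| < 1 / 2 - w.re

/-- The contribution of one octahedron to the edge equation. -/
noncomputable def lgs (w ζ : ℂ) : ℂ :=
  Complex.log (1 + ee (w + ζ)) + Complex.log (1 + ee (w - ζ)) - 2 * Complex.log (1 - ee w)

/-- The contribution of one octahedron to the filling equation. -/
noncomputable def lgd (w ζ : ℂ) : ℂ :=
  Complex.log (1 + ee (w + ζ)) - Complex.log (1 + ee (w - ζ)) - 2 * Real.pi * Complex.I * ζ

/-- The (logarithmic) gluing equations, with positively oriented tetrahedra.  With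
`x_j = e^{2πiy_j}` and `q_i = e^{2πiζ_i}`, `edge` implies
`(1 + x_j q_j) (1 + x_j / q_j) (1 + x_j q_{j+1}) (1 + x_j / q_{j+1}) = (1 - x_j)⁴`, and `filling`
implies `q_i^{b_i} ∏ (1 + x_j q_i) / (x_j + q_i) = 1`, the product over the one or two turning
points `j` at the ends of the twist region `i`; the logarithms fix the angles. -/
structure Geom {M : ℕ} (b : Fin (M + 1) → ℤ) (y : Fin M → ℂ) (ζ : Fin (M + 1) → ℂ) : Prop where
  pos_left : ∀ j : Fin M, Pos (y j) (ζ j.castSucc)
  pos_right : ∀ j : Fin M, Pos (y j) (ζ j.succ)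
  edge : ∀ j : Fin M, lgs (y j) (ζ j.castSucc) + lgs (y j) (ζ j.succ) = 2 * Real.pi * Complex.I
  filling : ∀ i, 2 * Real.pi * Complex.I * (b i * ζ i + 1) +
    ∑ j : Fin M, ((if j.castSucc = i then lgd (y j) (ζ i) else 0) +
      (if j.succ = i then lgd (y j) (ζ i) else 0)) = 0

end Pool.Agent.Work.MP_b30479_gtS.LT
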