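import Pool.Agent.Work.MP_b30479_gt.TBS.DT.RSum
import Pool.Agent.Work.MP_b30479_gt.TBS.LT.Defs

section

/-!
# Explicit facts on the real ring function

`Rr ρ x σ = -2 Lr 0 x + Lr ρ (x + 1/2 + σ) + Lr ρ (x + 1/2 - σ) - π ρ`, so that
`tr ρ x σ σ' = Rr ρ x σ + Rr ρ x σ'`.
-/

namespace Pool.Agent.Work.MP_b30479_gtS.LT

open Finset VOL AX MeasureTheory

/-- one ring of `tr` -/
noncomputable def Rr (ρ x σ : ℝ) : ℝ :=
  -2 * DT.Lr 0 x + (DT.Lr ρ (x + 1 / 2 + σ) + DT.Lr ρ (x + 1 / 2 - σ)) - Real.pi * ρ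

theorem tr_eq_Rr (ρ x σ σ' : ℝ) : tr ρ x σ σ' = Rr ρ x σ + Rr ρ x σ' := by
  unfold tr Rr
  ring

theorem Rr_neg (ρ x σ : ℝ) : Rr ρ x (-σ) = Rr ρ x σ := by
  unfold Rr
  rw [← sub_eq_add_neg, sub_neg_eq_add]
  ring

theorem Rr_abs (ρ x σ : ℝ) : Rr ρ x |σ| = Rr ρ x σ := by
  rcases abs_choice σ with h | h
  · rw [h]
  · rw [h, Rr_neg]

theorem Rr_zero (x σ : ℝ) : Rr 0 x σ = DT.H 0 (1 / 2 - x) σ 0 := by
  rw [← ring_eq]
  unfold Rr
  ring

theorem ts_eq_Rr : ts = 2 * Rr 0 (1 / 4) 0 := by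
  rw [ts_eq, tr_eq_Rr]
  ring

/-- decreasing in `|σ|` -/
theorem Rr_anti {x σ σ' : ℝ} (h0 : 0 ≤ x) (h1 : x ≤ 1 / 2) (h2 : |σ| ≤ |σ'|) (h3 : |σ'| ≤ 1 / 2) :
    Rr 0 x σ' ≤ Rr 0 x σ := by
  rw [Rr_zero, Rr_zero]
  exact DT.H_zero_anti 0 (by linarith only [h1]) (by linarith only [h0]) h2 h3

theorem Rr_at_half {x : ℝ} : Rr 0 x (1 / 2) = 0 := by
  have h := DT.Lr_add_one (ρ := 0) le_rfl x
  unfold Rr
  rw [show x + 1 / 2 + 1 / 2 = x + 1 by ring, show x + 1 / 2 - 1 / 2 = x by ring, h]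
  ring

/-- nonpositive to the right of `1/2` -/
theorem Rr_nonpos {x σ : ℝ} (h0 : 1 / 2 ≤ x) (h1 : x ≤ 1) (h3 : |σ| ≤ 1 / 2) :
    Rr 0 x σ ≤ 0 := by
  have h4 : |σ| ≤ |(1 / 2 : ℝ)| := by
    rw [abs_of_pos (by norm_num : (0 : ℝ) < 1 / 2)]
    exact h3
  have h := DT.realAx_mono 0 (η := 1 / 2 - x) (by linarith only [h1]) (by linarith only [h0]) h4 (by norm_num)
  rw [← Rr_zero, ← Rr_zero, Rr_at_half] at h
  exact h

theorem Rr_nonneg {x σ : ℝ} (h0 : 0 ≤ x) (h1 : x ≤ 1 / 2) (h3 : |σ| ≤ 1 / 2) :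
    0 ≤ Rr 0 x σ := by
  have h4 : |σ| ≤ |(1 / 2 : ℝ)| := by
    rw [abs_of_pos (by norm_num : (0 : ℝ) < 1 / 2)]
    exact h3
  have h := Rr_anti h0 h1 h4 (by norm_num)
  rw [Rr_at_half] at h
  exact h

/-- `log (cos (a - b) / cos (a + b)) ≥ 2 tan a tan b` -/
theorem log_cos_diff {a b : ℝ} (ha : 0 ≤ a) (hb : 0 ≤ b) (hab : a + b < Real.pi / 2) :
    2 * (Real.tan a * Real.tan b) ≤ Real.log (Real.cos (a - b)) - Real.log (Real.cos (a + b)) := by
  have hca : 0 < Real.cos a := Real.cos_pos_of_mem_Ioo ⟨by linarith only [ha, hb, hab], by linarith only [hb, hab]⟩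
  have hcb : 0 < Real.cos b := Real.cos_pos_of_mem_Ioo ⟨by linarith only [ha, hb, hab], by linarith only [ha, hab]⟩
  have hcab : 0 < Real.cos (a + b) := Real.cos_pos_of_mem_Ioo ⟨by linarith only [ha, hb, hab], by linarith only [hab]⟩
  have ta : 0 ≤ Real.tan a := Real.tan_nonneg_of_nonneg_of_le_pi_div_two ha (by linarith only [hb, hab])
  have tb : 0 ≤ Real.tan b := Real.tan_nonneg_of_nonneg_of_le_pi_div_two hb (by linarith only [ha, hab])
  set u := Real.tan a * Real.tan b with hu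
  have hu0 : 0 ≤ u := mul_nonneg ta tb
  have e0 : u * (Real.cos a * Real.cos b) = Real.sin a * Real.sin b := by
    rw [hu, Real.tan_eq_sin_div_cos, Real.tan_eq_sin_div_cos]
    field_simp
  have e1 : Real.cos (a - b) = Real.cos a * Real.cos b * (1 + u) := by
    rw [Real.cos_sub]; linarith only [e0]
  have e2 : Real.cos (a + b) = Real.cos a * Real.cos b * (1 - u) := by
    rw [Real.cos_add]; linarith only [e0]
  have hu1 : u < 1 := by
    rw [e2] at hcab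
    have := (mul_pos_iff_of_pos_left (mul_pos hca hcb)).1 hcab
    linarith only [this]
  have hcc : Real.cos a * Real.cos b ≠ 0 := by positivity
  rw [e1, e2, Real.log_mul hcc (by linarith only [hu0] : (1 + u) ≠ 0), Real.log_mul hcc
    (by linarith only [hu1] : (1 - u) ≠ 0)]
  have h := Real.hasSum_log_sub_log_of_abs_lt_one (x := u) (by rw [abs_of_nonneg hu0]; exact hu1)
  have h2 := h.summable.le_tsum 0 (fun k _ => by positivity)
  rw [h.tsum_eq] at h2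
  norm_num at h2
  linarith only [h2]

/-- the derivative in `σ` -/
theorem hasDerivAt_Rr_sigma {x s : ℝ} (h1 : 0 < x + 1 / 2 - s) (h2 : x + 1 / 2 + s < 1)
    (hs : 0 ≤ s) : HasDerivAt (fun s => Rr 0 x s)
      (DT.el 0 (x + 1 / 2 + s) - DT.el 0 (x + 1 / 2 - s)) s := by
  have hpi := Real.pi_pos
  have n1 : Real.sin (Real.pi * (x + 1 / 2 + s)) ≠ 0 :=
    (Real.sin_pos_of_pos_of_lt_pi (by apply mul_pos hpi; linarith only [h1, hs]) (by nlinarith only [h2, hpi])).ne'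
  have n2 : Real.sin (Real.pi * (x + 1 / 2 - s)) ≠ 0 :=
    (Real.sin_pos_of_pos_of_lt_pi (by apply mul_pos hpi; linarith only [h1]) (by nlinarith only [h2, hpi, hs])).ne'
  have l1 : HasDerivAt (fun s : ℝ => x + 1 / 2 + s) 1 s := (hasDerivAt_id s).const_add _
  have l2 : HasDerivAt (fun s : ℝ => x + 1 / 2 - s) (-1) s := (hasDerivAt_id s).const_sub _
  have m1 := (DT.hasDerivAt_Lr_zero n1).comp s l1
  have m2 := (DT.hasDerivAt_Lr_zero n2).comp s l2
  have m3 := (((m1.add m2).const_add (-2 * DT.Lr 0 x)).sub_const (Real.pi * 0))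
  refine m3.congr_deriv ?_
  ring

theorem el_cos {v : ℝ} (h : 0 < Real.cos (Real.pi * v)) : DT.el 0 (v + 1 / 2) =
    Real.log 2 + Real.log (Real.cos (Real.pi * v)) := by
  rw [DT.el_zero, Lob.ff, show Real.pi * (v + 1 / 2) = Real.pi * v + Real.pi / 2 by ring,
    Real.sin_add_pi_div_two, Real.log_mul (by norm_num) h.ne']

theorem continuous_Rr : Continuous fun p : ℝ × ℝ × ℝ => Rr p.1 p.2.1 p.2.2 := by
  have hL : ∀ {f g : ℝ × ℝ × ℝ → ℝ}, Continuous f → Continuous g →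
      Continuous fun p => DT.Lr (f p) (g p) := by
    intro f g hf hg
    exact Continuous.comp (g := fun q : ℝ × ℝ => DT.Lr q.1 q.2) (f := fun p => (f p, g p))
      DT.continuous_Lr (hf.prodMk hg)
  have cρ : Continuous fun p : ℝ × ℝ × ℝ => p.1 := by fun_prop
  have c0 : Continuous fun _ : ℝ × ℝ × ℝ => (0 : ℝ) := continuous_const
  have cx : Continuous fun p : ℝ × ℝ × ℝ => p.2.1 := by fun_prop
  have c1 : Continuous fun p : ℝ × ℝ × ℝ => p.2.1 + 1 / 2 + p.2.2 := by fun_prop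
  have c2 : Continuous fun p : ℝ × ℝ × ℝ => p.2.1 + 1 / 2 - p.2.2 := by fun_prop
  have c5 : Continuous fun p : ℝ × ℝ × ℝ => Real.pi * p.1 := by fun_prop
  have d0 := hL c0 cx
  have d1 := hL cρ c1
  have d2 := hL cρ c2
  have d5 := ((continuous_const (y := (-2 : ℝ))).mul d0)
  exact (d5.add (d1.add d2)).sub c5

/-- the loss in `σ` -/
theorem Rr_sigma {x σ : ℝ} (h0 : 0 ≤ x) (h1 : x + |σ| ≤ 1 / 2) :
    Rr 0 x σ + Real.pi * σ ^ 2 * Real.tan (Real.pi * x) ≤ Rr 0 x 0 := by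
  have hpi := Real.pi_pos
  have key : AntitoneOn (fun s => Rr 0 x s + Real.pi * s ^ 2 * Real.tan (Real.pi * x))
      (Set.Icc 0 (1 / 2 - x)) := by
    apply antitoneOn_of_hasDerivWithinAt_nonpos (convex_Icc _ _)
      (f' := fun s => (DT.el 0 (x + 1 / 2 + s) - DT.el 0 (x + 1 / 2 - s)) +
        Real.pi * (2 * s) * Real.tan (Real.pi * x))
    · apply Continuous.continuousOn
      have c1 : Continuous fun s : ℝ => Rr 0 x s := by
        have c : Continuous fun s : ℝ => ((0, x, s) : ℝ × ℝ × ℝ) := by fun_prop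
        exact Continuous.comp continuous_Rr c
      exact c1.add (by fun_prop)
    · intro s hs
      rw [interior_Icc] at hs
      have d1 := hasDerivAt_Rr_sigma (x := x) (s := s) (by linarith only [h0, hs, hs.1, hs.2])
        (by linarith only [hs, hs.2]) hs.1.le
      have d2 : HasDerivAt (fun s : ℝ => Real.pi * s ^ 2 * Real.tan (Real.pi * x))
          (Real.pi * (2 * s) * Real.tan (Real.pi * x)) s := by
        have := (((hasDerivAt_pow 2 s).const_mul Real.pi).mul_const (Real.tan (Real.pi * x)))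
        refine this.congr_deriv ?_
        norm_num
      exact (d1.add d2).hasDerivWithinAt
    · intro s hs
      rw [interior_Icc] at hs
      have i0 : 0 ≤ Real.pi * x := by positivity
      have i1 : 0 ≤ Real.pi * s := mul_nonneg hpi.le hs.1.le
      have i2 : Real.pi * x + Real.pi * s < Real.pi / 2 := by nlinarith only [hpi, hs, hs.2]
      have i3 := log_cos_diff i0 i1 i2
      have c1 : 0 < Real.cos (Real.pi * (x + s)) :=
        Real.cos_pos_of_mem_Ioo ⟨by nlinarith only [hpi, i0, i1], by nlinarith only [i2]⟩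
      have c2 : 0 < Real.cos (Real.pi * (x - s)) :=
        Real.cos_pos_of_mem_Ioo ⟨by nlinarith only [i0, i2], by nlinarith only [i1, i2]⟩
      have e1 := el_cos c1
      have e2 := el_cos c2
      rw [show x + s + 1 / 2 = x + 1 / 2 + s by ring, show Real.pi * (x + s) =
        Real.pi * x + Real.pi * s by ring] at e1
      rw [show x - s + 1 / 2 = x + 1 / 2 - s by ring, show Real.pi * (x - s) =
        Real.pi * x - Real.pi * s by ring] at e2
      have t0 : 0 ≤ Real.tan (Real.pi * x) :=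
        Real.tan_nonneg_of_nonneg_of_le_pi_div_two i0 (by linarith only [i1, i2])
      have t1 : Real.pi * s ≤ Real.tan (Real.pi * s) := Real.le_tan i1 (by linarith only [i0, i2])
      have t2 := mul_le_mul_of_nonneg_left t1 t0
      rw [e1, e2]
      linarith only [i3, t2]
  have h2 : (0 : ℝ) ∈ Set.Icc 0 (1 / 2 - x) := ⟨le_rfl, by linarith only [h1, abs_nonneg σ]⟩
  have h3 : |σ| ∈ Set.Icc 0 (1 / 2 - x) := ⟨abs_nonneg σ, by linarith only [h1]⟩
  have h4 := key h2 h3 (abs_nonneg σ)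
  simp only [sq_abs, Rr_abs] at h4
  linarith only [h4]

theorem Rr_symm (x : ℝ) : Rr 0 (1 / 2 - x) 0 = Rr 0 x 0 := by
  have h1 := DT.Lr_one_sub (ρ := 0) le_rfl x
  have h2 := DT.Lr_one_sub (ρ := 0) le_rfl (1 / 2 - x)
  unfold Rr
  rw [show 1 / 2 - x + 1 / 2 + 0 = 1 - x by ring, show 1 / 2 - x + 1 / 2 - 0 = 1 - x by ring,
    show x + 1 / 2 + 0 = 1 - (1 / 2 - x) by ring, show x + 1 / 2 - 0 = 1 - (1 / 2 - x) by ring,
    h1, h2]
  ring

theorem hasDerivAt_Rr_x {x : ℝ} (h0 : 0 < x) (h1 : x < 1 / 2) :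
    HasDerivAt (fun x => Rr 0 x 0) (2 * DT.el 0 (x + 1 / 2) - 2 * DT.el 0 x) x := by
  have hpi := Real.pi_pos
  have n1 : Real.sin (Real.pi * (x + 1 / 2 + 0)) ≠ 0 :=
    (Real.sin_pos_of_pos_of_lt_pi (by apply mul_pos hpi; linarith only [h0, h1]) (by nlinarith only [h1, hpi])).ne'
  have n2 : Real.sin (Real.pi * (x + 1 / 2 - 0)) ≠ 0 :=
    (Real.sin_pos_of_pos_of_lt_pi (by apply mul_pos hpi; linarith only [h0, h1]) (by nlinarith only [h1, hpi])).ne'
  have n3 : Real.sin (Real.pi * x) ≠ 0 :=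
    (Real.sin_pos_of_pos_of_lt_pi (by positivity) (by nlinarith only [hpi, h1])).ne'
  have l1 : HasDerivAt (fun x : ℝ => x + 1 / 2 + 0) 1 x :=
    ((hasDerivAt_id x).add_const _).add_const _
  have l2 : HasDerivAt (fun x : ℝ => x + 1 / 2 - 0) 1 x :=
    ((hasDerivAt_id x).add_const _).sub_const _
  have m1 := (DT.hasDerivAt_Lr_zero n1).comp x l1
  have m2 := (DT.hasDerivAt_Lr_zero n2).comp x l2
  have m3 := ((((DT.hasDerivAt_Lr_zero n3).const_mul (-2)).add (m1.add m2)).sub_const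
    (Real.pi * 0))
  refine m3.congr_deriv ?_
  rw [add_zero, sub_zero]
  ring

/-- the loss in `x` -/
theorem Rr_x {x : ℝ} (h0 : 0 ≤ x) (h1 : x ≤ 1 / 2) :
    Rr 0 x 0 + 2 * Real.pi * (x - 1 / 4) ^ 2 ≤ Rr 0 (1 / 4) 0 := by
  have hpi := Real.pi_pos
  have key : AntitoneOn (fun t => Rr 0 t 0 + 2 * Real.pi * (t - 1 / 4) ^ 2)
      (Set.Icc (1 / 4) (1 / 2)) := by
    apply antitoneOn_of_hasDerivWithinAt_nonpos (convex_Icc _ _)
      (f' := fun t => (2 * DT.el 0 (t + 1 / 2) - 2 * DT.el 0 t) +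
        2 * Real.pi * (2 * (t - 1 / 4)))
    · apply Continuous.continuousOn
      have c1 : Continuous fun s : ℝ => Rr 0 s 0 := by
        have c : Continuous fun s : ℝ => ((0, s, 0) : ℝ × ℝ × ℝ) := by fun_prop
        exact Continuous.comp continuous_Rr c
      exact c1.add (by fun_prop)
    · intro t ht
      rw [interior_Icc] at ht
      have d1 := hasDerivAt_Rr_x (x := t) (by linarith only [ht, ht.1]) ht.2
      have d2 : HasDerivAt (fun t : ℝ => 2 * Real.pi * (t - 1 / 4) ^ 2)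
          (2 * Real.pi * (2 * (t - 1 / 4))) t := by
        have := ((((hasDerivAt_id t).sub_const (1 / 4)).pow 2).const_mul (2 * Real.pi))
        refine this.congr_deriv ?_
        norm_num
      exact (d1.add d2).hasDerivWithinAt
    · intro t ht
      rw [interior_Icc] at ht
      have i0 : 0 ≤ Real.pi / 4 := by positivity
      have i1 : 0 ≤ Real.pi * (t - 1 / 4) := mul_nonneg hpi.le (by linarith only [ht, ht.1])
      have i2 : Real.pi / 4 + Real.pi * (t - 1 / 4) < Real.pi / 2 := by nlinarith only [hpi, ht, ht.2]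
      have i3 := log_cos_diff i0 i1 i2
      have c1 : 0 < Real.cos (Real.pi * t) :=
        Real.cos_pos_of_mem_Ioo ⟨by nlinarith only [hpi, i1, ht.1], by nlinarith only [i2, ht.2]⟩
      have s1 : 0 < Real.sin (Real.pi * t) :=
        Real.sin_pos_of_pos_of_lt_pi (by nlinarith only [hpi, i1, ht.1]) (by nlinarith only [hpi, i2, ht.2])
      have e1 := el_cos c1
      have e2 : DT.el 0 t = Real.log 2 + Real.log (Real.sin (Real.pi * t)) := by
        rw [DT.el_zero, Lob.ff, Real.log_mul (by norm_num) s1.ne']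
      rw [show Real.pi / 4 + Real.pi * (t - 1 / 4) = Real.pi * t by ring,
        show Real.pi / 4 - Real.pi * (t - 1 / 4) = Real.pi / 2 - Real.pi * t by ring,
        Real.cos_pi_div_two_sub, Real.tan_pi_div_four, one_mul] at i3
      have t1 : Real.pi * (t - 1 / 4) ≤ Real.tan (Real.pi * (t - 1 / 4)) :=
        Real.le_tan i1 (by linarith only [hpi, i2])
      rw [e1, e2]
      linarith only [i3, t1]
  have m0 : (1 / 4 : ℝ) ∈ Set.Icc (1 / 4 : ℝ) (1 / 2) := ⟨le_rfl, by norm_num⟩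
  rcases le_total (1 / 4) x with h | h
  · have h4 := key m0 ⟨h, h1⟩ h
    simp only [sub_self] at h4
    linarith only [h4]
  · have h4 := key m0 (b := 1 / 2 - x) ⟨by linarith only [h], by linarith only [h0]⟩ (by linarith only [h])
    simp only [sub_self] at h4
    rw [Rr_symm] at h4
    nlinarith only [h4]

/-- (a): the loss on the triangle -/
theorem Rr_tri {x σ : ℝ} (h0 : 0 ≤ x) (h1 : x + |σ| ≤ 1 / 2) :
    Rr 0 x σ ≤ Rr 0 (1 / 4) 0 - 2 * Real.pi * (x - 1 / 4) ^ 2 -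
      Real.pi * σ ^ 2 * Real.tan (Real.pi * x) := by
  have h2 := Rr_sigma h0 h1
  have h3 := Rr_x h0 (by linarith only [h1, abs_nonneg σ])
  linarith only [h2, h3]

/-- the maximum is at least `π/8` -/
theorem Rr_max_ge : Real.pi / 8 ≤ Rr 0 (1 / 4) 0 := by
  have h := Rr_x (x := 0) le_rfl (by norm_num)
  have e : Rr 0 0 0 = 0 := by
    have h3 := DT.Lr_half (ρ := 0) le_rfl
    unfold Rr
    rw [zero_add, add_zero, sub_zero, h3, DT.Lr_zero_right]
    ring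
  rw [e] at h
  linarith only [h]

/-- `tan (π/8) ≥ 2/5` -/
theorem tan_pi_eight : 2 / 5 ≤ Real.tan (Real.pi / 8) := by
  have hpi := Real.pi_pos
  have h := Real.lt_tan (x := Real.pi / 8) (by positivity) (by linarith only [hpi])
  have := Real.pi_gt_d2
  by_contra hc
  push Not at hc
  -- `tan (π/4) = 2t/(1-t²) = 1`
  have t0 : 0 < Real.tan (Real.pi / 8) := by linarith only [h, this, hc, div_pos hpi (by norm_num : (0 : ℝ) < 8)]
  have hc8 : 0 < Real.cos (Real.pi / 8) := Real.cos_pos_of_mem_Ioo ⟨by linarith only [h, this, hc], by linarith only [h, this, hc]⟩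
  have e1 : Real.tan (2 * (Real.pi / 8)) = 2 * Real.tan (Real.pi / 8) /
      (1 - Real.tan (Real.pi / 8) ^ 2) := Real.tan_two_mul
  rw [show 2 * (Real.pi / 8) = Real.pi / 4 by ring, Real.tan_pi_div_four,
    eq_div_iff (by nlinarith only [h, this, hc, hpi])] at e1
  nlinarith only [h, this, hc, e1, hpi]

/-- (d): an explicit gap on the whole rectangle -/
theorem Rr_gap {x σ : ℝ} (h0 : 0 ≤ x) (h1 : x ≤ 1) (h2 : |σ| ≤ 1 / 2) :
    Rr 0 x σ ≤ Rr 0 (1 / 4) 0 - 3 / 10 * ((x - 1 / 4) ^ 2 + σ ^ 2) := by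
  have hpi := Real.pi_gt_d2
  have hσ : σ ^ 2 ≤ 1 / 4 := by
    rw [← sq_abs]
    nlinarith only [h2, abs_nonneg σ]
  rcases le_total x (1 / 2) with hx | hx
  · -- reduce to the triangle
    have key : ∀ s : ℝ, 0 ≤ s → x + s ≤ 1 / 2 → ∀ q : ℝ, q ≤ 1 / 4 →
        (q = s ^ 2 ∨ s = 1 / 2 - x) → 3 / 10 * ((x - 1 / 4) ^ 2 + q) ≤
        2 * Real.pi * (x - 1 / 4) ^ 2 + Real.pi * s ^ 2 * Real.tan (Real.pi * x) := by
      intro s hs0 hs1 q hq hqs
      have t0 : 0 ≤ Real.tan (Real.pi * x) :=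
        Real.tan_nonneg_of_nonneg_of_le_pi_div_two (by positivity) (by nlinarith only [hx, hpi])
      have t1 : 0 ≤ Real.pi * s ^ 2 * Real.tan (Real.pi * x) := by positivity
      rcases le_total x (1 / 8) with c1 | c1
      · nlinarith only [hq, t1, hpi, h0, hx, c1]
      rcases le_total (3 / 8) x with c2 | c2
      · nlinarith only [hq, t1, hpi, h0, c2, hx, c1]
      have t2 : Real.tan (Real.pi / 8) ≤ Real.tan (Real.pi * x) := by
        rcases eq_or_lt_of_le c1 with c3 | c3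
        · rw [← c3]
          apply le_of_eq
          congr 1
          ring
        · exact (Real.tan_lt_tan_of_nonneg_of_lt_pi_div_two (by positivity) (by nlinarith only [c2, hpi, hx])
            (by nlinarith only [c3, hpi, c1])).le
      have t3 := tan_pi_eight
      rcases hqs with hqs | hqs
      · rw [hqs]
        have : 3 / 10 * s ^ 2 ≤ Real.pi * s ^ 2 * Real.tan (Real.pi * x) := by
          have : 3 / 10 ≤ Real.pi * Real.tan (Real.pi * x) := by nlinarith only [t2, t3, hpi, t0]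
          nlinarith only [this, sq_nonneg s]
        nlinarith only [this, hpi, sq_nonneg (x - 1 / 4)]
      · rw [hqs]
        rcases le_total x (1 / 4) with c3 | c3
        · have i1 : 1 / 16 ≤ (1 / 2 - x) ^ 2 := by nlinarith only [h1, c3, hx]
          have i2 : 314 / 100 * (1 / 16) ≤ Real.pi * (1 / 2 - x) ^ 2 := by nlinarith only [i1, hpi]
          have i3 : 314 / 100 * (1 / 16) * (2 / 5) ≤
              Real.pi * (1 / 2 - x) ^ 2 * Real.tan (Real.pi * x) := by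
            apply mul_le_mul i2 (by linarith only [t2, t3]) (by norm_num) (by positivity)
          nlinarith only [hq, i3, hpi, sq_nonneg (x - 1 / 4)]
        · have t4 : 1 ≤ Real.tan (Real.pi * x) := by
            rw [← Real.tan_pi_div_four]
            rcases eq_or_lt_of_le c3 with c4 | c4
            · rw [← c4]
              apply le_of_eq
              congr 1
              ring
            · exact (Real.tan_lt_tan_of_nonneg_of_lt_pi_div_two (by positivity) (by nlinarith only [c2, c4, hpi, hx])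
                (by nlinarith only [c4, hpi, c3])).le
          have i3 : 314 / 100 * (1 / 2 - x) ^ 2 ≤
              Real.pi * (1 / 2 - x) ^ 2 * Real.tan (Real.pi * x) := by
            have : 314 / 100 * (1 / 2 - x) ^ 2 * 1 ≤
                Real.pi * (1 / 2 - x) ^ 2 * Real.tan (Real.pi * x) := by
              apply mul_le_mul _ t4 (by norm_num) (by positivity)
              apply mul_le_mul_of_nonneg_right _ (sq_nonneg _)
              norm_num at hpi ⊢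
              linarith only [hpi]
            linarith only [this]
          have i4 : 314 / 50 * (x - 1 / 4) ^ 2 ≤ 2 * Real.pi * (x - 1 / 4) ^ 2 := by
            apply mul_le_mul_of_nonneg_right _ (sq_nonneg _)
            norm_num at hpi ⊢
            linarith only [hpi]
          nlinarith only [hq, c2, i3, i4, sq_nonneg (12 * x - 4)]
    rcases le_total (x + |σ|) (1 / 2) with hc | hc
    · have h3 := Rr_tri h0 hc
      have h4 := key |σ| (abs_nonneg σ) hc (σ ^ 2) hσ (Or.inl (sq_abs σ).symm)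
      rw [sq_abs] at h4
      linarith only [h3, h4]
    · have h3 := Rr_tri (x := x) (σ := 1 / 2 - x) h0 (by
        rw [abs_of_nonneg (by linarith only [hx])]; linarith only [])
      have h4 := key (1 / 2 - x) (by linarith only [hx]) (by linarith only []) (σ ^ 2) hσ (Or.inr rfl)
      have h5 := Rr_anti (x := x) (σ := 1 / 2 - x) (σ' := σ) h0 hx (by
        rw [abs_of_nonneg (by linarith only [hx])]; linarith only [hc]) h2
      linarith only [h3, h4, h5]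
  · have h3 := Rr_nonpos hx h1 h2
    have h4 := Rr_max_ge
    nlinarith only [h1, hpi, hσ, h3, h4, h0]

/-! ### heights -/

/-- the gain by the height grows with `x` -/
theorem Rr_height_mono {ρ ρ' x x' σ : ℝ} (hρ : 0 ≤ ρ) (hρ' : ρ ≤ ρ') (hx : x ≤ x') :
    Rr ρ' x σ - Rr ρ x σ ≤ Rr ρ' x' σ - Rr ρ x' σ := by
  have key : ∀ a b : ℝ, a ≤ b → DT.Lr ρ b - DT.Lr ρ a ≤ DT.Lr ρ' b - DT.Lr ρ' a := by
    intro a b hab
    rw [DT.Lr_sub, DT.Lr_sub]
    apply intervalIntegral.integral_mono_ae hab (DT.el_intble ρ a b) (DT.el_intble ρ' a b)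
    filter_upwards [DT.LrCont.ae_sin_ne] with v hv
    exact DT.el_mono hρ hρ' (fun _ => hv)
  have h1 := key (x + 1 / 2 + σ) (x' + 1 / 2 + σ) (by linarith only [hx])
  have h2 := key (x + 1 / 2 - σ) (x' + 1 / 2 - σ) (by linarith only [hx])
  unfold Rr
  linarith only [h1, h2]

theorem Rr_at_zero {ρ : ℝ} (hρ : 0 ≤ ρ) (σ : ℝ) : Rr ρ 0 σ = 0 := by
  have h3 := DT.Lr_half_add hρ σ
  unfold Rr
  rw [zero_add, h3, DT.Lr_zero_right]
  ring

theorem Rr_half_left {ρ : ℝ} (hρ : 0 ≤ ρ) (σ : ℝ) : Rr ρ (1 / 2) σ = Real.pi * ρ := by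
  have h1 := DT.Lr_add_one hρ σ
  have h2 := DT.Lr_one_sub hρ σ
  have h3 := DT.Lr_half (ρ := 0) le_rfl
  unfold Rr
  rw [show (1 / 2 + 1 / 2 + σ : ℝ) = σ + 1 by ring, show (1 / 2 + 1 / 2 - σ : ℝ) = 1 - σ by ring,
    h1, h2, h3]
  ring

theorem Rr_one_left {ρ : ℝ} (hρ : 0 ≤ ρ) (σ : ℝ) : Rr ρ 1 σ = 2 * Real.pi * ρ := by
  have h1 := DT.Lr_add_one hρ (1 / 2 + σ)
  have h2 := DT.Lr_add_one hρ (1 / 2 - σ)
  have h3 := DT.Lr_one (ρ := 0) le_rfl
  have h4 := DT.Lr_half_add hρ σ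
  unfold Rr
  rw [show (1 + 1 / 2 + σ : ℝ) = 1 / 2 + σ + 1 by ring,
    show (1 + 1 / 2 - σ : ℝ) = 1 / 2 - σ + 1 by ring, h1, h2, h3]
  linarith only [h4]

/-- (e): monotone in the height -/
theorem Rr_mono_height {ρ ρ' x σ : ℝ} (hρ : 0 ≤ ρ) (hρ' : ρ ≤ ρ') (hx : 0 ≤ x) :
    Rr ρ x σ ≤ Rr ρ' x σ := by
  have h := Rr_height_mono (σ := σ) hρ hρ' hx
  rw [Rr_at_zero hρ, Rr_at_zero (hρ.trans hρ')] at h
  linarith only [h]

/-- the gain is at most `π (ρ' - ρ)` for `x ≤ 1/2` -/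
theorem Rr_height_half {ρ ρ' x σ : ℝ} (hρ : 0 ≤ ρ) (hρ' : ρ ≤ ρ') (hx : x ≤ 1 / 2) :
    Rr ρ' x σ ≤ Rr ρ x σ + Real.pi * (ρ' - ρ) := by
  have h := Rr_height_mono (σ := σ) hρ hρ' hx
  rw [Rr_half_left hρ, Rr_half_left (hρ.trans hρ')] at h
  linarith only [h]

/-- the gain is at most `2π (ρ' - ρ)` for `x ≤ 1` -/
theorem Rr_height_one {ρ ρ' x σ : ℝ} (hρ : 0 ≤ ρ) (hρ' : ρ ≤ ρ') (hx : x ≤ 1) :
    Rr ρ' x σ ≤ Rr ρ x σ + 2 * Real.pi * (ρ' - ρ) := by
  have h := Rr_height_mono (σ := σ) hρ hρ' hx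
  rw [Rr_one_left hρ, Rr_one_left (hρ.trans hρ')] at h
  linarith only [h]

/-- the gap with a height, `0 ≤ x ≤ 1` -/
theorem Rr_gap_height {ρ x σ : ℝ} (hρ : 0 ≤ ρ) (h0 : 0 ≤ x) (h1 : x ≤ 1) (h2 : |σ| ≤ 1 / 2) :
    Rr ρ x σ ≤ Rr 0 (1 / 4) 0 - 3 / 10 * ((x - 1 / 4) ^ 2 + σ ^ 2) + 2 * Real.pi * ρ := by
  have h3 := Rr_gap h0 h1 h2
  have h4 := Rr_height_one (σ := σ) le_rfl hρ h1
  linarith only [h3, h4]

end Pool.Agent.Work.MP_b30479_gtS.LT

end

section

/-!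
# Explicit version: absolute values at arbitrary points of the paths

Polynomial factors are harmless here.
-/

namespace Pool.Agent.Work.MP_b30479_gtS.LT

open Finset VOL AX MeasureTheory

/-! ### midpoint sums and total variation -/

theorem mid_cell {Φ φ φ' : ℝ → ℝ} (hΦ : ∀ v, HasDerivAt Φ (φ v) v)
    (hφ : ∀ v, HasDerivAt φ (φ' v) v) (hc : Continuous φ') {a b m : ℝ} (hab : a < b) (h1 : a ≤ m)
    (h2 : m ≤ b) : φ m ≤ (Φ b - Φ a) / (b - a) + ∫ v in a..b, |φ' v| := by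
  obtain ⟨c, hc1, hc2⟩ := exists_hasDerivAt_eq_slope Φ φ hab
    (fun v _ => (hΦ v).continuousAt.continuousWithinAt) (fun v _ => hΦ v)
  rw [← hc2]
  have hint : ∀ s t : ℝ, IntervalIntegrable φ' volume s t := fun s t => hc.intervalIntegrable s t
  have hint' : ∀ s t : ℝ, IntervalIntegrable (fun v => |φ' v|) volume s t := fun s t =>
    hc.abs.intervalIntegrable s t
  have h3 : φ m - φ c = ∫ v in c..m, φ' v :=
    (intervalIntegral.integral_eq_sub_of_hasDerivAt (fun v _ => hφ v) (hint c m)).symm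
  have h4 : φ m - φ c ≤ ∫ v in a..b, |φ' v| := by
    rw [h3]
    rcases le_total c m with h | h
    · calc ∫ v in c..m, φ' v ≤ |∫ v in c..m, φ' v| := le_abs_self _
        _ ≤ ∫ v in c..m, |φ' v| := intervalIntegral.abs_integral_le_integral_abs h
        _ ≤ ∫ v in a..b, |φ' v| := intervalIntegral.integral_mono_interval hc1.1.le h h2
            (Filter.Eventually.of_forall fun v => abs_nonneg _) (hint' a b)
    · calc ∫ v in c..m, φ' v ≤ |∫ v in c..m, φ' v| := le_abs_self _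
        _ = |∫ v in m..c, φ' v| := by rw [intervalIntegral.integral_symm, abs_neg]
        _ ≤ ∫ v in m..c, |φ' v| := intervalIntegral.abs_integral_le_integral_abs h
        _ ≤ ∫ v in a..b, |φ' v| := intervalIntegral.integral_mono_interval h1 h hc1.2.le
            (Filter.Eventually.of_forall fun v => abs_nonneg _) (hint' a b)
  linarith only [h4]

/-- midpoint sums against the integral, with the total variation as error -/
theorem mid_sum_var {Φ φ φ' : ℝ → ℝ} (hΦ : ∀ v, HasDerivAt Φ (φ v) v)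
    (hφ : ∀ v, HasDerivAt φ (φ' v) v) (hc : Continuous φ') {n : ℕ} (hn : 0 < n) (s : ℝ) (y : ℕ) :
    ∑ l ∈ range y, φ (s + ((l : ℝ) + 1 / 2) / n) ≤
      n * (Φ (s + (y : ℝ) / n) - Φ s) + ∫ v in s..(s + (y : ℝ) / n), |φ' v| := by
  have hn' : (0 : ℝ) < n := by exact_mod_cast hn
  induction y with
  | zero => simp
  | succ y ih =>
    rw [sum_range_succ]
    have hlt : s + (y : ℝ) / n < s + ((y + 1 : ℕ) : ℝ) / n := by
      have : (y : ℝ) / n < ((y + 1 : ℕ) : ℝ) / n := by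
        apply div_lt_div_of_pos_right _ hn'
        push_cast
        linarith only []
      linarith only [this]
    have e0 : s + ((y + 1 : ℕ) : ℝ) / n - (s + (y : ℝ) / n) = 1 / n := by
      push_cast
      ring
    have hpos : (0 : ℝ) < 1 / n := by positivity
    have h1 := mid_cell hΦ hφ hc (m := s + ((y : ℝ) + 1 / 2) / n) hlt
      (by
        have : ((y : ℝ) + 1 / 2) / n = (y : ℝ) / n + 1 / 2 * (1 / n) := by ring
        rw [this]
        linarith only [hlt, e0])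
      (by
        have : ((y : ℝ) + 1 / 2) / n = (y : ℝ) / n + 1 / 2 * (1 / n) := by ring
        have e : ((y + 1 : ℕ) : ℝ) / n = (y : ℝ) / n + 1 / n := by push_cast; ring
        rw [this, e]
        linarith only [hlt, e0])
    rw [e0, div_div_eq_mul_div, div_one, mul_comm _ (n : ℝ)] at h1
    have hint' : ∀ s t : ℝ, IntervalIntegrable (fun v => |φ' v|) volume s t := fun s t =>
      hc.abs.intervalIntegrable s t
    have h2 := intervalIntegral.integral_add_adjacent_intervals (hint' s (s + (y : ℝ) / n))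
      (hint' (s + (y : ℝ) / n) (s + ((y + 1 : ℕ) : ℝ) / n))
    rw [← h2]
    have e5 : (n : ℝ) * (Φ (s + ((y + 1 : ℕ) : ℝ) / n) - Φ s) = n * (Φ (s + (y : ℝ) / n) - Φ s) +
        n * (Φ (s + ((y + 1 : ℕ) : ℝ) / n) - Φ (s + (y : ℝ) / n)) := by ring
    rw [e5]
    linarith only [ih, h1]

/-! ### the total variation of `el ρ` on `[0, 2]` -/

theorem continuous_rr {ρ : ℝ} (hρ : 0 < ρ) : Continuous fun v => Real.pi * DT.rr ρ v := by
  unfold DT.rr
  refine continuous_const.mul (Continuous.div (by fun_prop) (by fun_prop) fun v => ?_)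
  have h1 : 1 < Real.cosh (2 * Real.pi * ρ) := Real.one_lt_cosh.2 (by positivity)
  have h2 := Real.cos_le_one (2 * Real.pi * v)
  linarith only [h1, h2]

theorem rr_sign {ρ : ℝ} (hρ : 0 < ρ) (v : ℝ) : (0 ≤ Real.sin (2 * Real.pi * v) → 0 ≤ Real.pi * DT.rr ρ v) ∧
    (Real.sin (2 * Real.pi * v) ≤ 0 → Real.pi * DT.rr ρ v ≤ 0) := by
  have h1 : 1 < Real.cosh (2 * Real.pi * ρ) := Real.one_lt_cosh.2 (by positivity)
  have h2 := Real.cos_le_one (2 * Real.pi * v)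
  have h3 : 0 < Real.cosh (2 * Real.pi * ρ) - Real.cos (2 * Real.pi * v) := by linarith only [h1, h2]
  unfold DT.rr
  refine ⟨fun h => mul_nonneg Real.pi_pos.le (div_nonneg h h3.le), fun h =>
    mul_nonpos_of_nonneg_of_nonpos Real.pi_pos.le (div_nonpos_of_nonpos_of_nonneg h h3.le)⟩

theorem var_up {ρ : ℝ} (hρ : 0 < ρ) {a b : ℝ} (hab : a ≤ b)
    (h : ∀ v, a ≤ v → v ≤ b → 0 ≤ Real.sin (2 * Real.pi * v)) :
    ∫ v in a..b, |Real.pi * DT.rr ρ v| = DT.el ρ b - DT.el ρ a := by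
  rw [← intervalIntegral.integral_eq_sub_of_hasDerivAt (f := fun v => DT.el ρ v)
    (fun v _ => DT.hasDerivAt_el hρ) ((continuous_rr hρ).intervalIntegrable a b)]
  refine intervalIntegral.integral_congr fun v hv => ?_
  rw [Set.uIcc_of_le hab] at hv
  exact abs_of_nonneg ((rr_sign hρ v).1 (h v hv.1 hv.2))

theorem var_down {ρ : ℝ} (hρ : 0 < ρ) {a b : ℝ} (hab : a ≤ b)
    (h : ∀ v, a ≤ v → v ≤ b → Real.sin (2 * Real.pi * v) ≤ 0) :
    ∫ v in a..b, |Real.pi * DT.rr ρ v| = DT.el ρ a - DT.el ρ b := by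
  have h1 : ∫ v in a..b, -(Real.pi * DT.rr ρ v) = DT.el ρ a - DT.el ρ b := by
    rw [intervalIntegral.integral_neg, intervalIntegral.integral_eq_sub_of_hasDerivAt
      (f := fun v => DT.el ρ v) (fun v _ => DT.hasDerivAt_el hρ)
      ((continuous_rr hρ).intervalIntegrable a b)]
    ring
  rw [← h1]
  refine intervalIntegral.integral_congr fun v hv => ?_
  rw [Set.uIcc_of_le hab] at hv
  exact abs_of_nonpos ((rr_sign hρ v).2 (h v hv.1 hv.2))

theorem var_el {ρ : ℝ} (hρ : 0 < ρ) : ∫ v in (0 : ℝ)..2, |Real.pi * DT.rr ρ v| =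
    4 * (DT.el ρ (1 / 2) - DT.el ρ 0) := by
  have hpi := Real.pi_pos
  have hint' : ∀ s t : ℝ, IntervalIntegrable (fun v => |Real.pi * DT.rr ρ v|) volume s t :=
    fun s t => (continuous_rr hρ).abs.intervalIntegrable s t
  have h1 := var_up hρ (a := 0) (b := 1 / 2) (by norm_num) (fun v h0 h1 =>
    Real.sin_nonneg_of_nonneg_of_le_pi (by positivity) (by nlinarith only [hpi, h1]))
  have h2 := var_down hρ (a := 1 / 2) (b := 1) (by norm_num) (fun v h0 h1 => by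
    have e : Real.sin (2 * Real.pi * v) = -Real.sin (2 * Real.pi * v - Real.pi) := by
      rw [Real.sin_sub_pi]; ring
    rw [e, neg_nonpos]
    exact Real.sin_nonneg_of_nonneg_of_le_pi (by nlinarith only [hpi, h0]) (by nlinarith only [hpi, h1]))
  have h3 := var_up hρ (a := 1) (b := 3 / 2) (by norm_num) (fun v h0 h1 => by
    have e : Real.sin (2 * Real.pi * v) = Real.sin (2 * Real.pi * v - 2 * Real.pi) := by
      rw [Real.sin_sub_two_pi]
    rw [e]
    exact Real.sin_nonneg_of_nonneg_of_le_pi (by nlinarith only [hpi, h0]) (by nlinarith only [hpi, h1]))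
  have h4 := var_down hρ (a := 3 / 2) (b := 2) (by norm_num) (fun v h0 h1 => by
    have e : Real.sin (2 * Real.pi * v) = -Real.sin (2 * Real.pi * v - 2 * Real.pi - Real.pi) := by
      rw [Real.sin_sub_pi, Real.sin_sub_two_pi]; ring
    rw [e, neg_nonpos]
    exact Real.sin_nonneg_of_nonneg_of_le_pi (by nlinarith only [hpi, h0]) (by nlinarith only [hpi, h1]))
  have e1 : DT.el ρ 1 = DT.el ρ 0 := by
    have := DT.el_add_one ρ 0
    rwa [zero_add] at this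
  have e2 : DT.el ρ (3 / 2) = DT.el ρ (1 / 2) := by
    have := DT.el_add_one ρ (1 / 2)
    rwa [show (1 / 2 + 1 : ℝ) = 3 / 2 by norm_num] at this
  have e3 : DT.el ρ 2 = DT.el ρ 0 := by
    have := DT.el_add_one ρ 1
    rw [show (1 + 1 : ℝ) = 2 by norm_num] at this
    rw [this, e1]
  have s1 := intervalIntegral.integral_add_adjacent_intervals (hint' 0 (1 / 2)) (hint' (1 / 2) 1)
  have s2 := intervalIntegral.integral_add_adjacent_intervals (hint' 0 1) (hint' 1 (3 / 2))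
  have s3 := intervalIntegral.integral_add_adjacent_intervals (hint' 0 (3 / 2)) (hint' (3 / 2) 2)
  rw [e1] at h2 h3
  rw [e2] at h3 h4
  rw [e3] at h4
  linarith only [h1, h2, h3, h4, s1, s2, s3]

/-- the size of the variation -/
theorem exp_var {ρ : ℝ} {n : ℕ} (hn : 0 < n) (h1 : 1 / (n : ℝ) ≤ ρ) (h2 : ρ ≤ 2) :
    Real.exp (4 * (DT.el ρ (1 / 2) - DT.el ρ 0)) ≤
      ((2 * Real.cosh (4 * Real.pi) + 2) * (n : ℝ) ^ 2) ^ 2 := by
  have hpi := Real.pi_pos
  have hn' : (0 : ℝ) < n := by exact_mod_cast hn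
  have hρ : 0 < ρ := lt_of_lt_of_le (by positivity) h1
  have hc := Real.one_lt_cosh.2 (show 2 * Real.pi * ρ ≠ 0 by positivity)
  set A := 2 * Real.cosh (2 * Real.pi * ρ) + 2 with hA
  set B := 2 * Real.cosh (2 * Real.pi * ρ) - 2 with hB
  have hA0 : 0 < A := by positivity
  have hB0 : 0 < B := by linarith only [hc]
  have e1 : DT.el ρ (1 / 2) = Real.log A / 2 := by
    unfold DT.el
    rw [show 2 * Real.pi * (1 / 2) = Real.pi by ring, Real.cos_pi]
    congr 2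
    rw [hA]
    ring
  have e2 : DT.el ρ 0 = Real.log B / 2 := by
    unfold DT.el
    rw [mul_zero, Real.cos_zero]
    congr 2
    rw [hB]
    ring
  have e3 : 4 * (DT.el ρ (1 / 2) - DT.el ρ 0) = 2 * Real.log (A / B) := by
    rw [e1, e2, Real.log_div hA0.ne' hB0.ne']
    ring
  rw [e3, two_mul, Real.exp_add, Real.exp_log (by positivity), ← pow_two]
  -- bounds for `A` and `B`
  have hA1 : A ≤ 2 * Real.cosh (4 * Real.pi) + 2 := by
    have : Real.cosh (2 * Real.pi * ρ) ≤ Real.cosh (4 * Real.pi) := by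
      rw [Real.cosh_le_cosh, abs_of_pos (by positivity), abs_of_pos (by positivity)]
      nlinarith only [h2, hpi]
    linarith only [this]
  have hB1 : 1 / (n : ℝ) ^ 2 ≤ B := by
    have h3 : Real.cosh (2 * Real.pi * ρ) = 1 + 2 * Real.sinh (Real.pi * ρ) ^ 2 := by
      rw [mul_assoc, Real.cosh_two_mul, Real.cosh_sq]
      ring
    have h4 : Real.pi * ρ ≤ Real.sinh (Real.pi * ρ) :=
      Real.self_le_sinh_iff.mpr (by positivity)
    have h5 : ρ ≤ Real.pi * ρ := by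
      have := Real.pi_gt_three
      nlinarith only [hρ, this]
    have h6 : 1 / (n : ℝ) ≤ Real.sinh (Real.pi * ρ) := by linarith only [h1, h4, h5]
    have h7 : (1 / (n : ℝ)) ^ 2 ≤ Real.sinh (Real.pi * ρ) ^ 2 :=
      pow_le_pow_left₀ (by positivity) h6 2
    rw [hB, h3]
    rw [div_pow, one_pow] at h7
    have := sq_nonneg (Real.sinh (Real.pi * ρ))
    linarith only [hc, h3, h7]
  refine pow_le_pow_left₀ (by positivity) ?_ 2
  rw [div_le_iff₀ hB0]
  have h8 : 1 ≤ (n : ℝ) ^ 2 * B := by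
    rw [div_le_iff₀ (by positivity)] at hB1
    linarith only [hB1]
  calc A ≤ 2 * Real.cosh (4 * Real.pi) + 2 := hA1
    _ = (2 * Real.cosh (4 * Real.pi) + 2) * 1 := by ring
    _ ≤ (2 * Real.cosh (4 * Real.pi) + 2) * ((n : ℝ) ^ 2 * B) := by gcongr
    _ = _ := by ring

/-- midpoint sums of `el ρ`, `1/n ≤ ρ` -/
theorem exp_sum_el {ρ : ℝ} {n : ℕ} (hn : 0 < n) (h1 : 1 / (n : ℝ) ≤ ρ) (h2 : ρ ≤ 2) {s : ℝ}
    (hs0 : 0 ≤ s) (hs1 : s ≤ 1) {y : ℕ} (hy : y ≤ n) :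
    Real.exp (∑ l ∈ range y, DT.el ρ (s + ((l : ℝ) + 1 / 2) / n)) ≤
      ((2 * Real.cosh (4 * Real.pi) + 2) * (n : ℝ) ^ 2) ^ 2 *
        Real.exp (n * (DT.Lr ρ (s + (y : ℝ) / n) - DT.Lr ρ s)) := by
  have hn' : (0 : ℝ) < n := by exact_mod_cast hn
  have hρ : 0 < ρ := lt_of_lt_of_le (by positivity) h1
  have h3 := mid_sum_var (Φ := fun x => DT.Lr ρ x) (φ := fun v => DT.el ρ v)
    (φ' := fun v => Real.pi * DT.rr ρ v) (fun v => DT.hasDerivAt_Lr hρ)
    (fun v => DT.hasDerivAt_el hρ) (continuous_rr hρ) hn s y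
  have hyn : (y : ℝ) / n ≤ 1 := by
    rw [div_le_one hn']
    exact_mod_cast hy
  have hy0 : 0 ≤ (y : ℝ) / n := by positivity
  have h4 : ∫ v in s..(s + (y : ℝ) / n), |Real.pi * DT.rr ρ v| ≤
      4 * (DT.el ρ (1 / 2) - DT.el ρ 0) := by
    rw [← var_el hρ]
    exact intervalIntegral.integral_mono_interval hs0 (by linarith only [hy0]) (by linarith only [hs1, hyn])
      (Filter.Eventually.of_forall fun v => abs_nonneg _)
      ((continuous_rr hρ).abs.intervalIntegrable 0 2)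
  have h5 := exp_var hn h1 h2
  calc Real.exp (∑ l ∈ range y, DT.el ρ (s + ((l : ℝ) + 1 / 2) / n)) ≤
        Real.exp (4 * (DT.el ρ (1 / 2) - DT.el ρ 0) +
          n * (DT.Lr ρ (s + (y : ℝ) / n) - DT.Lr ρ s)) := by
        apply Real.exp_le_exp.2
        linarith only [h3, h4]
    _ = Real.exp (4 * (DT.el ρ (1 / 2) - DT.el ρ 0)) *
          Real.exp (n * (DT.Lr ρ (s + (y : ℝ) / n) - DT.Lr ρ s)) := Real.exp_add _ _
    _ ≤ _ := by gcongr

/-- upper bound for the product, uniform down to the real axis (sum of a unimodal function: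
`el ρ` increases on `[0, 1/2]` and decreases on `[1/2, 1]`; cells next to the singularity cost
`log n + C`) -/
theorem PP_abs : ∃ C : ℝ, ∃ K : ℕ, 0 ≤ C ∧ ∀ n y : ℕ, 1 ≤ n → y ≤ n → ∀ ζ : ℂ, 0 ≤ ζ.im → ζ.im ≤ 1 →
    |ζ.re| ≤ 1 / 2 → ‖PP n y ζ‖ ≤ C * (n : ℝ) ^ K *
      Real.exp (n * (DT.Lr ζ.im ((y : ℝ) / n + 1 / 2 + ζ.re) +
        DT.Lr ζ.im ((y : ℝ) / n + 1 / 2 - ζ.re) - Real.pi * ζ.im)) := by
  have hpi := Real.pi_pos
  refine ⟨(2 * Real.cosh (4 * Real.pi) + 2) ^ 4 * Real.exp (2 * Real.pi), 8, by positivity, ?_⟩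
  intro n y hn hy ζ h0 h1 hσ
  have hn' : (0 : ℝ) < n := by exact_mod_cast hn
  have hn1 : (1 : ℝ) ≤ n := by exact_mod_cast hn
  have h1n : 1 / (n : ℝ) ≤ 1 := by
    rw [div_le_one hn']
    exact hn1
  have h1n0 : 0 < 1 / (n : ℝ) := by positivity
  set σ := ζ.re
  set ρ := ζ.im with hρ
  set ρ' := ρ + 1 / (n : ℝ) with hρ'
  have hρ'0 : 0 < ρ' := by linarith only [h1n0, h0]
  obtain ⟨s0, s1⟩ := abs_le.mp hσ
  have hyn : (y : ℝ) / n ≤ 1 := by
    rw [div_le_one hn']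
    exact_mod_cast hy
  -- the product at height `ρ'`
  have h2 : ‖PP n y ζ‖ ≤ Real.exp (∑ l ∈ range y, DT.el ρ' ((1 / 2 + σ) + ((l : ℝ) + 1 / 2) / n)) *
      Real.exp (∑ l ∈ range y, DT.el ρ' ((1 / 2 - σ) + ((l : ℝ) + 1 / 2) / n)) := by
    unfold PP
    rw [norm_prod, Real.exp_sum, Real.exp_sum, ← Finset.prod_mul_distrib]
    apply prod_le_prod (fun _ _ => norm_nonneg _)
    intro l _
    have := factor_le hρ'0 (((l : ℝ) + 1 / 2) / n) (ζ := ζ) (by
      rw [abs_of_nonneg h0, hρ']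
      linarith only [h1n0])
    rw [show 2 * Real.pi * (((l : ℝ) + 1 / 2) / n) = 2 * Real.pi * ((l : ℝ) + 1 / 2) / n by
      ring, Real.exp_add, show ((l : ℝ) + 1 / 2) / n + 1 / 2 + ζ.re =
        (1 / 2 + σ) + ((l : ℝ) + 1 / 2) / n by ring, show ((l : ℝ) + 1 / 2) / n + 1 / 2 - ζ.re =
        (1 / 2 - σ) + ((l : ℝ) + 1 / 2) / n by ring] at this
    exact this
  have h3 := exp_sum_el (ρ := ρ') hn (by linarith only [h0]) (by linarith only [h1n, h1]) (s := 1 / 2 + σ) (by linarith only [s0])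
    (by linarith only [s1]) hy
  have h4 := exp_sum_el (ρ := ρ') hn (by linarith only [h0]) (by linarith only [h1n, h1]) (s := 1 / 2 - σ) (by linarith only [s1])
    (by linarith only [s0]) hy
  have h5 := DT.Lr_half_add hρ'0.le σ
  have h6 := Rr_height_one (σ := σ) h0 (show ρ ≤ ρ' by linarith only [h1n0]) hyn
  unfold Rr at h6
  have e6 : (n : ℝ) * (2 * Real.pi * (ρ' - ρ)) = 2 * Real.pi := by
    rw [hρ']
    field_simp
    ring
  have h7 := mul_le_mul_of_nonneg_left h6 hn'.le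
  calc ‖PP n y ζ‖ ≤ _ := h2
    _ ≤ (((2 * Real.cosh (4 * Real.pi) + 2) * (n : ℝ) ^ 2) ^ 2 *
        Real.exp (n * (DT.Lr ρ' ((1 / 2 + σ) + (y : ℝ) / n) - DT.Lr ρ' (1 / 2 + σ)))) *
        (((2 * Real.cosh (4 * Real.pi) + 2) * (n : ℝ) ^ 2) ^ 2 *
        Real.exp (n * (DT.Lr ρ' ((1 / 2 - σ) + (y : ℝ) / n) - DT.Lr ρ' (1 / 2 - σ)))) := by
        gcongr
    _ = (2 * Real.cosh (4 * Real.pi) + 2) ^ 4 * (n : ℝ) ^ 8 *
        Real.exp (n * (DT.Lr ρ' ((1 / 2 + σ) + (y : ℝ) / n) - DT.Lr ρ' (1 / 2 + σ)) +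
        n * (DT.Lr ρ' ((1 / 2 - σ) + (y : ℝ) / n) - DT.Lr ρ' (1 / 2 - σ))) := by
        rw [Real.exp_add]
        ring
    _ ≤ (2 * Real.cosh (4 * Real.pi) + 2) ^ 4 * (n : ℝ) ^ 8 *
        Real.exp (2 * Real.pi + n * (DT.Lr ρ ((y : ℝ) / n + 1 / 2 + σ) +
          DT.Lr ρ ((y : ℝ) / n + 1 / 2 - σ) - Real.pi * ρ)) := by
        refine mul_le_mul_of_nonneg_left (Real.exp_le_exp.2 ?_) (by positivity)
        rw [show (1 / 2 + σ) + (y : ℝ) / n = (y : ℝ) / n + 1 / 2 + σ by ring,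
          show (1 / 2 - σ) + (y : ℝ) / n = (y : ℝ) / n + 1 / 2 - σ by ring]
        have h8 : (n : ℝ) * (DT.Lr ρ' (1 / 2 + σ) + DT.Lr ρ' (1 / 2 - σ)) = n * (Real.pi * ρ') := by
          rw [h5]
        linarith only [e6, h7, h8]
    _ = _ := by
        rw [Real.exp_add]
        ring

theorem term_abs : ∃ C : ℝ, ∃ K : ℕ, 0 ≤ C ∧ ∀ n y : ℕ, 1 ≤ n → y < n → ∀ ζ ζ' : ℂ, 0 ≤ ζ.im →
    ζ.im ≤ 1 → |ζ.re| ≤ 1 / 2 → 0 ≤ ζ'.im → ζ'.im ≤ 1 → |ζ'.re| ≤ 1 / 2 →
    ‖term n y ζ ζ'‖ ≤ C * (n : ℝ) ^ K *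
      Real.exp (n * (Rr ζ.im ((y : ℝ) / n) ζ.re + Rr ζ'.im ((y : ℝ) / n) ζ'.re)) := by
  obtain ⟨C, K, hC, hP⟩ := PP_abs
  obtain ⟨D, hD, hF⟩ := fS_lower
  refine ⟨C ^ 2 * D ^ 4, 2 * K + 4, by positivity, ?_⟩
  intro n y hn hy ζ ζ' h1 h2 h3 h1' h2' h3'
  have hn0 : (0 : ℝ) < n := by exact_mod_cast hn
  have p1 := hP n y hn hy.le ζ h1 h2 h3
  have p2 := hP n y hn hy.le ζ' h1' h2' h3'
  have hf := fS_pos hy
  have f1 := hF n y hy
  have f2 : 1 / fS n y ^ 4 ≤ (D * n) ^ 4 * Real.exp (n * (-4 * DT.Lr 0 ((y : ℝ) / n))) := by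
    have g1 : Real.exp (n * DT.Lr 0 ((y : ℝ) / n)) ^ 4 ≤ (D * n * fS n y) ^ 4 :=
      pow_le_pow_left₀ (Real.exp_pos _).le f1 4
    have g2 : Real.exp (n * (-4 * DT.Lr 0 ((y : ℝ) / n))) =
        (Real.exp (n * DT.Lr 0 ((y : ℝ) / n)) ^ 4)⁻¹ := by
      rw [← Real.exp_nat_mul, ← Real.exp_neg]
      congr 1
      push_cast
      ring
    rw [g2, div_le_iff₀ (by positivity), ← div_eq_mul_inv, div_mul_eq_mul_div,
      le_div_iff₀ (by positivity), one_mul]
    calc _ ≤ (D * n * fS n y) ^ 4 := g1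
      _ = (D * n) ^ 4 * fS n y ^ 4 := by ring
  have e1 : ‖term n y ζ ζ'‖ = ‖PP n y ζ‖ * ‖PP n y ζ'‖ * (1 / fS n y ^ 4) := by
    unfold term
    rw [norm_div, norm_mul, Complex.norm_real, Real.norm_of_nonneg (by positivity)]
    ring
  rw [e1]
  have q0 : 0 ≤ C * (n : ℝ) ^ K * Real.exp (n * (DT.Lr ζ.im ((y : ℝ) / n + 1 / 2 + ζ.re) +
        DT.Lr ζ.im ((y : ℝ) / n + 1 / 2 - ζ.re) - Real.pi * ζ.im)) := by positivity
  have q1 := mul_le_mul p1 p2 (norm_nonneg _) q0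
  refine (mul_le_mul q1 f2 (by positivity) (by positivity)).trans (le_of_eq ?_)
  unfold Rr
  have e2 : ∀ a b c : ℝ, Real.exp (n * a) * Real.exp (n * b) * Real.exp (n * c) =
      Real.exp (n * (a + b + c)) := by
    intro a b c
    rw [← Real.exp_add, ← Real.exp_add]
    congr 1
    ring
  set A := DT.Lr ζ.im ((y : ℝ) / n + 1 / 2 + ζ.re) + DT.Lr ζ.im ((y : ℝ) / n + 1 / 2 - ζ.re) with hA
  set B := DT.Lr ζ'.im ((y : ℝ) / n + 1 / 2 + ζ'.re) +
    DT.Lr ζ'.im ((y : ℝ) / n + 1 / 2 - ζ'.re) with hB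
  have e3 := e2 (A - Real.pi * ζ.im) (B - Real.pi * ζ'.im) (-4 * DT.Lr 0 ((y : ℝ) / n))
  have e4 : (A - Real.pi * ζ.im) + (B - Real.pi * ζ'.im) + (-4 * DT.Lr 0 ((y : ℝ) / n)) =
      -2 * DT.Lr 0 ((y : ℝ) / n) + A - Real.pi * ζ.im +
        (-2 * DT.Lr 0 ((y : ℝ) / n) + B - Real.pi * ζ'.im) := by ring
  rw [e4] at e3
  rw [← e3]
  ring

/-- absolute values of all terms -/
theorem SS_abs : ∃ C : ℝ, ∃ K : ℕ, 0 ≤ C ∧ ∀ n : ℕ, 1 ≤ n → ∀ ζ ζ' : ℂ, 0 ≤ ζ.im →
    ζ.im ≤ 1 → |ζ.re| ≤ 1 / 2 → 0 ≤ ζ'.im → ζ'.im ≤ 1 → |ζ'.re| ≤ 1 / 2 → ∀ β : ℝ,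
    (∀ x : ℝ, 0 ≤ x → x ≤ 1 → Rr ζ.im x ζ.re + Rr ζ'.im x ζ'.re ≤ β) →
    ‖SS n ζ ζ'‖ ≤ C * (n : ℝ) ^ K * Real.exp (n * β) := by
  obtain ⟨C, K, hC, hT⟩ := term_abs
  refine ⟨C, K + 1, hC, ?_⟩
  intro n hn ζ ζ' h1 h2 h3 h1' h2' h3' β hβ
  have hn0 : (0 : ℝ) < n := by exact_mod_cast hn
  unfold SS
  refine (norm_sum_le _ _).trans ?_
  have h4 : ∀ y ∈ range n, ‖term n y ζ ζ'‖ ≤ C * (n : ℝ) ^ K * Real.exp (n * β) := by
    intro y hy
    rw [mem_range] at hy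
    have hy' : (y : ℝ) ≤ n := by exact_mod_cast hy.le
    refine (hT n y hn hy ζ ζ' h1 h2 h3 h1' h2' h3').trans ?_
    apply mul_le_mul_of_nonneg_left _ (by positivity)
    apply Real.exp_le_exp.2
    exact mul_le_mul_of_nonneg_left (hβ _ (by positivity) ((div_le_one hn0).2 hy')) hn0.le
  refine (Finset.sum_le_card_nsmul _ _ _ h4).trans (le_of_eq ?_)
  rw [card_range, nsmul_eq_mul]
  ring

end Pool.Agent.Work.MP_b30479_gtS.LT

end

section

/-!
# Explicit version: one ring at a time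

A ring is a pair (turning point, neighbouring twist region).  `Rr ρ x σ` (XReal) is the exponent of
`|PP n y ζ| / f(y)²` at `x = y/n`, `ζ = σ ± iρ`, for all real `x`, `σ` and `ρ ≥ 0`.
-/

namespace Pool.Agent.Work.MP_b30479_gtS.LT

open Finset VOL AX MeasureTheory

/-- half of `ts` -/
noncomputable def rs : ℝ := -4 * (Fh (1 / 4)).re

/-- the holomorphic ring function: `tp w ζ ζ' = rc w ζ + rc w ζ'` -/
noncomputable def rc (w ζ : ℂ) : ℂ := Fh (w + 1 / 2 + ζ) + Fh (w + 1 / 2 - ζ) - 2 * Fh w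

/-- its derivative with respect to `w`; the derivative with respect to `ζ` is `tz w ζ` -/
noncomputable def rcw (w ζ : ℂ) : ℂ := ph (w + 1 / 2 + ζ) + ph (w + 1 / 2 - ζ) - 2 * ph w

/-- Local data of a ring at a critical point; `lam = 1/2` for a ring of an interior twist region,
`lam = 1` for a ring of the first or last one (so the weight of each twist region is distributed
over its rings). -/
structure Loc (lam : ℝ) (b : ℤ) (w ζ : ℂ) : Prop where
  hb : 50 ≤ |(b : ℝ)|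
  w1 : |w.re - 1 / 4| ≤ 1 / 500
  w2 : |w.im| ≤ 1 / 5000
  z1 : |ζ.re| ≤ 21 / 1000
  z2 : 0 < ζ.im
  z3 : ζ.im ≤ 21 / 25000
  lam0 : 0 ≤ lam
  z4 : lam * ζ.im * |(b : ℝ)| ≤ 21 / 1000
  z5 : lam * ζ.im ≤ 21 / 50000
  gw : |(rcw w ζ).re| ≤ 1 / 100
  gz : |(tz w ζ).re - 2 * Real.pi * lam * ζ.im * b| ≤ 1 / 500

/-- the share of the weight exponent -/
noncomputable def wt (lam : ℝ) (b : ℤ) (ρ σ : ℝ) : ℝ := -(2 * Real.pi * lam * ρ * (1 + b * σ))

/-- the tangent plane of the ring exponent at the critical point -/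
noncomputable def TP (lam : ℝ) (b : ℤ) (w ζ : ℂ) (x σ : ℝ) : ℝ :=
  (rc w ζ).re + wt lam b ζ.im ζ.re + (rcw w ζ).re * (x - w.re) +
    ((tz w ζ).re - 2 * Real.pi * lam * ζ.im * b) * (σ - ζ.re)

end Pool.Agent.Work.MP_b30479_gtS.LT

end

section

/-!
# Dependence of the ring exponent on the heights
-/

namespace Pool.Agent.Work.MP_b30479_gtS.LT

open Finset VOL AX MeasureTheory

/-- `0 ≤ el ρ v - el 0 v`, whose integral over a period is `π ρ`; both intervals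
`[1/2 ± σ, 1/2 ± σ + x]` have length at most `1` -/
theorem rl_height {x σ ρ : ℝ} (_h0 : 0 ≤ x) (h1 : x ≤ 1) (hρ : 0 ≤ ρ) :
    Rr ρ x σ ≤ Rr 0 x σ + 2 * Real.pi * ρ := by
  have h := Rr_height_one (σ := σ) le_rfl hρ h1
  rwa [sub_zero] at h

/-! ### real heights -/

theorem Fh_re_height {x ρ : ℝ} (h0 : 0 < x) (h1 : x < 1) (hρ : 0 ≤ ρ) :
    (Fh (x + ρ * Complex.I)).re = DT.Lr ρ x - Real.pi * ρ / 2 := by
  have hd : ∀ t ∈ Set.Ioo (0 : ℝ) 1,
      HasDerivAt (fun t : ℝ => VC.phr (t + ρ * Complex.I) + DT.Lr ρ t) 0 t := by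
    intro t ht
    have d1 := VC.hasDerivAt_phr_re ht.1 ht.2 ρ
    have d2 : HasDerivAt (fun t : ℝ => DT.Lr ρ t) (DT.el ρ t) t := by
      rcases hρ.eq_or_lt with h | h
      · rw [← h]
        exact DT.hasDerivAt_Lr_zero (sin_pi_pos ht.1 ht.2).ne'
      · exact DT.hasDerivAt_Lr h
    refine (d1.add d2).congr_deriv ?_
    rw [DT.el_eq]
    ring
  have hc : ∀ t ∈ Set.Ioo (0 : ℝ) 1,
      VC.phr (t + ρ * Complex.I) + DT.Lr ρ t =
        VC.phr (((1 / 2 : ℝ) : ℂ) + ρ * Complex.I) + DT.Lr ρ (1 / 2) := by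
    intro t ht
    exact (isOpen_Ioo (a := (0 : ℝ)) (b := 1)).is_const_of_deriv_eq_zero isPreconnected_Ioo
      (f := fun t : ℝ => VC.phr (t + ρ * Complex.I) + DT.Lr ρ t)
      (fun s hs => (hd s hs).differentiableAt.differentiableWithinAt)
      (fun s hs => (hd s hs).deriv) ht ⟨by norm_num, by norm_num⟩
  have h2 := hc x ⟨h0, h1⟩
  have e : (((1 / 2 : ℝ)) : ℂ) = 1 / 2 := by push_cast; ring
  rw [e, VC.phr_half_im, DT.Lr_half hρ] at h2
  have h3 : (Fh (x + ρ * Complex.I)).re = -VC.phr (x + ρ * Complex.I) := by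
    unfold VC.phr
    ring
  rw [h3]
  linarith only [h2]

theorem Fh_re_height' {x ρ : ℝ} (h0 : 0 < x) (h1 : x < 1) (hρ : 0 ≤ ρ) :
    (Fh (x + ((-ρ : ℝ) : ℂ) * Complex.I)).re = DT.Lr ρ x - Real.pi * ρ / 2 := by
  have h := VC.phr_neg_im h0 h1 ρ
  unfold VC.phr at h
  rw [← Fh_re_height h0 h1 hρ]
  linarith only [h]

/-- the ring function in terms of `phr` -/
theorem rc_re_eq (x σ τ ρ : ℝ) :
    (rc (x + τ * Complex.I) (σ + ρ * Complex.I)).re =
      (Fh (((x + 1 / 2 + σ : ℝ) : ℂ) + ((τ + ρ : ℝ) : ℂ) * Complex.I)).re +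
      (Fh (((x + 1 / 2 - σ : ℝ) : ℂ) + ((τ - ρ : ℝ) : ℂ) * Complex.I)).re -
      2 * (Fh (x + τ * Complex.I)).re := by
  unfold rc
  have e1 : (x : ℂ) + τ * Complex.I + 1 / 2 + (σ + ρ * Complex.I) =
      ((x + 1 / 2 + σ : ℝ) : ℂ) + ((τ + ρ : ℝ) : ℂ) * Complex.I := by
    push_cast; ring
  have e2 : (x : ℂ) + τ * Complex.I + 1 / 2 - (σ + ρ * Complex.I) =
      ((x + 1 / 2 - σ : ℝ) : ℂ) + ((τ - ρ : ℝ) : ℂ) * Complex.I := by
    push_cast; ring
  rw [e1, e2, Complex.sub_re, Complex.add_re]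
  simp

/-- the ring function at a real hinge variable -/
theorem rc_real {x σ ρ : ℝ} (h0 : 0 < x) (h1 : x + |σ| < 1 / 2) (hρ : 0 ≤ ρ) :
    (rc x (σ + ρ * Complex.I)).re = Rr ρ x σ := by
  have h2 := abs_lt.mp (show |σ| < 1 / 2 - x by linarith only [h1])
  have e := rc_re_eq x σ 0 ρ
  have e0 : (x : ℂ) + ((0 : ℝ) : ℂ) * Complex.I = x := by simp
  rw [e0, zero_add, zero_sub, Fh_re_height (by linarith only [h0, h2, h2.1]) (by linarith only [h2, h2.2]) hρ,
    Fh_re_height' (by linarith only [h0, h2, h2.2]) (by linarith only [h2, h2.1]) hρ,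
    Fh_ofReal h0 (by linarith only [h0, h2, abs_nonneg σ]), Complex.ofReal_re] at e
  rw [e]
  unfold Rr
  ring

theorem phr_refl {x : ℝ} (y : ℝ) :
    (Fh (((1 / 2 + x : ℝ) : ℂ) + (y : ℂ) * Complex.I)).re =
      VC.phr (((1 / 2 - x : ℝ) : ℂ) + ((-y : ℝ) : ℂ) * Complex.I) := by
  have h := VC.phr_one_sub (((1 / 2 + x : ℝ) : ℂ) + (y : ℂ) * Complex.I)
  have e : 1 - (((1 / 2 + x : ℝ) : ℂ) + (y : ℂ) * Complex.I) =
      ((1 / 2 - x : ℝ) : ℂ) + ((-y : ℝ) : ℂ) * Complex.I := by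
    push_cast; ring
  rw [e] at h
  rw [h]
  unfold VC.phr
  ring

theorem phr_ge_real {x : ℝ} (h0 : 0 < x) (h1 : x ≤ 1 / 2) (y : ℝ) :
    VC.phr x ≤ VC.phr (x + y * Complex.I) := by
  have key : ∀ y : ℝ, 0 ≤ y → VC.phr x ≤ VC.phr (x + y * Complex.I) := by
    intro y hy
    have h := VC.phr_mono h0 h1 le_rfl hy
    simpa using h
  rcases le_total 0 y with hy | hy
  · exact key y hy
  · have h := key (-y) (by linarith only [hy])
    rwa [VC.phr_neg_im h0 (by linarith only [h0, h1]) y] at h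

/-- all real parts are in `(0, 1/2)` after reflection: `VC.phr_mono` -/
theorem rc_ge {x σ τ ρ : ℝ} (h0 : 0 < x) (h1 : x + |σ| < 1 / 2) (h2 : |σ| ≤ x) :
    Rr 0 x σ ≤ (rc (x + τ * Complex.I) (σ + ρ * Complex.I)).re := by
  have h3 := abs_lt.mp (show |σ| < 1 / 2 - x by linarith only [h1])
  have h4 := abs_le.mp h2
  have e := rc_re_eq x σ τ ρ
  have e0 := rc_re_eq x σ 0 0
  have z : ∀ z : ℂ, z + ((0 : ℝ) : ℂ) * Complex.I = z := by intro z; simp
  rw [z, z, add_zero, sub_zero, z, z] at e0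
  have e2 := rc_real (x := x) (σ := σ) (ρ := 0) h0 h1 le_rfl
  rw [z] at e2
  rw [e2] at e0
  have r1 : ∀ y : ℝ, (Fh ((x + 1 / 2 + σ : ℝ) : ℂ)).re ≤
      (Fh (((x + 1 / 2 + σ : ℝ) : ℂ) + (y : ℂ) * Complex.I)).re := by
    intro y
    have g1 := phr_refl (x := x + σ) y
    have g2 := phr_refl (x := x + σ) 0
    rw [z] at g2
    rw [neg_zero, z] at g2
    have g3 := phr_ge_real (x := 1 / 2 - (x + σ)) (by linarith only [h3, h3.2]) (by linarith only [h4, h4.1]) (-y)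
    rw [show x + 1 / 2 + σ = 1 / 2 + (x + σ) by ring, g1, g2]
    exact g3
  have r2 : ∀ y : ℝ, (Fh ((x + 1 / 2 - σ : ℝ) : ℂ)).re ≤
      (Fh (((x + 1 / 2 - σ : ℝ) : ℂ) + (y : ℂ) * Complex.I)).re := by
    intro y
    have g1 := phr_refl (x := x - σ) y
    have g2 := phr_refl (x := x - σ) 0
    rw [z] at g2
    rw [neg_zero, z] at g2
    have g3 := phr_ge_real (x := 1 / 2 - (x - σ)) (by linarith only [h3, h3.1]) (by linarith only [h4, h4.2]) (-y)
    rw [show x + 1 / 2 - σ = 1 / 2 + (x - σ) by ring, g1, g2]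
    exact g3
  have r3 : (Fh (x + τ * Complex.I)).re ≤ (Fh x).re := by
    have g := phr_ge_real (x := x) h0 (by linarith only [h3, abs_nonneg σ]) τ
    unfold VC.phr at g
    linarith only [g]
  rw [e, e0]
  have := r1 (τ + ρ)
  have := r2 (τ - ρ)
  linarith

/-! ### upper bound -/

theorem cot_bd {a δ : ℝ} (hδ : 0 < δ) (h0 : δ ≤ a) (h1 : a ≤ 1 - δ) :
    |Real.cos (Real.pi * a) / Real.sin (Real.pi * a)| ≤ 1 / (Real.pi * δ) := by
  have hpi := Real.pi_pos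
  have key : ∀ c : ℝ, δ ≤ c → c ≤ 1 / 2 →
      |Real.cos (Real.pi * c) / Real.sin (Real.pi * c)| ≤ 1 / (Real.pi * δ) := by
    intro c hc hc2
    have hc0 : 0 < c := by linarith only [hδ, hc]
    have hs := sin_pi_pos hc0 (by linarith only [hδ, h0, h1, hc2])
    have hcos : 0 ≤ Real.cos (Real.pi * c) := Real.cos_nonneg_of_neg_pi_div_two_le_of_le
      (by nlinarith only [hδ, hpi, h0, h1, hc]) (by nlinarith only [hδ, h0, h1, hpi, hc2])
    rw [abs_of_nonneg (div_nonneg hcos hs.le), div_le_div_iff₀ hs (by positivity), one_mul]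
    have h3 : Real.pi * c * Real.cos (Real.pi * c) ≤ Real.sin (Real.pi * c) := by
      rcases hcos.eq_or_lt with h | h
      · rw [← h, mul_zero]
        exact hs.le
      · have hlt : Real.pi * c < Real.pi / 2 := by
          rcases hc2.eq_or_lt with h5 | h5
          · exfalso
            rw [h5, show Real.pi * (1 / 2) = Real.pi / 2 by ring, Real.cos_pi_div_two] at h
            exact lt_irrefl _ h
          · nlinarith only [hpi, h5]
        have h4 := Real.le_tan (x := Real.pi * c) (by positivity) hlt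
        rw [Real.tan_eq_sin_div_cos, le_div_iff₀ h] at h4
        exact h4
    calc Real.cos (Real.pi * c) * (Real.pi * δ) ≤ Real.cos (Real.pi * c) * (Real.pi * c) := by
          apply mul_le_mul_of_nonneg_left _ hcos
          exact mul_le_mul_of_nonneg_left hc hpi.le
      _ = Real.pi * c * Real.cos (Real.pi * c) := by ring
      _ ≤ _ := h3
  rcases le_total a (1 / 2) with h | h
  · exact key a h0 h
  · have h2 := key (1 - a) (by linarith only [h1]) (by linarith only [h])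
    rw [show Real.pi * (1 - a) = Real.pi - Real.pi * a by ring, Real.cos_pi_sub, Real.sin_pi_sub,
      neg_div, abs_neg] at h2
    exact h2

theorem Fh_im_bd {x δ : ℝ} (hδ : 0 < δ) (h0 : δ ≤ x) (h1 : x ≤ 1 - δ) (y : ℝ) :
    |(Fh (x + y * Complex.I)).re - (Fh x).re| ≤ y ^ 2 / (2 * δ) := by
  have hpi := Real.pi_pos
  have h := VC.abs_phr_sub_real_le (x := x) (by linarith only [hδ, h0]) (by linarith only [hδ, h1]) y
  have h2 := cot_bd hδ h0 h1
  unfold VC.phr at h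
  rw [show -(Fh (x + y * Complex.I)).re - -(Fh x).re =
    -((Fh (x + y * Complex.I)).re - (Fh x).re) by ring, abs_neg] at h
  refine h.trans ?_
  calc _ ≤ 1 / (Real.pi * δ) * (Real.pi * y ^ 2 / 2) :=
        mul_le_mul_of_nonneg_right h2 (by positivity)
    _ = y ^ 2 / (2 * δ) := by
        field_simp

/-- `VC.abs_phr_sub_real_le` and `cot u ≤ 1/u`: `(π/2)(4.28 τ² + 13.27 ((τ+ρ)² + (τ-ρ)²))` -/
theorem rc_le {x σ τ ρ : ℝ} (hx : |x - 1 / 4| ≤ 101 / 1000) (hσ : |σ| ≤ 1 / 8) :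
    (rc (x + τ * Complex.I) (σ + ρ * Complex.I)).re ≤ Rr 0 x σ + 50 * (τ ^ 2 + ρ ^ 2) := by
  have h1 := abs_le.mp hx
  have h2 := abs_le.mp hσ
  have e := rc_re_eq x σ τ ρ
  have e0 := rc_re_eq x σ 0 0
  have z : ∀ z : ℂ, z + ((0 : ℝ) : ℂ) * Complex.I = z := by intro z; simp
  rw [z, z, add_zero, sub_zero, z, z] at e0
  have e2 := rc_real (x := x) (σ := σ) (ρ := 0) (by linarith only [h1, h1.1])
    (by linarith only [hσ, h1, h1.2]) le_rfl
  rw [z] at e2
  rw [e2] at e0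
  have r1 := (abs_le.mp (Fh_im_bd (x := x + 1 / 2 + σ) (δ := 24 / 1000) (by norm_num)
    (by linarith only [h1, h2, h1.1, h2.1]) (by linarith only [h1, h2, h1.2, h2.2]) (τ + ρ))).2
  have r2 := (abs_le.mp (Fh_im_bd (x := x + 1 / 2 - σ) (δ := 24 / 1000) (by norm_num)
    (by linarith only [h1, h2, h1.1, h2.2]) (by linarith only [h1, h2, h1.2, h2.1]) (τ - ρ))).2
  have r3 := (abs_le.mp (Fh_im_bd (x := x) (δ := 149 / 1000) (by norm_num)
    (by linarith only [h1, h1.1]) (by linarith only [h1, h1.2]) τ)).1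
  rw [e, e0]
  norm_num at r1 r2 r3 ⊢
  nlinarith only [r1, r2, r3, sq_nonneg τ, sq_nonneg ρ]

/-! ### strict concavity -/

theorem ph'_re {z : ℂ} (hz : z ∈ strip) : (ph' z).re =
    Real.pi * (Real.sin (Real.pi * z.re) * Real.cos (Real.pi * z.re)) /
      (Real.sin (Real.pi * z.re) ^ 2 + Real.sinh (Real.pi * z.im) ^ 2) := by
  have hs := sin_pi_pos hz.1 hz.2
  have hn : Complex.normSq (Complex.sin (Real.pi * z)) =
      Real.sin (Real.pi * z.re) ^ 2 + Real.sinh (Real.pi * z.im) ^ 2 := by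
    rw [Complex.normSq_apply, sin_pi_re, sin_pi_im]
    have h1 := Real.cosh_sq (Real.pi * z.im)
    have h2 := Real.sin_sq_add_cos_sq (Real.pi * z.re)
    linear_combination (Real.sin (Real.pi * z.re) ^ 2) * h1 +
      (Real.sinh (Real.pi * z.im) ^ 2) * h2
  unfold ph'
  rw [Complex.div_re, hn, Complex.re_ofReal_mul, Complex.im_ofReal_mul, cos_pi_re, cos_pi_im,
    sin_pi_re, sin_pi_im, ← add_div]
  congr 1
  have h1 := Real.cosh_sq (Real.pi * z.im)
  linear_combination (Real.pi * Real.sin (Real.pi * z.re) * Real.cos (Real.pi * z.re)) * h1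

theorem sinh_sq_le {t : ℝ} (ht : |t| ≤ 1) : Real.sinh t ^ 2 ≤ 4 * t ^ 2 := by
  have h1 := VC.abs_tanh_le t
  have h2 := Real.cosh_le_exp_half_sq t
  have h3 := Real.cosh_pos t
  have h4 : t ^ 2 ≤ 1 := by
    rw [← sq_abs]
    nlinarith only [ht, abs_nonneg t]
  have h5 : Real.cosh t ≤ 2 := by
    refine h2.trans ?_
    have h6 : Real.exp (t ^ 2 / 2) ≤ Real.exp (1 / 2) := Real.exp_le_exp.mpr (by linarith only [h4])
    have h7 : Real.exp (1 / 2) ≤ 2 := by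
      have h8 := Real.exp_one_lt_d9
      have h9 : Real.exp (1 / 2) ^ 2 = Real.exp 1 := by
        rw [← Real.exp_nat_mul]
        norm_num
      nlinarith only [h8, h9, h2, h3, h6, Real.exp_pos (1 / 2)]
    linarith only [h6, h7]
  rw [abs_div, abs_of_pos h3, div_le_iff₀ h3] at h1
  have h6 : |Real.sinh t| ≤ |t| * 2 := h1.trans (mul_le_mul_of_nonneg_left h5 (abs_nonneg t))
  calc Real.sinh t ^ 2 = |Real.sinh t| ^ 2 := (sq_abs _).symm
    _ ≤ (|t| * 2) ^ 2 := pow_le_pow_left₀ (abs_nonneg _) h6 2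
    _ = 4 * t ^ 2 := by rw [mul_pow, sq_abs]; ring

theorem sin_fortieth {s : ℝ} (h0 : 1 / 40 ≤ s) (h1 : s ≤ 1 / 2) :
    78 / 1000 ≤ Real.sin (Real.pi * s) := by
  have hpi := Real.pi_gt_d2
  have hpi2 := Real.pi_lt_d2
  have h2 := Real.sin_gt_sub_cube (x := Real.pi / 40) (by positivity)
  have h3 : Real.sin (Real.pi / 40) ≤ Real.sin (Real.pi * s) :=
    Real.sin_le_sin_of_le_of_le_pi_div_two (by linarith only [hpi, hpi2]) (by nlinarith only [h1, hpi]) (by nlinarith only [h0, hpi])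
  have h4 : (Real.pi / 40) ^ 3 ≤ (3.15 / 40) ^ 3 :=
    pow_le_pow_left₀ (by positivity) (by linarith only [hpi2]) 3
  norm_num at h4
  linarith only [hpi, hpi2, h2, h3, h4]

/-- the part `w + 1/2 ± ζ` -/
theorem ph'_re_le {z : ℂ} (h0 : 1 / 40 ≤ z.re - 1 / 2) (h1 : z.re - 1 / 2 ≤ 19 / 40)
    (h2 : |z.im| ≤ 1 / 500) : (ph' z).re ≤ -(1 / 5) := by
  have hpi := Real.pi_gt_d2
  have hpi2 := Real.pi_lt_d2
  have hz : z ∈ strip := ⟨by linarith only [h0, hpi, hpi2], by linarith only [h1, hpi, hpi2]⟩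
  set s := z.re - 1 / 2 with hs
  have e1 : Real.sin (Real.pi * z.re) = Real.cos (Real.pi * s) := by
    rw [show Real.pi * z.re = Real.pi * s + Real.pi / 2 by rw [hs]; ring,
      Real.sin_add_pi_div_two]
  have e2 : Real.cos (Real.pi * z.re) = -Real.sin (Real.pi * s) := by
    rw [show Real.pi * z.re = Real.pi * s + Real.pi / 2 by rw [hs]; ring,
      Real.cos_add_pi_div_two]
  have e3 : Real.cos (Real.pi * s) = Real.sin (Real.pi * (1 / 2 - s)) := by
    rw [show Real.pi * (1 / 2 - s) = Real.pi / 2 - Real.pi * s by ring,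
      Real.sin_pi_div_two_sub]
  have hS := sin_fortieth h0 (by linarith only [hpi, hpi2, h1])
  have hC := sin_fortieth (s := 1 / 2 - s) (by linarith only [h1]) (by linarith only [hpi, hpi2, h0])
  rw [← e3] at hC
  have hC1 := Real.cos_le_one (Real.pi * s)
  have hS1 := Real.sin_le_one (Real.pi * s)
  have ht : |Real.pi * z.im| ≤ 63 / 10000 := by
    rw [abs_mul, abs_of_pos Real.pi_pos]
    nlinarith only [h2, hpi2, hpi, abs_nonneg z.im]
  have hsh := sinh_sq_le (t := Real.pi * z.im) (by linarith only [hpi, hpi2, ht])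
  have ht2 : (Real.pi * z.im) ^ 2 ≤ (63 / 10000) ^ 2 := by
    rw [← sq_abs]
    exact pow_le_pow_left₀ (abs_nonneg _) ht 2
  have hsh0 : 0 ≤ Real.sinh (Real.pi * z.im) ^ 2 := sq_nonneg _
  rw [ph'_re hz, e1, e2]
  have hden : 0 < Real.cos (Real.pi * s) ^ 2 + Real.sinh (Real.pi * z.im) ^ 2 := by
    have : 0 < Real.cos (Real.pi * s) := by linarith only [hpi, hpi2, hC]
    positivity
  rw [div_le_iff₀ hden]
  set S := Real.sin (Real.pi * s)
  set C := Real.cos (Real.pi * s)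
  have h5 : 24 / 100 * C ≤ Real.pi * (S * C) := by
    have h6 : 24 / 100 ≤ Real.pi * S := by nlinarith only [hpi2, hS, hpi]
    nlinarith only [hS, hpi, hpi2, hC, h6]
  norm_num at ht2
  nlinarith only [hsh, hC, h5, ht2, hpi, hpi2, hC1]

theorem ph'_re_nonneg {z : ℂ} (h0 : 0 < z.re) (h1 : z.re ≤ 1 / 2) : 0 ≤ (ph' z).re := by
  have hpi := Real.pi_pos
  have hz : z ∈ strip := ⟨h0, by linarith only [h0, h1]⟩
  rw [ph'_re hz]
  have hs := sin_pi_pos hz.1 hz.2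
  have hc : 0 ≤ Real.cos (Real.pi * z.re) := Real.cos_nonneg_of_neg_pi_div_two_le_of_le
    (by nlinarith only [hpi, h0]) (by nlinarith only [h1, hpi])
  positivity

theorem second_order {g g' g'' : ℝ → ℝ} {K : ℝ}
    (h1 : ∀ t ∈ Set.Icc (0 : ℝ) 1, HasDerivAt g (g' t) t)
    (h2 : ∀ t ∈ Set.Icc (0 : ℝ) 1, HasDerivAt g' (g'' t) t)
    (h3 : ∀ t ∈ Set.Icc (0 : ℝ) 1, g'' t ≤ -K) : g 1 ≤ g 0 + g' 0 - K / 2 := by
  have m0 : (0 : ℝ) ∈ Set.Icc (0 : ℝ) 1 := ⟨le_rfl, zero_le_one⟩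
  have m1 : (1 : ℝ) ∈ Set.Icc (0 : ℝ) 1 := ⟨zero_le_one, le_rfl⟩
  have s1 : AntitoneOn (fun t => g' t + K * t) (Set.Icc 0 1) := by
    apply antitoneOn_of_hasDerivWithinAt_nonpos (convex_Icc _ _) (f' := fun t => g'' t + K)
    · intro t ht
      exact ((h2 t ht).continuousAt.add (by fun_prop)).continuousWithinAt
    · intro t ht
      rw [interior_Icc] at ht
      have hd := (h2 t ⟨ht.1.le, ht.2.le⟩).add ((hasDerivAt_id t).const_mul K)
      rw [mul_one] at hd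
      exact hd.hasDerivWithinAt
    · intro t ht
      rw [interior_Icc] at ht
      have := h3 t ⟨ht.1.le, ht.2.le⟩
      linarith only [this]
  have s2 : AntitoneOn (fun t => g t - g' 0 * t + K / 2 * t ^ 2) (Set.Icc 0 1) := by
    apply antitoneOn_of_hasDerivWithinAt_nonpos (convex_Icc _ _)
      (f' := fun t => g' t - g' 0 + K * t)
    · intro t ht
      exact (((h1 t ht).continuousAt.sub (by fun_prop)).add (by fun_prop)).continuousWithinAt
    · intro t ht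
      rw [interior_Icc] at ht
      have hd := ((h1 t ⟨ht.1.le, ht.2.le⟩).sub ((hasDerivAt_id t).const_mul (g' 0))).add
        ((hasDerivAt_pow 2 t).const_mul (K / 2))
      refine (hd.congr_deriv ?_).hasDerivWithinAt
      norm_num
      ring
    · intro t ht
      rw [interior_Icc] at ht
      have h := s1 m0 (⟨ht.1.le, ht.2.le⟩ : t ∈ Set.Icc (0 : ℝ) 1) ht.1.le
      simp only [mul_zero, add_zero] at h
      linarith only [h]
  have h := s2 m0 m1 zero_le_one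
  simp only [mul_zero, sub_zero, mul_one, one_pow, ne_eq, OfNat.ofNat_ne_zero,
    not_false_eq_true, zero_pow, add_zero] at h
  linarith only [h]

theorem hasDerivAt_Fh_line {z : ℂ} {d t : ℝ} (hz : z + (t * d : ℝ) ∈ strip) :
    HasDerivAt (fun t : ℝ => Fh (z + (t * d : ℝ))) (ph (z + (t * d : ℝ)) * d) t := by
  have h2 : HasDerivAt (fun t : ℝ => z + ((t * d : ℝ) : ℂ)) (d : ℂ) t := by
    have h := ((hasDerivAt_id t).mul_const d).ofReal_comp.const_add z
    simpa using h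
  exact (hasDerivAt_Fh hz).comp t h2

theorem hasDerivAt_ph_line {z : ℂ} {d t : ℝ} (hz : z + (t * d : ℝ) ∈ strip) :
    HasDerivAt (fun t : ℝ => ph (z + (t * d : ℝ))) (ph' (z + (t * d : ℝ)) * d) t := by
  have h2 : HasDerivAt (fun t : ℝ => z + ((t * d : ℝ) : ℂ)) (d : ℂ) t := by
    have h := ((hasDerivAt_id t).mul_const d).ofReal_comp.const_add z
    simpa using h
  exact HasDerivAt.comp (h₂ := ph) t (hasDerivAt_ph hz) h2

/-- strict concavity along real displacements on the box `|x - 1/4| ≤ 1/10`, `|σ| ≤ 1/8`, at any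
heights (all of `x`, `x ± σ` are in `[1/40, 19/40]`): the second derivative along `(α, β)` is
`-π (P (α+β)² + Q (α-β)² + 2 C α²)` with `P, Q = Re tan π(w ± ζ)`, `C = Re cot π w`. For heights at
most `1/1000` one has `P, Q ≥ 7/100`. -/
theorem rc_conc {w ζ : ℂ} {a c : ℝ} (h1 : |w.re - 1 / 4| ≤ 1 / 10) (h2 : |ζ.re| ≤ 1 / 8)
    (h3 : |w.im| ≤ 1 / 1000) (h4 : |ζ.im| ≤ 1 / 1000) (h5 : |w.re + a - 1 / 4| ≤ 1 / 10)
    (h6 : |ζ.re + c| ≤ 1 / 8) :
    (rc (w + a) (ζ + c)).re ≤ (rc w ζ).re + (rcw w ζ).re * a + (tz w ζ).re * c -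
      1 / 5 * (a ^ 2 + c ^ 2) := by
  rw [abs_le] at h1 h2 h3 h4 h5 h6
  -- positions along the segment
  have p1 : ∀ t ∈ Set.Icc (0 : ℝ) 1, -(1 / 10) ≤ w.re + t * a - 1 / 4 ∧
      w.re + t * a - 1 / 4 ≤ 1 / 10 := by
    intro t ht
    constructor
    · nlinarith only [h1, ht, h5, ht.1, ht.2]
    · nlinarith only [h1, ht, h5, ht.1, ht.2]
  have p2 : ∀ t ∈ Set.Icc (0 : ℝ) 1, -(1 / 8) ≤ ζ.re + t * c ∧ ζ.re + t * c ≤ 1 / 8 := by
    intro t ht
    constructor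
    · nlinarith only [h2, ht, h6, ht.1, ht.2]
    · nlinarith only [h2, ht, h6, ht.1, ht.2]
  have reA : ∀ t : ℝ, (w + 1 / 2 + ζ + (t * (a + c) : ℝ)).re - 1 / 2 =
      (w.re + t * a) + (ζ.re + t * c) := by
    intro t
    simp
    ring
  have reB : ∀ t : ℝ, (w + 1 / 2 - ζ + (t * (a - c) : ℝ)).re - 1 / 2 =
      (w.re + t * a) - (ζ.re + t * c) := by
    intro t
    simp
    ring
  have reC : ∀ t : ℝ, (w + (t * a : ℝ)).re = w.re + t * a := by
    intro t
    simp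
  have imA : ∀ t : ℝ, (w + 1 / 2 + ζ + (t * (a + c) : ℝ)).im = w.im + ζ.im := by
    intro t
    simp
  have imB : ∀ t : ℝ, (w + 1 / 2 - ζ + (t * (a - c) : ℝ)).im = w.im - ζ.im := by
    intro t
    simp
  have qA : ∀ t ∈ Set.Icc (0 : ℝ) 1, (w + 1 / 2 + ζ + (t * (a + c) : ℝ)) ∈ strip ∧
      (ph' (w + 1 / 2 + ζ + (t * (a + c) : ℝ))).re ≤ -(1 / 5) := by
    intro t ht
    have e := reA t
    have i := imA t
    have h7 := p1 t ht
    have h8 := p2 t ht
    refine ⟨⟨by linarith only [e, h7, h8], by linarith only [e, h7, h8]⟩, ph'_re_le (by linarith only [e, h7, h8]) (by linarith only [e, h7, h8]) ?_⟩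
    rw [i, abs_le]
    constructor <;> linarith only [h3, h4]
  have qB : ∀ t ∈ Set.Icc (0 : ℝ) 1, (w + 1 / 2 - ζ + (t * (a - c) : ℝ)) ∈ strip ∧
      (ph' (w + 1 / 2 - ζ + (t * (a - c) : ℝ))).re ≤ -(1 / 5) := by
    intro t ht
    have e := reB t
    have i := imB t
    have h7 := p1 t ht
    have h8 := p2 t ht
    refine ⟨⟨by linarith only [e, h7, h8], by linarith only [e, h7, h8]⟩, ph'_re_le (by linarith only [e, h7, h8]) (by linarith only [e, h7, h8]) ?_⟩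
    rw [i, abs_le]
    constructor <;> linarith only [h3, h4]
  have qC : ∀ t ∈ Set.Icc (0 : ℝ) 1, (w + (t * a : ℝ)) ∈ strip ∧
      0 ≤ (ph' (w + (t * a : ℝ))).re := by
    intro t ht
    have e := reC t
    have h7 := p1 t ht
    refine ⟨⟨by linarith only [e, h7], by linarith only [e, h7]⟩, ph'_re_nonneg (by linarith only [e, h7]) (by linarith only [e, h7])⟩
  have main := second_order (K := 2 / 5 * (a ^ 2 + c ^ 2))
    (g := fun t => (Fh (w + 1 / 2 + ζ + (t * (a + c) : ℝ)) +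
      Fh (w + 1 / 2 - ζ + (t * (a - c) : ℝ)) - 2 * Fh (w + (t * a : ℝ))).re)
    (g' := fun t => (ph (w + 1 / 2 + ζ + (t * (a + c) : ℝ)) * ((a + c : ℝ) : ℂ) +
      ph (w + 1 / 2 - ζ + (t * (a - c) : ℝ)) * ((a - c : ℝ) : ℂ) -
      2 * (ph (w + (t * a : ℝ)) * (a : ℂ))).re)
    (g'' := fun t => (ph' (w + 1 / 2 + ζ + (t * (a + c) : ℝ)) * ((a + c : ℝ) : ℂ) *
        ((a + c : ℝ) : ℂ) +
      ph' (w + 1 / 2 - ζ + (t * (a - c) : ℝ)) * ((a - c : ℝ) : ℂ) * ((a - c : ℝ) : ℂ) -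
      2 * (ph' (w + (t * a : ℝ)) * (a : ℂ) * (a : ℂ))).re)
    (by
      intro t ht
      have d := ((hasDerivAt_Fh_line (qA t ht).1).add (hasDerivAt_Fh_line (qB t ht).1)).sub
        ((hasDerivAt_Fh_line (qC t ht).1).const_mul 2)
      exact Complex.reCLM.hasFDerivAt.comp_hasDerivAt t d)
    (by
      intro t ht
      have d := (((hasDerivAt_ph_line (qA t ht).1).mul_const ((a + c : ℝ) : ℂ)).add
        ((hasDerivAt_ph_line (qB t ht).1).mul_const ((a - c : ℝ) : ℂ))).sub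
        (((hasDerivAt_ph_line (qC t ht).1).mul_const (a : ℂ)).const_mul 2)
      exact Complex.reCLM.hasFDerivAt.comp_hasDerivAt t d)
    (by
      intro t ht
      have k1 := (qA t ht).2
      have k2 := (qB t ht).2
      have k3 := (qC t ht).2
      have e : (ph' (w + 1 / 2 + ζ + (t * (a + c) : ℝ)) * ((a + c : ℝ) : ℂ) *
          ((a + c : ℝ) : ℂ) +
          ph' (w + 1 / 2 - ζ + (t * (a - c) : ℝ)) * ((a - c : ℝ) : ℂ) * ((a - c : ℝ) : ℂ) -
          2 * (ph' (w + (t * a : ℝ)) * (a : ℂ) * (a : ℂ))).re =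
          (ph' (w + 1 / 2 + ζ + (t * (a + c) : ℝ))).re * (a + c) ^ 2 +
          (ph' (w + 1 / 2 - ζ + (t * (a - c) : ℝ))).re * (a - c) ^ 2 -
          2 * ((ph' (w + (t * a : ℝ))).re * a ^ 2) := by
        have r : ∀ (z : ℂ) (d : ℝ), (z * (d : ℂ) * (d : ℂ)).re = z.re * d ^ 2 := by
          intro z d
          rw [mul_assoc, ← Complex.ofReal_mul, Complex.re_mul_ofReal]
          ring
        have r2 : ∀ z : ℂ, (2 * z).re = 2 * z.re := by
          intro z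
          simp
        rw [Complex.sub_re, Complex.add_re, r, r, r2, r]
      rw [e]
      nlinarith only [k3, k2, k1, sq_nonneg (a + c), sq_nonneg (a - c), sq_nonneg a])
  have e1 : (rc (w + a) (ζ + c)).re = (Fh (w + 1 / 2 + ζ + ((1 : ℝ) * (a + c) : ℝ)) +
      Fh (w + 1 / 2 - ζ + ((1 : ℝ) * (a - c) : ℝ)) - 2 * Fh (w + ((1 : ℝ) * a : ℝ))).re := by
    unfold rc
    congr 1
    congr 1
    · congr 1
      · congr 1
        push_cast
        ring
      · congr 1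
        push_cast
        ring
    · congr 1
      congr 1
      push_cast
      ring
  have e2 : (rc w ζ).re = (Fh (w + 1 / 2 + ζ + ((0 : ℝ) * (a + c) : ℝ)) +
      Fh (w + 1 / 2 - ζ + ((0 : ℝ) * (a - c) : ℝ)) - 2 * Fh (w + ((0 : ℝ) * a : ℝ))).re := by
    unfold rc
    simp
  have e3 : (rcw w ζ).re * a + (tz w ζ).re * c =
      (ph (w + 1 / 2 + ζ + ((0 : ℝ) * (a + c) : ℝ)) * ((a + c : ℝ) : ℂ) +
      ph (w + 1 / 2 - ζ + ((0 : ℝ) * (a - c) : ℝ)) * ((a - c : ℝ) : ℂ) -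
      2 * (ph (w + ((0 : ℝ) * a : ℝ)) * (a : ℂ))).re := by
    have r : ∀ X Y Z : ℂ, (X * ((a + c : ℝ) : ℂ) + Y * ((a - c : ℝ) : ℂ) -
        2 * (Z * (a : ℂ))).re = X.re * (a + c) + Y.re * (a - c) - 2 * (Z.re * a) := by
      intro X Y Z
      have r2 : ∀ z : ℂ, (2 * z).re = 2 * z.re := by
        intro z
        simp
      rw [Complex.sub_re, Complex.add_re, r2, Complex.re_mul_ofReal, Complex.re_mul_ofReal,
        Complex.re_mul_ofReal]
    rw [r]
    unfold rcw tz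
    simp only [zero_mul, Complex.ofReal_zero, add_zero]
    have r2 : ∀ z : ℂ, (2 * z).re = 2 * z.re := by
      intro z
      simp
    rw [Complex.sub_re, Complex.sub_re, Complex.add_re, r2]
    ring
  rw [← e1, ← e2, ← e3] at main
  linarith only [main]

end Pool.Agent.Work.MP_b30479_gtS.LT

end

section

/-!
# Explicit facts on the real ring function, second part
-/

namespace Pool.Agent.Work.MP_b30479_gtS.LT

open Finset VOL AX MeasureTheory

theorem rs_eq : rs = Rr 0 (1 / 4) 0 := by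
  have h := ts_eq_Rr
  unfold ts at h
  unfold rs
  linarith only [h]

theorem rs_ge : Real.pi / 8 ≤ rs := by
  rw [rs_eq]
  exact Rr_max_ge

/-- tangent line of the tangent function at `π/4` -/
theorem tan_ge {x : ℝ} (h0 : 0 ≤ x) (h1 : x < 1 / 2) :
    1 + 2 * Real.pi * (x - 1 / 4) ≤ Real.tan (Real.pi * x) := by
  have hpi := Real.pi_pos
  have hpi4 := Real.pi_lt_four
  have hc : 0 < Real.cos (Real.pi * x) :=
    Real.cos_pos_of_mem_Ioo ⟨by nlinarith only [hpi, h0], by nlinarith only [h1, hpi]⟩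
  rw [Real.tan_eq_sin_div_cos, le_div_iff₀ hc]
  obtain ⟨h, hh⟩ : ∃ h, h = Real.pi * (x - 1 / 4) := ⟨_, rfl⟩
  have ha : Real.pi * x = Real.pi / 4 + h := by rw [hh]; ring
  have hq : 1 + 2 * Real.pi * (x - 1 / 4) = 1 + 2 * h := by rw [hh]; ring
  rw [hq, ha, Real.sin_add, Real.cos_add, Real.sin_pi_div_four, Real.cos_pi_div_four]
  have hs2 : 0 < Real.sqrt 2 / 2 := by positivity
  have key : 0 ≤ Real.sin h - h * Real.cos h + h * Real.sin h := by
    rcases le_total 0 h with hp | hn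
    · have hlt : h < Real.pi / 2 := by rw [hh]; nlinarith only [hpi, h1]
      have hch : 0 < Real.cos h := Real.cos_pos_of_mem_Ioo ⟨by linarith only [hpi, hp], hlt⟩
      have h1 := Real.le_tan hp hlt
      rw [Real.tan_eq_sin_div_cos, le_div_iff₀ hch] at h1
      have h2 : 0 ≤ Real.sin h := Real.sin_nonneg_of_nonneg_of_le_pi hp (by linarith only [hpi, hlt])
      nlinarith only [h1, hp, h2]
    · obtain ⟨k, hk⟩ : ∃ k, k = -h := ⟨_, rfl⟩
      have hk0 : 0 ≤ k := by linarith only [hn, hk]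
      have hk1 : k ≤ 1 := by
        rw [hk, hh]; nlinarith only [hpi4, h0, hpi]
      have e : h = -k := by linarith only [hk]
      rw [e, Real.sin_neg, Real.cos_neg]
      have h1 := Real.one_sub_sq_div_two_le_cos (x := k)
      have h2 : Real.sin k ≤ k := Real.sin_le hk0
      have h3 : 0 ≤ Real.sin k := Real.sin_nonneg_of_nonneg_of_le_pi hk0 (by
        have := Real.pi_gt_three
        linarith only [hpi4, hk1, this])
      nlinarith only [h2, hk1, h1, h3, hk0, hn, hk, mul_nonneg hk0 (sub_nonneg.mpr hk1)]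
  nlinarith only [hs2, key]

theorem Rr_le_eighth {x σ : ℝ} (h0 : 0 ≤ x) (h1 : x ≤ 1 / 2) (h : 1 / 8 ≤ |σ|) (h' : |σ| ≤ 1 / 2) :
    Rr 0 x σ ≤ rs - 9 / 200 := by
  have hpi := Real.pi_gt_d2
  have hpi' := Real.pi_lt_d2
  rw [rs_eq]
  rcases le_total x (3 / 8) with hx | hx
  · have h2 : Rr 0 x σ ≤ Rr 0 x (1 / 8) :=
      Rr_anti h0 h1 (by rw [abs_of_pos (by norm_num : (0 : ℝ) < 1 / 8)]; exact h) h'
    have h3 := Rr_tri (x := x) (σ := 1 / 8) h0
      (by rw [abs_of_pos (by norm_num : (0 : ℝ) < 1 / 8)]; linarith only [hx])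
    have h4 := tan_ge h0 (by linarith only [hpi, hpi', hx] : x < 1 / 2)
    have h5 : Real.pi * (1 / 8) ^ 2 * (1 + 2 * Real.pi * (x - 1 / 4)) ≤
        Real.pi * (1 / 8) ^ 2 * Real.tan (Real.pi * x) :=
      mul_le_mul_of_nonneg_left h4 (by positivity)
    have h6 : 2 * Real.pi * (x - 1 / 4) ^ 2 +
        Real.pi * (1 / 8) ^ 2 * (1 + 2 * Real.pi * (x - 1 / 4)) =
        2 * Real.pi * ((x - 1 / 4) + Real.pi / 128) ^ 2 +
          Real.pi * (1 / 64 - Real.pi ^ 2 / 8192) := by ring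
    have h7 : 0 ≤ 2 * Real.pi * ((x - 1 / 4) + Real.pi / 128) ^ 2 := by positivity
    have h8 : Real.pi ^ 2 ≤ 993 / 100 := by nlinarith only [hpi, hpi']
    have h9 : 9 / 200 ≤ Real.pi * (1 / 64 - Real.pi ^ 2 / 8192) := by
      have : (1 / 64 - 993 / 819200 : ℝ) ≤ 1 / 64 - Real.pi ^ 2 / 8192 := by linarith only [h8]
      calc (9 / 200 : ℝ) ≤ 3.14 * (1 / 64 - 993 / 819200) := by norm_num
        _ ≤ Real.pi * (1 / 64 - Real.pi ^ 2 / 8192) :=
          mul_le_mul hpi.le this (by norm_num) (by positivity)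
    linarith only [h2, h3, h5, h7, h9]
  · have h2 : Rr 0 x σ ≤ Rr 0 x 0 := Rr_anti h0 h1 (by rw [abs_zero]; positivity) h'
    have h3 := Rr_x h0 h1
    have h4 : (1 / 8 : ℝ) ^ 2 ≤ (x - 1 / 4) ^ 2 := by
      apply pow_le_pow_left₀ (by norm_num); linarith only [hx]
    nlinarith only [hpi, hpi', h2, h3, h4]

theorem Rr_le_sixth {x σ : ℝ} (h0 : 0 ≤ x) (h1 : x ≤ 1 / 2) (h : 1 / 6 ≤ |σ|) (h' : |σ| ≤ 1 / 2) :
    Rr 0 x σ ≤ rs - 3 / 40 := by
  have hpi := Real.pi_gt_d2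
  have hpi' := Real.pi_lt_d2
  rw [rs_eq]
  rcases le_total x (1 / 3) with hx | hx
  · have h2 : Rr 0 x σ ≤ Rr 0 x (1 / 6) :=
      Rr_anti h0 h1 (by rw [abs_of_pos (by norm_num : (0 : ℝ) < 1 / 6)]; exact h) h'
    have h3 := Rr_tri (x := x) (σ := 1 / 6) h0
      (by rw [abs_of_pos (by norm_num : (0 : ℝ) < 1 / 6)]; linarith only [hx])
    have h4 := tan_ge h0 (by linarith only [hpi, hpi', hx] : x < 1 / 2)
    have h5 : Real.pi * (1 / 6) ^ 2 * (1 + 2 * Real.pi * (x - 1 / 4)) ≤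
        Real.pi * (1 / 6) ^ 2 * Real.tan (Real.pi * x) :=
      mul_le_mul_of_nonneg_left h4 (by positivity)
    have h6 : 2 * Real.pi * (x - 1 / 4) ^ 2 +
        Real.pi * (1 / 6) ^ 2 * (1 + 2 * Real.pi * (x - 1 / 4)) =
        2 * Real.pi * ((x - 1 / 4) + Real.pi / 72) ^ 2 +
          Real.pi * (1 / 36 - Real.pi ^ 2 / 2592) := by ring
    have h7 : 0 ≤ 2 * Real.pi * ((x - 1 / 4) + Real.pi / 72) ^ 2 := by positivity
    have h8 : Real.pi ^ 2 ≤ 993 / 100 := by nlinarith only [hpi, hpi']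
    have h9 : 3 / 40 ≤ Real.pi * (1 / 36 - Real.pi ^ 2 / 2592) := by
      have : (1 / 36 - 993 / 259200 : ℝ) ≤ 1 / 36 - Real.pi ^ 2 / 2592 := by linarith only [h8]
      calc (3 / 40 : ℝ) ≤ 3.14 * (1 / 36 - 993 / 259200) := by norm_num
        _ ≤ Real.pi * (1 / 36 - Real.pi ^ 2 / 2592) :=
          mul_le_mul hpi.le this (by norm_num) (by positivity)
    linarith only [h2, h3, h5, h7, h9]
  rcases le_total x (9 / 25) with hx2 | hx2
  · have hs : |(1 / 2 - x : ℝ)| = 1 / 2 - x := abs_of_nonneg (by linarith only [h1])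
    have h2 : Rr 0 x σ ≤ Rr 0 x (1 / 2 - x) := Rr_anti h0 h1 (by rw [hs]; linarith only [h, hx]) h'
    have h3 := Rr_tri (x := x) (σ := 1 / 2 - x) h0 (by rw [hs]; linarith only [])
    have h4 := tan_ge h0 (by linarith only [hpi, hpi', hx2] : x < 1 / 2)
    have h5 : (3 / 2 : ℝ) ≤ Real.tan (Real.pi * x) := by nlinarith only [hpi, hpi', hx, h4, hx2, h0]
    have h6 : (7 / 50 : ℝ) ^ 2 ≤ (1 / 2 - x) ^ 2 := by
      apply pow_le_pow_left₀ (by norm_num); linarith only [hx2]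
    have h7 : (1 / 12 : ℝ) ^ 2 ≤ (x - 1 / 4) ^ 2 := by
      apply pow_le_pow_left₀ (by norm_num); linarith only [hx]
    have h8 : 3.14 * (7 / 50 : ℝ) ^ 2 * (3 / 2) ≤
        Real.pi * (1 / 2 - x) ^ 2 * Real.tan (Real.pi * x) := by
      apply mul_le_mul (mul_le_mul hpi.le h6 (by norm_num) (by linarith only [hpi, hpi'])) h5 (by norm_num)
      positivity
    have h9 : 2 * 3.14 * (1 / 12 : ℝ) ^ 2 ≤ 2 * Real.pi * (x - 1 / 4) ^ 2 := by
      apply mul_le_mul (by linarith only [hpi]) h7 (by norm_num) (by linarith only [hpi, hpi'])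
    norm_num at h8 h9
    linarith only [hpi, hpi', h2, h3, h8, h9]
  · have h2 : Rr 0 x σ ≤ Rr 0 x 0 := Rr_anti h0 h1 (by rw [abs_zero]; positivity) h'
    have h3 := Rr_x h0 h1
    have h4 : (11 / 100 : ℝ) ^ 2 ≤ (x - 1 / 4) ^ 2 := by
      apply pow_le_pow_left₀ (by norm_num); linarith only [hx2]
    have h9 : 2 * 3.14 * (11 / 100 : ℝ) ^ 2 ≤ 2 * Real.pi * (x - 1 / 4) ^ 2 := by
      apply mul_le_mul (by linarith only [hpi]) h4 (by norm_num) (by linarith only [hpi, hpi'])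
    norm_num at h9
    linarith only [hpi, hpi', h2, h3, h9]

end Pool.Agent.Work.MP_b30479_gtS.LT

end

section

/-!
# The ring inequalities for `|b| ≥ 50`
-/

namespace Pool.Agent.Work.MP_b30479_gtS.LT

open Finset VOL AX MeasureTheory

private lemma th_le_one (σ : ℝ) : th σ ≤ 1 := min_le_left _ _

private lemma th_nonneg {σ : ℝ} (h : |σ| ≤ 1 / 2) : 0 ≤ th σ := le_min (by norm_num) (by linarith only [h])

lemma th_mul_abs (σ : ℝ) : th σ * |σ| ≤ 1 / 4 := by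
  have h0 := abs_nonneg σ
  rcases le_total |σ| (1 / 4) with h | h
  · have := th_le_one σ
    nlinarith only [h, h0, this]
  · have h1 : th σ ≤ 2 - 4 * |σ| := min_le_right _ _
    nlinarith only [h0, h1, sq_nonneg (2 * |σ| - 1 / 2)]

lemma th_small {σ : ℝ} (h : |σ| ≤ 1 / 4) : th σ = 1 := by
  unfold th
  exact min_eq_left (by linarith only [h])

/-- the share of the weight exponent, upper bound -/
lemma wt_le {lam : ℝ} {b : ℤ} {w ζ : ℂ} (h : Loc lam b w ζ) {θ σ : ℝ} (h0 : 0 ≤ θ) :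
    wt lam b (ζ.im * θ) σ ≤ 2 * Real.pi * (21 / 1000) * (θ * |σ|) := by
  have hpi := Real.pi_pos
  have h1 : 0 ≤ lam * ζ.im := mul_nonneg h.lam0 h.z2.le
  have h2 : -(1 + (b : ℝ) * σ) ≤ |(b : ℝ)| * |σ| := by
    rw [← abs_mul]
    have := neg_abs_le ((b : ℝ) * σ)
    linarith only [this]
  have h3 : wt lam b (ζ.im * θ) σ = 2 * Real.pi * (lam * ζ.im) * θ * (-(1 + (b : ℝ) * σ)) := by
    unfold wt
    ring
  rw [h3]
  calc 2 * Real.pi * (lam * ζ.im) * θ * (-(1 + (b : ℝ) * σ))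
      ≤ 2 * Real.pi * (lam * ζ.im) * θ * (|(b : ℝ)| * |σ|) :=
        mul_le_mul_of_nonneg_left h2 (by positivity)
    _ = 2 * Real.pi * (lam * ζ.im * |(b : ℝ)|) * (θ * |σ|) := by ring
    _ ≤ 2 * Real.pi * (21 / 1000) * (θ * |σ|) := by
        apply mul_le_mul_of_nonneg_right _ (by positivity)
        exact mul_le_mul_of_nonneg_left h.z4 (by positivity)

lemma wt_le' {lam : ℝ} {b : ℤ} {w ζ : ℂ} (h : Loc lam b w ζ) (σ : ℝ) :
    wt lam b ζ.im σ ≤ 2 * Real.pi * (21 / 1000) * |σ| := by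
  have h1 := wt_le h (θ := 1) (σ := σ) zero_le_one
  rwa [mul_one, one_mul] at h1

lemma abs_add_lt {x σ : ℝ} (hx : |x - 1 / 4| ≤ 101 / 1000) (hσ : |σ| ≤ 1 / 8) :
    0 < x ∧ x + |σ| < 1 / 2 ∧ x ≤ 1 / 2 := by
  have h1 := abs_le.mp hx
  refine ⟨by linarith only [h1, h1.1], by linarith only [hσ, h1, h1.2], by linarith only [h1, h1.2]⟩

/-- (I1) main box, heights of the critical point -/
theorem ring_main {lam : ℝ} {b : ℤ} {w ζ : ℂ} (h : Loc lam b w ζ) {x σ : ℝ}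
    (hx : |x - 1 / 4| ≤ 1 / 10) (hσ : |σ| ≤ 1 / 8) :
    (rc (x + w.im * Complex.I) (σ + ζ.im * Complex.I)).re + wt lam b ζ.im σ ≤
      TP lam b w ζ x σ - 1 / 5 * ((x - w.re) ^ 2 + (σ - ζ.re) ^ 2) := by
  have h1 := rc_conc (w := w) (ζ := ζ) (a := x - w.re) (c := σ - ζ.re)
    (by linarith only [h, h.w1]) (by linarith only [h, h.z1]) (by linarith only [h, h.w2])
    (by rw [abs_of_pos h.z2]; linarith only [h, h.z3])
    (by rw [add_sub_cancel]; exact hx) (by rw [add_sub_cancel]; exact hσ)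
  have e1 : w + ((x - w.re : ℝ) : ℂ) = x + w.im * Complex.I := by
    apply Complex.ext <;> simp
  have e2 : ζ + ((σ - ζ.re : ℝ) : ℂ) = σ + ζ.im * Complex.I := by
    apply Complex.ext <;> simp
  rw [e1, e2] at h1
  unfold TP wt
  linarith only [h1]

lemma rc_at_center {lam : ℝ} {b : ℤ} {w ζ : ℂ} (h : Loc lam b w ζ) :
    rs - 3 / 1000 ≤ TP lam b w ζ (1 / 4) 0 := by
  have hpi := Real.pi_lt_d2
  have hpi0 := Real.pi_pos
  have h1 := ring_main h (x := 1 / 4) (σ := 0) (by norm_num) (by norm_num)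
  have h2 := rc_ge (x := 1 / 4) (σ := 0) (τ := w.im) (ρ := ζ.im) (by norm_num) (by norm_num)
    (by norm_num)
  have h3 : 0 ≤ (1 / 4 - w.re) ^ 2 + (0 - ζ.re) ^ 2 := by positivity
  have h4 : -(3 / 1000) ≤ wt lam b ζ.im 0 := by
    unfold wt
    rw [mul_zero, add_zero, mul_one]
    have h5 := h.z5
    have h6 : 0 ≤ lam * ζ.im := mul_nonneg h.lam0 h.z2.le
    nlinarith only [h5, hpi, h6]
  rw [← rs_eq] at h2
  linarith only [h1, h2, h3, h4]

/-- lower bound for the tangent plane -/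
theorem TP_ge {lam : ℝ} {b : ℤ} {w ζ : ℂ} (h : Loc lam b w ζ) (x σ : ℝ) :
    rs - 3 / 1000 - |x - 1 / 4| / 100 - |σ| / 500 ≤ TP lam b w ζ x σ := by
  have h1 := rc_at_center h
  have e : TP lam b w ζ x σ = TP lam b w ζ (1 / 4) 0 + (rcw w ζ).re * (x - 1 / 4) +
      ((tz w ζ).re - 2 * Real.pi * lam * ζ.im * b) * σ := by
    unfold TP
    ring
  have h2 : -(|x - 1 / 4| / 100) ≤ (rcw w ζ).re * (x - 1 / 4) := by
    have h3 := neg_abs_le ((rcw w ζ).re * (x - 1 / 4))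
    rw [abs_mul] at h3
    have h4 := h.gw
    have h5 := abs_nonneg (x - 1 / 4)
    nlinarith only [h3, h4, h5]
  have h3 : -(|σ| / 500) ≤ ((tz w ζ).re - 2 * Real.pi * lam * ζ.im * b) * σ := by
    have h3 := neg_abs_le (((tz w ζ).re - 2 * Real.pi * lam * ζ.im * b) * σ)
    rw [abs_mul] at h3
    have h4 := h.gz
    have h5 := abs_nonneg σ
    nlinarith only [h3, h4, h5]
  rw [e]
  linarith only [h1, h2, h3]

lemma height_sq {lam : ℝ} {b : ℤ} {w ζ : ℂ} (h : Loc lam b w ζ) : ζ.im ^ 2 ≤ 1 / 1000000 := by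
  have h1 := h.z2
  have h2 := h.z3
  nlinarith only [h2, h1]

/-- (I2) main box, real hinge variable -/
theorem ring_real {lam : ℝ} {b : ℤ} {w ζ : ℂ} (h : Loc lam b w ζ) {x σ : ℝ}
    (hx : |x - 1 / 4| ≤ 1 / 10) (hσ : |σ| ≤ 1 / 8) :
    Rr ζ.im x σ + wt lam b ζ.im σ ≤ TP lam b w ζ x σ + 1 / 1000 := by
  obtain ⟨a1, a2, _⟩ := abs_add_lt (by linarith only [hx] : |x - 1 / 4| ≤ 101 / 1000) hσ
  have h1 := ring_main h hx hσ
  have h2 := rc_ge (τ := w.im) (ρ := ζ.im) a1 a2 (by linarith only [hσ, a1, hx, (abs_le.mp hx).1])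
  have h3 := rc_le (x := x) (σ := σ) (τ := 0) (ρ := ζ.im) (by linarith only [hx]) hσ
  have h4 := rc_real a1 a2 h.z2.le
  have e : (x : ℂ) + ((0 : ℝ) : ℂ) * Complex.I = x := by simp
  rw [e, h4] at h3
  have h5 := height_sq h
  have h6 : 0 ≤ (x - w.re) ^ 2 + (σ - ζ.re) ^ 2 := by positivity
  nlinarith only [h1, h2, h3, h5]

/-- the part `x ≥ 1/2`, any `σ` -/
lemma ring_right {lam : ℝ} {b : ℤ} {w ζ : ℂ} (h : Loc lam b w ζ) {x σ : ℝ}
    (h0 : 1 / 2 ≤ x) (h1 : x ≤ 1) (hσ' : |σ| ≤ 1 / 2) :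
    Rr (ζ.im * th σ) x σ + wt lam b (ζ.im * th σ) σ ≤ TP lam b w ζ x σ - 1 / 100 := by
  have hpi := Real.pi_lt_d2
  have hpi0 := Real.pi_gt_d2
  have t0 := th_nonneg hσ'
  have t1 := th_le_one σ
  have t2 := th_mul_abs σ
  have r0 : 0 ≤ ζ.im * th σ := mul_nonneg h.z2.le t0
  have r1 : ζ.im * th σ ≤ 21 / 25000 := by
    have := h.z3
    have := h.z2
    nlinarith
  have g1 := Rr_nonpos h0 h1 hσ'
  have g2 := Rr_height_one (ρ := 0) (ρ' := ζ.im * th σ) (x := x) (σ := σ) le_rfl r0 h1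
  have g3 := wt_le h (σ := σ) t0
  have g4 := TP_ge h x σ
  have g5 := rs_ge
  have g6 : |x - 1 / 4| ≤ 3 / 4 := abs_le.mpr ⟨by linarith only [h0, hpi, hpi0], by linarith only [h1]⟩
  have g7 : 2 * Real.pi * (ζ.im * th σ - 0) ≤ 1 / 100 := by nlinarith only [hpi0, r1, hpi, r0]
  have g8 : 2 * Real.pi * (21 / 1000) * (th σ * |σ|) ≤ 1 / 20 := by nlinarith only [t2, hpi, hpi0]
  linarith only [hσ', hpi, hpi0, g1, g2, g3, g4, g5, g6, g7, g8]

/-- (I3) outside `|σ| ≤ 1/8`, real hinge variable, height `ρ th σ` -/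
theorem ring_out {lam : ℝ} {b : ℤ} {w ζ : ℂ} (h : Loc lam b w ζ) {x σ : ℝ}
    (h0 : 0 ≤ x) (h1 : x ≤ 1) (hσ : 1 / 8 ≤ |σ|) (hσ' : |σ| ≤ 1 / 2) :
    Rr (ζ.im * th σ) x σ + wt lam b (ζ.im * th σ) σ ≤ TP lam b w ζ x σ - 1 / 100 := by
  rcases le_total (1 / 2) x with hx | hx
  · exact ring_right h hx h1 hσ'
  have hpi := Real.pi_lt_d2
  have hpi0 := Real.pi_gt_d2
  have t0 := th_nonneg hσ'
  have t1 := th_le_one σ
  have t2 := th_mul_abs σ
  have r0 : 0 ≤ ζ.im * th σ := mul_nonneg h.z2.le t0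
  have r1 : ζ.im * th σ ≤ 21 / 25000 := by
    have := h.z3
    have := h.z2
    nlinarith
  have g2 := Rr_height_one (ρ := 0) (ρ' := ζ.im * th σ) (x := x) (σ := σ) le_rfl r0 h1
  have g3 := wt_le h (σ := σ) t0
  have g4 := TP_ge h x σ
  have g6 : |x - 1 / 4| ≤ 1 / 4 := abs_le.mpr ⟨by linarith only [h0], by linarith only [hx]⟩
  have g7 : 2 * Real.pi * (ζ.im * th σ - 0) ≤ 2 * 3.15 * (21 / 25000) := by nlinarith only [r1, hpi, r0]
  rcases le_total |σ| (1 / 6) with hs | hs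
  · have g1 := Rr_le_eighth h0 hx hσ hσ'
    have g8 : 2 * Real.pi * (21 / 1000) * (th σ * |σ|) ≤ 2 * 3.15 * (21 / 1000) * (1 / 6) := by
      have : th σ * |σ| ≤ 1 / 6 := by nlinarith only [t1, hs, hσ, abs_nonneg σ]
      have h9 : 0 ≤ th σ * |σ| := mul_nonneg t0 (abs_nonneg σ)
      nlinarith only [t1, hs, hσ, hpi, h9]
    norm_num at g7 g8
    linarith only [hσ', hpi, hpi0, g2, g3, g4, g6, g1, g7, g8]
  · have g1 := Rr_le_sixth h0 hx hs hσ'
    have g8 : 2 * Real.pi * (21 / 1000) * (th σ * |σ|) ≤ 2 * 3.15 * (21 / 1000) * (1 / 4) := by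
      have h9 : 0 ≤ th σ * |σ| := mul_nonneg t0 (abs_nonneg σ)
      nlinarith only [t2, hpi, h9]
    norm_num at g7 g8
    linarith only [hσ', hpi, hpi0, g2, g3, g4, g6, g1, g7, g8]

/-- (I4) hinge variable outside the window, real -/
theorem ring_far {lam : ℝ} {b : ℤ} {w ζ : ℂ} (h : Loc lam b w ζ) {x σ : ℝ}
    (h0 : 0 ≤ x) (h1 : x ≤ 1) (hx : 99 / 1000 ≤ |x - 1 / 4|) (hσ : |σ| ≤ 1 / 8) :
    Rr ζ.im x σ + wt lam b ζ.im σ ≤ TP lam b w ζ x σ - 1 / 100 := by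
  have hσ' : |σ| ≤ 1 / 2 := by linarith only [hσ]
  have ht : th σ = 1 := th_small (by linarith only [hσ])
  rcases le_total (1 / 2) x with hx2 | hx2
  · have := ring_right h hx2 h1 hσ'
    rwa [ht, mul_one] at this
  have hpi := Real.pi_lt_d2
  have hpi0 := Real.pi_gt_d2
  have r1 := h.z3
  have r0 := h.z2
  have g2 := Rr_height_one (ρ := 0) (ρ' := ζ.im) (x := x) (σ := σ) le_rfl h.z2.le h1
  have g3 := wt_le' h σ
  have g4 := TP_ge h x σ
  have g6 : |x - 1 / 4| ≤ 1 / 4 := abs_le.mpr ⟨by linarith only [h0], by linarith only [hx2]⟩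
  have g7 : 2 * Real.pi * (ζ.im - 0) ≤ 2 * 3.15 * (21 / 25000) := by nlinarith only [r1, hpi, r0]
  have g8 : 2 * Real.pi * (21 / 1000) * |σ| ≤ 2 * 3.15 * (21 / 1000) * (1 / 8) := by
    have h9 := abs_nonneg σ
    nlinarith only [hσ, hpi, hpi0]
  have g1 : Rr 0 x σ ≤ Rr 0 x 0 := Rr_anti h0 hx2 (by rw [abs_zero]; positivity) hσ'
  have g9 := Rr_x h0 hx2
  rw [← rs_eq] at g9
  have g10 : (99 / 1000 : ℝ) ^ 2 ≤ (x - 1 / 4) ^ 2 := by
    rw [← sq_abs (x - 1 / 4)]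
    exact pow_le_pow_left₀ (by norm_num) hx 2
  have g11 : 2 * 3.14 * (99 / 1000 : ℝ) ^ 2 ≤ 2 * Real.pi * (x - 1 / 4) ^ 2 :=
    mul_le_mul (by linarith only [hpi0]) g10 (by norm_num) (by linarith only [hpi0, r1, r0])
  norm_num at g7 g8 g11
  linarith only [hσ, r1, r0, g2, g3, g4, g6, g1, g9, g7, g8, g11]

/-- (I5) hinge variable at the heights `± 1/50` -/
theorem ring_top {lam : ℝ} {b : ℤ} {w ζ : ℂ} (h : Loc lam b w ζ) {x σ τ : ℝ}
    (hx : |x - 1 / 4| ≤ 101 / 1000) (hσ : |σ| ≤ 1 / 8) (hτ : |τ| = 1 / 50) :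
    (rc (x + τ * Complex.I) (σ + ζ.im * Complex.I)).re + wt lam b ζ.im σ - Real.pi * (1 / 50) ≤
      TP lam b w ζ x σ - 1 / 100 := by
  obtain ⟨a1, a2, a3⟩ := abs_add_lt hx hσ
  have hpi := Real.pi_lt_d2
  have hpi0 := Real.pi_gt_d2
  have g1 := rc_le (x := x) (σ := σ) (τ := τ) (ρ := ζ.im) hx hσ
  have g2 : Rr 0 x σ ≤ Rr 0 x 0 :=
    Rr_anti a1.le a3 (by rw [abs_zero]; positivity) (by linarith only [hσ, hpi, hpi0])
  have g3 := Rr_x a1.le a3
  rw [← rs_eq] at g3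
  have g4 : 0 ≤ 2 * Real.pi * (x - 1 / 4) ^ 2 := by positivity
  have g5 := wt_le' h σ
  have g6 : 2 * Real.pi * (21 / 1000) * |σ| ≤ 2 * 3.15 * (21 / 1000) * (1 / 8) := by
    have h9 := abs_nonneg σ
    nlinarith only [hσ, hpi, hpi0]
  have g7 := height_sq h
  have g8 : τ ^ 2 = (1 / 50) ^ 2 := by rw [← sq_abs, hτ]
  have g9 := TP_ge h x σ
  rw [g8] at g1
  norm_num at g1 g6 ⊢
  linarith only [hx, hσ, hpi, hpi0, g2, g3, g4, g5, g7, g9, g1, g6]

/-- (I6) vertical sides -/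
theorem ring_side {lam : ℝ} {b : ℤ} {w ζ : ℂ} (h : Loc lam b w ζ) {x σ τ : ℝ}
    (hx : 99 / 1000 ≤ |x - 1 / 4|) (hx' : |x - 1 / 4| ≤ 101 / 1000) (hσ : |σ| ≤ 1 / 8)
    (hτ : |τ| ≤ 1 / 50) :
    (rc (x + τ * Complex.I) (σ + ζ.im * Complex.I)).re + wt lam b ζ.im σ -
      Real.pi * max (|τ| - 1 / 5000) 0 ≤ TP lam b w ζ x σ - 1 / 100 := by
  obtain ⟨a1, a2, a3⟩ := abs_add_lt hx' hσ
  have hpi := Real.pi_lt_d2
  have hpi0 := Real.pi_gt_d2
  have g1 := rc_le (x := x) (σ := σ) (τ := τ) (ρ := ζ.im) hx' hσ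
  have g2 : Rr 0 x σ ≤ Rr 0 x 0 :=
    Rr_anti a1.le a3 (by rw [abs_zero]; positivity) (by linarith only [hσ, hpi, hpi0])
  have g3 := Rr_x a1.le a3
  rw [← rs_eq] at g3
  have g10 : (99 / 1000 : ℝ) ^ 2 ≤ (x - 1 / 4) ^ 2 := by
    rw [← sq_abs (x - 1 / 4)]
    exact pow_le_pow_left₀ (by norm_num) hx 2
  have g11 : 2 * 3.14 * (99 / 1000 : ℝ) ^ 2 ≤ 2 * Real.pi * (x - 1 / 4) ^ 2 :=
    mul_le_mul (by linarith only [hpi0]) g10 (by norm_num) (by linarith only [hpi, hpi0])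
  have g5 := wt_le' h σ
  have g6 : 2 * Real.pi * (21 / 1000) * |σ| ≤ 2 * 3.15 * (21 / 1000) * (1 / 8) := by
    have h9 := abs_nonneg σ
    nlinarith only [hσ, hpi, hpi0]
  have g7 := height_sq h
  have g9 := TP_ge h x σ
  have t0 := abs_nonneg τ
  have g12 : 50 * τ ^ 2 - Real.pi * max (|τ| - 1 / 5000) 0 ≤ 1 / 1000 := by
    have h1 : 50 * τ ^ 2 ≤ |τ| := by
      rw [← sq_abs]
      nlinarith only [hτ, t0]
    have h2 : |τ| - 1 / 5000 ≤ max (|τ| - 1 / 5000) 0 := le_max_left _ _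
    have h3 : 0 ≤ max (|τ| - 1 / 5000) 0 := le_max_right _ _
    nlinarith only [h1, h2, h3, hτ, hpi, hpi0]
  norm_num at g6 g11 ⊢
  linarith only [hx', hσ, hpi, hpi0, g1, g2, g3, g5, g7, g9, g12, g6, g11]

end Pool.Agent.Work.MP_b30479_gtS.LT

end
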