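import Pool.Agent.Work.MP_b30479_gt.TBS.G2.PnLim
import Pool.Agent.Work.MP_b30479_gt.TBS.G2.ADat
import Pool.Agent.Work.MP_b30479_gt.TBS.LT.XReal
import Pool.Agent.Work.MP_b30479_gt.TBS.VC.GaussND
import Pool.Agent.Work.MP_b30479_gt.TBS.G2.SIm
import Pool.Agent.Work.MP_b30479_gt.TBS.G2.SWordA

section

/-!
# Uniqueness of the positively oriented solution of the gluing equations
-/

namespace Pool.Agent.Work.MP_b30479_gtS.LT

open Finset VOL

lemma ph'_re_pos {z : ℂ} (h0 : 0 < z.re) (h1 : z.re < 1 / 2) : 0 < (ph' z).re := by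
  have hpi := Real.pi_pos
  have hz : z ∈ strip := ⟨h0, by linarith only [h0, h1]⟩
  have hs := sin_pi_ne hz
  have hn : 0 < Complex.normSq (Complex.sin (Real.pi * z)) := Complex.normSq_pos.mpr hs
  have e1 : (ph' z).re = Real.pi * ((Complex.cos (Real.pi * z)).re *
      (Complex.sin (Real.pi * z)).re + (Complex.cos (Real.pi * z)).im *
      (Complex.sin (Real.pi * z)).im) / Complex.normSq (Complex.sin (Real.pi * z)) := by
    unfold ph'
    rw [Complex.div_re]
    simp only [Complex.mul_re, Complex.mul_im, Complex.ofReal_re, Complex.ofReal_im, zero_mul,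
      sub_zero, add_zero]
    ring
  rw [e1, sin_pi_re, sin_pi_im, cos_pi_re, cos_pi_im]
  apply div_pos _ hn
  apply mul_pos hpi
  have h2 : 0 < Real.sin (Real.pi * z.re) := sin_pi_pos h0 (by linarith only [h0, h1])
  have h3 : 0 < Real.cos (Real.pi * z.re) := by
    apply Real.cos_pos_of_mem_Ioo
    constructor
    · have : 0 < Real.pi * z.re := by positivity
      linarith only [hpi, this]
    · nlinarith only [h1, hpi]
  have h4 := Real.cosh_sq (Real.pi * z.im)
  have e2 : Real.cos (Real.pi * z.re) * Real.cosh (Real.pi * z.im) *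
      (Real.sin (Real.pi * z.re) * Real.cosh (Real.pi * z.im)) +
      -(Real.sin (Real.pi * z.re) * Real.sinh (Real.pi * z.im)) *
      (Real.cos (Real.pi * z.re) * Real.sinh (Real.pi * z.im)) =
      Real.sin (Real.pi * z.re) * Real.cos (Real.pi * z.re) *
      (Real.cosh (Real.pi * z.im) ^ 2 - Real.sinh (Real.pi * z.im) ^ 2) := by ring
  rw [e2, h4]
  have : Real.sinh (Real.pi * z.im) ^ 2 + 1 - Real.sinh (Real.pi * z.im) ^ 2 = 1 := by ring
  rw [this, mul_one]
  exact mul_pos h2 h3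

theorem ph_mono {w w' : ℂ} (h0 : 0 < w.re) (h1 : w.re < 1 / 2) (h0' : 0 < w'.re)
    (h1' : w'.re < 1 / 2) (hne : w ≠ w') :
    0 < ((starRingEnd ℂ) (w' - w) * (ph w' - ph w)).re := by
  set Δ := w' - w with hΔ
  have hΔ0 : Δ ≠ 0 := sub_ne_zero.mpr (Ne.symm hne)
  have hre : ∀ t : ℝ, t ∈ Set.Icc (0 : ℝ) 1 → 0 < (w + t * Δ).re ∧ (w + t * Δ).re < 1 / 2 := by
    intro t ht
    have e : (w + t * Δ).re = (1 - t) * w.re + t * w'.re := by
      simp [hΔ]
      ring
    rw [e]
    constructor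
    · rcases ht.1.eq_or_lt with h | h
      · rw [← h]; simpa using h0
      · have : 0 ≤ (1 - t) * w.re := mul_nonneg (by linarith only [ht, ht.2]) h0.le
        have : 0 < t * w'.re := mul_pos h h0'
        linarith
    · rcases ht.1.eq_or_lt with h | h
      · rw [← h]; simpa using h1
      · have h5 : 0 ≤ (1 - t) * (1 / 2 - w.re) := mul_nonneg (by linarith only [ht, ht.2]) (by linarith only [h1])
        have h6 : 0 < t * (1 / 2 - w'.re) := mul_pos h (by linarith only [h1'])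
        linarith only [h5, h6]
  have hd : ∀ t : ℝ, t ∈ Set.Icc (0 : ℝ) 1 →
      HasDerivAt (fun t : ℝ => ((starRingEnd ℂ) Δ * ph (w + t * Δ)).re)
        (Complex.normSq Δ * (ph' (w + t * Δ)).re) t := by
    intro t ht
    have h2 := hre t ht
    have h3 : HasDerivAt ph (ph' (w + t * Δ)) (w + t * Δ) := hasDerivAt_ph ⟨h2.1, by linarith only [h0, h1, h2, h2.2]⟩
    have h4 : HasDerivAt (fun t : ℝ => w + (t : ℂ) * Δ) (1 * Δ) t :=
      (((hasDerivAt_id (t : ℂ)).comp_ofReal).mul_const Δ).const_add w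
    have h5 := (h3.comp t h4).const_mul ((starRingEnd ℂ) Δ)
    have h6 := (Complex.reCLM.hasFDerivAt.comp_hasDerivAt t h5)
    refine HasDerivAt.congr_deriv h6 ?_
    have e2 : (starRingEnd ℂ) Δ * (ph' (w + t * Δ) * (1 * Δ)) =
        ((Complex.normSq Δ : ℝ) : ℂ) * ph' (w + t * Δ) := by
      rw [Complex.normSq_eq_conj_mul_self]
      ring
    show (Complex.reCLM) ((starRingEnd ℂ) Δ * (ph' (w + t * Δ) * (1 * Δ))) = _
    rw [e2]
    simp
  obtain ⟨c, hc, hc2⟩ := exists_hasDerivAt_eq_slope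
    (fun t : ℝ => ((starRingEnd ℂ) Δ * ph (w + t * Δ)).re)
    (fun t : ℝ => Complex.normSq Δ * (ph' (w + t * Δ)).re) one_pos
    (fun t ht => (hd t ht).continuousAt.continuousWithinAt)
    (fun t ht => hd t ⟨ht.1.le, ht.2.le⟩)
  have hc3 := hre c ⟨hc.1.le, hc.2.le⟩
  have h7 := ph'_re_pos hc3.1 hc3.2
  have h8 : 0 < Complex.normSq Δ := Complex.normSq_pos.mpr hΔ0
  have e3 : ((starRingEnd ℂ) Δ * (ph w' - ph w)).re =
      (((starRingEnd ℂ) Δ * ph (w + ((1 : ℝ) : ℂ) * Δ)).re -
        ((starRingEnd ℂ) Δ * ph (w + ((0 : ℝ) : ℂ) * Δ)).re) / (1 - 0) := by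
    have e4 : w + ((1 : ℝ) : ℂ) * Δ = w' := by rw [hΔ]; push_cast; ring
    have e5 : w + ((0 : ℝ) : ℂ) * Δ = w := by push_cast; ring
    rw [e4, e5, mul_sub, Complex.sub_re]
    ring
  rw [e3, ← hc2]
  exact mul_pos h8 h7

theorem ph_mono_le {w w' : ℂ} (h0 : 0 < w.re) (h1 : w.re < 1 / 2) (h0' : 0 < w'.re)
    (h1' : w'.re < 1 / 2) : 0 ≤ ((starRingEnd ℂ) (w' - w) * (ph w' - ph w)).re := by
  by_cases hne : w = w'
  · subst hne
    simp
  · exact (ph_mono h0 h1 h0' h1' hne).le

theorem ph_anti {w w' : ℂ} (h0 : 1 / 2 < w.re) (h1 : w.re < 1) (h0' : 1 / 2 < w'.re)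
    (h1' : w'.re < 1) (hne : w ≠ w') :
    ((starRingEnd ℂ) (w' - w) * (ph w' - ph w)).re < 0 := by
  have h := ph_mono (w := 1 - w) (w' := 1 - w') (by simp; linarith only [h1]) (by simp; linarith only [h0])
    (by simp; linarith only [h1']) (by simp; linarith only [h0']) (fun hc => hne (sub_right_injective hc))
  rw [ph_one_sub, ph_one_sub] at h
  have e : (starRingEnd ℂ) (1 - w' - (1 - w)) * (ph w' - ph w) =
      -((starRingEnd ℂ) (w' - w) * (ph w' - ph w)) := by
    simp only [map_sub, map_one]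
    ring
  rw [e, Complex.neg_re] at h
  linarith only [h]

theorem ph_anti_le {w w' : ℂ} (h0 : 1 / 2 < w.re) (h1 : w.re < 1) (h0' : 1 / 2 < w'.re)
    (h1' : w'.re < 1) : ((starRingEnd ℂ) (w' - w) * (ph w' - ph w)).re ≤ 0 := by
  by_cases hne : w = w'
  · subst hne
    simp
  · exact (ph_anti h0 h1 h0' h1' hne).le

/-- the contribution of one ring -/
noncomputable def rgd (w ζ w' ζ' : ℂ) : ℝ :=
  ((starRingEnd ℂ) (w' - w) * ((ph (w' + 1 / 2 + ζ') + ph (w' + 1 / 2 - ζ') - 2 * ph w') -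
    (ph (w + 1 / 2 + ζ) + ph (w + 1 / 2 - ζ) - 2 * ph w)) +
  (starRingEnd ℂ) (ζ' - ζ) * (tz w' ζ' - tz w ζ)).re

lemma rgd_eq (w ζ w' ζ' : ℂ) : rgd w ζ w' ζ' =
    ((starRingEnd ℂ) ((w' + 1 / 2 + ζ') - (w + 1 / 2 + ζ)) *
      (ph (w' + 1 / 2 + ζ') - ph (w + 1 / 2 + ζ))).re +
    ((starRingEnd ℂ) ((w' + 1 / 2 - ζ') - (w + 1 / 2 - ζ)) *
      (ph (w' + 1 / 2 - ζ') - ph (w + 1 / 2 - ζ))).re -
    2 * ((starRingEnd ℂ) (w' - w) * (ph w' - ph w)).re := by
  have e : (2 : ℝ) * ((starRingEnd ℂ) (w' - w) * (ph w' - ph w)).re =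
      (2 * ((starRingEnd ℂ) (w' - w) * (ph w' - ph w))).re := by
    simp
  rw [e, ← Complex.add_re, ← Complex.sub_re]
  unfold rgd tz
  congr 1
  simp only [map_sub, map_add, map_div₀, map_one, map_ofNat]
  ring

lemma pos_re {w ζ : ℂ} (h : Pos w ζ) : (0 < w.re ∧ w.re < 1 / 2) ∧
    (1 / 2 < (w + 1 / 2 + ζ).re ∧ (w + 1 / 2 + ζ).re < 1) ∧
    (1 / 2 < (w + 1 / 2 - ζ).re ∧ (w + 1 / 2 - ζ).re < 1) := by
  obtain ⟨h1, h2⟩ := h
  have h3 := abs_nonneg ζ.re
  have h4 := abs_lt.mp h1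
  have h5 := abs_lt.mp h2
  have e1 : (w + 1 / 2 + ζ).re = w.re + 1 / 2 + ζ.re := by simp
  have e2 : (w + 1 / 2 - ζ).re = w.re + 1 / 2 - ζ.re := by simp
  rw [e1, e2]
  refine ⟨⟨by linarith only [h1, h3], by linarith only [h2, h3]⟩, ⟨by linarith only [h4], by linarith only [h5]⟩, ⟨by linarith only [h4], by linarith only [h5]⟩⟩

lemma rgd_le {w ζ w' ζ' : ℂ} (h : Pos w ζ) (h' : Pos w' ζ') : rgd w ζ w' ζ' ≤ 0 := by
  obtain ⟨a1, a2, a3⟩ := pos_re h
  obtain ⟨b1, b2, b3⟩ := pos_re h'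
  rw [rgd_eq]
  have c1 := ph_anti_le a2.1 a2.2 b2.1 b2.2
  have c2 := ph_anti_le a3.1 a3.2 b3.1 b3.2
  have c3 := ph_mono_le a1.1 a1.2 b1.1 b1.2
  linarith only [c1, c2, c3]

lemma eq_of_rgd {w ζ w' ζ' : ℂ} (h : Pos w ζ) (h' : Pos w' ζ') (h0 : rgd w ζ w' ζ' = 0) :
    w' = w ∧ ζ' = ζ := by
  obtain ⟨a1, a2, a3⟩ := pos_re h
  obtain ⟨b1, b2, b3⟩ := pos_re h'
  rw [rgd_eq] at h0
  have c1 := ph_anti_le a2.1 a2.2 b2.1 b2.2
  have c2 := ph_anti_le a3.1 a3.2 b3.1 b3.2
  have c3 := ph_mono_le a1.1 a1.2 b1.1 b1.2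
  have hw : w = w' := by
    by_contra hne
    have := ph_mono a1.1 a1.2 b1.1 b1.2 hne
    linarith only [h0, c1, c2, this]
  subst hw
  refine ⟨rfl, ?_⟩
  by_contra hne
  have h1 : w + 1 / 2 + ζ ≠ w + 1 / 2 + ζ' := fun hc => hne (add_left_cancel hc).symm
  have := ph_anti a2.1 a2.2 b2.1 b2.2 h1
  linarith only [h0, c2, c3, this]

/-- The positively oriented solution of the gluing equations is unique. -/
theorem geom_unique {M : ℕ} {b : Fin (M + 1) → ℤ} {y y' : Fin M → ℂ} {ζ ζ' : Fin (M + 1) → ℂ}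
    (hM : 1 ≤ M) (h : Geom b y ζ) (h' : Geom b y' ζ') : y' = y ∧ ζ' = ζ := by
  have hc := (geom_iff hM h.pos_left h.pos_right).mp h
  have hc' := (geom_iff hM h'.pos_left h'.pos_right).mp h'
  -- the sum over the rings
  have key : ∑ j : Fin M, (rgd (y j) (ζ j.castSucc) (y' j) (ζ' j.castSucc) +
      rgd (y j) (ζ j.succ) (y' j) (ζ' j.succ)) = 0 := by
    have e1 : ∀ i, (starRingEnd ℂ) (ζ' i - ζ i) * (dz y' ζ' i - dz y ζ i) =
        -((starRingEnd ℂ) (ζ' i - ζ i) * (2 * Real.pi * Complex.I * b i * (ζ' i - ζ i))) := by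
      intro i
      have a1 := hc.crit_z i
      have a2 := hc'.crit_z i
      linear_combination (starRingEnd ℂ) (ζ' i - ζ i) * (a2 - a1)
    have e2 : ∑ i, ((starRingEnd ℂ) (ζ' i - ζ i) * (dz y' ζ' i - dz y ζ i)).re = 0 := by
      apply Finset.sum_eq_zero
      intro i _
      rw [e1]
      have e3 : (starRingEnd ℂ) (ζ' i - ζ i) * (2 * Real.pi * Complex.I * b i * (ζ' i - ζ i)) =
          ((2 * Real.pi * b i * Complex.normSq (ζ' i - ζ i) : ℝ) : ℂ) * Complex.I := by
        have := Complex.normSq_eq_conj_mul_self (z := ζ' i - ζ i)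
        push_cast
        rw [this]
        ring
      rw [e3]
      simp
    have e4 : ∑ i, (starRingEnd ℂ) (ζ' i - ζ i) * (dz y' ζ' i - dz y ζ i) =
        ∑ j : Fin M, ((starRingEnd ℂ) (ζ' j.castSucc - ζ j.castSucc) *
          (tz (y' j) (ζ' j.castSucc) - tz (y j) (ζ j.castSucc)) +
          (starRingEnd ℂ) (ζ' j.succ - ζ j.succ) *
          (tz (y' j) (ζ' j.succ) - tz (y j) (ζ j.succ))) := by
      have e5 : ∀ i, (starRingEnd ℂ) (ζ' i - ζ i) * (dz y' ζ' i - dz y ζ i) =
          ∑ j : Fin M, ((if j.castSucc = i then (starRingEnd ℂ) (ζ' j.castSucc - ζ j.castSucc) *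
          (tz (y' j) (ζ' j.castSucc) - tz (y j) (ζ j.castSucc)) else 0) +
          (if j.succ = i then (starRingEnd ℂ) (ζ' j.succ - ζ j.succ) *
          (tz (y' j) (ζ' j.succ) - tz (y j) (ζ j.succ)) else 0)) := by
        intro i
        unfold dz
        rw [← Finset.sum_sub_distrib, Finset.mul_sum]
        apply Finset.sum_congr rfl
        intro j _
        by_cases h1 : j.castSucc = i
        · by_cases h2 : j.succ = i
          · rw [if_pos h1, if_pos h1, if_pos h1, if_pos h2, if_pos h2, if_pos h2, h1, h2]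
            ring
          · rw [if_pos h1, if_pos h1, if_pos h1, if_neg h2, if_neg h2, if_neg h2, h1]
            ring
        · by_cases h2 : j.succ = i
          · rw [if_neg h1, if_neg h1, if_neg h1, if_pos h2, if_pos h2, if_pos h2, h2]
            ring
          · rw [if_neg h1, if_neg h1, if_neg h1, if_neg h2, if_neg h2, if_neg h2]
            ring
      rw [Finset.sum_congr rfl fun i _ => e5 i, Finset.sum_comm]
      apply Finset.sum_congr rfl
      intro j _
      rw [Finset.sum_add_distrib, Finset.sum_ite_eq, Finset.sum_ite_eq, if_pos (mem_univ _),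
        if_pos (mem_univ _)]
    rw [← Complex.re_sum, e4] at e2
    rw [Complex.re_sum] at e2
    rw [← e2]
    apply Finset.sum_congr rfl
    intro j _
    have t1 := hc.crit_y j
    have t2 := hc'.crit_y j
    unfold rgd
    rw [← Complex.add_re]
    congr 1
    unfold tw at t1 t2
    linear_combination (starRingEnd ℂ) (y' j - y j) * (t2 - t1)
  have hz : ∀ j ∈ (univ : Finset (Fin M)), (rgd (y j) (ζ j.castSucc) (y' j) (ζ' j.castSucc) +
      rgd (y j) (ζ j.succ) (y' j) (ζ' j.succ)) = 0 := by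
    refine (Finset.sum_eq_zero_iff_of_nonpos ?_).mp key
    intro j _
    exact add_nonpos (rgd_le (h.pos_left j) (h'.pos_left j))
      (rgd_le (h.pos_right j) (h'.pos_right j))
  have hz' : ∀ j : Fin M, (y' j = y j ∧ ζ' j.castSucc = ζ j.castSucc) ∧ ζ' j.succ = ζ j.succ := by
    intro j
    have h1 := hz j (mem_univ j)
    have h2 := rgd_le (h.pos_left j) (h'.pos_left j)
    have h3 := rgd_le (h.pos_right j) (h'.pos_right j)
    exact ⟨eq_of_rgd (h.pos_left j) (h'.pos_left j) (by linarith only [h1, h3, h2]),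
      (eq_of_rgd (h.pos_right j) (h'.pos_right j) (by linarith only [h1, h2, h3])).2⟩
  refine ⟨funext fun j => (hz' j).1.1, funext fun i => ?_⟩
  refine Fin.cases ?_ ?_ i
  · exact (hz' ⟨0, hM⟩).1.2
  · intro j
    exact (hz' j).2

end Pool.Agent.Work.MP_b30479_gtS.LT

end

section

/-!
# The real part of the second derivative of the potential is negative definite

Run by run (`Neg`): kernels of one and two crossings, the inner discrete variable of three crossings,
rings.
-/

namespace Pool.Agent.Work.MP_b30479_gtS.G2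

open Finset VOL
open Pool.Agent.Work.MP_b30479_gtS.LT

/-! ### quadratic forms -/

lemma form2_pos {a b c p q : ℝ} (ha : 0 < a) (hb : 0 < b) (hc : c * (a + b) < a * b)
    (h : p ≠ 0 ∨ q ≠ 0) : 0 < a * p ^ 2 + b * q ^ 2 - c * (p + q) ^ 2 := by
  have e : (a + b) * (a * p ^ 2 + b * q ^ 2 - c * (p + q) ^ 2) =
      (a * p - b * q) ^ 2 + (a * b - c * (a + b)) * (p + q) ^ 2 := by ring
  have h1 : 0 < (a + b) * (a * p ^ 2 + b * q ^ 2 - c * (p + q) ^ 2) := by
    rw [e]
    rcases eq_or_ne (p + q) 0 with h0 | h0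
    · have hq : q = -p := by linarith only [h0]
      have hp : p ≠ 0 := by
        rcases h with h | h
        · exact h
        · intro h'; apply h; rw [hq, h']; simp
      have : a * p - b * q = (a + b) * p := by rw [hq]; ring
      rw [this, h0]
      have : 0 < ((a + b) * p) ^ 2 := by positivity
      linarith only [this, this]
    · have : 0 < (a * b - c * (a + b)) * (p + q) ^ 2 := by
        have : 0 < a * b - c * (a + b) := by linarith only [hc]
        positivity
      have := sq_nonneg (a * p - b * q)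
      linarith
  exact (mul_pos_iff_of_pos_left (by positivity)).1 h1

lemma form2_pos' {a b c p q : ℝ} (ha : 0 ≤ a) (hb : 0 ≤ b) (hab : 0 < a + b) (hc : c < 0)
    (h : p ≠ 0 ∨ q ≠ 0) : 0 < a * p ^ 2 + b * q ^ 2 - c * (p + q) ^ 2 := by
  rcases eq_or_ne (p + q) 0 with h0 | h0
  · have hq : q = -p := by linarith only [h0]
    have hp : p ≠ 0 := by
      rcases h with h | h
      · exact h
      · intro h'; apply h; rw [hq, h']; simp
    have e : a * p ^ 2 + b * q ^ 2 - c * (p + q) ^ 2 = (a + b) * p ^ 2 := by rw [hq]; ring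
    rw [e]
    positivity
  · have h1 : 0 < -c * (p + q) ^ 2 := by
      have : 0 < -c := by linarith only [hc]
      positivity
    have h2 : 0 ≤ a * p ^ 2 := by positivity
    have h3 : 0 ≤ b * q ^ 2 := by positivity
    linarith only [h1, h2, h3]

lemma formR_pos {A B C p q : ℝ} (h1 : 0 < A + B) (h2 : 0 < 4 * A * B + C * (A + B))
    (h : p ≠ 0 ∨ q ≠ 0) : 0 < A * (p + q) ^ 2 + B * (p - q) ^ 2 + C * p ^ 2 := by
  have e : (A + B) * (A * (p + q) ^ 2 + B * (p - q) ^ 2 + C * p ^ 2) =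
      ((A + B) * q + (A - B) * p) ^ 2 + (4 * A * B + C * (A + B)) * p ^ 2 := by ring
  have h3 : 0 < (A + B) * (A * (p + q) ^ 2 + B * (p - q) ^ 2 + C * p ^ 2) := by
    rw [e]
    rcases eq_or_ne p 0 with h0 | h0
    · have hq : q ≠ 0 := by
        rcases h with h | h
        · exact absurd h0 h
        · exact h
      rw [h0]
      have : 0 < ((A + B) * q) ^ 2 := by positivity
      simpa using this
    · have : 0 < (4 * A * B + C * (A + B)) * p ^ 2 := by positivity
      have := sq_nonneg ((A + B) * q + (A - B) * p)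
      linarith
  exact (mul_pos_iff_of_pos_left h1).1 h3

lemma form3_pos {a m l b c p q r : ℝ} (ham : 0 < a + m) (hl : 0 < a * m + l * (a + m))
    (hb : 0 < b) (hc : c ≤ 0) (h : p ≠ 0 ∨ q ≠ 0 ∨ r ≠ 0) :
    0 < a * p ^ 2 + m * (p - q) ^ 2 + l * q ^ 2 + b * r ^ 2 - c * (q + r) ^ 2 := by
  have e : (a + m) * (a * p ^ 2 + m * (p - q) ^ 2 + l * q ^ 2) =
      ((a + m) * p - m * q) ^ 2 + (a * m + l * (a + m)) * q ^ 2 := by ring
  have h0 : 0 ≤ -c * (q + r) ^ 2 := mul_nonneg (by linarith only [hc]) (sq_nonneg _)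
  have h1 : 0 ≤ (a + m) * (a * p ^ 2 + m * (p - q) ^ 2 + l * q ^ 2) := by
    rw [e]; positivity
  have h2 : 0 ≤ a * p ^ 2 + m * (p - q) ^ 2 + l * q ^ 2 := nonneg_of_mul_nonneg_right h1 ham
  rcases eq_or_ne r 0 with hr | hr
  · have h3 : 0 < (a + m) * (a * p ^ 2 + m * (p - q) ^ 2 + l * q ^ 2) := by
      rw [e]
      rcases eq_or_ne q 0 with hq | hq
      · have hp : p ≠ 0 := by
          rcases h with h | h | h
          · exact h
          · exact absurd hq h
          · exact absurd hr h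
        rw [hq]
        have : 0 < ((a + m) * p) ^ 2 := by positivity
        simpa using this
      · have : 0 < (a * m + l * (a + m)) * q ^ 2 := by positivity
        have := sq_nonneg ((a + m) * p - m * q)
        linarith
    have h4 : 0 < a * p ^ 2 + m * (p - q) ^ 2 + l * q ^ 2 := (mul_pos_iff_of_pos_left ham).1 h3
    have h5 : 0 ≤ b * r ^ 2 := by positivity
    linarith only [h0, h4, h5]
  · have h5 : 0 < b * r ^ 2 := by positivity
    linarith only [h0, h2, h5]

/-! ### the cotangent -/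

lemma cot_form {u v : ℂ} (hu : 0 < u.re) (hv : 0 < v.re)
    (h : |u.re * v.im - v.re * u.im| < u.re + v.re) :
    ((u * v - 1) / (u + v)).re * (u.re + v.re) < u.re * v.re := by
  have hn : 0 < Complex.normSq (u + v) := by
    rw [Complex.normSq_apply]
    have h0 : 0 < (u + v).re := by simp only [Complex.add_re]; linarith only [hu, hv]
    nlinarith only [h0, mul_self_nonneg (u + v).im, mul_pos h0 h0]
  have hsq : (u.re * v.im - v.re * u.im) ^ 2 < (u.re + v.re) ^ 2 := by
    rw [← sq_abs]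
    exact pow_lt_pow_left₀ h (abs_nonneg _) two_ne_zero
  rw [Complex.div_re, ← add_div, div_mul_eq_mul_div, div_lt_iff₀ hn, Complex.normSq_apply]
  simp only [Complex.sub_re, Complex.mul_re, Complex.one_re, Complex.add_re, Complex.sub_im,
    Complex.mul_im, Complex.one_im, Complex.add_im, sub_zero]
  nlinarith only [hsq, hsq]

lemma ph'_add {w v : ℂ} (hw : w ∈ strip) (hv : v ∈ strip) (hwv : w + v ∈ strip) :
    ph' (w + v) = Real.pi * (((ph' w / Real.pi) * (ph' v / Real.pi) - 1) /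
      (ph' w / Real.pi + ph' v / Real.pi)) := by
  have hpi : (Real.pi : ℂ) ≠ 0 := Complex.ofReal_ne_zero.2 Real.pi_ne_zero
  have h1 := sin_pi_ne hw
  have h2 := sin_pi_ne hv
  have h3 := sin_pi_ne hwv
  have e1 : Complex.sin (Real.pi * (w + v)) = Complex.sin (Real.pi * w) * Complex.cos (Real.pi * v) +
      Complex.cos (Real.pi * w) * Complex.sin (Real.pi * v) := by
    rw [mul_add, Complex.sin_add]
  have e2 : Complex.cos (Real.pi * (w + v)) = Complex.cos (Real.pi * w) * Complex.cos (Real.pi * v) -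
      Complex.sin (Real.pi * w) * Complex.sin (Real.pi * v) := by
    rw [mul_add, Complex.cos_add]
  rw [e1] at h3
  unfold ph'
  rw [e1, e2]
  have h4 : Real.pi * Complex.cos (Real.pi * w) / Complex.sin (Real.pi * w) / Real.pi +
      Real.pi * Complex.cos (Real.pi * v) / Complex.sin (Real.pi * v) / Real.pi =
      (Complex.sin (Real.pi * w) * Complex.cos (Real.pi * v) +
      Complex.cos (Real.pi * w) * Complex.sin (Real.pi * v)) /
      (Complex.sin (Real.pi * w) * Complex.sin (Real.pi * v)) := by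
    field_simp
    ring
  have h5 : Real.pi * Complex.cos (Real.pi * w) / Complex.sin (Real.pi * w) / Real.pi *
      (Real.pi * Complex.cos (Real.pi * v) / Complex.sin (Real.pi * v) / Real.pi) - 1 =
      (Complex.cos (Real.pi * w) * Complex.cos (Real.pi * v) -
      Complex.sin (Real.pi * w) * Complex.sin (Real.pi * v)) /
      (Complex.sin (Real.pi * w) * Complex.sin (Real.pi * v)) := by
    field_simp
  rw [h4, h5, div_div_div_cancel_right₀ (mul_ne_zero h1 h2), mul_div_assoc]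

/-- the condition at a hinge of a kernel of one or two crossings: `|Im cot π w| < 1` -/
def Hg (w : ℂ) : Prop := 0 < w.re ∧ w.re < 1 / 2 ∧ |(ph' w).im| < Real.pi

lemma ph'_form {w v : ℂ} (hw : Hg w) (hv : Hg v) :
    (ph' (w + v)).re * ((ph' w).re + (ph' v).re) < (ph' w).re * (ph' v).re := by
  have hpi := Real.pi_pos
  have sw : w ∈ strip := ⟨hw.1, by linarith only [hw, hw.2.1]⟩
  have sv : v ∈ strip := ⟨hv.1, by linarith only [hv, hv.2.1]⟩
  have swv : w + v ∈ strip := ⟨by simp only [Complex.add_re]; linarith only [hw, hv, hw.1, hv.1],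
    by simp only [Complex.add_re]; linarith only [hw, hv, hw.2.1, hv.2.1]⟩
  have pw := ph'_re_pos hw.1 hw.2.1
  have pv := ph'_re_pos hv.1 hv.2.1
  have rw1 : (ph' w / Real.pi).re = (ph' w).re / Real.pi := by simp [Complex.div_ofReal_re]
  have rv1 : (ph' v / Real.pi).re = (ph' v).re / Real.pi := by simp [Complex.div_ofReal_re]
  have iw1 : (ph' w / Real.pi).im = (ph' w).im / Real.pi := by simp [Complex.div_ofReal_im]
  have iv1 : (ph' v / Real.pi).im = (ph' v).im / Real.pi := by simp [Complex.div_ofReal_im]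
  have hw2 : |(ph' w).im / Real.pi| < 1 := by
    rw [abs_div, abs_of_pos hpi, div_lt_one hpi]; exact hw.2.2
  have hv2 : |(ph' v).im / Real.pi| < 1 := by
    rw [abs_div, abs_of_pos hpi, div_lt_one hpi]; exact hv.2.2
  have qw : 0 < (ph' w).re / Real.pi := by positivity
  have qv : 0 < (ph' v).re / Real.pi := by positivity
  have key := cot_form (u := ph' w / Real.pi) (v := ph' v / Real.pi) (by rw [rw1]; exact qw)
    (by rw [rv1]; exact qv) (by
      rw [rw1, rv1, iw1, iv1]
      have h1 : |(ph' w).re / Real.pi * ((ph' v).im / Real.pi)| < (ph' w).re / Real.pi := by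
        rw [abs_mul, abs_of_pos qw]
        nlinarith only [hv2, qw, abs_nonneg ((ph' v).im / Real.pi)]
      have h2 : |(ph' v).re / Real.pi * ((ph' w).im / Real.pi)| < (ph' v).re / Real.pi := by
        rw [abs_mul, abs_of_pos qv]
        nlinarith only [hw2, qv, abs_nonneg ((ph' w).im / Real.pi)]
      exact (abs_sub _ _).trans_lt (by linarith only [h1, h2]))
  rw [rw1, rv1] at key
  rw [ph'_add sw sv swv, Complex.re_ofReal_mul]
  have e : Real.pi * (((ph' w / Real.pi) * (ph' v / Real.pi) - 1) /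
      (ph' w / Real.pi + ph' v / Real.pi)).re * ((ph' w).re + (ph' v).re) =
      Real.pi ^ 2 * ((((ph' w / Real.pi) * (ph' v / Real.pi) - 1) /
      (ph' w / Real.pi + ph' v / Real.pi)).re * ((ph' w).re / Real.pi + (ph' v).re / Real.pi)) := by
    field_simp
  have e' : (ph' w).re * (ph' v).re =
      Real.pi ^ 2 * ((ph' w).re / Real.pi * ((ph' v).re / Real.pi)) := by
    field_simp
  rw [e, e']
  exact mul_lt_mul_of_pos_left key (by positivity)

/-! ### one twist region -/

/-- the real part of the second derivative of the potential of a twist region is negative definite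
in the variables which occur -/
def Neg (t : Typ) (b : ℤ) (l r : Bool) (x : Fin 3 → ℂ) : Prop :=
  ∀ Y : Fin 3 → ℝ, (l = false → Y 0 = 0) → (r = false → Y 2 = 0) →
    (t.isMid = false → t.isRing = false → Y 1 = 0) → Y ≠ 0 →
    (lQ2 t b l r x fun p => (Y p : ℂ)).re < 0

lemma lQ2_re (t : Typ) (b : ℤ) (l r : Bool) (x : Fin 3 → ℂ) (Y : Fin 3 → ℝ) :
    (lQ2 t b l r x fun p => (Y p : ℂ)).re =
    ((facs t l r).map fun f => (ph' (f.form x)).re / 2 * (∑ p, f.α p * Y p) ^ 2).sum := by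
  have h1 : (un b * ∑ p, ∑ p', (qq2 t p p' : ℂ) * (Y p : ℂ) * (Y p' : ℂ)).re = 0 := by
    have : (∑ p, ∑ p', (qq2 t p p' : ℂ) * (Y p : ℂ) * (Y p' : ℂ)) =
        ((∑ p, ∑ p', (qq2 t p p' : ℝ) * Y p * Y p' : ℝ) : ℂ) := by push_cast; rfl
    rw [this, mul_comm, Complex.re_ofReal_mul]
    unfold un
    split_ifs <;> simp
  unfold lQ2
  rw [Complex.add_re, h1, zero_add]
  generalize facs t l r = L
  induction L with
  | nil => simp
  | cons f L ih =>
    rw [List.map_cons, List.sum_cons, List.map_cons, List.sum_cons, Complex.add_re, ih]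
    congr 1
    have : (∑ p, (f.α p : ℂ) * (Y p : ℂ)) = ((∑ p, (f.α p : ℝ) * Y p : ℝ) : ℂ) := by
      push_cast; rfl
    rw [this, ← Complex.ofReal_pow, mul_comm, Complex.re_ofReal_mul]
    have e2 : (ph' (f.form x) / 2).re = (ph' (f.form x)).re / 2 := by
      rw [show (2 : ℂ) = ((2 : ℝ) : ℂ) by norm_num, Complex.div_ofReal_re]
    rw [e2]
    ring

lemma fin3_ne {Y : Fin 3 → ℝ} (h : Y ≠ 0) : Y 0 ≠ 0 ∨ Y 1 ≠ 0 ∨ Y 2 ≠ 0 := by
  by_contra hc
  push Not at hc
  apply h
  ext p
  fin_cases p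
  · exact hc.1
  · exact hc.2.1
  · exact hc.2.2

lemma re_one_sub (w : ℂ) : (ph' (1 - w)).re = -(ph' w).re := by
  rw [LT.ph'_one_sub]; simp

lemma fm (f : Fac) (x : Fin 3 → ℂ) : f.form x = f.a + (f.α 0 * x 0 + f.α 1 * x 1 + f.α 2 * x 2) := by
  unfold Fac.form
  rw [Fin.sum_univ_three]

lemma re_neg_of_gt {w : ℂ} (h0 : 1 / 2 < w.re) (h1 : w.re < 1) : (ph' w).re < 0 := by
  have := re_one_sub w
  have h2 := ph'_re_pos (z := 1 - w) (by simp; linarith only [h1]) (by simp; linarith only [h0])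
  linarith only [this, h2]

lemma re_nonpos_of_ge {w : ℂ} (h0 : 1 / 2 ≤ w.re) (h1 : w.re < 1) : (ph' w).re ≤ 0 := by
  rcases eq_or_lt_of_le h0 with h | h
  · have e : Real.cos (Real.pi * (1 / 2)) = 0 := by rw [mul_one_div]; exact Real.cos_pi_div_two
    rw [ph'_re ⟨by linarith only [h0, h1], h1⟩, ← h, e]
    simp
  · exact (re_neg_of_gt h h1).le

lemma re_nonneg_of_le {w : ℂ} (h0 : 0 < w.re) (h1 : w.re ≤ 1 / 2) : 0 ≤ (ph' w).re := by
  rcases eq_or_lt_of_le h1 with h | h
  · have e : Real.cos (Real.pi * (1 / 2)) = 0 := by rw [mul_one_div]; exact Real.cos_pi_div_two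
    rw [ph'_re ⟨h0, by linarith only [h0, h1]⟩, h, e]
    simp
  · exact (ph'_re_pos h0 h).le

lemma one_re (b : ℤ) (x : Fin 3 → ℂ) (Y : Fin 3 → ℝ) (hY : Y 1 = 0) :
    (lQ2 .one b true true x fun p => (Y p : ℂ)).re =
    -((ph' (x 0)).re * Y 0 ^ 2 + (ph' (x 2)).re * Y 2 ^ 2 -
      (ph' (x 0 + x 2)).re * (Y 0 + Y 2) ^ 2) / 2 := by
  rw [lQ2_re]
  simp only [facs, Bool.or_self, if_true, List.map_append, List.map_cons, List.map_nil,
    List.sum_append, List.sum_cons, List.sum_nil, fm, Fin.sum_univ_three]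
  have e1 : ((0 : ℝ) : ℂ) + (((![1, 0, 1] : Fin 3 → ℤ) 0 : ℂ) * x 0 + ((![1, 0, 1] : Fin 3 → ℤ) 1 : ℂ) * x 1 +
      ((![1, 0, 1] : Fin 3 → ℤ) 2 : ℂ) * x 2) = x 0 + x 2 := by
    simp
  have e2 : ((1 : ℝ) : ℂ) + (((![-1, 0, 0] : Fin 3 → ℤ) 0 : ℂ) * x 0 +
      ((![-1, 0, 0] : Fin 3 → ℤ) 1 : ℂ) * x 1 + ((![-1, 0, 0] : Fin 3 → ℤ) 2 : ℂ) * x 2) = 1 - x 0 := by
    simp; ring
  have e3 : ((1 : ℝ) : ℂ) + (((![0, 0, -1] : Fin 3 → ℤ) 0 : ℂ) * x 0 +
      ((![0, 0, -1] : Fin 3 → ℤ) 1 : ℂ) * x 1 + ((![0, 0, -1] : Fin 3 → ℤ) 2 : ℂ) * x 2) = 1 - x 2 := by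
    simp; ring
  rw [e1, e2, e3, re_one_sub, re_one_sub]
  simp [hY]
  ring

/-- one crossing, both hinges small in the sense of `Hg` -/
theorem neg_one {b : ℤ} {x : Fin 3 → ℂ} (h0 : Hg (x 0)) (h2 : Hg (x 2)) :
    Neg .one b true true x := by
  intro Y _ _ h1 hY
  have hY1 : Y 1 = 0 := h1 rfl rfl
  have key := form2_pos (p := Y 0) (q := Y 2) (ph'_re_pos h0.1 h0.2.1) (ph'_re_pos h2.1 h2.2.1)
    (ph'_form h0 h2) (by rcases fin3_ne hY with h | h | h <;> simp_all)
  rw [one_re b x Y hY1]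
  linarith only [key]

/-- one crossing, `Re (w + w') > 1 / 2` -/
theorem neg_one' {b : ℤ} {x : Fin 3 → ℂ} (h0 : 0 < (x 0).re) (h0' : (x 0).re ≤ 1 / 2)
    (h2 : 0 < (x 2).re) (h2' : (x 2).re ≤ 1 / 2) (h : 1 / 2 < (x 0).re + (x 2).re)
    (h' : (x 0).re + (x 2).re < 1) : Neg .one b true true x := by
  intro Y _ _ h1 hY
  have hY1 : Y 1 = 0 := h1 rfl rfl
  have hab : 0 < (ph' (x 0)).re + (ph' (x 2)).re := by
    rcases eq_or_lt_of_le h0' with h3 | h3
    · have := re_nonneg_of_le h0 h0'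
      have := ph'_re_pos (z := x 2) h2 (by linarith only [h', h3])
      linarith
    · have := re_nonneg_of_le h2 h2'
      have := ph'_re_pos (z := x 0) h0 h3
      linarith
  have key := form2_pos' (p := Y 0) (q := Y 2) (re_nonneg_of_le h0 h0') (re_nonneg_of_le h2 h2') hab
    (re_neg_of_gt (w := x 0 + x 2) (by simpa using h) (by simpa using h'))
    (by rcases fin3_ne hY with h | h | h <;> simp_all)
  rw [one_re b x Y hY1]
  linarith only [key]

lemma two_re (b : ℤ) (x : Fin 3 → ℂ) (Y : Fin 3 → ℝ) (hY : Y 1 = 0) :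
    (lQ2 .two b true true x fun p => (Y p : ℂ)).re =
    -(2 * (ph' (x 0)).re * Y 0 ^ 2 + 2 * (ph' (x 2)).re * Y 2 ^ 2 -
      (ph' (x 0 + x 2)).re * (Y 0 + Y 2) ^ 2) / 2 := by
  rw [lQ2_re]
  simp only [facs, hL, hR, Bool.or_self, if_true, List.map_append, List.map_cons, List.map_nil,
    List.sum_append, List.sum_cons, List.sum_nil, fm, Fin.sum_univ_three]
  have e1 : ((0 : ℝ) : ℂ) + (((![1, 0, 1] : Fin 3 → ℤ) 0 : ℂ) * x 0 + ((![1, 0, 1] : Fin 3 → ℤ) 1 : ℂ) * x 1 +
      ((![1, 0, 1] : Fin 3 → ℤ) 2 : ℂ) * x 2) = x 0 + x 2 := by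
    simp
  have e2 : ((1 : ℝ) : ℂ) + (((![-1, 0, 0] : Fin 3 → ℤ) 0 : ℂ) * x 0 +
      ((![-1, 0, 0] : Fin 3 → ℤ) 1 : ℂ) * x 1 + ((![-1, 0, 0] : Fin 3 → ℤ) 2 : ℂ) * x 2) = 1 - x 0 := by
    simp; ring
  have e3 : ((1 : ℝ) : ℂ) + (((![0, 0, -1] : Fin 3 → ℤ) 0 : ℂ) * x 0 +
      ((![0, 0, -1] : Fin 3 → ℤ) 1 : ℂ) * x 1 + ((![0, 0, -1] : Fin 3 → ℤ) 2 : ℂ) * x 2) = 1 - x 2 := by
    simp; ring
  rw [e1, e2, e3, re_one_sub, re_one_sub]
  simp [hY]
  ring

/-- two crossings, both hinges small in the sense of `Hg` -/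
theorem neg_two {b : ℤ} {x : Fin 3 → ℂ} (h0 : Hg (x 0)) (h2 : Hg (x 2)) :
    Neg .two b true true x := by
  intro Y _ _ h1 hY
  have hY1 : Y 1 = 0 := h1 rfl rfl
  have p0 := ph'_re_pos h0.1 h0.2.1
  have p2 := ph'_re_pos h2.1 h2.2.1
  have key := form2_pos (a := 2 * (ph' (x 0)).re) (b := 2 * (ph' (x 2)).re)
    (c := (ph' (x 0 + x 2)).re) (p := Y 0) (q := Y 2) (by linarith only [p0]) (by linarith only [p2])
    (by nlinarith only [h0, h2, p0, p2, ph'_form h0 h2, mul_pos p0 p2])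
    (by rcases fin3_ne hY with h | h | h <;> simp_all)
  rw [two_re b x Y hY1]
  linarith only [key]

/-- two crossings at the left end -/
theorem neg_two_left {b : ℤ} {x : Fin 3 → ℂ} (h : x 0 = 0) (h0 : 0 < (x 2).re)
    (h2 : (x 2).re < 1 / 2) : Neg .two b false true x := by
  intro Y hl _ h1 hY
  have hY1 : Y 1 = 0 := h1 rfl rfl
  have hY0 : Y 0 = 0 := hl rfl
  have hY2 : Y 2 ≠ 0 := by rcases fin3_ne hY with h | h | h <;> simp_all
  have p0 := ph'_re_pos h0 h2
  rw [lQ2_re]
  simp only [facs, hL, hR, Bool.or_true, Bool.false_eq_true, if_false, if_true, List.map_append,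
    List.map_cons, List.map_nil, List.sum_append, List.sum_cons, List.sum_nil, fm,
    Fin.sum_univ_three]
  have e1 : ((0 : ℝ) : ℂ) + (((![1, 0, 1] : Fin 3 → ℤ) 0 : ℂ) * x 0 + ((![1, 0, 1] : Fin 3 → ℤ) 1 : ℂ) * x 1 +
      ((![1, 0, 1] : Fin 3 → ℤ) 2 : ℂ) * x 2) = x 2 := by
    simp [h]
  have e3 : ((1 : ℝ) : ℂ) + (((![0, 0, -1] : Fin 3 → ℤ) 0 : ℂ) * x 0 +
      ((![0, 0, -1] : Fin 3 → ℤ) 1 : ℂ) * x 1 + ((![0, 0, -1] : Fin 3 → ℤ) 2 : ℂ) * x 2) = 1 - x 2 := by
    simp; ring
  rw [e1, e3, re_one_sub]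
  simp [hY0, hY1]
  have : 0 < (ph' (x 2)).re * Y 2 ^ 2 := by positivity
  nlinarith only [this, this]

/-- two crossings at the right end -/
theorem neg_two_right {b : ℤ} {x : Fin 3 → ℂ} (h : x 2 = 0) (h0 : 0 < (x 0).re)
    (h2 : (x 0).re < 1 / 2) : Neg .two b true false x := by
  intro Y _ hr h1 hY
  have hY1 : Y 1 = 0 := h1 rfl rfl
  have hY0 : Y 2 = 0 := hr rfl
  have hY2 : Y 0 ≠ 0 := by rcases fin3_ne hY with h | h | h <;> simp_all
  have p0 := ph'_re_pos h0 h2
  rw [lQ2_re]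
  simp only [facs, hL, hR, Bool.or_false, Bool.false_eq_true, if_false, if_true, List.map_append,
    List.map_cons, List.map_nil, List.sum_append, List.sum_cons, List.sum_nil, fm,
    Fin.sum_univ_three]
  have e1 : ((0 : ℝ) : ℂ) + (((![1, 0, 1] : Fin 3 → ℤ) 0 : ℂ) * x 0 + ((![1, 0, 1] : Fin 3 → ℤ) 1 : ℂ) * x 1 +
      ((![1, 0, 1] : Fin 3 → ℤ) 2 : ℂ) * x 2) = x 0 := by
    simp [h]
  have e3 : ((1 : ℝ) : ℂ) + (((![-1, 0, 0] : Fin 3 → ℤ) 0 : ℂ) * x 0 +
      ((![-1, 0, 0] : Fin 3 → ℤ) 1 : ℂ) * x 1 + ((![-1, 0, 0] : Fin 3 → ℤ) 2 : ℂ) * x 2) = 1 - x 0 := by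
    simp; ring
  rw [e1, e3, re_one_sub]
  simp [hY0, hY1]
  have : 0 < (ph' (x 0)).re * Y 0 ^ 2 := by positivity
  nlinarith only [this, this]

/-! ### three crossings -/

/-- the conditions for the inner variable `l` of three crossings with `a1` at `w` -/
def Hl (w l : ℂ) : Prop := 0 < w.re ∧ w.re ≤ 1 / 2 ∧ 0 < l.re - w.re ∧ l.re - w.re ≤ 1 / 2 ∧
  0 < (ph' w).re * (ph' (l - w)).re + (ph' l).re * ((ph' w).re + (ph' (l - w)).re)

lemma Hl.add_pos {w l : ℂ} (h : Hl w l) : 0 < (ph' w).re + (ph' (l - w)).re := by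
  have h1 := re_nonneg_of_le h.1 h.2.1
  have h2 := re_nonneg_of_le (w := l - w) (by simpa using h.2.2.1) (by simpa using h.2.2.2.1)
  rcases eq_or_lt_of_le h1 with h3 | h3
  · rcases eq_or_lt_of_le h2 with h4 | h4
    · have := h.2.2.2.2
      rw [← h3, ← h4] at this
      simp at this
    · linarith only [h1, h4]
  · linarith only [h2, h3]

theorem neg_threeL {b : ℤ} {x : Fin 3 → ℂ} (h : Hl (x 0) (x 1)) (h0 : 0 < (x 2).re)
    (h1 : (x 2).re < 1 / 2) (h2 : 1 / 2 ≤ (x 1).re + (x 2).re) (h3 : (x 1).re + (x 2).re < 1) :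
    Neg .threeL b true true x := by
  intro Y _ _ _ hY
  have key := form3_pos (p := Y 0) (q := Y 1) (r := Y 2) h.add_pos h.2.2.2.2
    (b := 2 * (ph' (x 2)).re) (by linarith only [h0, h1, ph'_re_pos h0 h1])
    (re_nonpos_of_ge (w := x 1 + x 2) (by simpa using h2) (by simpa using h3)) (fin3_ne hY)
  rw [lQ2_re]
  simp only [facs, hR, if_true, List.map_append, List.map_cons, List.map_nil,
    List.sum_append, List.sum_cons, List.sum_nil, fm, Fin.sum_univ_three]
  have e1 : ((0 : ℝ) : ℂ) + (((![0, 1, 1] : Fin 3 → ℤ) 0 : ℂ) * x 0 + ((![0, 1, 1] : Fin 3 → ℤ) 1 : ℂ) * x 1 +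
      ((![0, 1, 1] : Fin 3 → ℤ) 2 : ℂ) * x 2) = x 1 + x 2 := by
    simp
  have e2 : ((1 : ℝ) : ℂ) + (((![1, -1, 0] : Fin 3 → ℤ) 0 : ℂ) * x 0 +
      ((![1, -1, 0] : Fin 3 → ℤ) 1 : ℂ) * x 1 + ((![1, -1, 0] : Fin 3 → ℤ) 2 : ℂ) * x 2) =
      1 - (x 1 - x 0) := by
    simp; ring
  have e3 : ((1 : ℝ) : ℂ) + (((![0, -1, 0] : Fin 3 → ℤ) 0 : ℂ) * x 0 +
      ((![0, -1, 0] : Fin 3 → ℤ) 1 : ℂ) * x 1 + ((![0, -1, 0] : Fin 3 → ℤ) 2 : ℂ) * x 2) = 1 - x 1 := by
    simp; ring
  have e4 : ((1 : ℝ) : ℂ) + (((![-1, 0, 0] : Fin 3 → ℤ) 0 : ℂ) * x 0 +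
      ((![-1, 0, 0] : Fin 3 → ℤ) 1 : ℂ) * x 1 + ((![-1, 0, 0] : Fin 3 → ℤ) 2 : ℂ) * x 2) = 1 - x 0 := by
    simp; ring
  have e5 : ((1 : ℝ) : ℂ) + (((![0, 0, -1] : Fin 3 → ℤ) 0 : ℂ) * x 0 +
      ((![0, 0, -1] : Fin 3 → ℤ) 1 : ℂ) * x 1 + ((![0, 0, -1] : Fin 3 → ℤ) 2 : ℂ) * x 2) = 1 - x 2 := by
    simp; ring
  rw [e1, e2, e3, e4, e5, re_one_sub, re_one_sub, re_one_sub, re_one_sub]
  simp
  nlinarith only [key, key]

theorem neg_threeR {b : ℤ} {x : Fin 3 → ℂ} (h : Hl (x 2) (x 1)) (h0 : 0 < (x 0).re)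
    (h1 : (x 0).re < 1 / 2) (h2 : 1 / 2 ≤ (x 1).re + (x 0).re) (h3 : (x 1).re + (x 0).re < 1) :
    Neg .threeR b true true x := by
  intro Y _ _ _ hY
  have key := form3_pos (p := Y 2) (q := Y 1) (r := Y 0) h.add_pos h.2.2.2.2
    (b := 2 * (ph' (x 0)).re) (by linarith only [h0, h1, ph'_re_pos h0 h1])
    (re_nonpos_of_ge (w := x 0 + x 1) (by simp; linarith only [h2]) (by simp; linarith only [h3]))
    (by rcases fin3_ne hY with h | h | h <;> simp [h])
  rw [lQ2_re]
  simp only [facs, hL, if_true, List.map_append, List.map_cons, List.map_nil,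
    List.sum_append, List.sum_cons, List.sum_nil, fm, Fin.sum_univ_three]
  have e1 : ((0 : ℝ) : ℂ) + (((![1, 1, 0] : Fin 3 → ℤ) 0 : ℂ) * x 0 + ((![1, 1, 0] : Fin 3 → ℤ) 1 : ℂ) * x 1 +
      ((![1, 1, 0] : Fin 3 → ℤ) 2 : ℂ) * x 2) = x 0 + x 1 := by
    simp
  have e2 : ((1 : ℝ) : ℂ) + (((![0, -1, 1] : Fin 3 → ℤ) 0 : ℂ) * x 0 +
      ((![0, -1, 1] : Fin 3 → ℤ) 1 : ℂ) * x 1 + ((![0, -1, 1] : Fin 3 → ℤ) 2 : ℂ) * x 2) =
      1 - (x 1 - x 2) := by
    simp; ring
  have e3 : ((1 : ℝ) : ℂ) + (((![0, -1, 0] : Fin 3 → ℤ) 0 : ℂ) * x 0 +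
      ((![0, -1, 0] : Fin 3 → ℤ) 1 : ℂ) * x 1 + ((![0, -1, 0] : Fin 3 → ℤ) 2 : ℂ) * x 2) = 1 - x 1 := by
    simp; ring
  have e4 : ((1 : ℝ) : ℂ) + (((![-1, 0, 0] : Fin 3 → ℤ) 0 : ℂ) * x 0 +
      ((![-1, 0, 0] : Fin 3 → ℤ) 1 : ℂ) * x 1 + ((![-1, 0, 0] : Fin 3 → ℤ) 2 : ℂ) * x 2) = 1 - x 0 := by
    simp; ring
  have e5 : ((1 : ℝ) : ℂ) + (((![0, 0, -1] : Fin 3 → ℤ) 0 : ℂ) * x 0 +
      ((![0, 0, -1] : Fin 3 → ℤ) 1 : ℂ) * x 1 + ((![0, 0, -1] : Fin 3 → ℤ) 2 : ℂ) * x 2) = 1 - x 2 := by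
    simp; ring
  rw [e1, e2, e3, e4, e5, re_one_sub, re_one_sub, re_one_sub, re_one_sub]
  simp
  nlinarith only [key, key]

/-- three crossings at the left end, `a1` at the right hinge -/
theorem neg_three_left {b : ℤ} {x : Fin 3 → ℂ} (h : x 0 = 0) (h0 : 0 < (x 2).re)
    (h1 : (x 2).re < 1 / 2) (h2 : 0 < (x 1).re - (x 2).re) (h3 : (x 1).re - (x 2).re < 1 / 2) :
    Neg .threeR b false true x := by
  intro Y hl _ _ hY
  have hY0 : Y 0 = 0 := hl rfl
  have p1 := ph'_re_pos h0 h1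
  have p2 := ph'_re_pos (z := x 1 - x 2) (by simpa using h2) (by simpa using h3)
  rw [lQ2_re]
  simp only [facs, hL, if_true, Bool.false_eq_true, if_false, List.map_append, List.map_cons,
    List.map_nil, List.sum_append, List.sum_cons, List.sum_nil, fm, Fin.sum_univ_three]
  have e1 : ((0 : ℝ) : ℂ) + (((![1, 1, 0] : Fin 3 → ℤ) 0 : ℂ) * x 0 + ((![1, 1, 0] : Fin 3 → ℤ) 1 : ℂ) * x 1 +
      ((![1, 1, 0] : Fin 3 → ℤ) 2 : ℂ) * x 2) = x 1 := by
    simp [h]
  have e2 : ((1 : ℝ) : ℂ) + (((![0, -1, 1] : Fin 3 → ℤ) 0 : ℂ) * x 0 +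
      ((![0, -1, 1] : Fin 3 → ℤ) 1 : ℂ) * x 1 + ((![0, -1, 1] : Fin 3 → ℤ) 2 : ℂ) * x 2) =
      1 - (x 1 - x 2) := by
    simp; ring
  have e3 : ((1 : ℝ) : ℂ) + (((![0, -1, 0] : Fin 3 → ℤ) 0 : ℂ) * x 0 +
      ((![0, -1, 0] : Fin 3 → ℤ) 1 : ℂ) * x 1 + ((![0, -1, 0] : Fin 3 → ℤ) 2 : ℂ) * x 2) = 1 - x 1 := by
    simp; ring
  have e5 : ((1 : ℝ) : ℂ) + (((![0, 0, -1] : Fin 3 → ℤ) 0 : ℂ) * x 0 +
      ((![0, 0, -1] : Fin 3 → ℤ) 1 : ℂ) * x 1 + ((![0, 0, -1] : Fin 3 → ℤ) 2 : ℂ) * x 2) = 1 - x 2 := by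
    simp; ring
  rw [e1, e2, e3, e5, re_one_sub, re_one_sub, re_one_sub]
  simp [hY0]
  have key : 0 < (ph' (x 1 - x 2)).re * (Y 2 - Y 1) ^ 2 + (ph' (x 2)).re * Y 2 ^ 2 := by
    rcases eq_or_ne (Y 2) 0 with h4 | h4
    · have h5 : Y 1 ≠ 0 := by rcases fin3_ne hY with h | h | h <;> simp_all
      have : 0 < (ph' (x 1 - x 2)).re * Y 1 ^ 2 := by positivity
      rw [h4]
      nlinarith only [this, this]
    · have : 0 < (ph' (x 2)).re * Y 2 ^ 2 := by positivity
      have : 0 ≤ (ph' (x 1 - x 2)).re * (Y 2 - Y 1) ^ 2 := by positivity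
      linarith
  nlinarith only [key, key]

/-- three crossings at the right end, `a1` at the left hinge -/
theorem neg_three_right {b : ℤ} {x : Fin 3 → ℂ} (h : x 2 = 0) (h0 : 0 < (x 0).re)
    (h1 : (x 0).re < 1 / 2) (h2 : 0 < (x 1).re - (x 0).re) (h3 : (x 1).re - (x 0).re < 1 / 2) :
    Neg .threeL b true false x := by
  intro Y _ hr _ hY
  have hY0 : Y 2 = 0 := hr rfl
  have p1 := ph'_re_pos h0 h1
  have p2 := ph'_re_pos (z := x 1 - x 0) (by simpa using h2) (by simpa using h3)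
  rw [lQ2_re]
  simp only [facs, hR, if_true, Bool.false_eq_true, if_false, List.map_append, List.map_cons,
    List.map_nil, List.sum_append, List.sum_cons, List.sum_nil, fm, Fin.sum_univ_three]
  have e1 : ((0 : ℝ) : ℂ) + (((![0, 1, 1] : Fin 3 → ℤ) 0 : ℂ) * x 0 + ((![0, 1, 1] : Fin 3 → ℤ) 1 : ℂ) * x 1 +
      ((![0, 1, 1] : Fin 3 → ℤ) 2 : ℂ) * x 2) = x 1 := by
    simp [h]
  have e2 : ((1 : ℝ) : ℂ) + (((![1, -1, 0] : Fin 3 → ℤ) 0 : ℂ) * x 0 +
      ((![1, -1, 0] : Fin 3 → ℤ) 1 : ℂ) * x 1 + ((![1, -1, 0] : Fin 3 → ℤ) 2 : ℂ) * x 2) =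
      1 - (x 1 - x 0) := by
    simp; ring
  have e3 : ((1 : ℝ) : ℂ) + (((![0, -1, 0] : Fin 3 → ℤ) 0 : ℂ) * x 0 +
      ((![0, -1, 0] : Fin 3 → ℤ) 1 : ℂ) * x 1 + ((![0, -1, 0] : Fin 3 → ℤ) 2 : ℂ) * x 2) = 1 - x 1 := by
    simp; ring
  have e5 : ((1 : ℝ) : ℂ) + (((![-1, 0, 0] : Fin 3 → ℤ) 0 : ℂ) * x 0 +
      ((![-1, 0, 0] : Fin 3 → ℤ) 1 : ℂ) * x 1 + ((![-1, 0, 0] : Fin 3 → ℤ) 2 : ℂ) * x 2) = 1 - x 0 := by
    simp; ring
  rw [e1, e2, e3, e5, re_one_sub, re_one_sub, re_one_sub]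
  simp [hY0]
  have key : 0 < (ph' (x 1 - x 0)).re * (Y 0 - Y 1) ^ 2 + (ph' (x 0)).re * Y 0 ^ 2 := by
    rcases eq_or_ne (Y 0) 0 with h4 | h4
    · have h5 : Y 1 ≠ 0 := by rcases fin3_ne hY with h | h | h <;> simp_all
      have : 0 < (ph' (x 1 - x 0)).re * Y 1 ^ 2 := by positivity
      rw [h4]
      nlinarith only [this, this]
    · have : 0 < (ph' (x 0)).re * Y 0 ^ 2 := by positivity
      have : 0 ≤ (ph' (x 1 - x 0)).re * (Y 0 - Y 1) ^ 2 := by positivity
      linarith
  nlinarith only [key, key]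

/-! ### rings -/

/-- the conditions at a hinge `w` of a ring `ζ` -/
def Hr (w ζ : ℂ) : Prop :=
  0 < -(ph' (w + 1 / 2 + ζ)).re - (ph' (w + 1 / 2 - ζ)).re ∧
  0 < 4 * (ph' (w + 1 / 2 + ζ)).re * (ph' (w + 1 / 2 - ζ)).re +
    2 * (ph' w).re * (-(ph' (w + 1 / 2 + ζ)).re - (ph' (w + 1 / 2 - ζ)).re)

lemma Hr.pos {w ζ : ℂ} (h : Hr w ζ) {p q : ℝ} (hpq : p ≠ 0 ∨ q ≠ 0) :
    0 < -(ph' (w + 1 / 2 + ζ)).re * (p + q) ^ 2 + -(ph' (w + 1 / 2 - ζ)).re * (p - q) ^ 2 +
      2 * (ph' w).re * p ^ 2 :=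
  formR_pos (by linarith only [h, h.1]) (by linarith only [h, h.2]) hpq

/-- the condition `Hr` when all angles are positive -/
theorem Hr_of {w ζ : ℂ} (h0 : 0 < w.re) (h1 : w.re < 1 / 2) (h2 : |ζ.re| < w.re)
    (h3 : |ζ.re| < 1 / 2 - w.re) : Hr w ζ := by
  have a2 := abs_lt.1 h2
  have a3 := abs_lt.1 h3
  have A := re_neg_of_gt (w := w + 1 / 2 + ζ) (by simp; linarith only [a2]) (by simp; linarith only [a3])
  have B := re_neg_of_gt (w := w + 1 / 2 - ζ) (by simp; linarith only [a2]) (by simp; linarith only [a3])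
  have C := ph'_re_pos h0 h1
  refine ⟨by linarith only [A, B], ?_⟩
  have h4 : 0 < (ph' (w + 1 / 2 + ζ)).re * (ph' (w + 1 / 2 - ζ)).re := mul_pos_of_neg_of_neg A B
  have h5 : 0 < (ph' w).re * (-(ph' (w + 1 / 2 + ζ)).re - (ph' (w + 1 / 2 - ζ)).re) :=
    mul_pos C (by linarith only [A, B])
  nlinarith only [h4, h5]

lemma ring_left_re (x : Fin 3 → ℂ) (Y : Fin 3 → ℝ) (l r : Bool) (b : ℤ) :
    (lQ2 .ring b l r x fun p => (Y p : ℂ)).re =
    -((if l then -(ph' (x 0 + 1 / 2 + x 1)).re * (Y 0 + Y 1) ^ 2 +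
      -(ph' (x 0 + 1 / 2 - x 1)).re * (Y 0 - Y 1) ^ 2 + 2 * (ph' (x 0)).re * Y 0 ^ 2 else 0) +
    (if r then -(ph' (x 2 + 1 / 2 + x 1)).re * (Y 2 + Y 1) ^ 2 +
      -(ph' (x 2 + 1 / 2 - x 1)).re * (Y 2 - Y 1) ^ 2 + 2 * (ph' (x 2)).re * Y 2 ^ 2 else 0)) / 2 := by
  have e1 : ((1 / 2 : ℝ) : ℂ) + (((![1, 1, 0] : Fin 3 → ℤ) 0 : ℂ) * x 0 +
      ((![1, 1, 0] : Fin 3 → ℤ) 1 : ℂ) * x 1 + ((![1, 1, 0] : Fin 3 → ℤ) 2 : ℂ) * x 2) =
      x 0 + 1 / 2 + x 1 := by
    simp; ring
  have e2 : ((1 / 2 : ℝ) : ℂ) + (((![1, -1, 0] : Fin 3 → ℤ) 0 : ℂ) * x 0 +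
      ((![1, -1, 0] : Fin 3 → ℤ) 1 : ℂ) * x 1 + ((![1, -1, 0] : Fin 3 → ℤ) 2 : ℂ) * x 2) =
      x 0 + 1 / 2 - x 1 := by
    simp; ring
  have e3 : ((1 / 2 : ℝ) : ℂ) + (((![0, 1, 1] : Fin 3 → ℤ) 0 : ℂ) * x 0 +
      ((![0, 1, 1] : Fin 3 → ℤ) 1 : ℂ) * x 1 + ((![0, 1, 1] : Fin 3 → ℤ) 2 : ℂ) * x 2) =
      x 2 + 1 / 2 + x 1 := by
    simp; ring
  have e4 : ((1 / 2 : ℝ) : ℂ) + (((![0, -1, 1] : Fin 3 → ℤ) 0 : ℂ) * x 0 +
      ((![0, -1, 1] : Fin 3 → ℤ) 1 : ℂ) * x 1 + ((![0, -1, 1] : Fin 3 → ℤ) 2 : ℂ) * x 2) =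
      x 2 + 1 / 2 - x 1 := by
    simp; ring
  have e5 : ((1 : ℝ) : ℂ) + (((![-1, 0, 0] : Fin 3 → ℤ) 0 : ℂ) * x 0 +
      ((![-1, 0, 0] : Fin 3 → ℤ) 1 : ℂ) * x 1 + ((![-1, 0, 0] : Fin 3 → ℤ) 2 : ℂ) * x 2) = 1 - x 0 := by
    simp; ring
  have e6 : ((1 : ℝ) : ℂ) + (((![0, 0, -1] : Fin 3 → ℤ) 0 : ℂ) * x 0 +
      ((![0, 0, -1] : Fin 3 → ℤ) 1 : ℂ) * x 1 + ((![0, 0, -1] : Fin 3 → ℤ) 2 : ℂ) * x 2) = 1 - x 2 := by
    simp; ring
  rw [lQ2_re]
  cases l <;> cases r <;>
  simp only [facs, hL, hR, if_true, Bool.false_eq_true, if_false, List.map_append, List.map_cons,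
    List.map_nil, List.sum_append, List.sum_cons, List.sum_nil, fm, Fin.sum_univ_three, e1, e2, e3,
    e4, e5, e6, re_one_sub] <;> simp <;> ring

/-- a ring -/
theorem neg_ring {b : ℤ} {x : Fin 3 → ℂ} {l r : Bool} (hlr : l = true ∨ r = true)
    (hl : l = true → Hr (x 0) (x 1)) (hr : r = true → Hr (x 2) (x 1)) : Neg .ring b l r x := by
  intro Y h0 h2 _ hY
  rw [ring_left_re]
  have n0 : ∀ {w ζ : ℂ}, Hr w ζ → ∀ p q : ℝ, 0 ≤ -(ph' (w + 1 / 2 + ζ)).re * (p + q) ^ 2 +
      -(ph' (w + 1 / 2 - ζ)).re * (p - q) ^ 2 + 2 * (ph' w).re * p ^ 2 := by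
    intro w ζ h p q
    rcases eq_or_ne p 0 with hp | hp
    · rcases eq_or_ne q 0 with hq | hq
      · simp [hp, hq]
      · exact (h.pos (Or.inr hq)).le
    · exact (h.pos (Or.inl hp)).le
  have hY' := fin3_ne hY
  cases l with
  | true =>
    cases r with
    | true =>
      simp only [if_true]
      have m0 := n0 (hl rfl) (Y 0) (Y 1)
      have m2 := n0 (hr rfl) (Y 2) (Y 1)
      rcases hY' with h | h | h
      · have := (hl rfl).pos (p := Y 0) (q := Y 1) (Or.inl h)
        linarith only [m2, this]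
      · have := (hl rfl).pos (p := Y 0) (q := Y 1) (Or.inr h)
        linarith only [m2, this]
      · have := (hr rfl).pos (p := Y 2) (q := Y 1) (Or.inl h)
        linarith only [m0, this]
    | false =>
      have hr0 : Y 2 = 0 := h2 rfl
      have := (hl rfl).pos (p := Y 0) (q := Y 1) (by rcases hY' with h | h | h <;> simp_all)
      simp only [if_true, Bool.false_eq_true, if_false]
      linarith only [this]
  | false =>
    have hl0 : Y 0 = 0 := h0 rfl
    have hrt : r = true := by simpa using hlr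
    subst hrt
    have := (hr rfl).pos (p := Y 2) (q := Y 1) (by rcases hY' with h | h | h <;> simp_all)
    simp only [if_true, Bool.false_eq_true, if_false]
    linarith only [this]

/-! ### the whole word -/

section
variable {M : ℕ} (t : Fin (M + 1) → Typ) (b : Fin (M + 1) → ℤ) (z : DD t ⊕ ZZ t → ℂ)

/-- the real local variables -/
noncomputable def yy (i : Fin (M + 1)) (X : DD t ⊕ ZZ t → ℝ) (p : Fin 3) : ℝ := ∑ j, cf t i p j * X j

lemma xx_ofReal (i : Fin (M + 1)) (X : DD t ⊕ ZZ t → ℝ) :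
    xx t i (fun j => (X j : ℂ)) = fun p => (yy t i X p : ℂ) := by
  ext p
  unfold xx yy
  push_cast
  rfl

theorem hess_of (h : ∀ i, Neg (t i) (b i) (decide (i ≠ 0)) (decide (i ≠ Fin.last M))
    (xx t i z)) (X : DD t ⊕ ZZ t → ℝ) (hX : X ≠ 0) : ((wdat t b).Q2 z X).re < 0 := by
  have hv0 : ∀ i, decide (i ≠ (0 : Fin (M + 1))) = false → yy t i X 0 = 0 := by
    intro i hi
    have hi0 : i = 0 := by simpa using hi
    have e := congrFun (xx_ofReal t i X) 0
    rw [hi0, xx_left_zero] at e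
    rw [hi0]
    exact_mod_cast e.symm
  have hv2 : ∀ i, decide (i ≠ Fin.last M) = false → yy t i X 2 = 0 := by
    intro i hi
    have hi0 : i = Fin.last M := by simpa using hi
    have e := congrFun (xx_ofReal t i X) 2
    rw [hi0, xx_right_last] at e
    rw [hi0]
    exact_mod_cast e.symm
  have hv1 : ∀ i, (t i).isMid = false → (t i).isRing = false → yy t i X 1 = 0 := by
    intro i h1 h2
    unfold yy
    refine Finset.sum_eq_zero fun j _ => ?_
    rcases j with (j | m) | v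
    · simp [cf]
    · have : m.1 ≠ i := fun h => by have := m.2; rw [h, h1] at this; exact absurd this (by simp)
      simp [cf, this]
    · have : v.1 ≠ i := fun h => by have := v.2; rw [h, h2] at this; exact absurd this (by simp)
      simp [cf, this]
  have hle : ∀ i, (lQ2 (t i) (b i) (decide (i ≠ 0)) (decide (i ≠ Fin.last M)) (xx t i z)
      fun p => (yy t i X p : ℂ)).re ≤ 0 := by
    intro i
    rcases eq_or_ne (yy t i X) 0 with h0 | h0
    · rw [lQ2_re, h0]
      simp
    · exact (h i _ (hv0 i) (hv2 i) (hv1 i) h0).le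
  have hlt : ∃ i, (lQ2 (t i) (b i) (decide (i ≠ 0)) (decide (i ≠ Fin.last M)) (xx t i z)
      fun p => (yy t i X p : ℂ)).re < 0 := by
    obtain ⟨j, hj⟩ := Function.ne_iff.1 hX
    have hj' : X j ≠ 0 := hj
    rcases j with (j | m) | v
    · refine ⟨j.succ, h _ _ (hv0 _) (hv2 _) (hv1 _) ?_⟩
      intro h0
      have e := congrFun (xx_ofReal t j.succ X) 0
      rw [xx_left, h0] at e
      exact hj' (by exact_mod_cast e)
    · refine ⟨m.1, h _ _ (hv0 _) (hv2 _) (hv1 _) ?_⟩
      intro h0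
      have e := congrFun (xx_ofReal t m.1 X) 1
      rw [xx_mid t m.2, h0] at e
      exact hj' (by exact_mod_cast e)
    · refine ⟨v.1, h _ _ (hv0 _) (hv2 _) (hv1 _) ?_⟩
      intro h0
      have e := congrFun (xx_ofReal t v.1 X) 1
      rw [xx_ring t v.2, h0] at e
      exact hj' (by exact_mod_cast e)
  rw [wdat_Q2]
  have hring : (∑ v : ZZ t, Real.pi * Complex.I * b v.1 * (X (.inr v) : ℂ) ^ 2).re = 0 := by
    rw [Complex.re_sum]
    refine Finset.sum_eq_zero fun v _ => ?_
    have : (Real.pi : ℂ) * Complex.I * b v.1 * (X (.inr v) : ℂ) ^ 2 =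
        ((Real.pi * b v.1 * X (.inr v) ^ 2 : ℝ) : ℂ) * Complex.I := by
      push_cast; ring
    rw [this, Complex.re_ofReal_mul]
    simp
  rw [Complex.add_re, hring, add_zero, Complex.re_sum]
  simp_rw [xx_ofReal]
  obtain ⟨i, hi⟩ := hlt
  exact Finset.sum_neg' (fun i _ => hle i) ⟨i, Finset.mem_univ _, hi⟩

end

end Pool.Agent.Work.MP_b30479_gtS.G2

end

section

/-!
# The saddle point structure from local conditions
-/

namespace Pool.Agent.Work.MP_b30479_gtS.G2

open Finset VOL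

/-- the condition at a hinge `w` of a kernel with one crossing with the other variable `w'` -/
def K1s (b : ℤ) (w w' : ℂ) : Prop :=
  |(jj b * (Real.pi * (1 - w')) + ph (w + w') - ph (1 - w)).im| < Real.pi

/-- the local conditions at the saddle point; `b`: the digit (only its sign is used) -/
def RunOk (b : ℤ) : Typ → Bool → Bool → (Fin 3 → ℂ) → Prop
  | .one, true, true, x => 0 < (x 0).re ∧ (x 0).re < 1 / 2 ∧ 0 < (x 2).re ∧ (x 2).re < 1 / 2 ∧
      K1s b (x 0) (x 2) ∧ K1s b (x 2) (x 0) ∧ ((Hg (x 0) ∧ Hg (x 2)) ∨ 1 / 2 < (x 0).re + (x 2).re)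
  | .two, true, true, x => Hg (x 0) ∧ Hg (x 2) ∧ K2 (x 0) (x 2) ∧ K2 (x 2) (x 0)
  | .two, true, false, x => x 2 = 0 ∧ 0 < (x 0).re ∧ (x 0).re < 1 / 2
  | .two, false, true, x => x 0 = 0 ∧ 0 < (x 2).re ∧ (x 2).re < 1 / 2
  | .threeL, true, true, x => Hl (x 0) (x 1) ∧ (x 0).re < 1 / 2 ∧ 0 < (x 2).re ∧
      (x 2).re < 1 / 2 ∧ 1 / 2 ≤ (x 1).re + (x 2).re ∧ (x 1).re + (x 2).re < 1 ∧
      (x 1).re ≤ (x 2).re + 1 / 2
  | .threeL, true, false, x => x 2 = 0 ∧ 0 < (x 0).re ∧ (x 0).re < 1 / 2 ∧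
      0 < (x 1).re - (x 0).re ∧ (x 1).re - (x 0).re < 1 / 2
  | .threeR, true, true, x => Hl (x 2) (x 1) ∧ (x 2).re < 1 / 2 ∧ 0 < (x 0).re ∧
      (x 0).re < 1 / 2 ∧ 1 / 2 ≤ (x 1).re + (x 0).re ∧ (x 1).re + (x 0).re < 1 ∧
      (x 1).re ≤ (x 0).re + 1 / 2
  | .threeR, false, true, x => x 0 = 0 ∧ 0 < (x 2).re ∧ (x 2).re < 1 / 2 ∧
      0 < (x 1).re - (x 2).re ∧ (x 1).re - (x 2).re < 1 / 2
  | .ring, l, r, x => (l = true ∨ r = true) ∧ (l = true → KZ (x 0) (x 1) ∧ Hr (x 0) (x 1)) ∧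
      (r = true → KZ (x 2) (x 1) ∧ Hr (x 2) (x 1))
  | _, _, _, _ => False

variable {T : Typ} {b : ℤ} {l r : Bool} {x : Fin 3 → ℂ}

theorem RunOk.sideIm (h : RunOk b T l r x) : SideIm T b l r x := by
  cases T
  case one =>
    cases l <;> cases r <;> simp only [RunOk] at h
    obtain ⟨h1, h2, h3, h4, h5, h6, _⟩ := h
    refine ⟨fun _ => ?_, fun _ => ?_⟩
    · rw [ldT_one_zero]
      exact h5
    · rw [ldT_one_two, add_comm (x 0) (x 2)]
      exact h6
  case two =>
    cases l <;> cases r <;> simp only [RunOk] at h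
    · exact sideIm_two_left h.1 h.2.1 h.2.2
    · exact sideIm_two_right h.1 h.2.1 h.2.2
    · obtain ⟨h1, h2, h3, h4⟩ := h
      exact sideIm_two h1.1 h1.2.1 h2.1 h2.2.1 h3 h4
  case threeL =>
    cases l <;> cases r <;> simp only [RunOk] at h
    · obtain ⟨h0, h1, h2, h3, h4⟩ := h
      exact sideIm_threeL h1 h2 h3 h4.le fun h => absurd h (by decide)
    · obtain ⟨h1, h2, h3, h4, h5, h6, h7⟩ := h
      exact sideIm_threeL h1.1 h2 h1.2.2.1 h1.2.2.2.1 fun _ => ⟨h3, h4, h6, h7, Or.inl (by linarith only [h5])⟩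
  case threeR =>
    cases l <;> cases r <;> simp only [RunOk] at h
    · obtain ⟨h0, h1, h2, h3, h4⟩ := h
      exact sideIm_threeR h1 h2 h3 h4.le fun h => absurd h (by decide)
    · obtain ⟨h1, h2, h3, h4, h5, h6, h7⟩ := h
      exact sideIm_threeR h1.1 h2 h1.2.2.1 h1.2.2.2.1 fun _ => ⟨h3, h4, by linarith only [h6], h7,
        Or.inl (by linarith only [h5])⟩
  case ring =>
    obtain ⟨_, h1, h2⟩ := h
    exact sideIm_ring (fun hl => (h1 hl).1) fun hr => (h2 hr).1
  all_goals cases l <;> cases r <;> simp only [RunOk] at h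

theorem RunOk.neg {c : ℤ} (h : RunOk c T l r x) : Neg T b l r x := by
  cases T
  case one =>
    cases l <;> cases r <;> simp only [RunOk] at h
    obtain ⟨h1, h2, h3, h4, h5, h6, h7⟩ := h
    rcases h7 with ⟨h7, h8⟩ | h7
    · exact neg_one h7 h8
    · exact neg_one' h1 h2.le h3 h4.le h7 (by linarith only [h2, h4])
  case two =>
    cases l <;> cases r <;> simp only [RunOk] at h
    · exact neg_two_left h.1 h.2.1 h.2.2
    · exact neg_two_right h.1 h.2.1 h.2.2
    · exact neg_two h.1 h.2.1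
  case threeL =>
    cases l <;> cases r <;> simp only [RunOk] at h
    · obtain ⟨h0, h1, h2, h3, h4⟩ := h
      exact neg_three_right h0 h1 h2 h3 h4
    · obtain ⟨h1, h2, h3, h4, h5, h6, h7⟩ := h
      exact neg_threeL h1 h3 h4 h5 h6
  case threeR =>
    cases l <;> cases r <;> simp only [RunOk] at h
    · obtain ⟨h0, h1, h2, h3, h4⟩ := h
      exact neg_three_left h0 h1 h2 h3 h4
    · obtain ⟨h1, h2, h3, h4, h5, h6, h7⟩ := h
      exact neg_threeR h1 h3 h4 h5 h6
  case ring =>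
    obtain ⟨h0, h1, h2⟩ := h
    exact neg_ring h0 (fun hl => (h1 hl).2) fun hr => (h2 hr).2
  all_goals cases l <;> cases r <;> simp only [RunOk] at h

theorem RunOk.inn (h : RunOk b T l r x) :
    ∀ f ∈ facs T l r, 0 < (f.form x).re ∧ (f.form x).re < 1 := by
  have key : ∀ f ∈ facs T l r, 0 < f.a + (f.α 0 * (x 0).re + f.α 1 * (x 1).re +
      f.α 2 * (x 2).re) ∧ f.a + (f.α 0 * (x 0).re + f.α 1 * (x 1).re + f.α 2 * (x 2).re) < 1 := by
    cases T
    case one =>
      cases l <;> cases r <;> simp only [RunOk] at h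
      obtain ⟨h1, h2, h3, h4, h5, h6, h7⟩ := h
      simp only [facs, if_true, Bool.or_self, List.nil_append, List.cons_append,
        List.forall_mem_cons, Matrix.cons_val]
      push_cast
      refine ⟨⟨by linarith only [h1, h3], by linarith only [h2, h4]⟩, ⟨by linarith only [h1, h2], by linarith only [h1]⟩, ⟨by linarith only [h1, h2, h4], by linarith only [h3]⟩,
        by simp⟩
    case two =>
      cases l <;> cases r <;> simp only [RunOk] at h
      · obtain ⟨h0, h1, h2⟩ := h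
        have h0' : (x 0).re = 0 := by rw [h0]; simp
        simp only [facs, hL, hR, if_true, Bool.false_eq_true, if_false, Bool.or_true,
          List.append_nil, List.nil_append, List.cons_append, List.forall_mem_cons, Matrix.cons_val,
          h0']
        push_cast
        refine ⟨⟨by linarith only [h1], by linarith only [h1, h2]⟩, ⟨by linarith only [h1, h2], by linarith only [h1]⟩, ⟨by linarith only [h1, h2], by linarith only [h1]⟩,
          by simp⟩
      · obtain ⟨h0, h1, h2⟩ := h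
        have h0' : (x 2).re = 0 := by rw [h0]; simp
        simp only [facs, hL, hR, if_true, Bool.false_eq_true, if_false, Bool.or_false,
          List.append_nil, List.nil_append, List.cons_append, List.forall_mem_cons, Matrix.cons_val,
          h0']
        push_cast
        refine ⟨⟨by linarith only [h1], by linarith only [h1, h2]⟩, ⟨by linarith only [h1, h2], by linarith only [h1]⟩, ⟨by linarith only [h1, h2], by linarith only [h1]⟩,
          by simp⟩
      · obtain ⟨h1, h2, _, _⟩ := h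
        obtain ⟨a1, a2, _⟩ := h1
        obtain ⟨b1, b2, _⟩ := h2
        simp only [facs, hL, hR, if_true, Bool.or_self, List.nil_append, List.cons_append,
          List.forall_mem_cons, Matrix.cons_val]
        push_cast
        refine ⟨⟨by linarith only [a1, b1], by linarith only [a2, b2]⟩, ⟨by linarith only [a1, a2], by linarith only [a1]⟩, ⟨by linarith only [a1, a2], by linarith only [a1]⟩,
          ⟨by linarith only [a1, a2, b2], by linarith only [b1]⟩, ⟨by linarith only [a1, a2, b2], by linarith only [b1]⟩, by simp⟩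
    case threeL =>
      cases l <;> cases r <;> simp only [RunOk] at h
      · obtain ⟨h0, h1, h2, h3, h4⟩ := h
        have h0' : (x 2).re = 0 := by rw [h0]; simp
        simp only [facs, hR, if_true, Bool.false_eq_true, if_false,
          List.append_nil, List.nil_append, List.cons_append, List.forall_mem_cons, Matrix.cons_val,
          h0']
        push_cast
        refine ⟨⟨by linarith only [h1, h3], by linarith only [h2, h4]⟩, ⟨by linarith only [h1, h2, h4], by linarith only [h3]⟩, ⟨by linarith only [h2, h4], by linarith only [h1, h3]⟩,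
          ⟨by linarith only [h1, h2], by linarith only [h1]⟩, by simp⟩
      · obtain ⟨h1, h2, h3, h4, h5, h6, h7⟩ := h
        obtain ⟨a1, a2, a3, a4, _⟩ := h1
        simp only [facs, hR, if_true, List.nil_append, List.cons_append,
          List.forall_mem_cons, Matrix.cons_val]
        push_cast
        refine ⟨⟨by linarith only [h3, a1, a3], by linarith only [h6]⟩, ⟨by linarith only [h3, h6, a1], by linarith only [a3]⟩, ⟨by linarith only [h3, h6], by linarith only [a1, a3]⟩,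
          ⟨by linarith only [h2, a1], by linarith only [a1]⟩, ⟨by linarith only [h2, h4, a1], by linarith only [h3]⟩, ⟨by linarith only [h2, h4, a1], by linarith only [h3]⟩,
          by simp⟩
    case threeR =>
      cases l <;> cases r <;> simp only [RunOk] at h
      · obtain ⟨h0, h1, h2, h3, h4⟩ := h
        have h0' : (x 0).re = 0 := by rw [h0]; simp
        simp only [facs, hL, if_true, Bool.false_eq_true, if_false,
          List.append_nil, List.nil_append, List.cons_append, List.forall_mem_cons, Matrix.cons_val,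
          h0']
        push_cast
        refine ⟨⟨by linarith only [h1, h3], by linarith only [h2, h4]⟩, ⟨by linarith only [h1, h2, h4], by linarith only [h3]⟩, ⟨by linarith only [h2, h4], by linarith only [h1, h3]⟩,
          ⟨by linarith only [h1, h2], by linarith only [h1]⟩, by simp⟩
      · obtain ⟨h1, h2, h3, h4, h5, h6, h7⟩ := h
        obtain ⟨a1, a2, a3, a4, _⟩ := h1
        simp only [facs, hL, if_true, List.nil_append, List.cons_append,
          List.forall_mem_cons, Matrix.cons_val]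
        push_cast
        refine ⟨⟨by linarith only [h3, a1, a3], by linarith only [h6]⟩, ⟨by linarith only [h3, h6, a1], by linarith only [a3]⟩, ⟨by linarith only [h3, h6], by linarith only [a1, a3]⟩,
          ⟨by linarith only [h2, h4, a1], by linarith only [h3]⟩, ⟨by linarith only [h2, h4, a1], by linarith only [h3]⟩, ⟨by linarith only [h2, a1], by linarith only [a1]⟩,
          by simp⟩
    case ring =>
      obtain ⟨_, h1, h2⟩ := h
      have kz : ∀ {w ζ : ℂ}, KZ w ζ → 0 < w.re ∧ w.re < 1 / 2 ∧ w.re + ζ.re < 1 / 2 ∧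
          w.re - ζ.re < 1 / 2 ∧ -(1 / 2) < ζ.re ∧ ζ.re < 1 / 2 := by
        intro w ζ h
        obtain ⟨a1, a2, _⟩ := h
        have a3 := abs_le.1 (le_refl |ζ.re|)
        have a4 := abs_nonneg ζ.re
        refine ⟨a1, by linarith only [a2, a3], by linarith only [a2, a3], by linarith only [a2, a3], by linarith only [a1, a2, a3], by linarith only [a1, a2, a3]⟩
      cases l <;> cases r
      · simp [facs, hL, hR]
      · obtain ⟨a1, a2, a3, a4, a5, a6⟩ := kz (h2 rfl).1
        simp only [facs, hL, hR, if_true, Bool.false_eq_true, if_false,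
          List.append_nil, List.nil_append, List.cons_append, List.forall_mem_cons, Matrix.cons_val]
        push_cast
        refine ⟨⟨by linarith only [a1, a4], by linarith only [a3]⟩, ⟨by linarith only [a1, a3], by linarith only [a4]⟩, ⟨by linarith only [a1, a2], by linarith only [a1]⟩,
          ⟨by linarith only [a1, a2], by linarith only [a1]⟩, by simp⟩
      · obtain ⟨a1, a2, a3, a4, a5, a6⟩ := kz (h1 rfl).1
        simp only [facs, hL, hR, if_true, Bool.false_eq_true, if_false,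
          List.append_nil, List.nil_append, List.cons_append, List.forall_mem_cons, Matrix.cons_val]
        push_cast
        refine ⟨⟨by linarith only [a1, a4], by linarith only [a3]⟩, ⟨by linarith only [a1, a3], by linarith only [a4]⟩, ⟨by linarith only [a1, a2], by linarith only [a1]⟩,
          ⟨by linarith only [a1, a2], by linarith only [a1]⟩, by simp⟩
      · obtain ⟨a1, a2, a3, a4, a5, a6⟩ := kz (h1 rfl).1
        obtain ⟨b1, b2, b3, b4, b5, b6⟩ := kz (h2 rfl).1
        simp only [facs, hL, hR, if_true, List.nil_append, List.cons_append,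
          List.forall_mem_cons, Matrix.cons_val]
        push_cast
        refine ⟨⟨by linarith only [a1, a4], by linarith only [a3]⟩, ⟨by linarith only [a1, a3], by linarith only [a4]⟩, ⟨by linarith only [a1, a2], by linarith only [a1]⟩,
          ⟨by linarith only [a1, a2], by linarith only [a1]⟩, ⟨by linarith only [a1, a4, b1], by linarith only [b3]⟩, ⟨by linarith only [a1, a3, b1], by linarith only [b4]⟩,
          ⟨by linarith only [a1, a2, b2], by linarith only [b1]⟩, ⟨by linarith only [a1, a2, b2], by linarith only [b1]⟩, by simp⟩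
    all_goals cases l <;> cases r <;> simp only [RunOk] at h
  intro f hf
  have e : (f.form x).re = f.a + (f.α 0 * (x 0).re + f.α 1 * (x 1).re + f.α 2 * (x 2).re) := by
    unfold Fac.form
    rw [Fin.sum_univ_three]
    simp
  rw [e]
  exact key f hf

section
variable {M : ℕ} {t : Fin (M + 1) → Typ} {b : Fin (M + 1) → ℤ} {z : DD t ⊕ ZZ t → ℂ}

/-- **The saddle point structure** from the algebraic equations, the local conditions and the
domination. -/
theorem sadl_of {P : Par (DD t)} {nb : Finset (DD t) → Finset (DD t ⊕ ZZ t)}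
    {q : Fin (M + 1) → ℂ} (hq : ∀ i, q i ≠ 0)
    (hrun : ∀ i, RunOk (b i) (t i) (fl i) (fr i) (xx t i z))
    (hside : ∀ i, Side (t i) (b i) (fl i) (fr i) (xx t i z) (q i))
    (hh : ∀ h : Fin M, 1 + ctg (z (.inl (.inl h))) ^ 2 = q h.castSucc + q h.succ)
    (hmid : ∀ m : {i : Fin (M + 1) // (t i).isMid = true},
      ldT (t m.1) (b m.1) (fl m.1) (fr m.1) (xx t m.1 z) 1 = 0)
    (hring : ∀ v : ZZ t, ldT (t v.1) (b v.1) (fl v.1) (fr v.1) (xx t v.1 z) 1 +
      2 * Real.pi * Complex.I * (b v.1 * z (.inr v) + 1) = 0)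
    (hpar : ∀ i, 0 < P.XM i ∧ P.XM i ≤ 1 ∧ 0 < P.cl i ∧ 0 < P.cr i ∧ P.cl i + P.cr i < P.XM i ∧
      0 < P.hu i ∧ 0 < P.hd i)
    (hnb : nb ∅ = ∅) (hnb' : ∀ R : Finset (DD t), ∀ i ∈ R, .inl i ∈ nb R)
    (hD : ∀ i, P.cl i < (z (.inl i)).re ∧ (z (.inl i)).re < P.XM i - P.cr i)
    (hZ : ∀ v, |(z (.inr v)).re| < 1 / 4 ∧ 0 < (z (.inr v)).im)
    (hdom : (∀ k, 0 < ((wdat t b).form k z).re ∧ ((wdat t b).form k z).re < 1) →
      (∀ i, (wdat t b).dT z i = 0) → (∀ X : DD t ⊕ ZZ t → ℝ, X ≠ 0 → ((wdat t b).Q2 z X).re < 0) →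
      ∀ R : Finset (DD t), (∀ i ∈ R, P.XM i < 1) → ∀ (y : DD t ⊕ ZZ t → ℂ) (p : DD t → ℝ),
      Adm (wdat t b) P z R (nb R) y p → (R = ∅ → p = 0 → y ≠ z) →
      (wdat t b).V y - 2 * Real.pi * ∑ i, p i < ((wdat t b).T z).re) :
    Sadl (wdat t b) P nb z := by
  have inner : ∀ k, 0 < ((wdat t b).form k z).re ∧ ((wdat t b).form k z).re < 1 := by
    intro k
    rw [wdat_form]
    exact (hrun k.1).inn _ (List.get_mem _ _)
  have crit : ∀ i, (wdat t b).dT z i = 0 :=
    crit_of hq hside hh (dT_hinge_im fun i => (hrun i).sideIm) hmid hring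
  have hess : ∀ X : DD t ⊕ ZZ t → ℝ, X ≠ 0 → ((wdat t b).Q2 z X).re < 0 :=
    hess_of t b z fun i => (hrun i).neg
  exact ⟨hpar, hnb, hnb', hD, hZ, inner, crit, hess, hdom inner crit hess⟩

end

end Pool.Agent.Work.MP_b30479_gtS.G2

end

section

/-!
# The saddle point of a word
-/

namespace Pool.Agent.Work.MP_b30479_gtS.G2

open Complex Set Filter Topology VOL
open scoped ComplexConjugate

/-- the variable with cotangent `R`, with real part in `[0, 1)`; it is `acot R` if `Re R > 0` -/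
noncomputable def acot2 (R : ℂ) : ℂ := 1 / 2 - Complex.arctan R / Real.pi

lemma arctan_re (z : ℂ) : (Complex.arctan z).re = ((1 + z * I) / (1 - z * I)).arg / 2 := by
  unfold Complex.arctan
  rw [Complex.mul_re]
  have h1 : (-I / 2 : ℂ).re = 0 := by simp
  have h2 : (-I / 2 : ℂ).im = -(1 / 2) := by norm_num
  rw [h1, h2, Complex.log_im]
  ring

theorem acot2_spec {R : ℂ} (h1 : R ≠ I) (h2 : R ≠ -I) :
    ctg (acot2 R) = R ∧ (acot2 R).re < 1 := by
  have hpi := Real.pi_pos
  have hpi' : (Real.pi : ℂ) ≠ 0 := by exact_mod_cast hpi.ne'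
  constructor
  · unfold ctg acot2
    rw [show (Real.pi : ℂ) * (1 / 2 - Complex.arctan R / Real.pi) =
      Real.pi / 2 - Complex.arctan R by field_simp, Complex.cos_pi_div_two_sub,
      Complex.sin_pi_div_two_sub]
    exact Complex.tan_arctan h1 h2
  · unfold acot2
    have h3 := Complex.neg_pi_lt_arg ((1 + R * I) / (1 - R * I))
    have h4 := arctan_re R
    have e : (1 / 2 - Complex.arctan R / Real.pi : ℂ).re = 1 / 2 - (Complex.arctan R).re / Real.pi := by
      rw [Complex.sub_re, Complex.div_ofReal_re]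
      norm_num
    rw [e, h4]
    have h5 : -(1 / 2) < ((1 + R * I) / (1 - R * I)).arg / 2 / Real.pi := by
      rw [lt_div_iff₀ hpi]
      linarith only [h3]
    linarith only [h5]

theorem acot2_re_pos {R : ℂ} (h : 0 < R.re) : 0 < (acot2 R).re ∧ (acot2 R).re < 1 / 2 := by
  have hpi := Real.pi_pos
  have h4 := arctan_re R
  have e : (acot2 R).re = 1 / 2 - (Complex.arctan R).re / Real.pi := by
    unfold acot2
    rw [Complex.sub_re, Complex.div_ofReal_re]
    norm_num
  have hn : 0 < Complex.normSq (1 - R * I) := by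
    rw [Complex.normSq_pos]
    intro h5
    have := congrArg Complex.im h5
    simp at this
    linarith only [h, this]
  have him : 0 < ((1 + R * I) / (1 - R * I)).im := by
    rw [Complex.div_im]
    simp only [Complex.add_im, Complex.one_im, Complex.mul_im, Complex.I_re, mul_zero,
      Complex.I_im, mul_one, zero_add, Complex.sub_re, Complex.one_re, Complex.mul_re, zero_sub,
      sub_neg_eq_add, Complex.add_re, Complex.sub_im]
    rw [← sub_div]
    apply div_pos _ hn
    nlinarith only [h]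
  have h6 : 0 < ((1 + R * I) / (1 - R * I)).arg := by
    rcases lt_or_eq_of_le (Complex.arg_nonneg_iff.2 him.le) with h7 | h7
    · exact h7
    · exfalso
      have := (Complex.arg_eq_zero_iff.1 h7.symm).2
      linarith only [him, this]
  have h7 : ((1 + R * I) / (1 - R * I)).arg < Real.pi := by
    rcases lt_or_eq_of_le (Complex.arg_le_pi ((1 + R * I) / (1 - R * I))) with h8 | h8
    · exact h8
    · exfalso
      have := (Complex.arg_eq_pi_iff.1 h8).2
      linarith only [him, this]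
  rw [e, h4]
  have h8 : 0 < ((1 + R * I) / (1 - R * I)).arg / 2 / Real.pi := by positivity
  have h9 : ((1 + R * I) / (1 - R * I)).arg / 2 / Real.pi < 1 / 2 := by
    rw [div_lt_iff₀ hpi]
    linarith only [h7]
  constructor <;> linarith only [h9, h8]

lemma ne_I_of_re {R : ℂ} (h : 0 < R.re) : R ≠ I ∧ R ≠ -I := by
  constructor <;> rintro rfl <;> simp at h

/-- for `Re R > 0` this is helper function `acot` -/
theorem acot2_eq {R : ℂ} (h : 0 < R.re) : acot2 R = acot R := by
  obtain ⟨a1, a2, a3, a4⟩ := acot_spec h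
  obtain ⟨b1, b2⟩ := acot2_re_pos h
  obtain ⟨c1, _⟩ := acot2_spec (ne_I_of_re h).1 (ne_I_of_re h).2
  have hs : ∀ z : ℂ, 0 < z.re → z.re < 1 / 2 → z ∈ strip := fun z h1 h2 => ⟨h1, by linarith only [a1, a2, h2]⟩
  have hx : ex 1 (acot2 R) ^ 2 = ex 1 (acot R) ^ 2 := by
    have e1 := ctg_eq (b := 1) (hs _ b1 b2)
    have e2 := ctg_eq (b := 1) (hs _ a1 a2)
    rw [c1] at e1
    rw [a4] at e2
    have n1 := ex_sq_ne (b := 1) (hs _ b1 b2)
    have n2 := ex_sq_ne (b := 1) (hs _ a1 a2)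
    have hj := jj_ne 1
    have e3 := e1.symm.trans e2
    rw [div_eq_div_iff n1 n2] at e3
    have e4 : jj 1 * (2 * (ex 1 (acot R) ^ 2 - ex 1 (acot2 R) ^ 2)) = 0 := by
      linear_combination e3
    have e5 := (mul_eq_zero.1 e4).resolve_left hj
    linear_combination (-(1 : ℂ) / 2) * e5
  have hx2 : cexp (2 * (Real.pi * I * acot2 R)) = cexp (2 * (Real.pi * I * acot R)) := by
    have e : ∀ z, ex 1 z ^ 2 = cexp (2 * (Real.pi * I * z)) := fun z => by
      unfold ex jj
      rw [← Complex.exp_nat_mul]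
      congr 1
      simp only [one_pos, if_true]
      push_cast
      ring
    rw [← e, ← e, hx]
  obtain ⟨n, hn⟩ := Complex.exp_eq_exp_iff_exists_int.1 hx2
  have hpi := Real.pi_pos
  have hpi' : (Real.pi : ℂ) ≠ 0 := by exact_mod_cast hpi.ne'
  have hn2 : acot2 R = acot R + n := by
    have h3 : (2 * Real.pi * I : ℂ) ≠ 0 :=
      mul_ne_zero (mul_ne_zero two_ne_zero hpi') Complex.I_ne_zero
    apply mul_left_cancel₀ h3
    linear_combination hn
  have hre := congrArg Complex.re hn2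
  rw [Complex.add_re, Complex.intCast_re] at hre
  have h5 : (n : ℝ) < 1 := by linarith only [a1, a2, b2, hre]
  have h6 : (-1 : ℝ) < n := by linarith only [a1, a2, b1, hre]
  have h7 : n = 0 := by
    have : n < 1 := by exact_mod_cast h5
    have : -1 < n := by exact_mod_cast h6
    omega
  rw [hn2, h7]
  simp

namespace SR

variable {M : ℕ} (b : Fin (M + 1) → ℤ) (w : ℕ → ℂ)

/-- the types of the twist regions -/
def tyW (i : Fin (M + 1)) : Typ :=
  if (b i).natAbs = 1 then .one else if (b i).natAbs = 2 then .two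
  else if (b i).natAbs = 3 then (if i = 0 then .threeR else .threeL) else .ring

/-- the cotangent of the inner variable of a region with three crossings -/
noncomputable def Rm (n : ℕ) : ℂ :=
  Rs (jj (bb b n)) (Rh b w (if n = 0 then 0 else n - 1)) (tau b w n)

/-- the saddle point -/
noncomputable def zsW : DD (tyW b) ⊕ ZZ (tyW b) → ℂ
  | .inl (.inl h) => acot2 (Rh b w h.val)
  | .inl (.inr m) => acot2 (Rm b w m.1.val)
  | .inr v => -(sg b v.1.val : ℂ) * w v.1.val / Real.pi

/-- `P` on the left side of the ring `n` -/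
noncomputable def PL (n : ℕ) : ℂ := -(sg b n : ℂ) * QQ (w n) (Complex.cos (w (ln b n))) +
  if us b (n - 1) then I * w n else 0

/-- `P` on the right side of the ring `n` -/
noncomputable def PR (n : ℕ) : ℂ := -(sg b n : ℂ) * QQ (w n) (Complex.cos (w (rn b n))) +
  if us b (n + 1) then I * w n else 0

/-- the location of the saddle point: everything the critical point equations and the Hessian need -/
structure LocOK : Prop where
  hinge : ∀ n < M, Rh b w n ≠ I ∧ Rh b w n ≠ -I
  mid : ∀ i : Fin (M + 1), (b i).natAbs = 3 → Rm b w i.val ≠ I ∧ Rm b w i.val ≠ -I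
  run : ∀ i, RunOk (b i) (tyW b i) (fl i) (fr i) (xx (tyW b) i (zsW b w))
  midL : ∀ i, tyW b i = .threeL →
    0 ≤ (xx (tyW b) i (zsW b w) 0 + xx (tyW b) i (zsW b w) 1 - xx (tyW b) i (zsW b w) 2).re ∧
    (xx (tyW b) i (zsW b w) 0 + xx (tyW b) i (zsW b w) 1 - xx (tyW b) i (zsW b w) 2).re ≤ 1
  midR : ∀ i, tyW b i = .threeR →
    0 ≤ (xx (tyW b) i (zsW b w) 2 + xx (tyW b) i (zsW b w) 1 - xx (tyW b) i (zsW b w) 0).re ∧
    (xx (tyW b) i (zsW b w) 2 + xx (tyW b) i (zsW b w) 1 - xx (tyW b) i (zsW b w) 0).re ≤ 1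
  pl : ∀ n, 0 < n → n ≤ M → 4 ≤ (bb b n).natAbs → |(PL b w n).im| ≤ Real.pi / 2
  pr : ∀ n < M, 4 ≤ (bb b n).natAbs → |(PR b w n).im| ≤ Real.pi / 2

variable {b w}

lemma tyW_ok (hb : ClassW b) (i : Fin (M + 1)) : (tyW b i).IsOk (b i) := by
  unfold tyW
  split_ifs with h1 h2 h3 h4
  · exact h1
  · exact h2
  · exact h3
  · exact h3
  · exact hb.ne i

lemma x_left {i : Fin (M + 1)} (hi : 0 < i.val) :
    xx (tyW b) i (zsW b w) 0 = acot2 (Rh b w (i.val - 1)) := by
  have hM := i.2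
  have e : i = (⟨i.val - 1, by omega⟩ : Fin M).succ := Fin.ext (by simp; omega)
  conv_lhs => rw [e, xx_left]
  rfl

lemma x_left0 : xx (tyW b) 0 (zsW b w) 0 = 0 := xx_left_zero _ _

lemma x_right {i : Fin (M + 1)} (hi : i.val < M) :
    xx (tyW b) i (zsW b w) 2 = acot2 (Rh b w i.val) := by
  have e : i = (⟨i.val, hi⟩ : Fin M).castSucc := Fin.ext rfl
  conv_lhs => rw [e, xx_right]
  rfl

lemma x_rightM : xx (tyW b) (Fin.last M) (zsW b w) 2 = 0 := xx_right_last _ _

lemma x_mid {i : Fin (M + 1)} (hi : (tyW b i).isMid = true) :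
    xx (tyW b) i (zsW b w) 1 = acot2 (Rm b w i.val) := by
  rw [xx_mid (tyW b) hi]
  rfl

lemma x_ring {i : Fin (M + 1)} (hi : (tyW b i).isRing = true) :
    xx (tyW b) i (zsW b w) 1 = -(sg b i.val : ℂ) * w i.val / Real.pi := by
  rw [xx_ring (tyW b) hi]
  rfl

lemma bb_val (i : Fin (M + 1)) : bb b i.val = b i := bb_lt i.2

lemma us_of_abs {i : Fin (M + 1)} (h : (b i).natAbs ≠ 1) : us b i.val = false := by
  by_contra hc
  rw [Bool.not_eq_false] at hc
  have := (us_true hc).2.1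
  rw [bb_val] at this
  exact h this

lemma cos_ring (n : ℕ) : Complex.cos (Real.pi * (-(sg b n : ℂ) * w n / Real.pi)) =
    Complex.cos (w n) := by
  have hpi' : (Real.pi : ℂ) ≠ 0 := by exact_mod_cast Real.pi_pos.ne'
  rcases sg_or (b := b) n with h | h
  · rw [h]
    rw [show (Real.pi : ℂ) * (-((1 : ℝ) : ℂ) * w n / Real.pi) = -w n by
      push_cast
      field_simp, Complex.cos_neg]
  · rw [h]
    rw [show (Real.pi : ℂ) * (-((-1 : ℝ) : ℂ) * w n / Real.pi) = w n by
      push_cast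
      field_simp]

lemma sin_ring (n : ℕ) : Complex.sin (Real.pi * (-(sg b n : ℂ) * w n / Real.pi)) =
    -(sg b n : ℂ) * Complex.sin (w n) := by
  have hpi' : (Real.pi : ℂ) ≠ 0 := by exact_mod_cast Real.pi_pos.ne'
  rcases sg_or (b := b) n with h | h
  · rw [h]
    rw [show (Real.pi : ℂ) * (-((1 : ℝ) : ℂ) * w n / Real.pi) = -w n by
      push_cast
      field_simp, Complex.sin_neg]
    push_cast
    ring
  · rw [h]
    rw [show (Real.pi : ℂ) * (-((-1 : ℝ) : ℂ) * w n / Real.pi) = w n by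
      push_cast
      field_simp]
    push_cast
    ring

variable (hb : ClassW b) (F : RingFacts) (hw : Sol b w) (L : LocOK b w)
include L

lemma ctg_left {i : Fin (M + 1)} (hi : 0 < i.val) :
    ctg (xx (tyW b) i (zsW b w) 0) = Rh b w (i.val - 1) := by
  have h2 := i.2
  have h := L.hinge (i.val - 1) (by omega)
  rw [x_left hi]
  exact (acot2_spec h.1 h.2).1

lemma ctg_right {i : Fin (M + 1)} (hi : i.val < M) :
    ctg (xx (tyW b) i (zsW b w) 2) = Rh b w i.val := by
  have h := L.hinge i.val hi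
  rw [x_right hi]
  exact (acot2_spec h.1 h.2).1

lemma ctg_mid {i : Fin (M + 1)} (h3 : (b i).natAbs = 3) :
    ctg (xx (tyW b) i (zsW b w) 1) = Rm b w i.val ∧ (xx (tyW b) i (zsW b w) 1).re < 1 := by
  have hm : (tyW b i).isMid = true := by
    unfold tyW
    rw [if_neg (by omega), if_neg (by omega), if_pos h3]
    split_ifs <;> rfl
  have h := L.mid i h3
  rw [x_mid hm]
  exact acot2_spec h.1 h.2

/-- hinge cotangents next to a ring are not `-j` -/
lemma Rh_add_ne {n : ℕ} (hn : n < M) (c : ℤ) : Rh b w n + jj c ≠ 0 := by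
  obtain ⟨h1, h2⟩ := L.hinge n hn
  intro h
  have h3 : Rh b w n = -jj c := by linear_combination h
  unfold jj at h3
  split_ifs at h3
  · apply h2
    rw [h3]
    ring
  · apply h1
    rw [h3]
    ring

include hb F hw

lemma qv_ne {n : ℕ} (hn : n ≤ M) : qv b w n ≠ 0 := by
  by_cases h : us b n = true
  · have h1 := us_lt hb h
    rw [qv_abs h]
    exact neg_ne_zero.2 (mul_ne_zero (Rh_add_ne L (by omega) _)
      (Rh_add_ne L (by omega) _))
  · rw [Bool.not_eq_true] at h
    rw [qv_ring h]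
    exact one_div_ne_zero (pow_ne_zero 2 (cos_ne F hw hn h))

/-- the sides -/
theorem side_all (hM : 1 ≤ M) (i : Fin (M + 1)) :
    Side (tyW b i) (b i) (fl i) (fr i) (xx (tyW b) i (zsW b w)) (qv b w i.val) ∧
      (tyW b i = .threeL → cexp (ldT .threeL (b i) (fl i) (fr i) (xx (tyW b) i (zsW b w)) 1) = 1) ∧
      (tyW b i = .threeR → cexp (ldT .threeR (b i) (fl i) (fr i) (xx (tyW b) i (zsW b w)) 1) = 1) := by
  have hi := i.2
  have hrun := L.run i
  have hqne := qv_ne hb F hw L (n := i.val) (by omega)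
  have hfl0 : i.val = 0 → fl i = false := fun h => by
    have : i = 0 := Fin.ext h
    simp [fl, this]
  have hfl1 : 0 < i.val → fl i = true := fun h => by
    have : i ≠ 0 := fun h2 => by rw [h2] at h; simp at h
    simp [fl, this]
  have hfr0 : i.val = M → fr i = false := fun h => by
    have : i = Fin.last M := Fin.ext h
    simp [fr, this]
  have hfr1 : i.val < M → fr i = true := fun h => by
    have : i ≠ Fin.last M := fun h2 => by rw [h2] at h; simp at h
    simp [fr, this]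
  have hstr : ∀ z : ℂ, 0 < z.re → z.re < 1 → z ∈ strip := fun z h1 h2 => ⟨h1, h2⟩
  by_cases h1 : (b i).natAbs = 1
  · -- one crossing
    have ht : tyW b i = .one := by unfold tyW; rw [if_pos h1]
    have hi0 : 0 < i.val := by
      by_contra hc
      have h2 := hb.first
      have h3 : i = 0 := Fin.ext (by show i.val = 0; omega)
      rw [h3] at h1
      omega
    have hiM : i.val < M := by
      by_contra hc
      have h2 := hb.last
      have h3 : i = Fin.last M := Fin.ext (by show i.val = M; omega)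
      rw [h3] at h1
      omega
    have hcl := ctg_left L hi0
    have hcr := ctg_right L hiM
    rw [ht] at hrun ⊢
    rw [hfl1 hi0, hfr1 hiM] at hrun ⊢
    simp only [RunOk] at hrun
    obtain ⟨r1, r2, r3, r4, _⟩ := hrun
    refine ⟨?_, fun h => absurd h (by decide), fun h => absurd h (by decide)⟩
    refine side_one (hstr _ r1 (by linarith only [r1, r2])) (hstr _ r3 (by linarith only [r1, r2, r4]))
      (hstr _ (by rw [Complex.add_re]; linarith only [r1, r3]) (by rw [Complex.add_re]; linarith only [r2, r4])) ?_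
    rw [hcl, hcr]
    by_cases hu : us b i.val = true
    · rw [qv_abs hu, bb_val]
    · rw [Bool.not_eq_true] at hu
      have hr := ring_inner hb F hw hi0 hiM hu
      rw [bb_val, h1] at hr
      rw [qv_tau F hw (by omega) hu]
      exact RE_one (jj_sq _) (tau_ne hw (by omega) hu) hr
  · have hu := us_of_abs h1
    have hτ := tau_ne hw (n := i.val) (by omega) hu
    by_cases h2 : (b i).natAbs = 2
    · -- two crossings
      have ht : tyW b i = .two := by unfold tyW; rw [if_neg h1, if_pos h2]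
      rw [ht] at hrun ⊢
      refine ⟨?_, fun h => absurd h (by decide), fun h => absurd h (by decide)⟩
      by_cases hi0 : i.val = 0
      · have e0 : i = 0 := Fin.ext (by show i.val = 0; omega)
        have hiM : i.val < M := by omega
        have hcr := ctg_right L hiM
        rw [hfl0 hi0, hfr1 hiM] at hrun ⊢
        simp only [RunOk] at hrun
        obtain ⟨r0', r1, r2⟩ := hrun
        refine side_two_left r0' (hstr _ r1 (by linarith only [r1, r2])) ?_
        rw [hcr, qv_tau F hw (by omega) hu]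
        have hr := ring_first hb F hw hM
        rw [← hi0, bb_val, h2] at hr
        exact RE1_two (jj_sq _) hτ hr
      · by_cases hiM : i.val = M
        · have hi0' : 0 < i.val := by omega
          have hcl := ctg_left L hi0'
          rw [hfl1 hi0', hfr0 hiM] at hrun ⊢
          simp only [RunOk] at hrun
          obtain ⟨r0', r1, r2⟩ := hrun
          refine side_two_right r0' (hstr _ r1 (by linarith only [r1, r2])) ?_
          rw [hcl, qv_tau F hw (by omega) hu]
          have hr : RE1 (jj (bb b i.val)) (bb b i.val).natAbs (Rh b w (i.val - 1))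
              (tau b w i.val) := by
            have h := ring_last hb F hw hM
            rw [hiM]
            exact h
          rw [bb_val, h2] at hr
          exact RE1_two (jj_sq _) hτ hr
        · have hi0' : 0 < i.val := by omega
          have hiM' : i.val < M := by omega
          have hcl := ctg_left L hi0'
          have hcr := ctg_right L hiM'
          rw [hfl1 hi0', hfr1 hiM'] at hrun ⊢
          simp only [RunOk] at hrun
          obtain ⟨g1, g2, _, _⟩ := hrun
          refine side_two hqne (hstr _ g1.1 (by linarith only [g1, g1.2.1])) (hstr _ g2.1 (by linarith only [g2, g2.2.1]))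
            (hstr _ (by rw [Complex.add_re]; linarith only [g1, g2, g1.1, g2.1])
              (by rw [Complex.add_re]; linarith only [g1, g2, g1.2.1, g2.2.1])) ?_
          rw [hcl, hcr, qv_tau F hw (by omega) hu]
          have hr := ring_inner hb F hw hi0' hiM' hu
          rw [bb_val, h2] at hr
          exact RE_two (jj_sq _) hτ hr
    · by_cases h3 : (b i).natAbs = 3
      · -- three crossings
        obtain ⟨hcm, hm1⟩ := ctg_mid L h3
        by_cases hi0 : i.val = 0
        · have e0 : i = 0 := Fin.ext (by show i.val = 0; omega)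
          have ht : tyW b i = .threeR := by
            unfold tyW
            rw [if_neg h1, if_neg h2, if_pos h3, if_pos e0]
          have hiM : i.val < M := by omega
          have hcr := ctg_right L hiM
          rw [ht] at hrun ⊢
          rw [hfl0 hi0, hfr1 hiM] at hrun ⊢
          simp only [RunOk] at hrun
          obtain ⟨r0', r1, r2, r3, r4⟩ := hrun
          have hRm : Rm b w i.val = Rs (jj (bb b i.val)) (Rh b w 0) (tau b w i.val) := by
            unfold Rm
            rw [if_pos hi0]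
          have hr := ring_first hb F hw hM
          rw [← hi0, bb_val, h3] at hr
          have hne := Rh_add_ne L (n := i.val) hiM (b i)
          obtain ⟨q1, q2⟩ := RE1_three (jj_sq _) hne hτ hr
          rw [hi0] at hcr
          have hx := side_three_left (b := b i) (x := xx (tyW b) i (zsW b w)) (q := qv b w i.val)
            r0' (hstr _ r1 (by linarith only [r1, r2])) (hstr _ (by linarith only [r1, r3]) hm1)
            (hstr _ (by rw [Complex.sub_re]; linarith only [r3]) (by rw [Complex.sub_re]; linarith only [hm1, r1]))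
            (by rw [hcm, hRm, bb_val, qv_tau F hw (by omega) hu, hcr]; rw [hi0] at q1 ⊢; exact q1)
            (by rw [hcm, hRm, bb_val, qv_tau F hw (by omega) hu]; rw [hi0] at q2 ⊢; exact q2)
          exact ⟨hx.1, fun h => absurd h (by decide), fun _ => hx.2⟩
        · have e0 : i ≠ 0 := fun h => hi0 (by rw [h]; simp)
          have ht : tyW b i = .threeL := by
            unfold tyW
            rw [if_neg h1, if_neg h2, if_pos h3, if_neg e0]
          have hi0' : 0 < i.val := by omega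
          have hcl := ctg_left L hi0'
          have hRm : Rm b w i.val =
              Rs (jj (bb b i.val)) (Rh b w (i.val - 1)) (tau b w i.val) := by
            unfold Rm
            rw [if_neg hi0]
          have hne := Rh_add_ne L (n := i.val - 1) (by omega) (b i)
          by_cases hiM : i.val = M
          · rw [ht] at hrun ⊢
            rw [hfl1 hi0', hfr0 hiM] at hrun ⊢
            simp only [RunOk] at hrun
            obtain ⟨r0', r1, r2, r3, r4⟩ := hrun
            have hr : RE1 (jj (bb b i.val)) (bb b i.val).natAbs (Rh b w (i.val - 1))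
                (tau b w i.val) := by
              have h := ring_last hb F hw hM
              rw [hiM]
              exact h
            rw [bb_val, h3] at hr
            obtain ⟨q1, q2⟩ := RE1_three (jj_sq _) hne hτ hr
            have hx := side_three_right (b := b i) (x := xx (tyW b) i (zsW b w))
              (q := qv b w i.val)
              r0' (hstr _ r1 (by linarith only [r1, r2])) (hstr _ (by linarith only [r1, r3]) hm1)
              (hstr _ (by rw [Complex.sub_re]; linarith only [r3]) (by rw [Complex.sub_re]; linarith only [hm1, r1]))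
              (by rw [hcm, hRm, bb_val, qv_tau F hw (by omega) hu, hcl]; exact q1)
              (by rw [hcm, hRm, bb_val, qv_tau F hw (by omega) hu]; exact q2)
            exact ⟨hx.1, fun _ => hx.2, fun h => absurd h (by decide)⟩
          · have hiM' : i.val < M := by omega
            have hcr := ctg_right L hiM'
            rw [ht] at hrun ⊢
            rw [hfl1 hi0', hfr1 hiM'] at hrun ⊢
            simp only [RunOk] at hrun
            obtain ⟨g1, g2, g3, g4, g5, g6, g7⟩ := hrun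
            have hr := ring_inner hb F hw hi0' hiM' hu
            rw [bb_val, h3] at hr
            obtain ⟨q1, q2⟩ := RE_three (jj_sq _) hne hτ hr
            have hx := side_threeL (b := b i) (x := xx (tyW b) i (zsW b w)) (q := qv b w i.val)
              (hstr _ g1.1 (by linarith only [g2, g3, g4])) (hstr _ (by linarith only [g4, g5, g1.1, g1.2.2.1]) hm1)
              (hstr _ g3 (by linarith only [g3, g4]))
              (hstr _ (by rw [Complex.sub_re]; exact g1.2.2.1)
                (by rw [Complex.sub_re]; linarith only [g3, g4, g1, g1.2.2.2.1]))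
              (hstr _ (by rw [Complex.add_re]; linarith only [g3, g4, g5]) (by rw [Complex.add_re]; exact g6))
              (by rw [hcm, hRm, bb_val, qv_tau F hw (by omega) hu, hcl]; exact q1)
              (by rw [hcm, hRm, bb_val, qv_tau F hw (by omega) hu, hcr]; exact q2)
            exact ⟨hx.1, fun _ => hx.2, fun h => absurd h (by decide)⟩
      · -- a ring
        have ht : tyW b i = .ring := by
          unfold tyW
          rw [if_neg h1, if_neg h2, if_neg h3]
        have hring : (tyW b i).isRing = true := by rw [ht]; rfl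
        have hx1 := x_ring (w := w) hring
        rw [ht] at hrun ⊢
        simp only [RunOk] at hrun
        obtain ⟨_, hl, hr⟩ := hrun
        refine ⟨side_ring ?_ ?_ ?_, fun h => absurd h (by decide), fun h => absurd h (by decide)⟩
        · rw [hx1, cos_ring, qv_ring hu]
          have := cos_ne F hw (n := i.val) (by omega) hu
          field_simp
        · intro h
          obtain ⟨⟨k1, k2, _⟩, _⟩ := hl h
          have := abs_le.1 (le_refl |(xx (tyW b) i (zsW b w) 1).re|)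
          refine ⟨hstr _ k1 (by linarith only [k1, k2, this, abs_nonneg (xx (tyW b) i (zsW b w) 1).re]), hstr _ ?_ ?_,
            hstr _ ?_ ?_⟩
          · simp only [Complex.add_re, Complex.one_re, Complex.div_ofNat_re]
            linarith only [k1, k2, this, this.1]
          · simp only [Complex.add_re, Complex.one_re, Complex.div_ofNat_re]
            linarith only [k2, this, this.2]
          · simp only [Complex.add_re, Complex.sub_re, Complex.one_re, Complex.div_ofNat_re]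
            linarith only [k1, k2, this, this.2]
          · simp only [Complex.add_re, Complex.sub_re, Complex.one_re, Complex.div_ofNat_re]
            linarith only [k2, this, this.1]
        · intro h
          obtain ⟨⟨k1, k2, _⟩, _⟩ := hr h
          have := abs_le.1 (le_refl |(xx (tyW b) i (zsW b w) 1).re|)
          refine ⟨hstr _ k1 (by linarith only [k1, k2, this, abs_nonneg (xx (tyW b) i (zsW b w) 1).re]), hstr _ ?_ ?_,
            hstr _ ?_ ?_⟩
          · simp only [Complex.add_re, Complex.one_re, Complex.div_ofNat_re]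
            linarith only [k1, k2, this, this.1]
          · simp only [Complex.add_re, Complex.one_re, Complex.div_ofNat_re]
            linarith only [k2, this, this.2]
          · simp only [Complex.add_re, Complex.sub_re, Complex.one_re, Complex.div_ofNat_re]
            linarith only [k1, k2, this, this.2]
          · simp only [Complex.add_re, Complex.sub_re, Complex.one_re, Complex.div_ofNat_re]
            linarith only [k2, this, this.1]

end SR

end Pool.Agent.Work.MP_b30479_gtS.G2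

end
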