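import Pool.Agent.Work.MP_b30479_gt.TBS.VOL.MProd

section

/-!
# Part of `XNear`
-/
namespace Pool.Agent.Work.MP_b30479_gtS.LT

open Finset VOL AX MeasureTheory

/-- the main part of the kernel: integral over `3/20 ≤ x ≤ 7/20` at height `τ` -/
noncomputable def MX (n : ℕ) (τ : ℝ) (ζ ζ' : ℂ) : ℂ :=
  1 / n * ∫ x in (3 / 20 : ℝ)..(7 / 20), Complex.exp (Tn n ((x : ℂ) + τ * Complex.I) ζ ζ')

theorem strip_ofX {n : ℕ} (hn : 100 ≤ n) {w ζ : ℂ} (h0 : 0 < w.re) (h1 : w.re ≤ 351 / 1000)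
    (h2 : |ζ.re| ≤ 1 / 8) : w + 1 / 2 + ζ ∈ VOL.strip ∧ w + 1 / 2 - ζ ∈ VOL.strip ∧
      w + 1 / (2 * n) ∈ VOL.strip := by
  have hnR : (100 : ℝ) ≤ n := by exact_mod_cast hn
  obtain ⟨a1, a2⟩ := abs_le.mp h2
  have h2n : 1 / (2 * (n : ℝ)) ≤ 1 / 16 := by
    apply div_le_div_of_nonneg_left (by norm_num) (by norm_num)
    linarith only [h0, h1, hnR]
  have h2n0 : 0 < 1 / (2 * (n : ℝ)) := by positivity
  have ecast : (1 : ℂ) / (2 * n) = ((1 / (2 * (n : ℝ)) : ℝ) : ℂ) := by push_cast; rfl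
  refine ⟨⟨?_, ?_⟩, ⟨?_, ?_⟩, ⟨?_, ?_⟩⟩
  · rw [re_add_half]; linarith only [h0, a1, h2n, h2n0]
  · rw [re_add_half]; linarith only [h1, a2, h2n, h2n0]
  · rw [re_sub_half]; linarith only [h0, a2, h2n, h2n0]
  · rw [re_sub_half]; linarith only [h1, a1, h2n, h2n0]
  · rw [ecast, Complex.add_re, Complex.ofReal_re]; linarith only [h0, h2n0]
  · rw [ecast, Complex.add_re, Complex.ofReal_re]; linarith only [h1, h2n, h2n0]

end Pool.Agent.Work.MP_b30479_gtS.LT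

end

section

/-!
# Part of `XNear`
-/
namespace Pool.Agent.Work.MP_b30479_gtS.LT

open Finset VOL AX MeasureTheory

/-- `Tn` on the larger box `3/20 - 1/1000 ≤ Re w ≤ 7/20 + 1/1000`, `|Re ζ| ≤ 1/8` -/
theorem Tn_expand_x : ∃ C : ℝ, 0 ≤ C ∧ ∀ n : ℕ, 100 ≤ n → ∀ w ζ ζ' : ℂ,
    |w.re - 1 / 4| ≤ 101 / 1000 → |ζ.re| ≤ 1 / 8 → |ζ'.re| ≤ 1 / 8 →
    ‖Tn n w ζ ζ' - (n * tp w ζ ζ' - 2 * ph w)‖ ≤ C / n := by
  have hδ : (0 : ℝ) < 1 / 64 := by norm_num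
  have hδ2 : (1 / 64 : ℝ) ≤ 1 / 2 := by norm_num
  have hpi := Real.pi_pos
  set sδ : ℝ := Real.sin (Real.pi * (1 / 64)) with hsδ
  have hs : 0 < sδ := VOL.sin_pi_pos hδ (by norm_num)
  refine ⟨8 * (1 / (2 * Real.pi * sδ)) + Real.pi / sδ, by positivity, ?_⟩
  intro n hn w ζ ζ' h12 h3 h4
  obtain ⟨h1, h2⟩ := abs_le.mp h12
  have hnR : (100 : ℝ) ≤ n := by exact_mod_cast hn
  have hn0 : (0 : ℝ) < n := by linarith only [hnR]
  have hnc0 : (n : ℂ) ≠ 0 := by exact_mod_cast hn0.ne'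
  obtain ⟨a1, a2⟩ := abs_le.mp h3
  obtain ⟨b1, b2⟩ := abs_le.mp h4
  have h2n : 1 / (2 * (n : ℝ)) ≤ 1 / 200 := by
    apply div_le_div_of_nonneg_left (by norm_num) (by norm_num)
    linarith only [hnR]
  have h2n0 : 0 < 1 / (2 * (n : ℝ)) := by positivity
  have m1 : w + 1 / 2 + ζ ∈ Sd (1 / 64) := ⟨by rw [re_add_half]; linarith only [h1, a1, h2n, h2n0], by rw [re_add_half]; linarith only [h2, a2, h2n, h2n0]⟩
  have m2 : w + 1 / 2 - ζ ∈ Sd (1 / 64) := ⟨by rw [re_sub_half]; linarith only [h1, a2, h2n, h2n0], by rw [re_sub_half]; linarith only [h2, a1, h2n, h2n0]⟩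
  have m1' : w + 1 / 2 + ζ' ∈ Sd (1 / 64) :=
    ⟨by rw [re_add_half]; linarith only [h1, b1, h2n, h2n0], by rw [re_add_half]; linarith only [h2, b2, h2n, h2n0]⟩
  have m2' : w + 1 / 2 - ζ' ∈ Sd (1 / 64) :=
    ⟨by rw [re_sub_half]; linarith only [h1, b2, h2n, h2n0], by rw [re_sub_half]; linarith only [h2, b1, h2n, h2n0]⟩
  have ecast : (1 : ℂ) / (2 * n) = ((1 / (2 * (n : ℝ)) : ℝ) : ℂ) := by push_cast; rfl
  have m3 : w + 1 / (2 * n) ∈ Sd (1 / 64) := by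
    rw [ecast]
    refine ⟨?_, ?_⟩
    · rw [Complex.add_re, Complex.ofReal_re]; linarith only [h1, h2n, h2n0]
    · rw [Complex.add_re, Complex.ofReal_re]; linarith only [h2, h2n, h2n0]
  have m4 : w ∈ Sd (1 / 64) := ⟨by linarith only [h1, h2n, h2n0], by linarith only [h2, h2n, h2n0]⟩
  have hT := Fh_taylor hδ hδ2 m3 m4
  rw [add_sub_cancel_left] at hT
  have hnn : ‖(1 : ℂ) / (2 * n)‖ = 1 / (2 * (n : ℝ)) := by
    rw [ecast, Complex.norm_real, Real.norm_of_nonneg h2n0.le]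
  rw [hnn] at hT
  set T : ℂ := VOL.Fh (w + 1 / (2 * n)) - VOL.Fh w - (1 / (2 * n)) * VOL.ph w with hTd
  have hM : ∀ z, VOL.M n z = n * VOL.Fh z + VOL.J n z := fun z => rfl
  have hFh : VOL.Fh (w + 1 / (2 * n)) = VOL.Fh w + (1 / (2 * n)) * VOL.ph w + T := by
    rw [hTd]; ring
  have hid : Tn n w ζ ζ' - (n * tp w ζ ζ' - 2 * ph w) = VOL.J n (w + 1 / 2 + ζ) +
      VOL.J n (w + 1 / 2 - ζ) + VOL.J n (w + 1 / 2 + ζ') + VOL.J n (w + 1 / 2 - ζ') -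
      4 * VOL.J n (w + 1 / (2 * n)) - 4 * n * T := by
    rw [Tn, tp, hM, hM, hM, hM, hM, hFh]
    field_simp
    ring
  rw [hid]
  have j1 := norm_J_Sd hδ hδ2 hn0 m1
  have j2 := norm_J_Sd hδ hδ2 hn0 m2
  have j3 := norm_J_Sd hδ hδ2 hn0 m1'
  have j4 := norm_J_Sd hδ hδ2 hn0 m2'
  have j5 := norm_J_Sd hδ hδ2 hn0 m3
  rw [← hsδ] at j1 j2 j3 j4 j5 hT
  have t1 : ‖4 * (n : ℂ) * T‖ ≤ Real.pi / sδ / n := by
    rw [norm_mul, norm_mul, Complex.norm_natCast]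
    have e0 : ‖(4 : ℂ)‖ = 4 := by norm_num
    rw [e0]
    calc 4 * n * ‖T‖ ≤ 4 * n * (Real.pi / sδ * (1 / (2 * n)) ^ 2) :=
          mul_le_mul_of_nonneg_left hT (by positivity)
      _ = Real.pi / sδ / n := by
          field_simp
          ring
  have t2 : ‖4 * VOL.J n (w + 1 / (2 * n))‖ ≤ 4 * (1 / (2 * Real.pi * sδ) / n) := by
    rw [norm_mul, show ‖(4 : ℂ)‖ = 4 by norm_num]
    exact mul_le_mul_of_nonneg_left j5 (by norm_num)
  calc _ ≤ 1 / (2 * Real.pi * sδ) / n + 1 / (2 * Real.pi * sδ) / n +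
        1 / (2 * Real.pi * sδ) / n + 1 / (2 * Real.pi * sδ) / n +
        4 * (1 / (2 * Real.pi * sδ) / n) + Real.pi / sδ / n := by
        refine (norm_sub_le _ _).trans (add_le_add ?_ t1)
        refine (norm_sub_le _ _).trans (add_le_add ?_ t2)
        refine (norm_add_le _ _).trans (add_le_add ?_ j4)
        refine (norm_add_le _ _).trans (add_le_add ?_ j3)
        exact (norm_add_le _ _).trans (add_le_add j1 j2)
    _ = (8 * (1 / (2 * Real.pi * sδ)) + Real.pi / sδ) / n := by ring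

end Pool.Agent.Work.MP_b30479_gtS.LT

end

section

/-!
# Part of `XNear`
-/
namespace Pool.Agent.Work.MP_b30479_gtS.LT

open Finset VOL AX MeasureTheory

/-- `Tn` is holomorphic in `w` -/
theorem Tn_differentiableX {n : ℕ} (hn : 100 ≤ n) {w ζ ζ' : ℂ} (h0 : 0 < w.re)
    (h1 : w.re ≤ 351 / 1000) (h2 : |ζ.re| ≤ 1 / 8) (h3 : |ζ'.re| ≤ 1 / 8) :
    DifferentiableAt ℂ (fun w => Tn n w ζ ζ') w := by
  have hn0 : (0 : ℝ) < n := by
    have : (100 : ℝ) ≤ n := by exact_mod_cast hn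
    linarith only [h0, h1, this]
  obtain ⟨s1, s2, s3⟩ := strip_ofX hn h0 h1 h2
  obtain ⟨s1', s2', -⟩ := strip_ofX hn h0 h1 h3
  unfold Tn
  have dM : ∀ {z : ℂ}, z ∈ VOL.strip → DifferentiableAt ℂ (VOL.M n) z := fun hz =>
    (VOL.hasDerivAt_M hn0 hz).differentiableAt
  have d1 : DifferentiableAt ℂ (fun w => VOL.M n (w + 1 / 2 + ζ)) w :=
    (dM s1).comp w ((differentiableAt_id.add_const (1 / 2)).add_const ζ)
  have d2 : DifferentiableAt ℂ (fun w => VOL.M n (w + 1 / 2 - ζ)) w :=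
    (dM s2).comp w ((differentiableAt_id.add_const (1 / 2)).sub_const ζ)
  have d1' : DifferentiableAt ℂ (fun w => VOL.M n (w + 1 / 2 + ζ')) w :=
    (dM s1').comp w ((differentiableAt_id.add_const (1 / 2)).add_const ζ')
  have d2' : DifferentiableAt ℂ (fun w => VOL.M n (w + 1 / 2 - ζ')) w :=
    (dM s2').comp w ((differentiableAt_id.add_const (1 / 2)).sub_const ζ')
  have d3 : DifferentiableAt ℂ (fun w => VOL.M n (w + 1 / (2 * n))) w :=
    (dM s3).comp w (differentiableAt_id.add_const _)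
  exact (((d1.add d2).add d1').add d2').sub (d3.const_mul 4)

end Pool.Agent.Work.MP_b30479_gtS.LT

end
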