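import Pool.Agent.Work.MP_b30479_gt.TBS.G2.Tensor
import Pool.Agent.Work.MP_b30479_gt.TBS.G2.PnLim
import Pool.Agent.Work.MP_b30479_gt.TBS.VC.GaussND
import Pool.Agent.Work.MP_b30479_gt.TBS.LT.XNear
import Pool.Agent.Work.MP_b30479_gt.TBS.LT.XReal
import Pool.Agent.Work.MP_b30479_gt.TBS.G2.SEfD
import Pool.Agent.Work.MP_b30479_gt.TBS.LT.Cube

section

/-!
# The sums over the lattice points at fixed continuous variables
-/

namespace Pool.Agent.Work.MP_b30479_gtS.G2

open Finset VOL MeasureTheory Filter Topology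

/-- a degenerate path -/
noncomputable def degP (w : ℂ) : PathW where
  a := 0
  b := 0
  hab := le_rfl
  γ := fun _ => w
  ω := fun _ => 0
  cont := continuous_const
  int := IntervalIntegrable.refl

theorem mainL_deg {K : ℝ} {V : Set ℂ} (F : Finset ℕ) (n : ℕ) (hK : (F.card : ℝ) ≤ K) (w : ℂ) :
    MainL K V (.disc F n) (degP w) {u | ∃ k ∈ F, u = (k : ℂ) / n} (gq n) := by
  intro g hg B hB hw
  have h0 : (Lam.path (degP w)).ap g = 0 := by simp [Lam.ap, degP]
  rw [h0, sub_zero]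
  apply boundL_disc V F n hK g hg B hB
  rintro _ ⟨k, hk, rfl⟩
  have h1 := hw _ ⟨k, hk, rfl⟩
  have h2 : ((k : ℂ) / n) = (((k : ℝ) / n : ℝ) : ℂ) := by push_cast; rfl
  rw [h2, gq_real] at h1
  rw [h2]
  exact h1

variable {D Z K : Type} [Fintype D] [Fintype Z] [Fintype K] [DecidableEq D]

/-- the path of the discrete variable `i` -/
noncomputable def Pa (P : Par D) (hcl : ∀ i, 0 < P.cl i) (hcr : ∀ i, 0 < P.cr i) (n : ℕ)
    (t : D → ℝ) (i : D) : PathW :=
  gP n 0 (P.m n i) (t i) (P.cl i) (P.cr i) (Nat.zero_le _) (hcl i) (hcr i)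

theorem path_const {P : Par D} (hcl : ∀ i, 0 < P.cl i) (hcr : ∀ i, 0 < P.cr i)
    {i : D} (hX : 0 < P.XM i ∧ P.XM i ≤ 1 ∧ 0 < P.cl i ∧ 0 < P.cr i ∧ P.cl i + P.cr i < P.XM i ∧
      0 < P.hu i ∧ 0 < P.hd i) (t : D → ℝ) :
    ∃ Kc : ℝ, 0 < Kc ∧ ∀ᶠ n : ℕ in atTop, 0 < P.m n i ∧ P.m n i ≤ n - 2 ∧
      (∀ V : Set ℂ, (∀ w : ℂ, ea n ≤ w.re → w.re ≤ P.eb n i → V ∈ 𝓝 w) →
        MainL (Kc * n) V (.disc (cor P n i) n) (Pa P hcl hcr n t i)
          (gEL n 0 (P.m n i) (cor P n i) (P.hu i) (P.hd i) (P.cl i) (P.cr i)) (gq n)) ∧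
      ∫ x in (Pa P hcl hcr n t i).a..(Pa P hcl hcr n t i).b, ‖(Pa P hcl hcr n t i).ω x‖ ≤
        Kc * n := by
  obtain ⟨hX0, hX1, hcl', hcr', hcc, hhu, hhd⟩ := hX
  set κ := min (min (P.hu i / P.cl i) (P.hu i / P.cr i)) (min (min (P.hd i / P.cl i) (P.hd i / P.cr i))
    (min (P.hu i) (P.hd i))) with hκ
  have hκ0 : 0 < κ := by
    rw [hκ]
    refine lt_min (lt_min ?_ ?_) (lt_min (lt_min ?_ ?_) (lt_min hhu hhd)) <;> positivity
  have a1 : κ ≤ P.hu i / P.cl i := (min_le_left _ _).trans (min_le_left _ _)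
  have a2 : κ ≤ P.hu i / P.cr i := (min_le_left _ _).trans (min_le_right _ _)
  have a3 : κ ≤ P.hd i / P.cl i :=
    (min_le_right _ _).trans ((min_le_left _ _).trans (min_le_left _ _))
  have a4 : κ ≤ P.hd i / P.cr i :=
    (min_le_right _ _).trans ((min_le_left _ _).trans (min_le_right _ _))
  have a5 : κ ≤ P.hu i := (min_le_right _ _).trans ((min_le_right _ _).trans (min_le_left _ _))
  have a6 : κ ≤ P.hd i := (min_le_right _ _).trans ((min_le_right _ _).trans (min_le_right _ _))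
  rw [le_div_iff₀ hcl'] at a1 a3
  rw [le_div_iff₀ hcr'] at a2 a4
  set L := max (max (P.hu i / P.cl i) (P.hu i / P.cr i)) (max (max (P.hd i / P.cl i)
    (P.hd i / P.cr i)) (max (|t i| / P.cl i) (|t i| / P.cr i))) with hL
  have b1 : P.hu i / P.cl i ≤ L := (le_max_left _ _).trans (le_max_left _ _)
  have b2 : P.hu i / P.cr i ≤ L := (le_max_right _ _).trans (le_max_left _ _)
  have b3 : P.hd i / P.cl i ≤ L :=
    (le_max_left _ _).trans ((le_max_left _ _).trans (le_max_right _ _))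
  have b4 : P.hd i / P.cr i ≤ L :=
    (le_max_right _ _).trans ((le_max_left _ _).trans (le_max_right _ _))
  have b5 : |t i| / P.cl i ≤ L :=
    (le_max_left _ _).trans ((le_max_right _ _).trans (le_max_right _ _))
  have b6 : |t i| / P.cr i ≤ L :=
    (le_max_right _ _).trans ((le_max_right _ _).trans (le_max_right _ _))
  have hL0 : 0 ≤ L := le_trans (by positivity) b1
  have hden : 0 < 1 - Real.exp (-(Real.pi * κ / 2)) := by
    have h1 : 0 < Real.pi * κ / 2 := by positivity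
    have : Real.exp (-(Real.pi * κ / 2)) < 1 := by
      rw [Real.exp_lt_one_iff]
      linarith only [h1]
    linarith only [this]
  refine ⟨2 * (1 + L) / (1 - Real.exp (-(Real.pi * κ / 2))) + 1 + (1 + L), by positivity, ?_⟩
  have hev : ∀ᶠ n : ℕ in atTop, 1 / P.XM i ≤ (n : ℝ) :=
    tendsto_natCast_atTop_atTop.eventually_ge_atTop _
  filter_upwards [hev, eventually_ge_atTop 4] with n hn1 hn4
  have hn0 : (0 : ℝ) < n := by
    have : 0 < n := by omega
    exact_mod_cast this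
  have hm0 : 0 < P.m n i := by
    unfold Par.m
    refine lt_min ?_ (by omega)
    rw [Nat.floor_pos]
    rw [div_le_iff₀ hX0] at hn1
    linarith only [hn1]
  have hm1 : P.m n i ≤ n - 2 := min_le_right _ _
  have hn4' : (1 : ℝ) ≤ n := by
    have : 1 ≤ n := by omega
    exact_mod_cast this
  have hk4 : κ * (1 / (4 * (n : ℝ))) ≤ κ := by
    apply mul_le_of_le_one_right hκ0.le
    rw [div_le_one (by positivity)]
    linarith only [hX1, hcl', hcr', hcc, hn4']
  have hcard : ((cor P n i).card : ℝ) ≤ n := by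
    have : (cor P n i).card ≤ (range n).card := card_le_card (filter_subset _ _)
    rw [card_range] at this
    exact_mod_cast this
  refine ⟨hm0, hm1, ?_, ?_⟩
  · intro V hV g hg B hB hw
    have h1 := mainL_graph (h := t i) (hu := P.hu i) (hd := P.hd i) (c := P.cl i) (c' := P.cr i)
      hm0 (by omega : P.m n i < n) (Ioc_subset_cor (P := P) (i := i) hX0.le (by omega)) hcl' hcr'
      hhu hhd hκ0 a1 a2 (hk4.trans a5) a3 a4 (hk4.trans a6) b1 b2 b3 b4 hV g hg B hB hw
    refine h1.trans ?_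
    apply mul_le_mul_of_nonneg_right _ hB
    have h2 : 0 ≤ (1 + L) * n := by positivity
    nlinarith only [hcard, h2, hcard, h2]
  · have h1 := integral_norm_gP_le (n := n) (A := 0) (B := P.m n i) (Nat.zero_le _) (by omega)
      (h := t i) hcl' hcr' b5 b6
    refine h1.trans ?_
    apply mul_le_mul_of_nonneg_right _ hn0.le
    have h2 : 0 ≤ 2 * (1 + L) / (1 - Real.exp (-(Real.pi * κ / 2))) := by positivity
    linarith only [hX1, hcl', hcr', hcc, h2]

theorem path_consts {P : Par D} (hcl : ∀ i, 0 < P.cl i) (hcr : ∀ i, 0 < P.cr i)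
    (hX : ∀ i, 0 < P.XM i ∧ P.XM i ≤ 1 ∧ 0 < P.cl i ∧ 0 < P.cr i ∧ P.cl i + P.cr i < P.XM i ∧
      0 < P.hu i ∧ 0 < P.hd i) (t : D → ℝ) :
    ∃ Kc : ℝ, 1 ≤ Kc ∧ ∀ᶠ n : ℕ in atTop, ∀ i, 0 < P.m n i ∧ P.m n i ≤ n - 2 ∧
      (∀ V : Set ℂ, (∀ w : ℂ, ea n ≤ w.re → w.re ≤ P.eb n i → V ∈ 𝓝 w) →
        MainL (Kc * n) V (.disc (cor P n i) n) (Pa P hcl hcr n t i)
          (gEL n 0 (P.m n i) (cor P n i) (P.hu i) (P.hd i) (P.cl i) (P.cr i)) (gq n)) ∧
      ∫ x in (Pa P hcl hcr n t i).a..(Pa P hcl hcr n t i).b, ‖(Pa P hcl hcr n t i).ω x‖ ≤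
        Kc * n := by
  choose k hk0 hk using fun i => path_const hcl hcr (hX i) t
  refine ⟨1 + ∑ i, k i, ?_, ?_⟩
  · have : 0 ≤ ∑ i, k i := sum_nonneg fun i _ => (hk0 i).le
    linarith only [this]
  · filter_upwards [eventually_all.mpr hk] with n hn i
    obtain ⟨h1, h2, h3, h4⟩ := hn i
    have h5 : k i * n ≤ (1 + ∑ i, k i) * n := by
      apply mul_le_mul_of_nonneg_right _ (Nat.cast_nonneg n)
      have := single_le_sum (f := k) (fun i _ => (hk0 i).le) (mem_univ i)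
      linarith only [this]
    refine ⟨h1, h2, ?_, h4.trans h5⟩
    intro V hV g hg B hB hw
    exact (h3 V hV g hg B hB hw).trans (mul_le_mul_of_nonneg_right h5 hB)

/-- holomorphy of the integrand in all discrete variables -/
theorem G_holo' {S : Dat D Z K} (hS : S.Ok) {n : ℕ} (hn : 4 ≤ n) {ζ : Z → ℂ}
    (hζ : ∀ v, |(ζ v).re| < 1 / 2) : ∃ ε : ℝ, 0 < ε ∧
    DifferentiableOn ℂ (fun w : D → ℂ => S.G n (Sum.elim w ζ))
      (Set.univ.pi fun _ => {u : ℂ | -ε < u.re ∧ u.re < 1 - 1 / n + ε}) := by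
  obtain ⟨ε, hε, h⟩ := G_holo hS hn (fun _ => True) (y := fun _ => 0) (ζ := ζ)
    (fun i hi => absurd trivial hi) hζ
  refine ⟨ε, hε, ?_⟩
  have h1 : Differentiable ℂ (fun w : D → ℂ => (fun i : {i : D // True} => w i.1)) := by
    rw [differentiable_pi]
    intro i
    exact differentiable_apply _
  have h2 := h.comp h1.differentiableOn (s := Set.univ.pi fun _ =>
    {u : ℂ | -ε < u.re ∧ u.re < 1 - 1 / n + ε}) (fun w hw i _ => hw i.1 (Set.mem_univ _))
  have h3 : (fun w : D → ℂ => S.G n (Sum.elim w ζ)) =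
      (fun w => S.G n (mk (fun _ => True) (fun _ => 0) ζ w)) ∘
        (fun w : D → ℂ => (fun i : {i : D // True} => w i.1)) := by
    funext w
    simp only [Function.comp_def]
    congr 1
  rw [h3]
  exact h2

theorem gEL_re {n B : ℕ} {F : Finset ℕ} (hF : F ⊆ range n) (hn : 0 < n) (hB : B ≤ n - 2)
    (hn2 : 2 ≤ n) {hu hd c c' : ℝ}
    {w : ℂ} (hw : w ∈ gEL n 0 B F hu hd c c') : 0 ≤ w.re ∧ w.re ≤ 1 - 1 / n := by
  have hn0 : (0 : ℝ) < n := by exact_mod_cast hn
  have hB' : (B : ℝ) + 2 ≤ n := by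
    have : B + 2 ≤ n := by omega
    exact_mod_cast this
  have hx : ∀ x : ℝ, (((0 : ℕ) : ℝ) + 1 / 2) / n ≤ x → x ≤ ((B : ℝ) + 1 / 2) / n →
      0 ≤ x ∧ x ≤ 1 - 1 / n := by
    intro x h1 h2
    refine ⟨le_trans (by positivity) h1, h2.trans ?_⟩
    rw [div_le_iff₀ hn0, sub_mul, one_mul, div_mul_cancel₀ _ hn0.ne']
    linarith only [hB']
  rcases hw with ⟨x, h1, h2, rfl | rfl⟩ | ⟨k, hk, _, rfl⟩
  · rw [pt_re]
    exact hx x h1 h2
  · rw [pt_re]
    exact hx x h1 h2
  · have h3 := hF hk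
    rw [mem_range] at h3
    have h4 : (k : ℝ) + 1 ≤ n := by exact_mod_cast h3
    have h5 : ((k : ℂ) / n) = (((k : ℝ) / n : ℝ) : ℂ) := by push_cast; rfl
    rw [h5, Complex.ofReal_re]
    refine ⟨by positivity, ?_⟩
    rw [div_le_iff₀ hn0, sub_mul, one_mul, div_mul_cancel₀ _ hn0.ne']
    linarith only [h4]

theorem gEL_im {n B : ℕ} {F : Finset ℕ} {hu hd c c' : ℝ} (h1 : 0 ≤ hu) (h2 : 0 ≤ hd)
    {w : ℂ} (hw : w ∈ gEL n 0 B F hu hd c c') : |w.im| ≤ max hu hd := by
  rcases hw with ⟨x, _, _, rfl | rfl⟩ | ⟨k, hk, _, rfl⟩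
  · rw [pt_im, abs_mul, abs_of_nonneg h1, abs_of_nonneg (tr_nonneg _ _ _ _ _)]
    exact (mul_le_of_le_one_right h1 (tr_le_one _ _ _ _ _)).trans (le_max_left _ _)
  · rw [pt_im, abs_mul, abs_neg, abs_of_nonneg h2, abs_of_nonneg (tr_nonneg _ _ _ _ _)]
    exact (mul_le_of_le_one_right h2 (tr_le_one _ _ _ _ _)).trans (le_max_right _ _)
  · have h5 : ((k : ℂ) / n) = (((k : ℝ) / n : ℝ) : ℂ) := by push_cast; rfl
    rw [h5, Complex.ofReal_im, abs_zero]
    exact le_max_of_le_left h1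

end Pool.Agent.Work.MP_b30479_gtS.G2

end

section

/-!
# Abstract core of the saddle point method (all hyperbolic two-bridge links)

`nn s = 2 s + 1`.
* `core_lim`: Laplace integral over a bounded set of `ℝ^ι` with a sharp bound near the critical
  point, an exponentially small bound outside, and a local limit.
* `final_lim`: the same for a sequence which differs from the integral by an exponentially
  smaller term.
* `LocLim`: local limits on the scale `1/√n` of a factor along complex directions, closed under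
  products.
-/

namespace Pool.Agent.Work.MP_b30479_gtS.G2

open Filter Topology MeasureTheory VC

/-- the odd number `n = 2 s + 1` -/
def nn (s : ℕ) : ℝ := ((2 * s + 1 : ℕ) : ℝ)

theorem nn_pos (s : ℕ) : 0 < nn s := by unfold nn; positivity

theorem nn_ge_one (s : ℕ) : 1 ≤ nn s := by
  unfold nn
  exact_mod_cast Nat.succ_le_succ (Nat.zero_le (2 * s))

theorem tendsto_nn : Tendsto nn atTop atTop := by
  have hodd : Tendsto (fun s : ℕ => 2 * s + 1) atTop atTop :=
    tendsto_atTop_mono (fun s => by simp only [id]; omega) tendsto_id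
  exact tendsto_natCast_atTop_atTop.comp hodd

/-- a power times a decreasing exponential is bounded -/
theorem rpow_mul_exp_le (K : ℝ) {δ : ℝ} (hδ : 0 < δ) :
    ∃ C : ℝ, ∀ x : ℝ, 1 ≤ x → x ^ K * Real.exp (-(δ * x)) ≤ C := by
  have h := tendsto_rpow_mul_exp_neg_mul_atTop_nhds_zero K δ hδ
  obtain ⟨a, ha⟩ := (h.eventually (gt_mem_nhds zero_lt_one)).exists_forall_of_atTop
  obtain ⟨B, hB⟩ := (isCompact_Icc (a := (1 : ℝ)) (b := max a 1)).bddAbove_image
    (f := fun x : ℝ => x ^ K * Real.exp (-δ * x)) (by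
      refine ContinuousOn.mul ?_ (by fun_prop)
      intro x hx
      exact (Real.continuousAt_rpow_const x K (Or.inl (by linarith only [hx, hx.1] : x ≠ 0))).continuousWithinAt)
  refine ⟨max B 1, fun x hx => ?_⟩
  have e : -(δ * x) = -δ * x := by ring
  rw [e]
  rcases le_total x (max a 1) with h1 | h1
  · exact (hB ⟨x, ⟨hx, h1⟩, rfl⟩).trans (le_max_left _ _)
  · exact (ha x ((le_max_left _ _).trans h1)).le.trans (le_max_right _ _)

section core

variable {ι : Type*} [Fintype ι]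

/-- the sum of squares of the distances to `x0` -/
def sq (x0 x : ι → ℝ) : ℝ := ∑ i, (x i - x0 i) ^ 2

theorem sq_nonneg' (x0 x : ι → ℝ) : 0 ≤ sq x0 x := Finset.sum_nonneg fun _ _ => sq_nonneg _

/-- one bound from a sharp bound near the critical point and a bound outside -/
theorem bound_merge {S U : Set (ι → ℝ)} {x0 : ι → ℝ} {R : ℝ} (hR : ∀ x ∈ S, sq x0 x ≤ R)
    {F : ℕ → (ι → ℝ) → ℂ} {κ V : ℝ}
    (near : ∃ C c : ℝ, 0 < c ∧ ∀ᶠ s in atTop, ∀ x ∈ S, x ∈ U →
      ‖F s x‖ ≤ C * nn s ^ κ * Real.exp (nn s * (V - c * sq x0 x)))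
    (far : ∃ C K δ : ℝ, 0 < δ ∧ ∀ᶠ s in atTop, ∀ x ∈ S, x ∉ U →
      ‖F s x‖ ≤ C * nn s ^ K * Real.exp (nn s * (V - δ))) :
    ∃ C c : ℝ, 0 < c ∧ ∀ᶠ s in atTop, ∀ x ∈ S,
      ‖F s x‖ ≤ C * nn s ^ κ * Real.exp (nn s * (V - c * sq x0 x)) := by
  obtain ⟨C1, c1, hc1, h1⟩ := near
  obtain ⟨C2, K, δ, hδ, h2⟩ := far
  obtain ⟨B, hB⟩ := rpow_mul_exp_le (K - κ) (half_pos hδ)
  have hR1 : 0 < |R| + 1 := by positivity
  refine ⟨|C1| + |C2| * |B|, min c1 (δ / 2 / (|R| + 1)), lt_min hc1 (by positivity), ?_⟩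
  filter_upwards [h1, h2] with s hs1 hs2 x hx
  have hn : 0 < nn s := nn_pos s
  have hq := sq_nonneg' x0 x
  have hqR := hR x hx
  by_cases hU : x ∈ U
  · refine (hs1 x hx hU).trans ?_
    have h3 : Real.exp (nn s * (V - c1 * sq x0 x)) ≤
        Real.exp (nn s * (V - min c1 (δ / 2 / (|R| + 1)) * sq x0 x)) := by
      refine Real.exp_le_exp.mpr (mul_le_mul_of_nonneg_left ?_ hn.le)
      have := mul_le_mul_of_nonneg_right (min_le_left c1 (δ / 2 / (|R| + 1))) hq
      linarith only [this]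
    have h4 : C1 ≤ |C1| + |C2| * |B| := by
      have := le_abs_self C1
      have : 0 ≤ |C2| * |B| := by positivity
      linarith
    refine mul_le_mul (mul_le_mul_of_nonneg_right h4 (Real.rpow_nonneg hn.le _)) h3
      (Real.exp_pos _).le (by positivity)
  · refine (hs2 x hx hU).trans ?_
    have h3 : V - δ ≤ V - min c1 (δ / 2 / (|R| + 1)) * sq x0 x - δ / 2 := by
      have h5 := mul_le_mul_of_nonneg_right (min_le_right c1 (δ / 2 / (|R| + 1))) hq
      have h6 : δ / 2 / (|R| + 1) * sq x0 x ≤ δ / 2 / (|R| + 1) * (|R| + 1) :=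
        mul_le_mul_of_nonneg_left (by linarith only [hqR, le_abs_self R]) (by positivity)
      have h7 : δ / 2 / (|R| + 1) * (|R| + 1) = δ / 2 := by field_simp
      linarith only [h5, h6, h7]
    have h8 : nn s ^ K * Real.exp (nn s * (V - δ)) ≤
        |B| * (nn s ^ κ * Real.exp (nn s *
          (V - min c1 (δ / 2 / (|R| + 1)) * sq x0 x))) := by
      have h9 : Real.exp (nn s * (V - δ)) ≤ Real.exp (nn s *
          (V - min c1 (δ / 2 / (|R| + 1)) * sq x0 x)) * Real.exp (-(δ / 2 * nn s)) := by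
        rw [← Real.exp_add]
        refine Real.exp_le_exp.mpr ?_
        have := mul_le_mul_of_nonneg_left h3 hn.le
        linarith only [this]
      have h10 : nn s ^ K = nn s ^ κ * nn s ^ (K - κ) := by
        rw [← Real.rpow_add hn]; congr 1; ring
      have h11 := (hB (nn s) (nn_ge_one s)).trans (le_abs_self B)
      calc nn s ^ K * Real.exp (nn s * (V - δ))
          ≤ nn s ^ K * (Real.exp (nn s *
            (V - min c1 (δ / 2 / (|R| + 1)) * sq x0 x)) * Real.exp (-(δ / 2 * nn s))) :=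
            mul_le_mul_of_nonneg_left h9 (Real.rpow_nonneg hn.le _)
        _ = (nn s ^ (K - κ) * Real.exp (-(δ / 2 * nn s))) * (nn s ^ κ * Real.exp (nn s *
            (V - min c1 (δ / 2 / (|R| + 1)) * sq x0 x))) := by rw [h10]; ring
        _ ≤ _ := mul_le_mul_of_nonneg_right h11 (by positivity)
    calc C2 * nn s ^ K * Real.exp (nn s * (V - δ))
        = C2 * (nn s ^ K * Real.exp (nn s * (V - δ))) := by ring
      _ ≤ |C2| * (nn s ^ K * Real.exp (nn s * (V - δ))) :=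
          mul_le_mul_of_nonneg_right (le_abs_self _) (by positivity)
      _ ≤ |C2| * (|B| * (nn s ^ κ * Real.exp (nn s *
          (V - min c1 (δ / 2 / (|R| + 1)) * sq x0 x)))) :=
          mul_le_mul_of_nonneg_left h8 (abs_nonneg _)
      _ ≤ (|C1| + |C2| * |B|) * nn s ^ κ * Real.exp (nn s *
          (V - min c1 (δ / 2 / (|R| + 1)) * sq x0 x)) := by
          have : 0 ≤ |C1| * (nn s ^ κ * Real.exp (nn s *
            (V - min c1 (δ / 2 / (|R| + 1)) * sq x0 x))) := by positivity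
          nlinarith only [this, this]

/-- **Core.** Laplace asymptotics of `∫_S F_s`, `n = 2 s + 1`. -/
theorem core_lim {S U : Set (ι → ℝ)} (hS : MeasurableSet S) {x0 : ι → ℝ} (hx : S ∈ 𝓝 x0)
    {R : ℝ} (hR : ∀ x ∈ S, sq x0 x ≤ R)
    {F : ℕ → (ι → ℝ) → ℂ} (hm : ∀ s, Measurable (F s)) {κ : ℝ} {Ψ : ℂ}
    (near : ∃ C c : ℝ, 0 < c ∧ ∀ᶠ s in atTop, ∀ x ∈ S, x ∈ U →
      ‖F s x‖ ≤ C * nn s ^ κ * Real.exp (nn s * (Ψ.re - c * sq x0 x)))
    (far : ∃ C K δ : ℝ, 0 < δ ∧ ∀ᶠ s in atTop, ∀ x ∈ S, x ∉ U →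
      ‖F s x‖ ≤ C * nn s ^ K * Real.exp (nn s * (Ψ.re - δ)))
    {A : ℂ} (hA : A ≠ 0) {Q : (ι → ℝ) → ℂ} (hQ : IsQ Q)
    (hlim : ∀ X : ι → ℝ, Tendsto (fun s => ((nn s ^ (-κ) : ℝ) : ℂ) *
      Complex.exp (-((nn s : ℂ) * Ψ)) * F s (fun i => x0 i + X i / √(nn s))) atTop
        (𝓝 (A * Complex.exp (Q X)))) :
    ∃ L : ℂ, L ≠ 0 ∧ Tendsto (fun s => ((nn s ^ ((Fintype.card ι : ℝ) / 2 - κ) : ℝ) : ℂ) *
      Complex.exp (-((nn s : ℂ) * Ψ)) * ∫ x in S, F s x) atTop (𝓝 L) := by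
  obtain ⟨C, c, hc, hb'⟩ := bound_merge hR near far
  set F' : ℕ → (ι → ℝ) → ℂ := fun s x =>
    ((nn s ^ (-κ) : ℝ) : ℂ) * Complex.exp (-((nn s : ℂ) * Ψ)) * F s x with hF
  have hb : ∀ᶠ s in atTop, ∀ x ∈ S, ‖F' s x‖ ≤
      C * Real.exp (-(nn s * (c * ∑ i, (x i - x0 i) ^ 2))) := by
    filter_upwards [hb'] with s hs x hx'
    have hn := nn_pos s
    rw [hF]
    simp only
    rw [norm_mul, norm_mul, Complex.norm_real, Complex.norm_exp, Real.norm_eq_abs,
      abs_of_nonneg (Real.rpow_nonneg hn.le _)]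
    refine (mul_le_mul_of_nonneg_left (hs x hx') (by positivity)).trans (le_of_eq ?_)
    have h3 : (-((nn s : ℂ) * Ψ)).re = -(nn s * Ψ.re) := by
      rw [Complex.neg_re, Complex.re_ofReal_mul]
    rw [h3]
    have h4 : nn s ^ (-κ) * nn s ^ κ = 1 := by
      rw [← Real.rpow_add hn, neg_add_cancel, Real.rpow_zero]
    have h5 : Real.exp (-(nn s * Ψ.re)) * Real.exp (nn s * (Ψ.re - c * sq x0 x)) =
        Real.exp (-(nn s * (c * ∑ i, (x i - x0 i) ^ 2))) := by
      rw [← Real.exp_add]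
      congr 1
      unfold sq
      ring
    calc nn s ^ (-κ) * Real.exp (-(nn s * Ψ.re)) *
          (C * nn s ^ κ * Real.exp (nn s * (Ψ.re - c * sq x0 x)))
        = C * (nn s ^ (-κ) * nn s ^ κ) * (Real.exp (-(nn s * Ψ.re)) *
          Real.exp (nn s * (Ψ.re - c * sq x0 x))) := by ring
      _ = _ := by rw [h4, h5, mul_one]
  have hlap := VC.laplace_nd hS hx tendsto_nn (F := F')
    (fun s => (hm s).const_mul _) hc hb hlim
  have hbd := VC.laplace_nd_bound hx tendsto_nn (F := F') hb hlim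
  refine ⟨∫ X : ι → ℝ, A * Complex.exp (Q X), ?_, ?_⟩
  · rw [integral_const_mul]
    refine mul_ne_zero hA (hQ.integral_ne_zero (C := C / ‖A‖) hc fun X => ?_)
    have h1 := hbd X
    rw [norm_mul, Complex.norm_exp] at h1
    have hK0 : 0 < ‖A‖ := norm_pos_iff.mpr hA
    rw [div_mul_eq_mul_div, le_div_iff₀ hK0, mul_comm]
    exact h1
  · refine hlap.congr fun s => ?_
    have hn := nn_pos s
    rw [hF]
    simp only
    rw [integral_const_mul, ← mul_assoc, ← mul_assoc, ← Complex.ofReal_mul, ← Real.rpow_add hn,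
      sub_eq_add_neg]

/-- The final form: `a s = ∫ + err`, with an exponentially smaller error. -/
theorem final_lim {κ p : ℝ} {Ψ L : ℂ} {I a : ℕ → ℂ}
    (hI : Tendsto (fun s => ((nn s ^ p : ℝ) : ℂ) * Complex.exp (-((nn s : ℂ) * Ψ)) * I s)
      atTop (𝓝 L))
    (herr : ∃ C K δ : ℝ, 0 < δ ∧ ∀ᶠ s in atTop,
      ‖a s - I s‖ ≤ C * nn s ^ K * Real.exp (nn s * (Ψ.re - δ))) :
    Tendsto (fun s => ((nn s ^ p : ℝ) : ℂ) * Complex.exp (-((nn s : ℂ) * Ψ)) * a s)
      atTop (𝓝 L) := by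
  obtain ⟨C, K, δ, hδ, h⟩ := herr
  have h1 : Tendsto (fun s => ((nn s ^ p : ℝ) : ℂ) * Complex.exp (-((nn s : ℂ) * Ψ)) *
      (a s - I s)) atTop (𝓝 0) := by
    have h0 : Tendsto (fun s => C * (nn s ^ (p + K) * Real.exp (-δ * nn s))) atTop (𝓝 0) := by
      have := (tendsto_rpow_mul_exp_neg_mul_atTop_nhds_zero (p + K) δ hδ).comp tendsto_nn
      simpa using this.const_mul C
    refine squeeze_zero_norm' ?_ h0
    filter_upwards [h] with s hs
    have hn := nn_pos s
    rw [norm_mul, norm_mul, Complex.norm_real, Complex.norm_exp, Real.norm_eq_abs,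
      abs_of_nonneg (Real.rpow_nonneg hn.le _)]
    have h3 : (-((nn s : ℂ) * Ψ)).re = -(nn s * Ψ.re) := by
      rw [Complex.neg_re, Complex.re_ofReal_mul]
    rw [h3]
    refine (mul_le_mul_of_nonneg_left hs (by positivity)).trans (le_of_eq ?_)
    have h5 : Real.exp (-(nn s * Ψ.re)) * Real.exp (nn s * (Ψ.re - δ)) =
        Real.exp (-δ * nn s) := by
      rw [← Real.exp_add]
      congr 1
      ring
    rw [Real.rpow_add hn, ← h5]
    ring
  have h2 := hI.add h1
  rw [add_zero] at h2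
  refine h2.congr fun s => ?_
  ring

end core

/-! ### local limits of the factors -/

section loc

variable {ι : Type*} [Fintype ι]

/-- `φ_n (z + δ X / √n) ~ A n^κ exp (n ψ + √n ∑ l_i δ_i X_i + Q X)`. -/
def LocLim (φ : ℕ → (ι → ℂ) → ℂ) (κ : ℝ) (ψ : ℂ) (l z δ : ι → ℂ) : Prop :=
  ∃ A : ℂ, A ≠ 0 ∧ ∃ Q : (ι → ℝ) → ℂ, IsQ Q ∧ ∀ X : ι → ℝ,
    Tendsto (fun s => ((nn s ^ (-κ) : ℝ) : ℂ) *
      Complex.exp (-((nn s : ℂ) * ψ) - √(nn s) * ∑ i, l i * (δ i * X i)) *
        φ s (fun i => z i + δ i * X i / √(nn s))) atTop (𝓝 (A * Complex.exp (Q X)))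

theorem LocLim.one (z δ : ι → ℂ) : LocLim (fun _ _ => 1) 0 0 0 z δ :=
  ⟨1, one_ne_zero, _, IsQ.zero, fun X => by simp⟩

theorem LocLim.mul {φ φ' : ℕ → (ι → ℂ) → ℂ} {κ κ' : ℝ} {ψ ψ' : ℂ} {l l' z δ : ι → ℂ}
    (h : LocLim φ κ ψ l z δ) (h' : LocLim φ' κ' ψ' l' z δ) :
    LocLim (fun s x => φ s x * φ' s x) (κ + κ') (ψ + ψ') (l + l') z δ := by
  obtain ⟨A, hA, Q, hQ, h1⟩ := h
  obtain ⟨A', hA', Q', hQ', h1'⟩ := h'
  refine ⟨A * A', mul_ne_zero hA hA', _, hQ.add hQ', fun X => ?_⟩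
  have h2 := (h1 X).mul (h1' X)
  have e1 : A * Complex.exp (Q X) * (A' * Complex.exp (Q' X)) =
      A * A' * Complex.exp (Q X + Q' X) := by rw [Complex.exp_add]; ring
  rw [e1] at h2
  refine h2.congr fun s => ?_
  have hn := nn_pos s
  have e2 : ((nn s ^ (-(κ + κ')) : ℝ) : ℂ) =
      ((nn s ^ (-κ) : ℝ) : ℂ) * ((nn s ^ (-κ') : ℝ) : ℂ) := by
    rw [← Complex.ofReal_mul, ← Real.rpow_add hn]
    congr 2
    ring
  have e3 : Complex.exp (-((nn s : ℂ) * (ψ + ψ')) - √(nn s) * ∑ i, (l + l') i * (δ i * X i)) =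
      Complex.exp (-((nn s : ℂ) * ψ) - √(nn s) * ∑ i, l i * (δ i * X i)) *
      Complex.exp (-((nn s : ℂ) * ψ') - √(nn s) * ∑ i, l' i * (δ i * X i)) := by
    rw [← Complex.exp_add]
    congr 1
    have : ∑ i, (l + l') i * (δ i * X i) =
        ∑ i, l i * (δ i * X i) + ∑ i, l' i * (δ i * X i) := by
      rw [← Finset.sum_add_distrib]
      exact Finset.sum_congr rfl fun i _ => by simp [add_mul]
    rw [this]
    ring
  rw [e2, e3]
  ring

theorem LocLim.prod {E : Type*} (t : Finset E) {φ : E → ℕ → (ι → ℂ) → ℂ} {κ : E → ℝ}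
    {ψ : E → ℂ} {l : E → ι → ℂ} {z δ : ι → ℂ}
    (h : ∀ e ∈ t, LocLim (φ e) (κ e) (ψ e) (l e) z δ) :
    LocLim (fun s x => ∏ e ∈ t, φ e s x) (∑ e ∈ t, κ e) (∑ e ∈ t, ψ e) (∑ e ∈ t, l e) z δ := by
  classical
  induction t using Finset.induction_on with
  | empty => simpa using LocLim.one z δ
  | insert a t ha ih =>
    simp only [Finset.prod_insert ha, Finset.sum_insert ha]
    exact (h a (Finset.mem_insert_self a t)).mul
      (ih fun e he => h e (Finset.mem_insert_of_mem he))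

/-- At a critical point the linear term disappears. -/
theorem LocLim.crit {φ : ℕ → (ι → ℂ) → ℂ} {κ : ℝ} {ψ : ℂ} {l z δ : ι → ℂ}
    (h : LocLim φ κ ψ l z δ) (hl : ∀ i, l i = 0) :
    ∃ A : ℂ, A ≠ 0 ∧ ∃ Q : (ι → ℝ) → ℂ, IsQ Q ∧ ∀ X : ι → ℝ,
      Tendsto (fun s => ((nn s ^ (-κ) : ℝ) : ℂ) * Complex.exp (-((nn s : ℂ) * ψ)) *
        φ s (fun i => z i + δ i * X i / √(nn s))) atTop (𝓝 (A * Complex.exp (Q X))) := by
  obtain ⟨A, hA, Q, hQ, h1⟩ := h
  refine ⟨A, hA, Q, hQ, fun X => ?_⟩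
  simpa [hl] using h1 X

/-- A factor `h_n (c + ∑ a_i z_i)` of one complex variable. -/
theorem LocLim.of_one {h : ℕ → ℂ → ℂ} {κ : ℝ} {ψ μ ν A : ℂ} (hA : A ≠ 0) {c : ℂ} {a z δ : ι → ℂ}
    (h1 : ∀ Z : ℂ, Tendsto (fun s => ((nn s ^ (-κ) : ℝ) : ℂ) *
      Complex.exp (-((nn s : ℂ) * ψ) - √(nn s) * (μ * Z)) *
        h s (c + ∑ i, a i * z i + Z / √(nn s))) atTop (𝓝 (A * Complex.exp (ν * Z ^ 2)))) :
    LocLim (fun s x => h s (c + ∑ i, a i * x i)) κ ψ (fun i => μ * a i) z δ := by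
  refine ⟨A, hA, fun X => ν * (∑ i, (a i * δ i) * X i) ^ 2, (IsQ.sq _).const_mul ν, fun X => ?_⟩
  refine (h1 (∑ i, (a i * δ i) * X i)).congr fun s => ?_
  have e1 : μ * ∑ i, a i * δ i * (X i : ℂ) = ∑ i, μ * a i * (δ i * X i) := by
    rw [Finset.mul_sum]
    exact Finset.sum_congr rfl fun i _ => by ring
  have e2 : c + ∑ i, a i * z i + (∑ i, a i * δ i * (X i : ℂ)) / √(nn s) =
      c + ∑ i, a i * (z i + δ i * X i / √(nn s)) := by
    rw [Finset.sum_div, add_assoc, ← Finset.sum_add_distrib]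
    congr 1
    exact Finset.sum_congr rfl fun i _ => by ring
  rw [e1, e2]

/-- A factor with a nonzero limit at the critical point. -/
theorem LocLim.of_tendsto {h : ℕ → (ι → ℂ) → ℂ} {A : ℂ} (hA : A ≠ 0) {z δ : ι → ℂ}
    (h1 : ∀ X : ι → ℝ, Tendsto (fun s => h s (fun i => z i + δ i * X i / √(nn s))) atTop
      (𝓝 A)) : LocLim h 0 0 0 z δ :=
  ⟨A, hA, _, IsQ.zero, fun X => by simpa using h1 X⟩

theorem LocLim.congr {φ φ' : ℕ → (ι → ℂ) → ℂ} {κ κ' : ℝ} {ψ ψ' : ℂ} {l l' z δ : ι → ℂ}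
    (h : LocLim φ κ ψ l z δ) (h1 : φ = φ') (h2 : κ = κ') (h3 : ψ = ψ') (h4 : l = l') :
    LocLim φ' κ' ψ' l' z δ := by
  subst h1 h2 h3 h4; exact h

/-- A factor `exp (n q)` with a polynomial `q` of degree `2`: `q = ∑ u_k (c_k + ∑ a_ki z_i)^2`
plus an affine form; here one square. -/
theorem LocLim.exp_sq (u c : ℂ) (a z δ : ι → ℂ) :
    LocLim (fun s x => Complex.exp ((nn s : ℂ) * (u * (c + ∑ i, a i * x i) ^ 2))) 0
      (u * (c + ∑ i, a i * z i) ^ 2) (fun i => 2 * u * (c + ∑ j, a j * z j) * a i) z δ := by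
  refine (LocLim.of_one (h := fun s w => Complex.exp ((nn s : ℂ) * (u * w ^ 2)))
    (κ := 0) (ψ := u * (c + ∑ i, a i * z i) ^ 2) (μ := 2 * u * (c + ∑ j, a j * z j)) (ν := u)
    (A := 1) one_ne_zero (c := c) (a := a) (z := z) (δ := δ) fun Z => ?_)
  refine tendsto_const_nhds.congr fun s => ?_
  have hn := nn_pos s
  have hq : ((√(nn s) : ℝ) : ℂ) ≠ 0 := by
    exact_mod_cast (Real.sqrt_pos.mpr hn).ne'
  have hq2 : ((√(nn s) : ℝ) : ℂ) ^ 2 = nn s := by
    rw [← Complex.ofReal_pow, Real.sq_sqrt hn.le]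
  rw [neg_zero, Real.rpow_zero, Complex.ofReal_one, one_mul, one_mul, ← Complex.exp_add]
  congr 1
  set w := c + ∑ i, a i * z i
  rw [← hq2]
  field_simp
  ring

theorem LocLim.exp_aff (c : ℂ) (a z δ : ι → ℂ) :
    LocLim (fun s x => Complex.exp ((nn s : ℂ) * (c + ∑ i, a i * x i))) 0
      (c + ∑ i, a i * z i) a z δ := by
  refine LocLim.congr (LocLim.of_one (h := fun s w => Complex.exp ((nn s : ℂ) * w))
    (κ := 0) (ψ := c + ∑ i, a i * z i) (μ := 1) (ν := 0)
    (A := 1) one_ne_zero (c := c) (a := a) (z := z) (δ := δ) fun Z => ?_)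
    rfl rfl rfl (by funext i; simp)
  refine tendsto_const_nhds.congr fun s => ?_
  have hn := nn_pos s
  have hq : ((√(nn s) : ℝ) : ℂ) ≠ 0 := by
    exact_mod_cast (Real.sqrt_pos.mpr hn).ne'
  have hq2 : ((√(nn s) : ℝ) : ℂ) ^ 2 = nn s := by
    rw [← Complex.ofReal_pow, Real.sq_sqrt hn.le]
  rw [neg_zero, Real.rpow_zero, Complex.ofReal_one, one_mul, one_mul, ← Complex.exp_add]
  congr 1
  set w := c + ∑ i, a i * z i
  rw [← hq2]
  field_simp
  ring

end loc

end Pool.Agent.Work.MP_b30479_gtS.G2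

end

section

/-!
# Splitting of the state sum into core and tails
-/

namespace Pool.Agent.Work.MP_b30479_gtS.G2

open Finset VOL MeasureTheory Filter Topology

/-! ### exponentially small sequences -/

/-- `a s` is exponentially smaller than `exp (n T)` -/
def Small (T : ℝ) (a : ℕ → ℝ) : Prop :=
  ∃ C k δ : ℝ, 0 < δ ∧ ∀ᶠ s : ℕ in atTop, a s ≤ C * nn s ^ k * Real.exp (nn s * (T - δ))

theorem one_le_nn (s : ℕ) : 1 ≤ nn s := by
  unfold nn
  push_cast
  have : (0 : ℝ) ≤ s := Nat.cast_nonneg s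
  linarith

theorem Small.mono {T : ℝ} {a b : ℕ → ℝ} (h : Small T a) (hb : ∀ᶠ s in atTop, b s ≤ a s) :
    Small T b := by
  obtain ⟨C, k, δ, hδ, h1⟩ := h
  exact ⟨C, k, δ, hδ, by filter_upwards [h1, hb] with s h2 h3 using h3.trans h2⟩

theorem Small.zero (T : ℝ) : Small T fun _ => 0 :=
  ⟨0, 0, 1, one_pos, Eventually.of_forall fun s => by simp⟩

theorem bound_le {T C C' k k' δ δ' : ℝ} (hC : C ≤ C') (hC' : 0 ≤ C') (hk : k ≤ k') (hδ : δ' ≤ δ)
    (s : ℕ) : C * nn s ^ k * Real.exp (nn s * (T - δ)) ≤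
      C' * nn s ^ k' * Real.exp (nn s * (T - δ')) := by
  have h0 := nn_pos s
  have h1 := one_le_nn s
  have h2 : nn s ^ k ≤ nn s ^ k' := Real.rpow_le_rpow_of_exponent_le h1 hk
  have h3 : 0 ≤ nn s ^ k := (Real.rpow_pos_of_pos h0 _).le
  have h4 : Real.exp (nn s * (T - δ)) ≤ Real.exp (nn s * (T - δ')) := by
    apply Real.exp_le_exp.mpr
    apply mul_le_mul_of_nonneg_left _ h0.le
    linarith
  calc C * nn s ^ k * Real.exp (nn s * (T - δ))
      ≤ C' * nn s ^ k * Real.exp (nn s * (T - δ)) := by gcongr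
    _ ≤ C' * nn s ^ k' * Real.exp (nn s * (T - δ')) := by gcongr

theorem Small.add {T : ℝ} {a b : ℕ → ℝ} (ha : Small T a) (hb : Small T b) :
    Small T fun s => a s + b s := by
  obtain ⟨C, k, δ, hδ, h1⟩ := ha
  obtain ⟨C', k', δ', hδ', h2⟩ := hb
  refine ⟨|C| + |C'|, max k k', min δ δ', lt_min hδ hδ', ?_⟩
  filter_upwards [h1, h2] with s h3 h4
  have h5 := bound_le (T := T) (le_abs_self C) (abs_nonneg C) (le_max_left k k') (min_le_left δ δ') s
  have h6 := bound_le (T := T) (le_abs_self C') (abs_nonneg C') (le_max_right k k')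
    (min_le_right δ δ') s
  calc a s + b s ≤ |C| * nn s ^ max k k' * Real.exp (nn s * (T - min δ δ')) +
        |C'| * nn s ^ max k k' * Real.exp (nn s * (T - min δ δ')) :=
        add_le_add (h3.trans h5) (h4.trans h6)
    _ = _ := by ring

theorem Small.sum {ι : Type} (F : Finset ι) {T : ℝ} {a : ι → ℕ → ℝ} (h : ∀ i ∈ F, Small T (a i)) :
    Small T fun s => ∑ i ∈ F, a i s := by
  classical
  induction F using Finset.induction_on with
  | empty => simpa using Small.zero T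
  | insert i F hi ih =>
    simp only [sum_insert hi]
    exact (h i (mem_insert_self _ _)).add (ih fun j hj => h j (mem_insert_of_mem hj))

variable {D Z K : Type} [Fintype D] [Fintype Z] [Fintype K] [DecidableEq D]

/-- the point of the lattice point `y` and the parameters `σ` -/
noncomputable def lz (n : ℕ) (ρ : Z → ℝ) (y : D → ℕ) (σ : Z → ℝ) : D ⊕ Z → ℂ :=
  Sum.elim (fun i => (y i : ℂ) / n) fun v => LT.zt (ρ v) (σ v)

/-- the integrand at lattice points -/
noncomputable def Dat.f (S : Dat D Z K) (n : ℕ) (ρ : Z → ℝ) (y : D → ℕ) (σ : Z → ℝ) : ℂ :=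
  (∏ v, LT.EE n (S.b v) (ρ v) (σ v)) * S.G n (lz n ρ y σ)

omit [DecidableEq D] in
theorem errI_eq (S : Dat D Z K) (n : ℕ) (ρ : Z → ℝ) (y : D → Fin n) :
    S.I n ρ y = ∫ σ in LT.cube Z, S.f n ρ (fun i => (y i : ℕ)) σ := by
  unfold Dat.I Dat.f lz
  push_cast
  rfl

/-- the lattice points of the tail -/
noncomputable def tai (P : Par D) (n : ℕ) (i : D) : Finset ℕ :=
  (range n).filter fun k => (P.XM i * n < (k : ℝ))

/-- the lattice points, `R` is the set of the coordinates in the tail -/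
noncomputable def AR (P : Par D) (R : Finset D) (n : ℕ) (i : D) : Finset ℕ :=
  if i ∈ R then tai P n i else cor P n i

omit [Fintype D] in
theorem mem_AR {P : Par D} {R : Finset D} {n : ℕ} {i : D} {k : ℕ} :
    k ∈ AR P R n i ↔ k < n ∧ (i ∈ R ↔ P.XM i * n < (k : ℝ)) := by
  unfold AR tai cor
  split_ifs with h
  · simp [h]
  · simp [h, not_lt]

theorem sum_fin (n : ℕ) (F : (D → ℕ) → ℂ) :
    ∑ y : D → Fin n, F (fun i => (y i : ℕ)) = ∑ y ∈ Fintype.piFinset (fun _ : D => range n), F y := by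
  refine sum_bij' (fun y _ i => (y i : ℕ))
    (fun y hy i => (⟨y i, by simpa using (Fintype.mem_piFinset.mp hy) i⟩ : Fin n))
    ?_ ?_ ?_ ?_ ?_
  · intro y _
    rw [Fintype.mem_piFinset]
    intro i
    simp
  · intro y _
    exact mem_univ _
  · intro y _
    rfl
  · intro y _
    rfl
  · intro y _
    rfl

theorem sum_split (P : Par D) (n : ℕ) (F : (D → ℕ) → ℂ) :
    ∑ y ∈ Fintype.piFinset (fun _ : D => range n), F y =
      ∑ R : Finset D, ∑ y ∈ Fintype.piFinset (AR P R n), F y := by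
  classical
  rw [← sum_fiberwise (Fintype.piFinset (fun _ : D => range n))
    (fun y => univ.filter fun i => P.XM i * n < (y i : ℝ)) F]
  apply sum_congr rfl
  intro R _
  apply sum_congr _ fun _ _ => rfl
  ext y
  simp only [mem_filter, Fintype.mem_piFinset, mem_range, mem_AR, Finset.ext_iff, mem_univ,
    true_and]
  constructor
  · rintro ⟨h1, h2⟩ i
    exact ⟨h1 i, (h2 i).symm⟩
  · intro h
    exact ⟨fun i => (h i).1, fun i => (h i).2.symm⟩

/-- the state sum is the sum of the core and the tails -/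
theorem errSum_eq (S : Dat D Z K) (P : Par D) (n : ℕ) (ρ : Z → ℝ) :
    S.sum n ρ = ∑ R : Finset D, ∑ y ∈ Fintype.piFinset (AR P R n),
      ∫ σ in LT.cube Z, S.f n ρ y σ := by
  rw [← sum_split P n (fun y => ∫ σ in LT.cube Z, S.f n ρ y σ), ← sum_fin]
  unfold Dat.sum
  exact sum_congr rfl fun y _ => errI_eq S n ρ y

/-- the heights may be changed -/
theorem rho_eq {S : Dat D Z K} (hS : S.Ok) {P : Par D} {R : Finset D} {n : ℕ} (hn4 : 4 ≤ n)
    (hn : Odd n)
    {ρ ρ' : Z → ℝ} (h : ∀ v, 0 < ρ v) (h' : ∀ v, 0 < ρ' v) {y : D → ℕ}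
    (hy : y ∈ Fintype.piFinset (AR P R n)) :
    ∫ σ in LT.cube Z, S.f n ρ y σ = ∫ σ in LT.cube Z, S.f n ρ' y σ := by
  rw [Fintype.mem_piFinset] at hy
  have h1 := hS.rho n hn4 hn (fun i => ⟨y i, (mem_AR.mp (hy i)).1⟩) ρ ρ' h h'
  rw [errI_eq, errI_eq] at h1
  exact h1

/-! ### the open cube -/

/-- the open cube -/
def ocube (Z : Type) : Set (Z → ℝ) := Set.univ.pi fun _ => Set.Ioo (-(1 / 2)) (1 / 2)

omit [Fintype Z] in
theorem mem_ocube {σ : Z → ℝ} : σ ∈ ocube Z ↔ ∀ v, |σ v| < 1 / 2 := by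
  unfold ocube
  simp [Set.mem_pi, abs_lt]

theorem cube_ae : (ocube Z : Set (Z → ℝ)) =ᵐ[volume] LT.cube Z := by
  unfold ocube LT.cube
  have := Measure.univ_pi_Ioo_ae_eq_Icc (μ := fun _ : Z => (volume : Measure ℝ))
    (f := fun _ => -(1 / 2)) (g := fun _ => 1 / 2)
  rw [← Set.pi_univ_Icc, ← volume_pi] at this
  exact this

theorem volume_cube : volume.real (LT.cube Z) = 1 := by
  unfold LT.cube
  rw [Measure.real, volume_pi_pi]
  simp
  norm_num

theorem cube_ae_mem : ∀ᵐ σ ∂(volume.restrict (LT.cube Z)), σ ∈ ocube Z := by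
  rw [← Measure.restrict_congr_set (cube_ae (Z := Z))]
  have hm : MeasurableSet (ocube Z) := by
    unfold ocube
    exact MeasurableSet.univ_pi fun _ => measurableSet_Ioo
  exact ae_restrict_mem hm

theorem measurable_f (S : Dat D Z K) (n : ℕ) (ρ : Z → ℝ) (y : D → ℕ) :
    Measurable (S.f n ρ y) := by
  unfold Dat.f
  apply Measurable.mul
  · apply Finset.measurable_prod
    intro v _
    exact (LT.measurable_EE n (S.b v) (ρ v)).comp (measurable_pi_apply v)
  · apply (S.measurable_G n).comp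
    rw [measurable_pi_iff]
    intro i
    rcases i with i | v
    · exact measurable_const
    · exact (continuous_zt (ρ v)).measurable.comp (measurable_pi_apply v)

/-- norms of integrals over the cube -/
theorem norm_int_cube {g : (Z → ℝ) → ℂ} {B : ℝ} (h : ∀ σ ∈ ocube Z, ‖g σ‖ ≤ B) :
    ‖∫ σ in LT.cube Z, g σ‖ ≤ B := by
  have hB : (∫ _σ in LT.cube Z, B) = B := by
    rw [setIntegral_const, volume_cube, one_smul]
  have hfin : volume (LT.cube Z) < ⊤ := by
    unfold LT.cube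
    exact (isCompact_univ_pi fun _ => isCompact_Icc).measure_lt_top
  calc ‖∫ σ in LT.cube Z, g σ‖ ≤ ∫ _σ in LT.cube Z, B := by
        apply norm_integral_le_of_norm_le
        · exact integrableOn_const hfin.ne
        · filter_upwards [cube_ae_mem (Z := Z)] with σ hσ using h σ hσ
    _ = B := hB

theorem integrable_cube {g : (Z → ℝ) → ℂ} (hg : AEStronglyMeasurable g (volume.restrict (LT.cube Z)))
    {B : ℝ} (h : ∀ σ ∈ ocube Z, ‖g σ‖ ≤ B) : IntegrableOn g (LT.cube Z) := by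
  have hfin : volume (LT.cube Z) < ⊤ := by
    unfold LT.cube
    exact (isCompact_univ_pi fun _ => isCompact_Icc).measure_lt_top
  have : IsFiniteMeasure (volume.restrict (LT.cube Z)) := ⟨by simpa using hfin⟩
  apply Integrable.of_bound hg B
  filter_upwards [cube_ae_mem (Z := Z)] with σ hσ using h σ hσ

end Pool.Agent.Work.MP_b30479_gtS.G2

end

section

/-!
# Explicit version: domination of kernel and weights
-/

namespace Pool.Agent.Work.MP_b30479_gtS.LT

open Finset VOL AX MeasureTheory Filter Topology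

theorem tp_eq_rc (w ζ ζ' : ℂ) : tp w ζ ζ' = rc w ζ + rc w ζ' := by
  unfold tp rc
  ring

theorem tw_eq_rcw (w ζ ζ' : ℂ) : tw w ζ ζ' = rcw w ζ + rcw w ζ' := by
  unfold tw rcw
  ring

/-- the sum of the tangent planes of the two rings of a hinge does not depend on `x` -/
theorem TP_x {lam lam' : ℝ} {b b' : ℤ} {w ζ ζ' : ℂ} (hw : tw w ζ ζ' = 0) (x σ σ' : ℝ) :
    TP lam b w ζ x σ + TP lam' b' w ζ' x σ' = TP lam b w ζ w.re σ + TP lam' b' w ζ' w.re σ' := by
  rw [tw_eq_rcw] at hw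
  have hw2 := congrArg Complex.re hw
  rw [Complex.add_re, Complex.zero_re] at hw2
  have e : (rcw w ζ).re * (x - w.re) + (rcw w ζ').re * (x - w.re) = 0 := by
    rw [← add_mul, hw2, zero_mul]
  unfold TP
  linarith only [e]

/-- powers are absorbed by exponentials -/
theorem pow_absorb (K : ℕ) {ε : ℝ} (hε : 0 < ε) : ∃ A : ℝ, 0 ≤ A ∧ ∀ n : ℕ, 1 ≤ n →
    (n : ℝ) ^ K ≤ A * (n : ℝ) ^ (-(3 / 2) : ℝ) * Real.exp (n * ε) := by
  have h1 : Tendsto (fun n : ℕ => (n : ℝ) ^ ((K : ℝ) + 3 / 2) * Real.exp (-ε * n)) atTop (𝓝 0) :=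
    (tendsto_rpow_mul_exp_neg_mul_atTop_nhds_zero _ ε hε).comp tendsto_natCast_atTop_atTop
  obtain ⟨A, hA⟩ := h1.bddAbove_range
  refine ⟨max A 0, le_max_right _ _, fun n hn => ?_⟩
  have hnp : (0 : ℝ) < n := by exact_mod_cast hn
  have h2 : (n : ℝ) ^ ((K : ℝ) + 3 / 2) * Real.exp (-ε * n) ≤ A := hA ⟨n, rfl⟩
  have h3 : (n : ℝ) ^ K = (n : ℝ) ^ ((K : ℝ) + 3 / 2) * Real.exp (-ε * n) *
      (n : ℝ) ^ (-(3 / 2) : ℝ) * Real.exp (n * ε) := by
    have e1 : (n : ℝ) ^ ((K : ℝ) + 3 / 2) * (n : ℝ) ^ (-(3 / 2) : ℝ) = (n : ℝ) ^ K := by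
      rw [← Real.rpow_add hnp, ← Real.rpow_natCast]
      congr 1
      ring
    have e2 : Real.exp (-ε * n) * Real.exp (n * ε) = 1 := by
      rw [← Real.exp_add]
      simp
      ring
    calc (n : ℝ) ^ K = (n : ℝ) ^ K * 1 := (mul_one _).symm
      _ = (n : ℝ) ^ ((K : ℝ) + 3 / 2) * (n : ℝ) ^ (-(3 / 2) : ℝ) *
          (Real.exp (-ε * n) * Real.exp (n * ε)) := by rw [e1, e2]
      _ = _ := by ring
  rw [h3]
  have h4 : 0 ≤ (n : ℝ) ^ (-(3 / 2) : ℝ) := by positivity
  have h5 := (Real.exp_pos (n * ε)).le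
  have h6 : (n : ℝ) ^ ((K : ℝ) + 3 / 2) * Real.exp (-ε * n) ≤ max A 0 := h2.trans (le_max_left _ _)
  gcongr

/-- bound of the weight, any height -/
theorem EE_abs (b : ℤ) {ρ : ℝ} (hρ : 0 < ρ) : ∃ C : ℝ, 0 ≤ C ∧ ∀ n : ℕ, 1 ≤ n → Odd n → ∀ σ : ℝ,
    |σ| ≤ 1 / 2 → ‖EE n b ρ σ‖ ≤ C * Real.exp (n * wt 1 b (ρ * th σ) σ) := by
  have hpi := Real.pi_pos
  set q := min (1 / 2) ((Real.pi * ρ) ^ 2) with hq
  have hq0 : 0 < q := by positivity
  set u := (1 - Real.exp (-(2 * (1 : ℝ)))) / 2 with hu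
  have hu0 : 0 < u := by
    rw [hu]
    have : Real.exp (-(2 * (1 : ℝ))) < 1 := by
      rw [Real.exp_lt_one_iff]
      norm_num
    exact half_pos (sub_pos.mpr this)
  set c := min (u ^ 2) (q * Real.exp (-2)) with hc
  have hc0 : 0 < c := by positivity
  refine ⟨Real.cosh (2 * Real.pi * ρ) * (1 + 4 * ρ) / c, by positivity, ?_⟩
  intro n hn hodd σ hσ
  have hn1 : (1 : ℝ) ≤ n := by exact_mod_cast hn
  have hth0 := th_nonneg hσ
  have hth1 := th_le_one σ
  have h1 : ‖Complex.sin (2 * Real.pi * zt ρ σ)‖ ≤ Real.cosh (2 * Real.pi * ρ) := by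
    refine (norm_sin_le _).trans ?_
    have e : (2 : ℂ) * Real.pi * zt ρ σ = ((2 * Real.pi : ℝ) : ℂ) * zt ρ σ := by push_cast; ring
    rw [e, Complex.im_ofReal_mul, zt_im, Real.cosh_le_cosh, abs_of_nonneg (by positivity),
      abs_of_nonneg (by positivity)]
    have : ρ * th σ ≤ ρ * 1 := mul_le_mul_of_nonneg_left hth1 hρ.le
    have h2 : 2 * Real.pi * (ρ * th σ) ≤ 2 * Real.pi * (ρ * 1) := by gcongr
    linarith only [h2]
  have h2 := norm_dzt_le hρ.le σ
  have h3 : ‖EE n b ρ σ‖ = Real.exp (n * (-(2 * Real.pi * b * ρ * σ * th σ))) *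
      ‖Complex.sin (2 * Real.pi * zt ρ σ)‖ / ‖Complex.sin (Real.pi * n * zt ρ σ)‖ ^ 2 *
      ‖dzt ρ σ‖ := by
    unfold EE
    rw [norm_mul, norm_div, norm_mul, norm_pow, norm_exp_weight]
  -- the denominator
  set t := Real.pi * n * (ρ * th σ) with ht
  have ht0 : 0 ≤ t := by positivity
  have hden : c * Real.exp (2 * t) ≤ ‖Complex.sin (Real.pi * n * zt ρ σ)‖ ^ 2 := by
    rcases le_total 1 t with h | h
    · have e : (Real.pi : ℂ) * n * zt ρ σ = ((Real.pi * n : ℝ) : ℂ) * zt ρ σ := by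
        push_cast; ring
      rw [norm_sin_sq, e, Complex.im_ofReal_mul, zt_im]
      have h6 := sinh_exp_lower h
      have h7 : (u * Real.exp t) ^ 2 ≤ Real.sinh t ^ 2 :=
        pow_le_pow_left₀ (by positivity) h6 2
      have h8 : (u * Real.exp t) ^ 2 = u ^ 2 * Real.exp (2 * t) := by
        rw [mul_pow, ← Real.exp_nat_mul]
        push_cast
        rfl
      have h9 : c * Real.exp (2 * t) ≤ u ^ 2 * Real.exp (2 * t) := by
        gcongr
        exact min_le_left _ _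
      have := sq_nonneg (Real.sin (((Real.pi * n : ℝ) : ℂ) * zt ρ σ).re)
      linarith only [h7, h8, h9, this]
    · refine le_trans ?_ (sin_lower_all hodd hρ hσ)
      rw [← hq]
      calc c * Real.exp (2 * t) ≤ q * Real.exp (-2) * Real.exp (2 * 1) := by
            gcongr
            exact min_le_right _ _
        _ = q * (Real.exp (-2) * Real.exp (2 * 1)) := by ring
        _ = q := by
            rw [← Real.exp_add]
            norm_num
  have hpos : 0 < c * Real.exp (2 * t) := by positivity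
  rw [h3, div_mul_eq_mul_div, mul_assoc]
  have hwt : (n : ℝ) * wt 1 b (ρ * th σ) σ = n * (-(2 * Real.pi * b * ρ * σ * th σ)) - 2 * t := by
    rw [ht]
    unfold wt
    ring
  rw [hwt, Real.exp_sub]
  calc Real.exp (n * (-(2 * Real.pi * b * ρ * σ * th σ))) *
        (‖Complex.sin (2 * Real.pi * zt ρ σ)‖ * ‖dzt ρ σ‖) /
        ‖Complex.sin (Real.pi * n * zt ρ σ)‖ ^ 2 ≤
      Real.exp (n * (-(2 * Real.pi * b * ρ * σ * th σ))) *
        (Real.cosh (2 * Real.pi * ρ) * (1 + 4 * ρ)) / (c * Real.exp (2 * t)) := by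
        gcongr
    _ = _ := by
        field_simp

/-- domination of the main part of the kernel (from `ring_main`; the `x`-slopes cancel) -/
theorem MX_bound {lam lam' : ℝ} {b b' : ℤ} {w ζ ζ' : ℂ} (h : Loc lam b w ζ)
    (h' : Loc lam' b' w ζ') (hw : tw w ζ ζ' = 0) : ∃ C : ℝ, ∃ N : ℕ, 0 ≤ C ∧ ∀ n : ℕ, N ≤ n →
    ∀ σ σ' : ℝ, |σ| ≤ 1 / 8 → |σ'| ≤ 1 / 8 →
    ‖MX n w.im (σ + ζ.im * Complex.I) (σ' + ζ'.im * Complex.I)‖ *
      Real.exp (n * (wt lam b ζ.im σ + wt lam' b' ζ'.im σ')) ≤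
      C * (n : ℝ) ^ (-(3 / 2) : ℝ) * Real.exp (n * (TP lam b w ζ w.re σ + TP lam' b' w ζ' w.re σ' -
        1 / 5 * ((σ - ζ.re) ^ 2 + (σ' - ζ'.re) ^ 2))) := by
  obtain ⟨C, hC, hexp⟩ := Tn_expand_x
  obtain ⟨P, hP, hph⟩ := ph_bdd
  have hpi := Real.pi_pos
  refine ⟨Real.exp (2 * P + C) * √(5 * Real.pi / 2), 100, by positivity, ?_⟩
  intro n hn σ σ' hσ hσ'
  have hnp : (0 : ℝ) < n := by
    have : 0 < n := by omega
    exact_mod_cast this
  have hn1 : (1 : ℝ) ≤ n := by
    have : 1 ≤ n := by omega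
    exact_mod_cast this
  have g2 := h.w2
  set W := wt lam b ζ.im σ + wt lam' b' ζ'.im σ' with hW
  set E := TP lam b w ζ w.re σ + TP lam' b' w ζ' w.re σ' with hE
  set S := (σ - ζ.re) ^ 2 + (σ' - ζ'.re) ^ 2 with hS
  have r1 : ((σ : ℂ) + ζ.im * Complex.I).re = σ := by simp
  have r2 : ((σ' : ℂ) + ζ'.im * Complex.I).re = σ' := by simp
  -- pointwise bound
  have hpt : ∀ x : ℝ, x ∈ Set.Ioc (3 / 20 : ℝ) (7 / 20) →
      ‖Complex.exp (Tn n ((x : ℂ) + w.im * Complex.I) (σ + ζ.im * Complex.I)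
        (σ' + ζ'.im * Complex.I))‖ ≤
      Real.exp (2 * P + C) * Real.exp (n * (E - W - 1 / 5 * S)) *
        Real.exp (-(2 / 5 * n) * (x - w.re) ^ 2) := by
    intro x hx
    have x1 : |x - 1 / 4| ≤ 1 / 10 := abs_le.mpr ⟨by linarith only [hx.1, hx], by linarith only [hx.2, hx]⟩
    have wre : ((x : ℂ) + w.im * Complex.I).re = x := by simp
    have wim : ((x : ℂ) + w.im * Complex.I).im = w.im := by simp
    have k1 := (Complex.re_le_norm _).trans (hexp n hn ((x : ℂ) + w.im * Complex.I)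
      (σ + ζ.im * Complex.I) (σ' + ζ'.im * Complex.I) (by rw [wre]; linarith only [x1])
      (by rw [r1]; exact hσ) (by rw [r2]; exact hσ'))
    have k2 := (Complex.abs_re_le_norm _).trans (hph ((x : ℂ) + w.im * Complex.I)
      (by rw [wre]; linarith only [hx.1, hx]) (by rw [wre]; linarith only [hx.2, hx]) (by rw [wim]; linarith only [g2]))
    have k3 := abs_le.mp k2
    have k4 : C / n ≤ C := div_le_self hC hn1
    have f1 := ring_main h x1 hσ
    have f2 := ring_main h' x1 hσ'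
    have f3 : TP lam b w ζ x σ + TP lam' b' w ζ' x σ' = E := TP_x hw x σ σ'
    have e1 : (Tn n ((x : ℂ) + w.im * Complex.I) (σ + ζ.im * Complex.I) (σ' + ζ'.im * Complex.I) -
        (n * tp ((x : ℂ) + w.im * Complex.I) (σ + ζ.im * Complex.I) (σ' + ζ'.im * Complex.I) -
          2 * ph ((x : ℂ) + w.im * Complex.I))).re =
        (Tn n ((x : ℂ) + w.im * Complex.I) (σ + ζ.im * Complex.I) (σ' + ζ'.im * Complex.I)).re -
        (n * (tp ((x : ℂ) + w.im * Complex.I) (σ + ζ.im * Complex.I) (σ' + ζ'.im * Complex.I)).re -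
          2 * (ph ((x : ℂ) + w.im * Complex.I)).re) := by
      rw [Complex.sub_re, Complex.sub_re, ← Complex.ofReal_natCast, Complex.re_ofReal_mul,
        ← Complex.ofReal_ofNat, Complex.re_ofReal_mul]
    rw [e1] at k1
    have f4 : (tp ((x : ℂ) + w.im * Complex.I) (σ + ζ.im * Complex.I)
        (σ' + ζ'.im * Complex.I)).re ≤ E - W - 1 / 5 * S - 2 / 5 * (x - w.re) ^ 2 := by
      rw [tp_eq_rc, Complex.add_re]
      linarith only [f1, f2, f3]
    have f5 := mul_le_mul_of_nonneg_left f4 hnp.le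
    rw [Complex.norm_exp, ← Real.exp_add, ← Real.exp_add]
    refine Real.exp_le_exp.mpr ?_
    linarith only [k3.1, k3.2, k1, k3, k4, f5]
  -- the integral
  have hint : Integrable (fun x : ℝ => Real.exp (-(2 / 5 * n) * (x - w.re) ^ 2)) :=
    (integrable_exp_neg_mul_sq (b := 2 / 5 * n) (by positivity)).comp_sub_right w.re
  have hG : ∫ x in (3 / 20 : ℝ)..(7 / 20), Real.exp (-(2 / 5 * n) * (x - w.re) ^ 2) ≤
      √(Real.pi / (2 / 5 * n)) := by
    rw [intervalIntegral.integral_of_le (by norm_num)]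
    refine (setIntegral_le_integral hint (Eventually.of_forall fun x => (Real.exp_pos _).le)).trans ?_
    rw [integral_sub_right_eq_self (fun x : ℝ => Real.exp (-(2 / 5 * n) * x ^ 2)) w.re,
      integral_gaussian]
  have hI := intervalIntegral.norm_integral_le_of_norm_le (show (3 / 20 : ℝ) ≤ 7 / 20 by norm_num)
    (Eventually.of_forall hpt) ((hint.const_mul _).intervalIntegrable)
  rw [intervalIntegral.integral_const_mul] at hI
  have e3 : (n : ℝ) ^ (-(3 / 2) : ℝ) = 1 / (n * √(n : ℝ)) := by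
    rw [Real.rpow_neg hnp.le, rpow_three_half (by omega)]
    rw [one_div]
  have e4 : √(Real.pi / (2 / 5 * n)) = √(5 * Real.pi / 2) / √(n : ℝ) := by
    rw [← Real.sqrt_div (by positivity)]
    congr 1
    field_simp
  unfold MX
  rw [norm_mul, norm_div, norm_one, Complex.norm_natCast]
  calc 1 / (n : ℝ) * ‖∫ x in (3 / 20 : ℝ)..(7 / 20), Complex.exp (Tn n ((x : ℂ) + w.im * Complex.I)
        (σ + ζ.im * Complex.I) (σ' + ζ'.im * Complex.I))‖ * Real.exp (n * W) ≤
      1 / (n : ℝ) * (Real.exp (2 * P + C) * Real.exp (n * (E - W - 1 / 5 * S)) *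
        √(Real.pi / (2 / 5 * n))) * Real.exp (n * W) := by
        gcongr
        refine hI.trans ?_
        gcongr
    _ = Real.exp (2 * P + C) * √(5 * Real.pi / 2) * (1 / (n * √(n : ℝ))) *
        (Real.exp (n * (E - W - 1 / 5 * S)) * Real.exp (n * W)) := by
        rw [e4]
        field_simp
    _ = Real.exp (2 * P + C) * √(5 * Real.pi / 2) * (n : ℝ) ^ (-(3 / 2) : ℝ) *
        Real.exp (n * (E - 1 / 5 * S)) := by
        rw [e3, ← Real.exp_add]
        congr 2
        ring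

/-- domination of the kernel with the distributed weights, everywhere on the paths: inside
`|σ|, |σ'| ≤ 1/8` by `MX_bound`, `SS_near_x` and (I4), (I5), (I6); outside by `SS_abs`, (I2), (I3), (I4);
the errors are at most `exp (n (.. - 9/1000))` and `(σ - ζ.re)² + (σ' - ζ'.re)² ≤ 6/10` -/
theorem hinge_bound {lam lam' : ℝ} {b b' : ℤ} {w ζ ζ' : ℂ} (h : Loc lam b w ζ)
    (h' : Loc lam' b' w ζ') (hw : tw w ζ ζ' = 0) : ∃ C : ℝ, ∃ N : ℕ, 0 ≤ C ∧ ∀ n : ℕ, N ≤ n →
    ∀ σ σ' : ℝ, |σ| ≤ 1 / 2 → |σ'| ≤ 1 / 2 →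
    ‖SS n (zt ζ.im σ) (zt ζ'.im σ')‖ *
      Real.exp (n * (wt lam b (ζ.im * th σ) σ + wt lam' b' (ζ'.im * th σ') σ')) ≤
      C * (n : ℝ) ^ (-(3 / 2) : ℝ) * Real.exp (n * (TP lam b w ζ w.re σ + TP lam' b' w ζ' w.re σ' -
        1 / 100 * ((σ - ζ.re) ^ 2 + (σ' - ζ'.re) ^ 2))) := by
  obtain ⟨C₁, N₁, hC₁, hMX⟩ := MX_bound h h' hw
  obtain ⟨C₂, K₂, N₂, hC₂, hnear⟩ := SS_near_x
  obtain ⟨C₃, K₃, hC₃, habs⟩ := SS_abs
  obtain ⟨A₂, hA₂, hpow₂⟩ := pow_absorb K₂ (ε := 3 / 1000) (by norm_num)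
  obtain ⟨A₃, hA₃, hpow₃⟩ := pow_absorb K₃ (ε := 3 / 1000) (by norm_num)
  refine ⟨C₁ + C₂ * A₂ + C₃ * A₃, max N₁ (max N₂ 1), by positivity, ?_⟩
  intro n hn σ σ' hσ hσ'
  have hn1 : N₁ ≤ n := (le_max_left _ _).trans hn
  have hn2 : N₂ ≤ n := ((le_max_left _ _).trans (le_max_right _ _)).trans hn
  have hn3 : 1 ≤ n := ((le_max_right _ _).trans (le_max_right _ _)).trans hn
  have hnp : (0 : ℝ) < n := by exact_mod_cast hn3
  have g1 := abs_le.mp h.w1
  have g3 := abs_le.mp h.z1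
  have g4 := abs_le.mp h'.z1
  have g5 := abs_le.mp hσ
  have g6 := abs_le.mp hσ'
  have g7 := h.z2
  have g8 := h.z3
  have g9 := h'.z2
  have g10 := h'.z3
  have p0 : 0 < (n : ℝ) ^ (-(3 / 2) : ℝ) := by positivity
  -- the quadratic term is small
  have hq : 1 / 100 * ((σ - ζ.re) ^ 2 + (σ' - ζ'.re) ^ 2) ≤ 6 / 1000 := by
    have q1 : (σ - ζ.re) ^ 2 ≤ 3 / 10 := by
      have : |σ - ζ.re| ≤ 521 / 1000 := abs_le.mpr ⟨by linarith only [g3, g5], by linarith only [g3, g5]⟩
      have := sq_le_sq' (abs_le.mp this).1 (abs_le.mp this).2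
      nlinarith only [g7, g8, this]
    have q2 : (σ' - ζ'.re) ^ 2 ≤ 3 / 10 := by
      have : |σ' - ζ'.re| ≤ 521 / 1000 := abs_le.mpr ⟨by linarith only [g4, g6], by linarith only [g4, g6]⟩
      have := sq_le_sq' (abs_le.mp this).1 (abs_le.mp this).2
      nlinarith only [g7, g8, this]
    linarith only [q1, q2]
  set E := TP lam b w ζ w.re σ + TP lam' b' w ζ' w.re σ' with hE
  set Q := 1 / 100 * ((σ - ζ.re) ^ 2 + (σ' - ζ'.re) ^ 2) with hQ
  have hQ0 : 0 ≤ Q := by positivity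
  by_cases hin : |σ| ≤ 1 / 8 ∧ |σ'| ≤ 1 / 8
  · -- both near the centre
    obtain ⟨i1, i2⟩ := hin
    have t1 : th σ = 1 := th_eq_one (by linarith only [g7, g8, i1])
    have t2 : th σ' = 1 := th_eq_one (by linarith only [g7, g8, i2])
    rw [zt_mid (show |σ| ≤ 1 / 4 by linarith only [g7, g8, i1]), zt_mid (show |σ'| ≤ 1 / 4 by linarith only [g7, g8, i2]), t1, t2,
      mul_one, mul_one]
    set W := wt lam b ζ.im σ + wt lam' b' ζ'.im σ' with hW
    have r1 : ((σ : ℂ) + ζ.im * Complex.I).re = σ := by simp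
    have r2 : ((σ' : ℂ) + ζ'.im * Complex.I).re = σ' := by simp
    have im1 : ((σ : ℂ) + ζ.im * Complex.I).im = ζ.im := by simp
    have im2 : ((σ' : ℂ) + ζ'.im * Complex.I).im = ζ'.im := by simp
    have pair : ∀ x : ℝ, TP lam b w ζ x σ + TP lam' b' w ζ' x σ' = E := fun x => TP_x hw x σ σ'
    have b1 := hnear n hn2 w.im h.w2 (σ + ζ.im * Complex.I) (σ' + ζ'.im * Complex.I)
      (by rw [r1]; exact i1) (by rw [r2]; exact i2) (by rw [im1]; exact g7.le)
      (by rw [im1]; linarith only [g7, g8]) (by rw [im2]; exact g9.le) (by rw [im2]; linarith only [g7, g8, g10])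
      (E - W - 9 / 1000) (by
        intro x x1 x2 x3
        rw [r1, r2, im1, im2]
        have f1 := ring_far h x1 x2 x3 i1
        have f2 := ring_far h' x1 x2 x3 i2
        have f3 := pair x
        linarith only [g7, g8, f1, f2, f3]) (by
        intro x t x1 x2 x3
        have f1 := ring_side h x1 x2 i1 x3
        have f2 := ring_side h' x1 x2 i2 x3
        have f3 := pair x
        rw [tp_eq_rc, Complex.add_re]
        linarith only [g7, g8, f1, f2, f3]) (by
        intro x t x1 x2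
        have f1 := ring_top h x1 i1 x2
        have f2 := ring_top h' x1 i2 x2
        have f3 := pair x
        rw [tp_eq_rc, Complex.add_re]
        linarith only [g7, g8, f1, f2, f3])
    have b2 := hMX n hn1 σ σ' i1 i2
    have b3 : ‖SS n (σ + ζ.im * Complex.I) (σ' + ζ'.im * Complex.I)‖ ≤
        ‖MX n w.im (σ + ζ.im * Complex.I) (σ' + ζ'.im * Complex.I)‖ +
        C₂ * (n : ℝ) ^ K₂ * Real.exp (n * (E - W - 9 / 1000)) := by
      have := norm_le_norm_add_norm_sub' (SS n (σ + ζ.im * Complex.I) (σ' + ζ'.im * Complex.I))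
        (MX n w.im (σ + ζ.im * Complex.I) (σ' + ζ'.im * Complex.I))
      linarith only [b1, this]
    have b4 : C₂ * (n : ℝ) ^ K₂ * Real.exp (n * (E - W - 9 / 1000)) * Real.exp (n * W) ≤
        C₂ * A₂ * (n : ℝ) ^ (-(3 / 2) : ℝ) * Real.exp (n * (E - Q)) := by
      have c1 := hpow₂ n hn3
      calc C₂ * (n : ℝ) ^ K₂ * Real.exp (n * (E - W - 9 / 1000)) * Real.exp (n * W) ≤
          C₂ * (A₂ * (n : ℝ) ^ (-(3 / 2) : ℝ) * Real.exp (n * (3 / 1000))) *
            Real.exp (n * (E - W - 9 / 1000)) * Real.exp (n * W) := by gcongr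
        _ = C₂ * A₂ * (n : ℝ) ^ (-(3 / 2) : ℝ) * (Real.exp (n * (3 / 1000)) *
            Real.exp (n * (E - W - 9 / 1000)) * Real.exp (n * W)) := by ring
        _ = C₂ * A₂ * (n : ℝ) ^ (-(3 / 2) : ℝ) * Real.exp (n * (E - 6 / 1000)) := by
            rw [← Real.exp_add, ← Real.exp_add]
            congr 2
            ring
        _ ≤ _ := by gcongr
    have b5 : C₁ * (n : ℝ) ^ (-(3 / 2) : ℝ) * Real.exp (n * (E -
        1 / 5 * ((σ - ζ.re) ^ 2 + (σ' - ζ'.re) ^ 2))) ≤
        C₁ * (n : ℝ) ^ (-(3 / 2) : ℝ) * Real.exp (n * (E - Q)) := by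
      gcongr
      rw [hQ]
      have := add_nonneg (sq_nonneg (σ - ζ.re)) (sq_nonneg (σ' - ζ'.re))
      linarith only [hQ, hQ0]
    have b6 : 0 ≤ C₃ * A₃ * (n : ℝ) ^ (-(3 / 2) : ℝ) * Real.exp (n * (E - Q)) := by positivity
    calc ‖SS n (σ + ζ.im * Complex.I) (σ' + ζ'.im * Complex.I)‖ * Real.exp (n * W) ≤
        (‖MX n w.im (σ + ζ.im * Complex.I) (σ' + ζ'.im * Complex.I)‖ +
        C₂ * (n : ℝ) ^ K₂ * Real.exp (n * (E - W - 9 / 1000))) * Real.exp (n * W) := by gcongr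
      _ = ‖MX n w.im (σ + ζ.im * Complex.I) (σ' + ζ'.im * Complex.I)‖ * Real.exp (n * W) +
        C₂ * (n : ℝ) ^ K₂ * Real.exp (n * (E - W - 9 / 1000)) * Real.exp (n * W) := by ring
      _ ≤ C₁ * (n : ℝ) ^ (-(3 / 2) : ℝ) * Real.exp (n * (E - Q)) +
        C₂ * A₂ * (n : ℝ) ^ (-(3 / 2) : ℝ) * Real.exp (n * (E - Q)) :=
          add_le_add (b2.trans b5) b4
      _ ≤ (C₁ + C₂ * A₂ + C₃ * A₃) * (n : ℝ) ^ (-(3 / 2) : ℝ) * Real.exp (n * (E - Q)) := by
          linarith only [b6]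
  · -- one of them outside
    have th0 := th_nonneg hσ
    have th0' := th_nonneg hσ'
    have th1 := th_le_one σ
    have th1' := th_le_one σ'
    set W := wt lam b (ζ.im * th σ) σ + wt lam' b' (ζ'.im * th σ') σ' with hW
    have pair : ∀ x : ℝ, TP lam b w ζ x σ + TP lam' b' w ζ' x σ' = E := fun x => TP_x hw x σ σ'
    -- a ring, any position
    have any : ∀ {l : ℝ} {β : ℤ} {z : ℂ}, Loc l β w z → ∀ s x : ℝ, |s| ≤ 1 / 8 → 0 ≤ x → x ≤ 1 →
        Rr (z.im * th s) x s + wt l β (z.im * th s) s ≤ TP l β w z x s + 1 / 1000 := by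
      intro l β z hz s x hs x0 x1
      rw [th_eq_one (show |s| ≤ 1 / 4 by linarith only [g7, g8, hs]), mul_one]
      by_cases hx : |x - 1 / 4| ≤ 1 / 10
      · exact ring_real hz hx hs
      · push Not at hx
        have := ring_far hz x0 x1 (by linarith only [g7, g8, hx]) hs
        linarith only [g7, g8, this]
    have main : ∀ x : ℝ, 0 ≤ x → x ≤ 1 → Rr (ζ.im * th σ) x σ + Rr (ζ'.im * th σ') x σ' ≤
        E - W - 9 / 1000 := by
      intro x x0 x1
      have f3 := pair x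
      by_cases j1 : |σ| ≤ 1 / 8
      · have j2 : 1 / 8 ≤ |σ'| := by
          by_contra hcon
          exact hin ⟨j1, by linarith only [hcon]⟩
        have f1 := any h σ x j1 x0 x1
        have f2 := ring_out h' x0 x1 j2 hσ'
        linarith only [f3, f1, f2]
      · push Not at j1
        have f1 := ring_out h x0 x1 j1.le hσ
        by_cases j2 : |σ'| ≤ 1 / 8
        · have f2 := any h' σ' x j2 x0 x1
          linarith only [f3, f1, f2]
        · push Not at j2
          have f2 := ring_out h' x0 x1 j2.le hσ'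
          linarith only [g7, g8, f3, f1, f2]
    have b1 := habs n hn3 (zt ζ.im σ) (zt ζ'.im σ') (by rw [zt_im]; positivity)
      (by
        rw [zt_im]
        have : ζ.im * th σ ≤ ζ.im * 1 := mul_le_mul_of_nonneg_left th1 g7.le
        linarith only [g7, g8, this]) (by rw [zt_re]; exact hσ) (by rw [zt_im]; positivity)
      (by
        rw [zt_im]
        have : ζ'.im * th σ' ≤ ζ'.im * 1 := mul_le_mul_of_nonneg_left th1' g9.le
        linarith only [g7, g8, g10, this]) (by rw [zt_re]; exact hσ') (E - W - 9 / 1000) (by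
        intro x x0 x1
        rw [zt_im, zt_im, zt_re, zt_re]
        exact main x x0 x1)
    have c1 := hpow₃ n hn3
    have b6 : 0 ≤ C₁ * (n : ℝ) ^ (-(3 / 2) : ℝ) * Real.exp (n * (E - Q)) := by positivity
    have b7 : 0 ≤ C₂ * A₂ * (n : ℝ) ^ (-(3 / 2) : ℝ) * Real.exp (n * (E - Q)) := by positivity
    calc ‖SS n (zt ζ.im σ) (zt ζ'.im σ')‖ * Real.exp (n * W) ≤
        C₃ * (n : ℝ) ^ K₃ * Real.exp (n * (E - W - 9 / 1000)) * Real.exp (n * W) := by gcongr
      _ ≤ C₃ * (A₃ * (n : ℝ) ^ (-(3 / 2) : ℝ) * Real.exp (n * (3 / 1000))) *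
            Real.exp (n * (E - W - 9 / 1000)) * Real.exp (n * W) := by gcongr
      _ = C₃ * A₃ * (n : ℝ) ^ (-(3 / 2) : ℝ) * (Real.exp (n * (3 / 1000)) *
            Real.exp (n * (E - W - 9 / 1000)) * Real.exp (n * W)) := by ring
      _ = C₃ * A₃ * (n : ℝ) ^ (-(3 / 2) : ℝ) * Real.exp (n * (E - 6 / 1000)) := by
            rw [← Real.exp_add, ← Real.exp_add]
            congr 2
            ring
      _ ≤ C₃ * A₃ * (n : ℝ) ^ (-(3 / 2) : ℝ) * Real.exp (n * (E - Q)) := by gcongr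
      _ ≤ (C₁ + C₂ * A₂ + C₃ * A₃) * (n : ℝ) ^ (-(3 / 2) : ℝ) * Real.exp (n * (E - Q)) := by
          linarith only [b6, b7]

end Pool.Agent.Work.MP_b30479_gtS.LT

end

section

/-!
# Growth of the integrand
-/

namespace Pool.Agent.Work.MP_b30479_gtS.G2

open Finset VOL MeasureTheory Filter Topology

variable {D Z K : Type} [Fintype D] [Fintype Z] [Fintype K] [DecidableEq D]

/-- one factor, with its shift -/
theorem norm_SE_le_shift {Y : ℝ} (hY : 0 ≤ Y) : ∃ C : ℝ, 0 < C ∧ ∀ (n : ℕ) (u : ℂ) (c : ℝ), 4 ≤ n →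
    |c| ≤ 2 → 0 < u.re + c / n → u.re + c / n < 2 → |u.im| ≤ Y →
    ‖SE n (u + ((c / n : ℝ) : ℂ))‖ ≤ C * (n : ℝ) ^ 26 * Real.exp (n * UU u) := by
  obtain ⟨C, hC, h⟩ := norm_SE_le hY
  obtain ⟨C', hC', hsh⟩ := exp_UU_shift hY
  refine ⟨C * C', by positivity, fun n u c hn hc h0 h1 hu => ?_⟩
  have hn0 : (0 : ℝ) < n := by
    have : 0 < n := by omega
    exact_mod_cast this
  have er : (u + ((c / n : ℝ) : ℂ)).re = u.re + c / n := by
    rw [Complex.add_re, Complex.ofReal_re]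
  have ei : (u + ((c / n : ℝ) : ℂ)).im = u.im := by
    rw [Complex.add_im, Complex.ofReal_im, add_zero]
  have h2 := h n (u + ((c / n : ℝ) : ℂ)) hn (by rw [er]; exact h0) (by rw [er]; exact h1)
    (by rw [ei]; exact hu)
  have h3 := (hsh n u (c / n) hn (by
    rw [abs_div, abs_of_pos hn0]
    exact div_le_div_of_nonneg_right hc hn0.le) hu).1
  calc ‖SE n (u + ((c / n : ℝ) : ℂ))‖ ≤ C * (n : ℝ) ^ 18 * Real.exp (n * UU (u + ((c / n : ℝ) : ℂ))) := h2
    _ ≤ C * (n : ℝ) ^ 18 * (C' * (n : ℝ) ^ 8 * Real.exp (n * UU u)) :=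
      mul_le_mul_of_nonneg_left h3 (by positivity)
    _ = _ := by ring

omit [Fintype K] [DecidableEq D] in
theorem grow_form_im (S : Dat D Z K) (k : K) (z : D ⊕ Z → ℂ) :
    (S.form k z).im = ∑ i, S.A k i * (z i).im := by
  unfold Dat.form
  rw [Complex.add_im, Complex.ofReal_im, zero_add, Complex.im_sum]
  refine Finset.sum_congr rfl fun i _ => ?_
  have : ((S.A k i : ℤ) : ℂ) = (((S.A k i : ℤ) : ℝ) : ℂ) := by push_cast; rfl
  rw [this, Complex.im_ofReal_mul]

omit [DecidableEq D] in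
theorem G_growth {S : Dat D Z K} (hS : S.Ok) {Y : ℝ} (hY : 0 ≤ Y) : ∃ (C : ℝ) (k : ℕ), 0 < C ∧
    ∀ (n : ℕ) (z : D ⊕ Z → ℂ), 4 ≤ n → InBox n z → (∀ i, |(z i).im| ≤ Y) →
    ‖S.G n z‖ ≤ C * (n : ℝ) ^ k * Real.exp (n * S.V0 z) := by
  set B : K → ℝ := fun k => ∑ i, |(S.A k i : ℝ)| * Y with hB
  have hB0 : ∀ k, 0 ≤ B k := fun k => Finset.sum_nonneg fun i _ => by positivity
  choose C hC hfac using fun k => norm_SE_le_shift (hB0 k)
  set E : ℝ := ∑ i, ‖S.e i‖ * (1 + Y) with hE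
  refine ⟨Real.exp E * ∏ k, C k, 26 * Fintype.card K,
    mul_pos (Real.exp_pos _) (Finset.prod_pos fun k _ => hC k), fun n z hn hz hY' => ?_⟩
  have hn0 : (0 : ℝ) < n := by
    have : 0 < n := by omega
    exact_mod_cast this
  have hre : ∀ i, |(z i).re| ≤ 1 := by
    intro i
    rcases i with i | v
    · rw [abs_le]
      have h1 := hz.d0 i
      have h2 := hz.d1 i
      have h3 : (0 : ℝ) ≤ 1 / n := by positivity
      constructor <;> linarith
    · exact (hz.c v).le.trans (by norm_num)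
  have hnorm : ∀ i, ‖z i‖ ≤ 1 + Y := fun i =>
    (Complex.norm_le_abs_re_add_abs_im (z i)).trans (add_le_add (hre i) (hY' i))
  have hle : (∑ i, S.e i * z i).re ≤ E := by
    refine (Complex.re_le_norm _).trans ((norm_sum_le _ _).trans ?_)
    refine Finset.sum_le_sum fun i _ => ?_
    rw [norm_mul]
    exact mul_le_mul_of_nonneg_left (hnorm i) (norm_nonneg _)
  have hexp : ‖Complex.exp (n * S.quad z + ∑ i, S.e i * z i)‖ ≤
      Real.exp E * Real.exp (n * (S.quad z).re) := by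
    rw [Complex.norm_exp, ← Real.exp_add, Complex.add_re]
    apply Real.exp_le_exp.2
    have : ((n : ℂ) * S.quad z).re = n * (S.quad z).re := by
      have e : (n : ℂ) = ((n : ℝ) : ℂ) := by push_cast; rfl
      rw [e, Complex.re_ofReal_mul]
    rw [this]
    linarith
  have him : ∀ k, |(S.form k z).im| ≤ B k := by
    intro k
    rw [grow_form_im]
    refine (Finset.abs_sum_le_sum_abs _ _).trans (Finset.sum_le_sum fun i _ => ?_)
    rw [abs_mul]
    exact mul_le_mul_of_nonneg_left (hY' i) (abs_nonneg _)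
  have hprod : ‖∏ k, SE n (S.form k z + (S.c k / n : ℝ))‖ ≤
      ∏ k, (C k * (n : ℝ) ^ 26 * Real.exp (n * UU (S.form k z))) := by
    rw [norm_prod]
    refine Finset.prod_le_prod (fun k _ => norm_nonneg _) fun k _ => ?_
    obtain ⟨r1, r2⟩ := hS.range n (by omega) z (fun i => ⟨hz.d0 i, hz.d1 i⟩) hz.c k
    exact hfac k n (S.form k z) (S.c k) hn ((hS.shift k).trans (by norm_num)) r1 r2 (him k)
  unfold Dat.G
  rw [norm_mul]
  refine (mul_le_mul hexp hprod (norm_nonneg _) (by positivity)).trans (le_of_eq ?_)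
  rw [Finset.prod_mul_distrib, Finset.prod_mul_distrib, Finset.prod_const, Finset.card_univ,
    ← Real.exp_sum, ← Finset.mul_sum, Dat.V0, mul_add, Real.exp_add, pow_mul]
  ring

theorem EE_growth (b : ℤ) {ρ : ℝ} (hρ : 0 < ρ) : ∃ C : ℝ, 0 ≤ C ∧ ∀ n : ℕ, 1 ≤ n → Odd n →
    ∀ σ : ℝ, |σ| ≤ 1 / 2 → ‖LT.EE n b ρ σ‖ ≤ C * Real.exp (n *
      (Real.pi * Complex.I * b * LT.zt ρ σ ^ 2 + 2 * Real.pi * Complex.I * LT.zt ρ σ).re) := by
  obtain ⟨C, hC, h⟩ := LT.EE_abs b hρ
  refine ⟨C, hC, fun n hn ho σ hσ => ?_⟩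
  have h1 := h n hn ho σ hσ
  have e : (Real.pi * Complex.I * b * LT.zt ρ σ ^ 2 + 2 * Real.pi * Complex.I * LT.zt ρ σ).re =
      LT.wt 1 b (ρ * LT.th σ) σ := by
    have e1 : (Real.pi * Complex.I * b * LT.zt ρ σ ^ 2 + 2 * Real.pi * Complex.I * LT.zt ρ σ) =
        ((-(2 * Real.pi * b * σ * (ρ * LT.th σ)) - 2 * Real.pi * (ρ * LT.th σ) : ℝ) : ℂ) +
        ((Real.pi * b * (σ ^ 2 - (ρ * LT.th σ) ^ 2) + 2 * Real.pi * σ : ℝ) : ℂ) * Complex.I := by
      unfold LT.zt
      push_cast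
      linear_combination (2 * Real.pi * b * σ * (ρ * LT.th σ) + 2 * Real.pi * (ρ * LT.th σ) +
        Real.pi * b * (ρ * LT.th σ) ^ 2 * Complex.I) * Complex.I_sq
    rw [e1, Complex.add_re, Complex.ofReal_re, Complex.re_ofReal_mul, Complex.I_re, mul_zero,
      add_zero]
    unfold LT.wt
    ring
  rw [e]
  exact h1

end Pool.Agent.Work.MP_b30479_gtS.G2

end

section

/-!
# Error points of level `n` are near admissible points; growth of the integrand
-/

namespace Pool.Agent.Work.MP_b30479_gtS.G2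

open Finset VOL MeasureTheory Filter Topology

theorem exists_pos_le {ι : Type} [Finite ι] (r : ι → ℝ) (h : ∀ i, 0 < r i) :
    ∃ r0 : ℝ, 0 < r0 ∧ ∀ i, r0 ≤ r i := by
  rcases isEmpty_or_nonempty ι with h1 | h1
  · exact ⟨1, one_pos, fun i => (h1.false i).elim⟩
  · obtain ⟨i0, hi0⟩ := Finite.exists_min r
    exact ⟨r i0, h i0, hi0⟩

variable {D Z K : Type} [Fintype D] [Fintype Z] [Fintype K] [DecidableEq D]

theorem zt_sub_real {ρ σ : ℝ} (hρ : 0 ≤ ρ) (hσ : |σ| ≤ 1 / 2) : ‖LT.zt ρ σ - (σ : ℂ)‖ ≤ ρ := by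
  have h1 : LT.zt ρ σ - (σ : ℂ) = ((ρ * LT.th σ : ℝ) : ℂ) * Complex.I := by
    unfold LT.zt
    ring
  have h2 : 0 ≤ LT.th σ := by
    unfold LT.th
    exact le_min zero_le_one (by linarith)
  have h3 : LT.th σ ≤ 1 := min_le_left _ _
  rw [h1, norm_mul, Complex.norm_I, mul_one, Complex.norm_real, Real.norm_eq_abs,
    abs_of_nonneg (mul_nonneg hρ h2)]
  exact mul_le_of_le_one_right hρ h3

theorem zt_re' (ρ σ : ℝ) : (LT.zt ρ σ).re = σ := by
  unfold LT.zt
  simp

theorem zt_im_le {ρ σ : ℝ} (hρ : 0 ≤ ρ) (hσ : |σ| ≤ 1 / 2) : |(LT.zt ρ σ).im| ≤ ρ := by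
  have h1 := zt_sub_real hρ hσ
  have h2 := Complex.abs_im_le_norm (LT.zt ρ σ - (σ : ℂ))
  rw [Complex.sub_im, Complex.ofReal_im, sub_zero] at h2
  exact h2.trans h1

/-- **Error points are near admissible points.** -/
theorem adm_point {S : Dat D Z K} {P : Par D}
    {nb : Finset D → Finset (D ⊕ Z)} {zs : D ⊕ Z → ℂ} (h : Sadl S P nb zs) (R : Finset D) :
    ∃ r : ℝ, 0 < r ∧ ∀ η : ℝ, 0 < η → ∀ ρ : Z → ℝ, (∀ v, 0 < ρ v) →
      (∀ v, .inr v ∈ nb R → ρ v ≤ η) → (∀ v, .inr v ∉ nb R → ρ v = (zs (.inr v)).im) →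
      ∀ᶠ n : ℕ in atTop, ∀ σ ∈ ocube Z, ∀ (J : Finset D) (w : D → ℂ),
        (∀ i ∈ J, .inl i ∉ nb R → w i ∈ gEL n 0 (P.m n i) (cor P n i) (P.hu i) (P.hd i)
          (P.cl i) (P.cr i)) →
        (∀ i ∉ J, .inl i ∉ nb R → ∃ x, ea n ≤ x ∧ x ≤ P.eb n i ∧
          w i = P.ga n (zs (.inl i)).im i x) →
        (∀ i, .inl i ∈ nb R → ∃ k ∈ AR P R n i, w i = (k : ℂ) / n) →
        (∀ k, (∀ v, S.A k (.inr v) = 0) → (∀ i, S.A k (.inl i) ≠ 0 → .inl i ∈ nb R) →
          (S.form k (Sum.elim w fun v => LT.zt (ρ v) (σ v))).re ≤ 1) →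
        ∃ (z : D ⊕ Z → ℂ) (p : D → ℝ), Adm S P zs R (nb R) z p ∧
          (∀ i, ‖(Sum.elim w fun v => LT.zt (ρ v) (σ v) : D ⊕ Z → ℂ) i - z i‖ ≤ η) ∧
          (∀ i, |(if i ∈ J then |(w i).im| else 0) - p i| ≤ η) ∧
          (∀ i ∈ J, .inl i ∉ nb R → r ≤ ‖z (.inl i) - zs (.inl i)‖ ∨ r ≤ |p i|) := by
  classical
  have hce := fun i => coord_err (P := P) (i := i) (h.par i) (h.flatD i)
  choose r hr0 hr using hce
  obtain ⟨r0, hr00, hr01⟩ := exists_pos_le r hr0
  refine ⟨r0, hr00, ?_⟩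
  intro η hη ρ hρ hρ1 hρ2
  have h1 : ∀ᶠ n : ℕ in atTop, ∀ i, ∀ w ∈ gEL n 0 (P.m n i) (cor P n i)
      (P.hu i) (P.hd i) (P.cl i) (P.cr i), ∃ (z : ℂ) (p : ℝ), P.On (zs (.inl i)).im i z p ∧
        ‖w - z‖ ≤ η ∧ |(|w.im|) - p| ≤ η ∧ (r i ≤ ‖z - zs (.inl i)‖ ∨ r i ≤ |p|) :=
    eventually_all.mpr fun i => hr i η hη
  have h2 : ∀ᶠ n : ℕ in atTop, ∀ i, ∀ x, ea n ≤ x → x ≤ P.eb n i → ∃ z : ℂ,
      P.On (zs (.inl i)).im i z 0 ∧ ‖P.ga n (zs (.inl i)).im i x - z‖ ≤ η :=
    eventually_all.mpr fun i => coord_main (h.par i) _ hη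
  filter_upwards [h1, h2, eventually_ge_atTop 1] with n h3 h4 hn1 σ hσ J w hJ hJ' hnb hwall
  have hn0 : (0 : ℝ) < n := by exact_mod_cast hn1
  rw [mem_ocube] at hσ
  -- the discrete coordinates
  have hc : ∀ i : D, ∃ (z : ℂ) (p : ℝ),
      (.inl i ∉ nb R → P.On (zs (.inl i)).im i z p) ∧
      (.inl i ∈ nb R → z = w i ∧ p = 0) ∧ ‖w i - z‖ ≤ η ∧
      |(if i ∈ J then |(w i).im| else 0) - p| ≤ η ∧
      (i ∈ J → .inl i ∉ nb R → r i ≤ ‖z - zs (.inl i)‖ ∨ r i ≤ |p|) := by
    intro i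
    by_cases hi : (.inl i : D ⊕ Z) ∈ nb R
    · obtain ⟨k, hk, hwk⟩ := hnb i hi
      refine ⟨w i, 0, fun hc => absurd hi hc, fun _ => ⟨rfl, rfl⟩, by simpa using hη.le, ?_,
        fun _ hc => absurd hi hc⟩
      have : (w i).im = 0 := by
        rw [hwk]
        have : ((k : ℂ) / n) = (((k : ℝ) / n : ℝ) : ℂ) := by push_cast; rfl
        rw [this, Complex.ofReal_im]
      rw [this]
      simpa using hη.le
    · by_cases hiJ : i ∈ J
      · obtain ⟨z, p, e1, e2, e3, e4⟩ := h3 i (w i) (hJ i hiJ hi)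
        exact ⟨z, p, fun _ => e1, fun hc => absurd hc hi, e2, by rw [if_pos hiJ]; exact e3,
          fun _ _ => e4⟩
      · obtain ⟨x, hx, hx', hwx⟩ := hJ' i hiJ hi
        obtain ⟨z, e1, e2⟩ := h4 i x hx hx'
        refine ⟨z, 0, fun _ => e1, fun hc => absurd hc hi, by rw [hwx]; exact e2, ?_,
          fun hc => absurd hc hiJ⟩
        rw [if_neg hiJ]
        simpa using hη.le
  choose zD p c1 c2 c3 c4 c5 using hc
  set zZ : Z → ℂ := fun v => if .inr v ∈ nb R then (σ v : ℂ) else LT.zt (zs (.inr v)).im (σ v)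
    with hzZ
  refine ⟨Sum.elim zD zZ, p, ?_, ?_, c4, ?_⟩
  · constructor
    · -- tail
      intro i hi
      have hi' := h.nb_sup R i hi
      obtain ⟨e1, e2⟩ := c2 i hi'
      obtain ⟨k, hk, hwk⟩ := hnb i hi'
      rw [mem_AR] at hk
      have hk2 := hk.2.mp hi
      have hz : (Sum.elim zD zZ : D ⊕ Z → ℂ) (.inl i) = (((k : ℝ) / n : ℝ) : ℂ) := by
        rw [Sum.elim_inl, e1, hwk]
        push_cast
        rfl
      rw [hz, Complex.ofReal_im, Complex.ofReal_re]
      refine ⟨rfl, ?_, ?_, e2⟩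
      · rw [le_div_iff₀ hn0]
        exact hk2.le
      · rw [div_le_one hn0]
        exact_mod_cast hk.1.le
    · -- real discrete coordinates
      intro i hi hi'
      obtain ⟨e1, e2⟩ := c2 i hi'
      obtain ⟨k, hk, hwk⟩ := hnb i hi'
      rw [mem_AR] at hk
      have hk2 : (k : ℝ) ≤ P.XM i * n := by
        by_contra hcon
        exact hi (hk.2.mpr (not_le.mp hcon))
      have hz : (Sum.elim zD zZ : D ⊕ Z → ℂ) (.inl i) = (((k : ℝ) / n : ℝ) : ℂ) := by
        rw [Sum.elim_inl, e1, hwk]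
        push_cast
        rfl
      rw [hz, Complex.ofReal_im, Complex.ofReal_re]
      refine ⟨rfl, by positivity, ?_, e2⟩
      rw [div_le_iff₀ hn0]
      exact hk2
    · -- real continuous coordinates
      intro v hv
      have hz : (Sum.elim zD zZ : D ⊕ Z → ℂ) (.inr v) = (σ v : ℂ) := by
        rw [Sum.elim_inr, hzZ]
        simp only [hv, if_true]
      rw [hz, Complex.ofReal_im, Complex.ofReal_re]
      exact ⟨rfl, (hσ v).le⟩
    · intro i hi
      rw [Sum.elim_inl]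
      exact c1 i hi
    · intro v hv
      refine ⟨σ v, (hσ v).le, ?_⟩
      rw [Sum.elim_inr, hzZ]
      simp only [hv, if_false]
    · -- walls
      intro k hk1 hk2
      have := hwall k hk1 hk2
      have he : S.form k (Sum.elim zD zZ) = S.form k (Sum.elim w fun v => LT.zt (ρ v) (σ v)) := by
        unfold Dat.form
        congr 1
        apply sum_congr rfl
        intro j _
        rcases j with i | v
        · by_cases hA : S.A k (.inl i) = 0
          · rw [hA]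
            simp
          · rw [Sum.elim_inl, Sum.elim_inl, (c2 i (hk2 i hA)).1]
        · rw [hk1 v]
          simp
      rw [he]
      exact this
  · intro j
    rcases j with i | v
    · rw [Sum.elim_inl, Sum.elim_inl]
      exact c3 i
    · rw [Sum.elim_inr, Sum.elim_inr, hzZ]
      by_cases hv : (.inr v : D ⊕ Z) ∈ nb R
      · simp only [hv, if_true]
        exact (zt_sub_real (hρ v).le (hσ v).le).trans (hρ1 v hv)
      · simp only [hv, if_false]
        rw [hρ2 v hv, sub_self, norm_zero]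
        exact hη.le
  · intro i hi hi'
    rcases c5 i hi hi' with h5 | h5
    · left
      rw [Sum.elim_inl]
      exact (hr01 i).trans h5
    · right
      exact (hr01 i).trans h5

/-- growth of the integrand -/
theorem f_growth {S : Dat D Z K} (hS : S.Ok) {Y : ℝ} (hY : 0 ≤ Y) {ρ : Z → ℝ} (hρ : ∀ v, 0 < ρ v)
    (hρY : ∀ v, ρ v ≤ Y) : ∃ (C : ℝ) (k : ℕ), 0 ≤ C ∧ ∀ (n : ℕ), 4 ≤ n → Odd n → ∀ σ ∈ ocube Z,
      ∀ w : D → ℂ, (∀ i, 0 ≤ (w i).re ∧ (w i).re ≤ 1 - 1 / n) → (∀ i, |(w i).im| ≤ Y) →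
      ‖(∏ v, LT.EE n (S.b v) (ρ v) (σ v)) * S.G n (Sum.elim w fun v => LT.zt (ρ v) (σ v))‖ ≤
        C * (n : ℝ) ^ k * Real.exp (n * S.V (Sum.elim w fun v => LT.zt (ρ v) (σ v))) := by
  obtain ⟨C, k, hC, h1⟩ := G_growth hS hY
  choose c hc hEE using fun v => EE_growth (S.b v) (hρ v)
  refine ⟨(∏ v, c v) * C, k, mul_nonneg (prod_nonneg fun v _ => hc v) hC.le, ?_⟩
  intro n hn hodd σ hσ w hw hw'
  rw [mem_ocube] at hσ
  set z : D ⊕ Z → ℂ := Sum.elim w fun v => LT.zt (ρ v) (σ v) with hz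
  have h2 := h1 n z hn ⟨fun i => (hw i).1, fun i => (hw i).2, fun v => by
    rw [hz, Sum.elim_inr, zt_re']
    exact hσ v⟩ (by
      intro j
      rcases j with i | v
      · exact hw' i
      · exact (zt_im_le (hρ v).le (hσ v).le).trans (hρY v))
  have h3 : ‖∏ v, LT.EE n (S.b v) (ρ v) (σ v)‖ ≤ (∏ v, c v) * Real.exp (n * S.W z) := by
    rw [norm_prod]
    have e1 : (∏ v, c v) * Real.exp (n * S.W z) = ∏ v, (c v * Real.exp (n *
        (Real.pi * Complex.I * S.b v * LT.zt (ρ v) (σ v) ^ 2 +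
          2 * Real.pi * Complex.I * LT.zt (ρ v) (σ v)).re)) := by
      rw [prod_mul_distrib, ← Real.exp_sum, ← mul_sum]
      rfl
    rw [e1]
    apply prod_le_prod (fun _ _ => norm_nonneg _)
    intro v _
    exact hEE v n (by omega) hodd (σ v) (hσ v).le
  rw [norm_mul, Dat.V_eq]
  calc ‖∏ v, LT.EE n (S.b v) (ρ v) (σ v)‖ * ‖S.G n z‖
      ≤ ((∏ v, c v) * Real.exp (n * S.W z)) * (C * (n : ℝ) ^ k * Real.exp (n * S.V0 z)) :=
        mul_le_mul h3 h2 (norm_nonneg _)
          (mul_nonneg (prod_nonneg fun v _ => hc v) (Real.exp_pos _).le)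
    _ = (∏ v, c v) * C * (n : ℝ) ^ k * (Real.exp (n * S.V0 z) * Real.exp (n * S.W z)) := by ring
    _ = _ := by
        rw [← Real.exp_add, ← mul_add]

end Pool.Agent.Work.MP_b30479_gtS.G2

end

section

/-!
# Bound of the integrand at error points
-/

namespace Pool.Agent.Work.MP_b30479_gtS.G2

open Finset VOL MeasureTheory Filter Topology

variable {D Z K : Type} [Fintype D] [Fintype Z] [Fintype K] [DecidableEq D]

/-- uniform domination, all cases -/
theorem dom_all {S : Dat D Z K} {P : Par D} {nb : Finset D → Finset (D ⊕ Z)} {zs : D ⊕ Z → ℂ}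
    (h : Sadl S P nb zs) (R : Finset D) (hR1 : ∀ i ∈ R, P.XM i < 1) {r : ℝ} (hr : 0 < r) :
    ∃ δ : ℝ, 0 < δ ∧ ∃ η : ℝ, 0 < η ∧ ∀ (z z' : D ⊕ Z → ℂ) (p p' : D → ℝ),
      Adm S P zs R (nb R) z p → (R = ∅ → (∃ i, r ≤ ‖z i - zs i‖) ∨ ∃ i, r ≤ |p i|) →
      (∀ i, ‖z' i - z i‖ ≤ η) → (∀ i, |p' i - p i| ≤ η) →
      S.V z' - 2 * Real.pi * ∑ i, p' i ≤ (S.T zs).re - δ := by
  rcases R.eq_empty_or_nonempty with hR | hR
  · subst hR
    obtain ⟨δ, hδ, η, hη, h1⟩ := dom_main h hr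
    refine ⟨δ, hδ, η, hη, fun z z' p p' hz hz' => ?_⟩
    rw [h.nb_empty] at hz
    exact h1 z z' p p' hz (hz' rfl)
  · obtain ⟨δ, hδ, η, hη, h1⟩ := dom_tail h hR hR1
    exact ⟨δ, hδ, η, hη, fun z z' p p' hz _ => h1 z z' p p' hz⟩

/-- real parts of the points of level `n` -/
theorem level_re {P : Par D} {R : Finset D} {nbR : Finset (D ⊕ Z)} {t : D → ℝ} {n : ℕ}
    (hn : 4 ≤ n) {J : Finset D} {w : D → ℂ}
    (c1 : ∀ i ∈ J, .inl i ∉ nbR → w i ∈ gEL n 0 (P.m n i) (cor P n i) (P.hu i) (P.hd i)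
      (P.cl i) (P.cr i))
    (c2 : ∀ i ∉ J, .inl i ∉ nbR → ∃ x, ea n ≤ x ∧ x ≤ P.eb n i ∧ w i = P.ga n (t i) i x)
    (c3 : ∀ i, .inl i ∈ nbR → ∃ k ∈ AR P R n i, w i = (k : ℂ) / n) (i : D) :
    0 ≤ (w i).re ∧ (w i).re ≤ 1 - 1 / n := by
  have hn0 : (0 : ℝ) < n := by
    have : 0 < n := by omega
    exact_mod_cast this
  by_cases hi : (.inl i : D ⊕ Z) ∈ nbR
  · obtain ⟨k, hk, hw⟩ := c3 i hi
    rw [mem_AR] at hk
    have h4 : (k : ℝ) + 1 ≤ n := by exact_mod_cast hk.1
    have h5 : ((k : ℂ) / n) = (((k : ℝ) / n : ℝ) : ℂ) := by push_cast; rfl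
    rw [hw, h5, Complex.ofReal_re]
    refine ⟨by positivity, ?_⟩
    rw [div_le_iff₀ hn0, sub_mul, one_mul, div_mul_cancel₀ _ hn0.ne']
    linarith only [h4]
  · by_cases hJ : i ∈ J
    · exact gEL_re (filter_subset _ _) (by omega) (min_le_right _ _) (by omega) (c1 i hJ hi)
    · obtain ⟨x, hx, hx', hw⟩ := c2 i hJ hi
      have h6 : (w i).re = x := by
        rw [hw]
        exact pt_re _ _ _ _ _ _
      rw [h6]
      have hm : (P.m n i : ℝ) + 2 ≤ n := by
        have h1 : P.m n i ≤ n - 2 := min_le_right _ _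
        have h2 : P.m n i + 2 ≤ n := by omega
        exact_mod_cast h2
      refine ⟨le_trans (by unfold ea; positivity) hx, hx'.trans ?_⟩
      unfold Par.eb
      rw [div_le_iff₀ hn0, sub_mul, one_mul, div_mul_cancel₀ _ hn0.ne']
      linarith only [hm]

theorem level_im {P : Par D} {R : Finset D} {nbR : Finset (D ⊕ Z)} {t : D → ℝ} {n : ℕ}
    (hhu : ∀ i, 0 < P.hu i) (hhd : ∀ i, 0 < P.hd i) {J : Finset D} {w : D → ℂ}
    (c1 : ∀ i ∈ J, .inl i ∉ nbR → w i ∈ gEL n 0 (P.m n i) (cor P n i) (P.hu i) (P.hd i)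
      (P.cl i) (P.cr i))
    (c2 : ∀ i ∉ J, .inl i ∉ nbR → ∃ x, ea n ≤ x ∧ x ≤ P.eb n i ∧ w i = P.ga n (t i) i x)
    (c3 : ∀ i, .inl i ∈ nbR → ∃ k ∈ AR P R n i, w i = (k : ℂ) / n) (i : D) :
    |(w i).im| ≤ P.hu i + P.hd i + |t i| := by
  by_cases hi : (.inl i : D ⊕ Z) ∈ nbR
  · obtain ⟨k, hk, hw⟩ := c3 i hi
    have h5 : ((k : ℂ) / n) = (((k : ℝ) / n : ℝ) : ℂ) := by push_cast; rfl
    rw [hw, h5, Complex.ofReal_im, abs_zero]
    have := hhu i
    have := hhd i
    positivity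
  · by_cases hJ : i ∈ J
    · refine (gEL_im (hhu i).le (hhd i).le (c1 i hJ hi)).trans ?_
      have h1 := abs_nonneg (t i)
      refine max_le ?_ ?_
      · linarith only [h1, hhd, hhd i]
      · linarith only [h1, hhu, hhu i]
    · obtain ⟨x, hx, hx', hw⟩ := c2 i hJ hi
      have h6 : (w i).im = t i * tr (ea n) (P.eb n i) (P.cl i) (P.cr i) x := by
        rw [hw]
        exact pt_im _ _ _ _ _ _
      rw [h6, abs_mul, abs_of_nonneg (tr_nonneg _ _ _ _ _)]
      have h1 := mul_le_of_le_one_right (abs_nonneg (t i))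
        (tr_le_one (ea n) (P.eb n i) (P.cl i) (P.cr i) x)
      linarith only [h1, hhu, hhd, hhu i, hhd i]

/-- **The integrand at error points.** -/
theorem point_bound {S : Dat D Z K} (hS : S.Ok) {P : Par D}
    {nb : Finset D → Finset (D ⊕ Z)} {zs : D ⊕ Z → ℂ} (h : Sadl S P nb zs) (R : Finset D)
    (hR1 : ∀ i ∈ R, P.XM i < 1) :
    ∃ (C : ℝ) (k : ℕ) (δ : ℝ) (ρ : Z → ℝ), 0 ≤ C ∧ 0 < δ ∧ (∀ v, 0 < ρ v) ∧
      (R = ∅ → ρ = fun v => (zs (.inr v)).im) ∧
      ∀ᶠ n : ℕ in atTop, Odd n → ∀ σ ∈ ocube Z, ∀ (J : Finset D) (w : D → ℂ),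
        (R = ∅ → J.Nonempty) →
        (∀ i ∈ J, .inl i ∉ nb R → w i ∈ gEL n 0 (P.m n i) (cor P n i) (P.hu i) (P.hd i)
          (P.cl i) (P.cr i)) →
        (∀ i ∉ J, .inl i ∉ nb R → ∃ x, ea n ≤ x ∧ x ≤ P.eb n i ∧
          w i = P.ga n (zs (.inl i)).im i x) →
        (∀ i, .inl i ∈ nb R → ∃ k ∈ AR P R n i, w i = (k : ℂ) / n) →
        (∏ i ∈ J, gq n (w i)) * ‖(∏ v, LT.EE n (S.b v) (ρ v) (σ v)) *
          S.G n (Sum.elim w fun v => LT.zt (ρ v) (σ v))‖ ≤
          C * (n : ℝ) ^ k * Real.exp (n * ((S.T zs).re - δ)) := by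
  classical
  obtain ⟨r, hr, hadm⟩ := adm_point h R
  obtain ⟨δ, hδ, η, hη, hdom⟩ := dom_all h R hR1 hr
  set ρ : Z → ℝ := fun v => if (.inr v : D ⊕ Z) ∈ nb R then η else (zs (.inr v)).im with hρd
  have hρ : ∀ v, 0 < ρ v := by
    intro v
    simp only [hρd]
    split_ifs
    · exact hη
    · exact (h.flatZ v).2
  have hρ1 : ∀ v, .inr v ∈ nb R → ρ v ≤ η := by
    intro v hv
    simp only [hρd, hv, if_true]
    exact le_rfl
  have hρ2 : ∀ v, .inr v ∉ nb R → ρ v = (zs (.inr v)).im := by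
    intro v hv
    simp only [hρd, hv, if_false]
  have hhu : ∀ i, 0 < P.hu i := fun i => (h.par i).2.2.2.2.2.1
  have hhd : ∀ i, 0 < P.hd i := fun i => (h.par i).2.2.2.2.2.2
  set Y : ℝ := ∑ i, (P.hu i + P.hd i + |(zs (.inl i)).im|) + ∑ v, ρ v with hY
  have hYi : ∀ i, 0 ≤ P.hu i + P.hd i + |(zs (.inl i)).im| := by
    intro i
    have := hhu i
    have := hhd i
    positivity
  have hY0 : 0 ≤ Y := add_nonneg (sum_nonneg fun i _ => hYi i) (sum_nonneg fun v _ => (hρ v).le)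
  have hYD : ∀ i, P.hu i + P.hd i + |(zs (.inl i)).im| ≤ Y := by
    intro i
    have h1 := single_le_sum (f := fun i => P.hu i + P.hd i + |(zs (.inl i)).im|)
      (fun i _ => hYi i) (mem_univ i)
    have h2 : 0 ≤ ∑ v, ρ v := sum_nonneg fun v _ => (hρ v).le
    linarith only [h1, h2]
  have hYZ : ∀ v, ρ v ≤ Y := by
    intro v
    have h1 := single_le_sum (f := ρ) (fun v _ => (hρ v).le) (mem_univ v)
    have h2 : 0 ≤ ∑ i, (P.hu i + P.hd i + |(zs (.inl i)).im|) := sum_nonneg fun i _ => hYi i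
    linarith only [h1, h2]
  obtain ⟨C, k, hC, hgr⟩ := f_growth hS hY0 hρ hYZ
  refine ⟨C, k, δ, ρ, hC, hδ, hρ, ?_, ?_⟩
  · intro hR
    funext v
    apply hρ2
    rw [hR, h.nb_empty]
    exact notMem_empty _
  filter_upwards [hadm η hη ρ hρ hρ1 hρ2, eventually_ge_atTop 4] with n hn1 hn4 hodd σ hσ J w hJ c1 c2 c3
  have hn0 : (0 : ℝ) < n := by
    have : 0 < n := by omega
    exact_mod_cast this
  have hre := level_re hn4 c1 c2 c3
  have him : ∀ i, |(w i).im| ≤ Y := fun i => (level_im hhu hhd c1 c2 c3 i).trans (hYD i)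
  set z' : D ⊕ Z → ℂ := Sum.elim w fun v => LT.zt (ρ v) (σ v) with hz'
  by_cases hwall : ∀ k, (∀ v, S.A k (.inr v) = 0) → (∀ i, S.A k (.inl i) ≠ 0 → .inl i ∈ nb R) →
      (S.form k z').re ≤ 1
  · obtain ⟨z, p, hA, hz, hp, hrr⟩ := hn1 σ hσ J w c1 c2 c3 hwall
    have hV := hdom z z' p (fun i => if i ∈ J then |(w i).im| else 0) hA (by
      intro hR
      obtain ⟨i, hi⟩ := hJ hR
      have hi' : (.inl i : D ⊕ Z) ∉ nb R := by
        rw [hR, h.nb_empty]
        exact notMem_empty _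
      rcases hrr i hi hi' with h5 | h5
      · exact Or.inl ⟨_, h5⟩
      · exact Or.inr ⟨_, h5⟩) hz hp
    have h6 := hgr n hn4 hodd σ hσ w hre him
    have h7 : ∏ i ∈ J, gq n (w i) =
        Real.exp (n * (-(2 * Real.pi * ∑ i, if i ∈ J then |(w i).im| else 0))) := by
      unfold gq
      rw [← Real.exp_sum]
      congr 1
      rw [sum_ite_mem, univ_inter, mul_neg, mul_sum, mul_sum, ← sum_neg_distrib]
      apply sum_congr rfl
      intro i _
      ring
    rw [h7]
    calc Real.exp (n * (-(2 * Real.pi * ∑ i, if i ∈ J then |(w i).im| else 0))) *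
          ‖(∏ v, LT.EE n (S.b v) (ρ v) (σ v)) * S.G n z'‖
        ≤ Real.exp (n * (-(2 * Real.pi * ∑ i, if i ∈ J then |(w i).im| else 0))) *
          (C * (n : ℝ) ^ k * Real.exp (n * S.V z')) :=
          mul_le_mul_of_nonneg_left h6 (Real.exp_pos _).le
      _ = C * (n : ℝ) ^ k * (Real.exp (n * S.V z') *
          Real.exp (n * (-(2 * Real.pi * ∑ i, if i ∈ J then |(w i).im| else 0)))) := by ring
      _ = C * (n : ℝ) ^ k * Real.exp (n * (S.V z' - 2 * Real.pi *
          ∑ i, if i ∈ J then |(w i).im| else 0)) := by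
          rw [← Real.exp_add]
          congr 2
          ring
      _ ≤ C * (n : ℝ) ^ k * Real.exp (n * ((S.T zs).re - δ)) := by
          apply mul_le_mul_of_nonneg_left _ (by positivity)
          apply Real.exp_le_exp.mpr
          exact mul_le_mul_of_nonneg_left hV hn0.le
  · push Not at hwall
    obtain ⟨k', hk1, hk2, hk3⟩ := hwall
    rw [mem_ocube] at hσ
    have h0 : S.G n z' = 0 := by
      apply G_wall hS hn4 (k := k') _ hk1 _ hk3
      · refine ⟨fun i => (hre i).1, fun i => (hre i).2, fun v => ?_⟩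
        rw [hz', Sum.elim_inr, zt_re']
        exact hσ v
      · intro i hi
        obtain ⟨y, _, hy⟩ := c3 i (hk2 i hi)
        exact ⟨y, hy⟩
    rw [h0, mul_zero, norm_zero, mul_zero]
    positivity

end Pool.Agent.Work.MP_b30479_gtS.G2

end

section

/-!
# Multiple sums over lattice points and box integrals, for a general index type

The unordered form of `tensorL` for sums over lattice points: `tensor_pi`, `bound_pi`.
-/

namespace Pool.Agent.Work.MP_b30479_gtS.G2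

open Finset MeasureTheory

theorem sum_piFinset_cons {N : ℕ} {α : Type} [AddCommMonoid α] (A : Fin (N + 1) → Finset ℕ)
    (f : (Fin (N + 1) → ℕ) → α) :
    ∑ y ∈ Fintype.piFinset A, f y =
      ∑ a ∈ A 0, ∑ y ∈ Fintype.piFinset (Fin.tail A), f (Fin.cons a y) := by
  rw [← sum_product']
  apply sum_nbij' (fun y => (y 0, Fin.tail y)) (fun z => Fin.cons z.1 z.2)
  · intro y hy
    rw [Fintype.mem_piFinset] at hy
    simp only [mem_product, Fintype.mem_piFinset]
    exact ⟨hy 0, fun i => hy i.succ⟩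
  · intro z hz
    simp only [mem_product, Fintype.mem_piFinset] at hz
    rw [Fintype.mem_piFinset]
    intro i
    refine Fin.cases ?_ ?_ i
    · simpa using hz.1
    · intro i
      have := hz.2 i
      simpa [Fin.tail] using this
  · intro y _
    exact Fin.cons_self_tail y
  · intro z _
    simp
  · intro y _
    rw [Fin.cons_self_tail]

theorem itL_disc (n : ℕ) : ∀ (N : ℕ) (A : Fin N → Finset ℕ) (G : (Fin N → ℂ) → ℂ),
    itL N (fun j => .disc (A j) n) G =
      ∑ y ∈ Fintype.piFinset A, G (fun j => (y j : ℂ) / n)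
  | 0, A, G => by
      simp only [itL]
      rw [Fintype.piFinset_of_isEmpty, univ_unique, sum_singleton]
      congr 1
      exact Subsingleton.elim _ _
  | N + 1, A, G => by
      rw [sum_piFinset_cons]
      simp only [itL, Lam.ap]
      apply sum_congr rfl
      intro a _
      have : (Fin.tail fun j => Lam.disc (A j) n) = fun j => Lam.disc (Fin.tail A j) n := rfl
      rw [this, itL_disc n N (Fin.tail A)]
      apply sum_congr rfl
      intro y _
      congr 1
      funext j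
      refine Fin.cases ?_ ?_ j
      · simp
      · intro j
        simp

variable {ι : Type} [Fintype ι] [DecidableEq ι]

/-- the reindexing -/
theorem sum_reindex {N : ℕ} (e : Fin N ≃ ι) (A : ι → Finset ℕ) {α : Type} [AddCommMonoid α]
    (f : (ι → ℕ) → α) :
    ∑ y ∈ Fintype.piFinset A, f y =
      ∑ y ∈ Fintype.piFinset (fun j => A (e j)), f (fun i => y (e.symm i)) := by
  apply sum_nbij' (fun y j => y (e j)) (fun y i => y (e.symm i))
  · intro y hy
    rw [Fintype.mem_piFinset] at hy ⊢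
    exact fun j => hy (e j)
  · intro y hy
    rw [Fintype.mem_piFinset] at hy ⊢
    intro i
    have := hy (e.symm i)
    simpa using this
  · intro y _
    simp
  · intro y _
    simp
  · intro y _
    simp

omit [DecidableEq ι] in
theorem int_reindex {N : ℕ} (e : Fin N ≃ ι) (P : ι → PathW) (F : (ι → ℝ) → ℂ) :
    ∫ x in Set.univ.pi (fun i => Set.Icc (P i).a (P i).b), F x =
      ∫ x in bx (fun j => P (e j)), F (fun i => x (e.symm i)) := by
  have hmp := volume_measurePreserving_piCongrLeft (fun _ : ι => ℝ) e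
  have he : ∀ x : Fin N → ℝ, MeasurableEquiv.piCongrLeft (fun _ : ι => ℝ) e x =
      fun i => x (e.symm i) := by
    intro x
    funext i
    have := Equiv.piCongrLeft_apply_apply (fun _ : ι => ℝ) e x (e.symm i)
    rw [MeasurableEquiv.coe_piCongrLeft]
    rw [Equiv.apply_symm_apply] at this
    exact this
  have h1 := hmp.setIntegral_preimage_emb (MeasurableEquiv.measurableEmbedding _) F
    (Set.univ.pi (fun i => Set.Icc (P i).a (P i).b))
  rw [← h1]
  have h2 : (MeasurableEquiv.piCongrLeft (fun _ : ι => ℝ) e) ⁻¹'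
      (Set.univ.pi (fun i => Set.Icc (P i).a (P i).b)) = bx (fun j => P (e j)) := by
    ext x
    simp only [Set.mem_preimage, he, bx, Set.mem_pi, Set.mem_univ, true_implies]
    constructor
    · intro h j
      have := h (e j)
      simpa using this
    · intro h i
      have := h (e.symm i)
      simpa using this
  rw [h2]
  apply integral_congr_ae
  refine Filter.Eventually.of_forall fun x => ?_
  simp only [he]

omit [DecidableEq ι] in
theorem diff_reindex {N : ℕ} (e : Fin N ≃ ι) {V : ι → Set ℂ} {G : (ι → ℂ) → ℂ}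
    (hG : DifferentiableOn ℂ G (Set.univ.pi V)) :
    DifferentiableOn ℂ (fun v : Fin N → ℂ => G (fun i => v (e.symm i)))
      (Set.univ.pi fun j => V (e j)) := by
  have h1 : Differentiable ℂ (fun v : Fin N → ℂ => (fun i => v (e.symm i) : ι → ℂ)) := by
    rw [differentiable_pi]
    intro i
    exact differentiable_apply _
  apply hG.comp h1.differentiableOn
  intro v hv i _
  have := hv (e.symm i) (Set.mem_univ _)
  simpa using this

/-- the penalty on the union of the error set and the main path -/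
noncomputable def pen (P : PathW) (q : ℂ → ℝ) (w : ℂ) : ℝ :=
  open Classical in if w ∈ P.γ '' Set.Icc P.a P.b then 1 else q w

theorem pen_bound {K : ℝ} {V E : Set ℂ} {L : Lam} {P : PathW} {q : ℂ → ℝ}
    (h : MainL K V L P E q) (hK : ∫ x in P.a..P.b, ‖P.ω x‖ ≤ K) (hq1 : ∀ w ∈ E, q w ≤ 1) :
    BoundL (2 * K) V L (E ∪ P.γ '' Set.Icc P.a P.b) (pen P q) := by
  apply h.bound hK
  · intro w hw
    refine ⟨Or.inl hw, ?_⟩
    unfold pen
    split_ifs
    · exact hq1 w hw
    · exact le_rfl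
  · intro x hx
    have hx' : P.γ x ∈ P.γ '' Set.Icc P.a P.b := ⟨x, hx, rfl⟩
    refine ⟨Or.inr hx', ?_⟩
    unfold pen
    rw [if_pos hx']

/-- A multiple sum over lattice points is bounded by the values on the paths and on the error
sets. -/
theorem bound_pi {n : ℕ} {K : ℝ} (hK : 0 ≤ K) (A : ι → Finset ℕ) (P : ι → PathW) (V : ι → Set ℂ)
    (hV : ∀ i, IsOpen (V i)) (hA : ∀ i, ∀ y ∈ A i, (y : ℂ) / n ∈ V i)
    (hPV : ∀ i, ∀ x ∈ Set.Icc (P i).a (P i).b, (P i).γ x ∈ V i)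
    (E : ι → Set ℂ) (q : ι → ℂ → ℝ) (hq0 : ∀ i, ∀ w ∈ E i, 0 ≤ q i w)
    (hq1 : ∀ i, ∀ w ∈ E i, q i w ≤ 1) (hEV : ∀ i, E i ⊆ V i)
    (h2 : ∀ i, MainL K (V i) (.disc (A i) n) (P i) (E i) (q i))
    (h3 : ∀ i, ∫ x in (P i).a..(P i).b, ‖(P i).ω x‖ ≤ K)
    (G : (ι → ℂ) → ℂ) (hG : DifferentiableOn ℂ G (Set.univ.pi V)) (B : ℝ) (hB0 : 0 ≤ B)
    (hB : ∀ (J : Finset ι) (v : ι → ℂ), (∀ i ∈ J, v i ∈ E i) →
      (∀ i ∉ J, ∃ x ∈ Set.Icc (P i).a (P i).b, v i = (P i).γ x) →
      (∏ i ∈ J, q i (v i)) * ‖G v‖ ≤ B) :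
    ‖∑ y ∈ Fintype.piFinset A, G (fun i => (y i : ℂ) / n)‖ ≤ (2 * K) ^ Fintype.card ι * B := by
  classical
  set e : Fin (Fintype.card ι) ≃ ι := (Fintype.equivFin ι).symm with he
  rw [sum_reindex e]
  have h0 := itL_disc n _ (fun j => A (e j)) (fun v => G (fun i => v (e.symm i)))
  rw [← h0]
  have h1 := itL_bound (K := 2 * K) (by positivity) _ (fun j => .disc (A (e j)) n)
    (fun j => V (e j)) (fun j => hV _) (fun j => hA _)
    (fun j _ => E (e j) ∪ (P (e j)).γ '' Set.Icc (P (e j)).a (P (e j)).b)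
    (fun j _ => pen (P (e j)) (q (e j))) (fun _ _ _ _ => rfl) (fun _ _ _ _ => rfl)
    (fun j _ w hw => by
      unfold pen
      split_ifs with h
      · exact zero_le_one
      · exact hq0 _ w (hw.resolve_right h))
    (fun j _ w hw => by
      rcases hw with hw | ⟨x, hx, rfl⟩
      · exact hEV _ hw
      · exact hPV _ x hx)
    (fun j _ => pen_bound (h2 _) (h3 _) (hq1 _))
    (fun v => G (fun i => v (e.symm i))) (diff_reindex e hG) 1 B zero_le_one hB0 (by
      intro v hv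
      rw [one_mul]
      have h4 := hB (univ.filter fun i => ¬ (v (e.symm i) ∈ (P i).γ '' Set.Icc (P i).a (P i).b))
        (fun i => v (e.symm i)) (by
          intro i hi
          rw [mem_filter] at hi
          have := hv (e.symm i)
          simp only [Equiv.apply_symm_apply] at this
          exact this.resolve_right hi.2) (by
          intro i hi
          simp only [mem_filter, mem_univ, true_and, not_not] at hi
          obtain ⟨x, hx, hh⟩ := hi
          exact ⟨x, hx, hh.symm⟩)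
      have h5 : ∏ j, pen (P (e j)) (q (e j)) (v j) =
          ∏ i ∈ univ.filter fun i => ¬ (v (e.symm i) ∈ (P i).γ '' Set.Icc (P i).a (P i).b),
            q i (v (e.symm i)) := by
        rw [← e.symm.prod_comp, prod_filter]
        apply prod_congr rfl
        intro i _
        simp only [Equiv.apply_symm_apply, pen, ite_not]
      rw [h5]
      exact h4)
  rwa [one_mul] at h1

/-- A multiple sum over lattice points is the integral over the product of the main paths, up to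
the values with at least one coordinate on an error set. -/
theorem tensor_pi {n : ℕ} {K : ℝ} (hK : 0 ≤ K) (A : ι → Finset ℕ) (P : ι → PathW) (V : ι → Set ℂ)
    (hV : ∀ i, IsOpen (V i)) (hA : ∀ i, ∀ y ∈ A i, (y : ℂ) / n ∈ V i)
    (hPV : ∀ i, ∀ x ∈ Set.Icc (P i).a (P i).b, (P i).γ x ∈ V i)
    (E : ι → Set ℂ) (q : ι → ℂ → ℝ) (hq0 : ∀ i, ∀ w ∈ E i, 0 ≤ q i w)
    (hq1 : ∀ i, ∀ w ∈ E i, q i w ≤ 1) (hEV : ∀ i, E i ⊆ V i)
    (h2 : ∀ i, MainL K (V i) (.disc (A i) n) (P i) (E i) (q i))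
    (h3 : ∀ i, ∫ x in (P i).a..(P i).b, ‖(P i).ω x‖ ≤ K)
    (G : (ι → ℂ) → ℂ) (hG : DifferentiableOn ℂ G (Set.univ.pi V)) (B : ℝ) (hB0 : 0 ≤ B)
    (hB : ∀ (J : Finset ι) (v : ι → ℂ), J.Nonempty → (∀ i ∈ J, v i ∈ E i) →
      (∀ i ∉ J, ∃ x ∈ Set.Icc (P i).a (P i).b, v i = (P i).γ x) →
      (∏ i ∈ J, q i (v i)) * ‖G v‖ ≤ B) :
    ‖∑ y ∈ Fintype.piFinset A, G (fun i => (y i : ℂ) / n) -
      ∫ x in Set.univ.pi (fun i => Set.Icc (P i).a (P i).b),
        G (fun i => (P i).γ (x i)) * ∏ i, (P i).ω (x i)‖ ≤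
      Fintype.card ι * (2 * K) ^ Fintype.card ι * B := by
  classical
  set e : Fin (Fintype.card ι) ≃ ι := (Fintype.equivFin ι).symm with he
  rw [sum_reindex e, int_reindex e]
  have h0 := itL_disc n _ (fun j => A (e j)) (fun v => G (fun i => v (e.symm i)))
  rw [← h0]
  have hG' := diff_reindex e hG
  have hc : ContinuousOn (fun x : Fin (Fintype.card ι) → ℝ =>
      (fun v : Fin (Fintype.card ι) → ℂ => G (fun i => v (e.symm i)))
        (pos (fun j => P (e j)) x)) (bx (fun j => P (e j))) := by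
    apply hG'.continuousOn.comp
    · have : Continuous fun x : Fin (Fintype.card ι) → ℝ => pos (fun j => P (e j)) x := by
        apply continuous_pi
        intro j
        exact (P (e j)).cont.comp (continuous_apply j)
      exact this.continuousOn
    · intro x hx j _
      exact hPV _ _ (hx j (Set.mem_univ j))
  have h6 : ∫ x in bx (fun j => P (e j)),
      G (fun i => (P i).γ (x (e.symm i))) * ∏ i, (P i).ω (x (e.symm i)) =
      itL _ (fun j => .path (P (e j))) (fun v => G (fun i => v (e.symm i))) := by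
    rw [itL_path, itR_eq_integral _ _ hc]
    apply integral_congr_ae
    refine Filter.Eventually.of_forall fun x => ?_
    simp only [pos]
    congr 1
    · congr 1
      funext i
      rw [Equiv.apply_symm_apply]
    · rw [← e.symm.prod_comp]
      apply prod_congr rfl
      intro i _
      rw [Equiv.apply_symm_apply]
  rw [h6]
  have hK2 : ∀ i, MainL (2 * K) (V i) (.disc (A i) n) (P i) (E i) (q i) := by
    intro i g hg B hB hw
    exact (h2 i g hg B hB hw).trans (mul_le_mul_of_nonneg_right (by linarith) hB)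
  refine tensorL (K := 2 * K) (by positivity) _ (fun j => .disc (A (e j)) n)
    (fun j => P (e j)) (fun j => V (e j)) (fun j => hV _) (fun j => hA _) (fun j => hPV _)
    (fun j _ => E (e j)) (fun j _ => q (e j))
    (fun j _ => E (e j) ∪ (P (e j)).γ '' Set.Icc (P (e j)).a (P (e j)).b)
    (fun j _ => pen (P (e j)) (q (e j))) (fun _ _ _ _ => rfl) (fun _ _ _ _ => rfl)
    (fun j _ => hq0 _) (fun j _ => hEV _) (fun _ _ _ _ => rfl) (fun _ _ _ _ => rfl)
    (fun j _ w hw => by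
      unfold pen
      split_ifs with h
      · exact zero_le_one
      · exact hq0 _ w (hw.resolve_right h))
    (fun j _ w hw => by
      rcases hw with hw | ⟨x, hx, rfl⟩
      · exact hEV _ hw
      · exact hPV _ x hx)
    (fun j _ => pen_bound (h2 _) (h3 _) (hq1 _)) (fun j _ => hK2 _)
    (fun j => (h3 _).trans (by linarith))
    (fun v => G (fun i => v (e.symm i))) hG' B hB0 ?_
  intro j v hv1 hv2 hv3
  set Q : ι → Prop := fun i => v (e.symm i) ∈ (P i).γ '' Set.Icc (P i).a (P i).b with hQ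
  set J : Finset ι := univ.filter fun i => i = e j ∨ (j < e.symm i ∧ ¬ Q i) with hJ
  have h4 := hB J (fun i => v (e.symm i)) ⟨e j, by simp [J]⟩ (by
      intro i hi
      rw [hJ, mem_filter] at hi
      rcases hi.2 with h | h
      · rw [h, Equiv.symm_apply_apply]
        exact hv2
      · have := hv3 (e.symm i) h.1
        simp only [Equiv.apply_symm_apply] at this
        exact this.resolve_right h.2) (by
      intro i hi
      simp only [hJ, mem_filter, mem_univ, true_and, not_or, not_and, not_not] at hi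
      rcases lt_trichotomy (e.symm i) j with h | h | h
      · obtain ⟨x, hx, hh⟩ := hv1 _ h
        rw [Equiv.apply_symm_apply] at hx hh
        exact ⟨x, hx, hh⟩
      · exact absurd (by rw [← h, Equiv.apply_symm_apply]) hi.1
      · obtain ⟨x, hx, hh⟩ := hi.2 h
        exact ⟨x, hx, hh.symm⟩)
  have h5 : q (e j) (v j) * ∏ i ∈ Finset.Ioi j, pen (P (e i)) (q (e i)) (v i) =
      ∏ i ∈ J, q i (v (e.symm i)) := by
    have hJ' : J = insert (e j) (univ.filter fun i => j < e.symm i ∧ ¬ Q i) := by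
      ext i
      simp [J]
    rw [hJ', prod_insert (by simp), Equiv.symm_apply_apply]
    congr 1
    have h7 : (univ.filter fun i => j < e.symm i ∧ ¬ Q i) =
        ((Finset.Ioi j).filter fun i => ¬ Q (e i)).map e.toEmbedding := by
      ext i
      simp only [mem_filter, mem_univ, true_and, mem_map, mem_Ioi, Equiv.coe_toEmbedding]
      constructor
      · intro h
        exact ⟨e.symm i, by simpa using h, by simp⟩
      · rintro ⟨k, hk, rfl⟩
        simpa using hk
    rw [h7, prod_map, prod_filter]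
    apply prod_congr rfl
    intro i _
    simp only [Equiv.coe_toEmbedding, Equiv.symm_apply_apply, pen, hQ, ite_not]
  have h5' : q (e j) (v j) * (∏ i ∈ Finset.Ioi j, pen (P (e i)) (q (e i)) (v i)) *
      ‖G (fun i => v (e.symm i))‖ ≤ B := by
    rw [h5]
    exact h4
  exact h5'

end Pool.Agent.Work.MP_b30479_gtS.G2

end

section

/-!
# The state sum is the main integral up to an exponentially smaller error
-/

namespace Pool.Agent.Work.MP_b30479_gtS.G2

open Finset VOL MeasureTheory Filter Topology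

theorem tendsto_odd : Tendsto (fun s : ℕ => 2 * s + 1) atTop atTop :=
  tendsto_atTop_mono (fun s => by omega : ∀ s : ℕ, s ≤ 2 * s + 1) tendsto_id

/-- the vertical strip -/
def vst (n : ℕ) (ε : ℝ) : Set ℂ := {u : ℂ | -ε < u.re ∧ u.re < 1 - 1 / n + ε}

theorem isOpen_vst (n : ℕ) (ε : ℝ) : IsOpen (vst n ε) := by
  have h1 : IsOpen {u : ℂ | -ε < u.re} := isOpen_lt continuous_const Complex.continuous_re
  have h2 : IsOpen {u : ℂ | u.re < 1 - 1 / (n : ℝ) + ε} :=
    isOpen_lt Complex.continuous_re continuous_const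
  exact h1.inter h2

theorem mem_vst {n : ℕ} {ε : ℝ} (hε : 0 < ε) {u : ℂ} (h : 0 ≤ u.re ∧ u.re ≤ 1 - 1 / n) :
    u ∈ vst n ε := ⟨by linarith only [hε, h, h.1], by linarith only [hε, h, h.2]⟩

theorem lat_re {n k : ℕ} (hk : k < n) : 0 ≤ ((k : ℂ) / n).re ∧ ((k : ℂ) / n).re ≤ 1 - 1 / n := by
  have hn0 : (0 : ℝ) < n := by
    have : 0 < n := by omega
    exact_mod_cast this
  have h4 : (k : ℝ) + 1 ≤ n := by exact_mod_cast hk
  have h5 : ((k : ℂ) / n) = (((k : ℝ) / n : ℝ) : ℂ) := by push_cast; rfl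
  rw [h5, Complex.ofReal_re]
  refine ⟨by positivity, ?_⟩
  rw [div_le_iff₀ hn0, sub_mul, one_mul, div_mul_cancel₀ _ hn0.ne']
  linarith only [h4]

variable {D Z K : Type} [Fintype D] [Fintype Z] [Fintype K] [DecidableEq D]

omit [Fintype D] [DecidableEq D] in
theorem path_re {P : Par D} {n : ℕ} (hn : 4 ≤ n) {i : D} {x : ℝ} (hx : ea n ≤ x)
    (hx' : x ≤ P.eb n i) : 0 ≤ x ∧ x ≤ 1 - 1 / n := by
  have hn0 : (0 : ℝ) < n := by
    have : 0 < n := by omega
    exact_mod_cast this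
  have hm : (P.m n i : ℝ) + 2 ≤ n := by
    have h1 : P.m n i ≤ n - 2 := min_le_right _ _
    have h2 : P.m n i + 2 ≤ n := by omega
    exact_mod_cast h2
  refine ⟨le_trans (by unfold ea; positivity) hx, hx'.trans ?_⟩
  unfold Par.eb
  rw [div_le_iff₀ hn0, sub_mul, one_mul, div_mul_cancel₀ _ hn0.ne']
  linarith only [hm]

theorem gq_le_one (n : ℕ) (w : ℂ) : gq n w ≤ 1 := by
  unfold gq
  rw [Real.exp_le_one_iff]
  have := Real.pi_pos
  have : 0 ≤ 2 * Real.pi * n * |w.im| := by positivity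
  linarith only [this]

theorem integrable_f {S : Dat D Z K} (hS : S.Ok) {n : ℕ} (hn : 4 ≤ n) (hodd : Odd n) {ρ : Z → ℝ}
    (hρ : ∀ v, 0 < ρ v) {y : D → ℕ} (hy : ∀ i, y i < n) :
    IntegrableOn (S.f n ρ y) (LT.cube Z) := by
  obtain ⟨C, k, hC, hgr⟩ := f_growth hS (Y := ∑ v, ρ v) (sum_nonneg fun v _ => (hρ v).le) hρ
    (fun v => single_le_sum (f := ρ) (fun v _ => (hρ v).le) (mem_univ v))
  have hc : Continuous fun σ : Z → ℝ => S.V (lz n ρ y σ) := by
    apply S.continuous_V.comp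
    apply continuous_pi
    intro j
    rcases j with i | v
    · exact continuous_const
    · exact (continuous_zt (ρ v)).comp (continuous_apply v)
  have hcomp : IsCompact (LT.cube Z) := isCompact_univ_pi fun _ => isCompact_Icc
  obtain ⟨M, hM⟩ := hcomp.exists_bound_of_continuousOn hc.continuousOn
  have hsub : ocube Z ⊆ LT.cube Z := Set.pi_mono fun _ _ => Set.Ioo_subset_Icc_self
  apply integrable_cube (measurable_f S n ρ y).aestronglyMeasurable
    (B := C * (n : ℝ) ^ k * Real.exp (n * M))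
  intro σ hσ
  have h1 := hgr n hn hodd σ hσ (fun i => (y i : ℂ) / n) (fun i => lat_re (hy i)) (by
    intro i
    have h5 : ((y i : ℂ) / n) = (((y i : ℝ) / n : ℝ) : ℂ) := by push_cast; rfl
    rw [h5, Complex.ofReal_im, abs_zero]
    exact sum_nonneg fun v _ => (hρ v).le)
  refine h1.trans ?_
  apply mul_le_mul_of_nonneg_left _ (by positivity)
  apply Real.exp_le_exp.mpr
  apply mul_le_mul_of_nonneg_left _ (Nat.cast_nonneg n)
  exact (le_abs_self _).trans (hM σ (hsub hσ))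

theorem fin_bound {Kc C T δ : ℝ} {N k s : ℕ} {a : ℝ} {M : ℝ}
    (h : a ≤ M * (2 * (Kc * ((2 * s + 1 : ℕ) : ℝ))) ^ N *
      (C * ((2 * s + 1 : ℕ) : ℝ) ^ k * Real.exp (((2 * s + 1 : ℕ) : ℝ) * (T - δ)))) :
    a ≤ (M * (2 * Kc) ^ N * C) * nn s ^ ((N + k : ℕ) : ℝ) * Real.exp (nn s * (T - δ)) := by
  refine h.trans (le_of_eq ?_)
  unfold nn
  rw [Real.rpow_natCast, pow_add, ← mul_assoc 2 Kc, mul_pow]
  ring

/-- the tail terms are small -/
theorem tail_small {S : Dat D Z K} (hS : S.Ok) {P : Par D}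
    {nb : Finset D → Finset (D ⊕ Z)} {zs : D ⊕ Z → ℂ} (h : Sadl S P nb zs) {R : Finset D}
    (hR : R.Nonempty) :
    Small (S.T zs).re fun s => ‖∑ y ∈ Fintype.piFinset (AR P R (2 * s + 1)),
      ∫ σ in LT.cube Z, S.f (2 * s + 1) (fun v => (zs (.inr v)).im) y σ‖ := by
  classical
  by_cases hR1 : ∀ i ∈ R, P.XM i < 1
  swap
  · push Not at hR1
    obtain ⟨i, hi, hX⟩ := hR1
    apply (Small.zero _).mono
    refine Eventually.of_forall fun s => ?_
    have : Fintype.piFinset (AR P R (2 * s + 1)) = ∅ := by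
      rw [Fintype.piFinset_eq_empty]
      refine ⟨i, ?_⟩
      ext k
      rw [mem_AR]
      simp only [hi, true_iff, notMem_empty, iff_false, not_and, not_lt]
      intro hk
      have h1 : (k : ℝ) < ((2 * s + 1 : ℕ) : ℝ) := by exact_mod_cast hk
      have h2 : (0 : ℝ) ≤ ((2 * s + 1 : ℕ) : ℝ) := Nat.cast_nonneg _
      nlinarith only [h1, hX]
    rw [this, sum_empty, norm_zero]
  have hcl : ∀ i, 0 < P.cl i := fun i => (h.par i).2.2.1
  have hcr : ∀ i, 0 < P.cr i := fun i => (h.par i).2.2.2.1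
  set t : D → ℝ := fun i => (zs (.inl i)).im with ht
  obtain ⟨C, k, δ, ρ, hC, hδ, hρ, -, hev⟩ := point_bound hS h R hR1
  obtain ⟨Kc, hKc, hpc⟩ := path_consts hcl hcr h.par t
  have hKc0 : 0 ≤ Kc := by linarith only [hKc]
  refine ⟨1 * (2 * Kc) ^ Fintype.card D * C, ((Fintype.card D + k : ℕ) : ℝ), δ, hδ, ?_⟩
  have hev2 := tendsto_odd.eventually (hev.and (hpc.and (eventually_ge_atTop 4)))
  filter_upwards [hev2] with s hs
  obtain ⟨hpt, hpath, hn4⟩ := hs
  set n := 2 * s + 1 with hn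
  have hodd : Odd n := ⟨s, hn⟩
  apply fin_bound
  have hn0 : (0 : ℝ) < n := by
    have : 0 < n := by omega
    exact_mod_cast this
  have hnK : (n : ℝ) ≤ Kc * n := by nlinarith only [hKc]
  rw [one_mul]
  by_cases hne : ∀ i, (AR P R n i).Nonempty
  swap
  · push Not at hne
    obtain ⟨i, hi⟩ := hne
    have : Fintype.piFinset (AR P R n) = ∅ := by
      rw [Fintype.piFinset_eq_empty]
      exact ⟨i, hi⟩
    rw [this, sum_empty, norm_zero]
    positivity
  choose k0 hk0 using hne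
  have e1 : ∑ y ∈ Fintype.piFinset (AR P R n),
      ∫ σ in LT.cube Z, S.f n (fun v => (zs (.inr v)).im) y σ =
      ∫ σ in LT.cube Z, ∑ y ∈ Fintype.piFinset (AR P R n), S.f n ρ y σ := by
    rw [integral_finsetSum]
    · apply sum_congr rfl
      intro y hy
      exact rho_eq hS hn4 hodd (fun v => (h.flatZ v).2) hρ hy
    · intro y hy
      rw [Fintype.mem_piFinset] at hy
      exact integrable_f hS hn4 hodd hρ (fun i => (mem_AR.mp (hy i)).1)
  rw [e1]
  apply norm_int_cube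
  intro σ hσ
  have hσ' := mem_ocube.mp hσ
  obtain ⟨ε, hε, hGh⟩ := G_holo' hS hn4 (ζ := fun v => LT.zt (ρ v) (σ v)) (fun v => by
    rw [zt_re']
    exact hσ' v)
  have hnbR : ∀ i, (.inl i : D ⊕ Z) ∉ nb R → i ∉ R := fun i hi hc => hi (h.nb_sup R i hc)
  have hcor : ∀ i, (.inl i : D ⊕ Z) ∉ nb R → AR P R n i = cor P n i := by
    intro i hi
    unfold AR
    rw [if_neg (hnbR i hi)]
  refine bound_pi (K := Kc * n) (by positivity) (AR P R n)
    (fun i => if (.inl i : D ⊕ Z) ∈ nb R then degP ((k0 i : ℂ) / n) else Pa P hcl hcr n t i)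
    (fun _ => vst n ε) (fun _ => isOpen_vst n ε) ?_ ?_
    (fun i => if (.inl i : D ⊕ Z) ∈ nb R then {u | ∃ k ∈ AR P R n i, u = (k : ℂ) / n} else
      gEL n 0 (P.m n i) (cor P n i) (P.hu i) (P.hd i) (P.cl i) (P.cr i))
    (fun _ => gq n) (fun _ w _ => (gq_pos n w).le) (fun _ w _ => gq_le_one n w) ?_ ?_ ?_
    (fun w => (∏ v, LT.EE n (S.b v) (ρ v) (σ v)) * S.G n (Sum.elim w fun v => LT.zt (ρ v) (σ v)))
    (hGh.const_mul _) (C * (n : ℝ) ^ k * Real.exp (n * ((S.T zs).re - δ))) (by positivity) ?_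
  · intro i y hy
    exact mem_vst hε (lat_re (mem_AR.mp hy).1)
  · intro i
    by_cases hi : (.inl i : D ⊕ Z) ∈ nb R
    · simp only [hi, if_true]
      intro x _
      exact mem_vst hε (lat_re (mem_AR.mp (hk0 i)).1)
    · simp only [hi, if_false]
      intro x hx
      apply mem_vst hε
      have h6 : ((Pa P hcl hcr n t i).γ x).re = x := pt_re _ _ _ _ _ _
      rw [h6]
      exact path_re hn4 hx.1 hx.2
  · intro i
    by_cases hi : (.inl i : D ⊕ Z) ∈ nb R
    · simp only [hi, if_true]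
      rintro _ ⟨y, hy, rfl⟩
      exact mem_vst hε (lat_re (mem_AR.mp hy).1)
    · simp only [hi, if_false]
      intro w hw
      exact mem_vst hε (gEL_re (filter_subset _ _) (by omega) (hpath i).2.1 (by omega) hw)
  · intro i
    by_cases hi : (.inl i : D ⊕ Z) ∈ nb R
    · simp only [hi, if_true]
      apply mainL_deg
      refine le_trans ?_ hnK
      have : (AR P R n i).card ≤ (range n).card := card_le_card fun k hk => by
        rw [mem_range]
        exact (mem_AR.mp hk).1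
      rw [card_range] at this
      exact_mod_cast this
    · simp only [hi, if_false]
      rw [hcor i hi]
      apply (hpath i).2.2.1
      intro w hw hw'
      exact (isOpen_vst n ε).mem_nhds (mem_vst hε (path_re hn4 hw hw'))
  · intro i
    by_cases hi : (.inl i : D ⊕ Z) ∈ nb R
    · simp only [hi, if_true]
      have : ∫ x in (degP ((k0 i : ℂ) / n)).a..(degP ((k0 i : ℂ) / n)).b,
          ‖(degP ((k0 i : ℂ) / n)).ω x‖ = 0 := by
        simp [degP]
      rw [this]
      positivity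
    · simp only [hi, if_false]
      exact (hpath i).2.2.2
  · intro J w hJ hJ'
    apply hpt hodd σ hσ J w (fun hc => absurd hc hR.ne_empty)
    · intro i hi hi'
      have := hJ i hi
      simp only [hi', if_false] at this
      exact this
    · intro i hi hi'
      obtain ⟨x, hx, hw⟩ := hJ' i hi
      simp only [hi', if_false] at hx hw
      exact ⟨x, hx.1, hx.2, hw⟩
    · intro i hi'
      by_cases hi : i ∈ J
      · have := hJ i hi
        simp only [hi', if_true] at this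
        exact this
      · obtain ⟨x, hx, hw⟩ := hJ' i hi
        simp only [hi', if_true] at hw
        exact ⟨k0 i, hk0 i, hw⟩

/-- the core term is the main integral up to a small error -/
theorem core_small {S : Dat D Z K} (hS : S.Ok) {P : Par D}
    {nb : Finset D → Finset (D ⊕ Z)} {zs : D ⊕ Z → ℂ} (h : Sadl S P nb zs) :
    Small (S.T zs).re fun s => ‖(∑ y ∈ Fintype.piFinset (AR P ∅ (2 * s + 1)),
      ∫ σ in LT.cube Z, S.f (2 * s + 1) (fun v => (zs (.inr v)).im) y σ) -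
        S.main P zs (2 * s + 1)‖ := by
  classical
  have hcl : ∀ i, 0 < P.cl i := fun i => (h.par i).2.2.1
  have hcr : ∀ i, 0 < P.cr i := fun i => (h.par i).2.2.2.1
  set t : D → ℝ := fun i => (zs (.inl i)).im with ht
  obtain ⟨C, k, δ, ρ, hC, hδ, hρ, hρe, hev⟩ := point_bound hS h ∅ (by simp)
  have hρ' := hρe rfl
  subst hρ'
  obtain ⟨Kc, hKc, hpc⟩ := path_consts hcl hcr h.par t
  have hKc0 : 0 ≤ Kc := by linarith only [hKc]
  refine ⟨Fintype.card D * (2 * Kc) ^ Fintype.card D * C, ((Fintype.card D + k : ℕ) : ℝ), δ, hδ, ?_⟩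
  have hev2 := tendsto_odd.eventually (hev.and (hpc.and (eventually_ge_atTop 4)))
  filter_upwards [hev2] with s hs
  obtain ⟨hpt, hpath, hn4⟩ := hs
  set n := 2 * s + 1 with hn
  have hodd : Odd n := ⟨s, hn⟩
  apply fin_bound
  have hn0 : (0 : ℝ) < n := by
    have : 0 < n := by omega
    exact_mod_cast this
  have hcor : ∀ i, AR P ∅ n i = cor P n i := by
    intro i
    unfold AR
    rw [if_neg (notMem_empty _)]
  have hnb : ∀ i : D, (.inl i : D ⊕ Z) ∉ nb ∅ := by
    intro i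
    rw [h.nb_empty]
    exact notMem_empty _
  have hint : ∀ y ∈ Fintype.piFinset (AR P ∅ n),
      IntegrableOn (S.f n (fun v => (zs (.inr v)).im) y) (LT.cube Z) := by
    intro y hy
    rw [Fintype.mem_piFinset] at hy
    exact integrable_f hS hn4 hodd (fun v => (h.flatZ v).2) (fun i => (mem_AR.mp (hy i)).1)
  -- pointwise bound
  set B := Fintype.card D * (2 * (Kc * (n : ℝ))) ^ Fintype.card D *
    (C * (n : ℝ) ^ k * Real.exp (n * ((S.T zs).re - δ))) with hB
  have hpw : ∀ σ ∈ ocube Z, ‖∑ y ∈ Fintype.piFinset (AR P ∅ n),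
      S.f n (fun v => (zs (.inr v)).im) y σ - ∫ x in P.bx n, S.F P zs n x σ‖ ≤ B := by
    intro σ hσ
    have hσ' := mem_ocube.mp hσ
    obtain ⟨ε, hε, hGh⟩ := G_holo' hS hn4 (ζ := fun v => LT.zt (zs (.inr v)).im (σ v)) (fun v => by
      rw [zt_re']
      exact hσ' v)
    have h1 := tensor_pi (K := Kc * n) (by positivity) (AR P ∅ n)
      (fun i => Pa P hcl hcr n t i)
      (fun _ => vst n ε) (fun _ => isOpen_vst n ε) (by
        intro i y hy
        exact mem_vst hε (lat_re (mem_AR.mp hy).1)) (by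
        intro i x hx
        apply mem_vst hε
        have h6 : ((Pa P hcl hcr n t i).γ x).re = x := pt_re _ _ _ _ _ _
        rw [h6]
        exact path_re hn4 hx.1 hx.2)
      (fun i => gEL n 0 (P.m n i) (cor P n i) (P.hu i) (P.hd i) (P.cl i) (P.cr i))
      (fun _ => gq n) (fun _ w _ => (gq_pos n w).le) (fun _ w _ => gq_le_one n w) (by
        intro i w hw
        exact mem_vst hε (gEL_re (filter_subset _ _) (by omega) (hpath i).2.1 (by omega) hw)) (by
        intro i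
        rw [hcor i]
        apply (hpath i).2.2.1
        intro w hw hw'
        exact (isOpen_vst n ε).mem_nhds (mem_vst hε (path_re hn4 hw hw')))
      (fun i => (hpath i).2.2.2)
      (fun w => (∏ v, LT.EE n (S.b v) (zs (.inr v)).im (σ v)) *
        S.G n (Sum.elim w fun v => LT.zt (zs (.inr v)).im (σ v)))
      (hGh.const_mul _) (C * (n : ℝ) ^ k * Real.exp (n * ((S.T zs).re - δ))) (by positivity) (by
        intro J w hJn hJ hJ'
        apply hpt hodd σ hσ J w (fun _ => hJn)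
        · intro i hi _
          exact hJ i hi
        · intro i hi _
          obtain ⟨x, hx, hw⟩ := hJ' i hi
          exact ⟨x, hx.1, hx.2, hw⟩
        · intro i hi'
          exact absurd hi' (hnb i))
    have h2 : ∫ x in P.bx n, S.F P zs n x σ =
        ∫ x in Set.univ.pi (fun i => Set.Icc (Pa P hcl hcr n t i).a (Pa P hcl hcr n t i).b),
        (∏ v, LT.EE n (S.b v) (zs (.inr v)).im (σ v)) *
        S.G n (Sum.elim (fun i => (Pa P hcl hcr n t i).γ (x i)) fun v =>
          LT.zt (zs (.inr v)).im (σ v)) * ∏ i, (Pa P hcl hcr n t i).ω (x i) := by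
      apply integral_congr_ae
      refine Eventually.of_forall fun x => ?_
      simp only
      unfold Dat.F
      have e1 : ∀ i, P.om n (zs (.inl i)).im i (x i) = (Pa P hcl hcr n t i).ω (x i) := fun i => rfl
      have e2 : P.pz zs n x σ = Sum.elim (fun i => (Pa P hcl hcr n t i).γ (x i)) fun v =>
          LT.zt (zs (.inr v)).im (σ v) := rfl
      rw [e2]
      simp only [e1]
      ring
    rw [h2]
    exact h1
  have hms : AEStronglyMeasurable (fun σ => ∫ x in P.bx n, S.F P zs n x σ)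
      (volume.restrict (LT.cube Z)) := by
    have h1 := (S.measurable_F P zs n).stronglyMeasurable.integral_prod_left'
      (μ := volume.restrict (P.bx n))
    exact h1.aestronglyMeasurable
  have hms2 : AEStronglyMeasurable (fun σ => ∑ y ∈ Fintype.piFinset (AR P ∅ n),
      S.f n (fun v => (zs (.inr v)).im) y σ - ∫ x in P.bx n, S.F P zs n x σ)
      (volume.restrict (LT.cube Z)) :=
    ((Finset.measurable_sum _ fun y _ => measurable_f S n _ y).aestronglyMeasurable).sub hms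
  have hI1 : IntegrableOn (fun σ => ∑ y ∈ Fintype.piFinset (AR P ∅ n),
      S.f n (fun v => (zs (.inr v)).im) y σ) (LT.cube Z) := integrable_finsetSum _ hint
  have hI3 : IntegrableOn (fun σ => ∑ y ∈ Fintype.piFinset (AR P ∅ n),
      S.f n (fun v => (zs (.inr v)).im) y σ - ∫ x in P.bx n, S.F P zs n x σ) (LT.cube Z) :=
    integrable_cube hms2 hpw
  have hI2 : IntegrableOn (fun σ => ∫ x in P.bx n, S.F P zs n x σ) (LT.cube Z) := by
    have := hI1.sub hI3
    refine this.congr (Eventually.of_forall fun σ => ?_)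
    simp
  have e1 : (∑ y ∈ Fintype.piFinset (AR P ∅ n),
      ∫ σ in LT.cube Z, S.f n (fun v => (zs (.inr v)).im) y σ) - S.main P zs n =
      ∫ σ in LT.cube Z, (∑ y ∈ Fintype.piFinset (AR P ∅ n), S.f n (fun v => (zs (.inr v)).im) y σ -
        ∫ x in P.bx n, S.F P zs n x σ) := by
    rw [integral_sub hI1 hI2, integral_finsetSum _ hint]
    rfl
  rw [e1]
  exact norm_int_cube hpw

theorem sum_sub_main [DecidableEq Z] {S : Dat D Z K} (hS : S.Ok) {P : Par D}
    {nb : Finset D → Finset (D ⊕ Z)} {zs : D ⊕ Z → ℂ} (h : Sadl S P nb zs) :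
    ∃ C k δ : ℝ, 0 < δ ∧ ∀ᶠ s : ℕ in atTop,
      ‖S.sum (2 * s + 1) (fun v => (zs (.inr v)).im) - S.main P zs (2 * s + 1)‖ ≤
        C * nn s ^ k * Real.exp (nn s * ((S.T zs).re - δ)) := by
  classical
  have h1 : Small (S.T zs).re fun s => ∑ R ∈ univ.erase (∅ : Finset D),
      ‖∑ y ∈ Fintype.piFinset (AR P R (2 * s + 1)),
        ∫ σ in LT.cube Z, S.f (2 * s + 1) (fun v => (zs (.inr v)).im) y σ‖ := by
    apply Small.sum
    intro R hR
    exact tail_small hS h (nonempty_iff_ne_empty.mpr (ne_of_mem_erase hR))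
  have h2 := ((core_small hS h).add h1).mono (b := fun s =>
    ‖S.sum (2 * s + 1) (fun v => (zs (.inr v)).im) - S.main P zs (2 * s + 1)‖)
    (Eventually.of_forall fun s => by
      rw [errSum_eq S P, ← add_sum_erase _ _ (mem_univ (∅ : Finset D))]
      have e : ∀ a b c : ℂ, a + b - c = (a - c) + b := fun a b c => by ring
      rw [e]
      exact (norm_add_le _ _).trans (add_le_add le_rfl (norm_sum_le _ _)))
  exact h2

end Pool.Agent.Work.MP_b30479_gtS.G2

end

section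

/-!
# Local behaviour of the factors at an interior point

Local limits on the scale `1 / √n` and sharp bounds near a point, for `SE` and for `Ec`.
-/

namespace Pool.Agent.Work.MP_b30479_gtS.G2

open Finset VOL LT MeasureTheory Filter Topology

/-- `SE` on the strip `0 < Re u < 1` -/
def SEok : Prop := ∀ n : ℕ, 4 ≤ n → ∀ u ∈ strip, SE n u = Complex.exp (M n u)

theorem tendsto_sqrt_nn : Tendsto (fun s => √(nn s)) atTop atTop :=
  Real.tendsto_sqrt_atTop.comp tendsto_nn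

theorem tendsto_div_sqrt_nn (Z : ℂ) : Tendsto (fun s => Z / ((√(nn s) : ℝ) : ℂ)) atTop (𝓝 0) := by
  have h1 : Tendsto (fun s => (√(nn s))⁻¹) atTop (𝓝 0) := tendsto_inv_atTop_zero.comp tendsto_sqrt_nn
  have h2 : Tendsto (fun s => (((√(nn s))⁻¹ : ℝ) : ℂ)) atTop (𝓝 ((0 : ℝ) : ℂ)) :=
    (Complex.continuous_ofReal.tendsto 0).comp h1
  have h3 := h2.const_mul Z
  rw [Complex.ofReal_zero, mul_zero] at h3
  refine h3.congr fun s => ?_
  rw [Complex.ofReal_inv, div_eq_mul_inv]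

theorem tendsto_div_nn (c : ℝ) : Tendsto (fun s => ((c / nn s : ℝ) : ℂ)) atTop (𝓝 0) := by
  have h1 : Tendsto (fun s => c / nn s) atTop (𝓝 0) := tendsto_nn.const_div_atTop c
  have h2 := (Complex.continuous_ofReal.tendsto 0).comp h1
  rw [Complex.ofReal_zero] at h2
  exact h2

theorem sqrt_nn_ne (s : ℕ) : ((√(nn s) : ℝ) : ℂ) ≠ 0 := by
  exact_mod_cast (Real.sqrt_pos.mpr (nn_pos s)).ne'

theorem sqrt_nn_sq (s : ℕ) : ((√(nn s) : ℝ) : ℂ) ^ 2 = nn s := by
  rw [← Complex.ofReal_pow, Real.sq_sqrt (nn_pos s).le]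

theorem eventually_four : ∀ᶠ s : ℕ in atTop, 4 ≤ 2 * s + 1 := by
  filter_upwards [eventually_ge_atTop 2] with s hs
  omega

/-- a point of the strip has a margin -/
theorem exists_Sd {u : ℂ} (hu : u ∈ strip) : ∃ δ : ℝ, 0 < δ ∧ δ ≤ 1 / 2 ∧ ∀ v : ℂ, ‖v‖ ≤ δ →
    u + v ∈ Sd δ := by
  refine ⟨min u.re (1 - u.re) / 2, ?_, ?_, fun v hv => ?_⟩
  · have := lt_min hu.1 (sub_pos.mpr hu.2)
    linarith only [this]
  · have h1 := min_le_left u.re (1 - u.re)
    have h2 := min_le_right u.re (1 - u.re)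
    linarith only [h1, h2]
  · have h1 := min_le_left u.re (1 - u.re)
    have h2 := min_le_right u.re (1 - u.re)
    have h3 := (Complex.abs_re_le_norm v).trans hv
    have h4 := abs_le.mp h3
    refine ⟨?_, ?_⟩
    · rw [Complex.add_re]
      linarith only [h1, h4, h4.1]
    · rw [Complex.add_re]
      linarith only [h2, h4, h4.2]

/-- **Local limit of `SE`.** -/
theorem SE_loc (hSE : SEok) {u : ℂ} (hu : u ∈ strip) (c : ℝ) (V : ℂ) :
    Tendsto (fun s : ℕ => Complex.exp (-((nn s : ℂ) * Fh u) - √(nn s) * (ph u * V)) *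
      SE (2 * s + 1) (u + V / √(nn s) + ((c / nn s : ℝ) : ℂ))) atTop
      (𝓝 (Complex.exp (ph' u / 2 * V ^ 2 + c * ph u))) := by
  obtain ⟨δ, hδ, hδ2, hSd⟩ := exists_Sd hu
  set h : ℕ → ℂ := fun s => V / √(nn s) + ((c / nn s : ℝ) : ℂ) with hh
  have hh0 : Tendsto h atTop (𝓝 0) := by
    have := (tendsto_div_sqrt_nn V).add (tendsto_div_nn c)
    rw [add_zero] at this
    exact this
  have hn0 : Tendsto (fun s => ‖h s‖) atTop (𝓝 0) := by simpa using hh0.norm
  -- the rest of the Taylor expansion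
  have hR : Tendsto (fun s => (nn s : ℂ) * (Fh (u + h s) - Fh u - ph u * h s - ph' u * h s ^ 2 / 2))
      atTop (𝓝 0) := by
    rw [Metric.tendsto_nhds]
    intro ε hε
    obtain ⟨δ', hδ', hT⟩ := Fh_taylor_loc hu (ε := ε / (2 * ((‖V‖ + |c|) ^ 2 + 1))) (by positivity)
    filter_upwards [hn0.eventually_lt_const hδ'] with s hs
    have hn := nn_pos s
    rw [dist_zero_right, norm_mul, Complex.norm_real, Real.norm_of_nonneg hn.le]
    have h1 := hT (h s) hs
    have h2 : nn s * ‖h s‖ ^ 2 ≤ (‖V‖ + |c|) ^ 2 := by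
      have h3 : √(nn s) * ‖h s‖ ≤ ‖V‖ + |c| := by
        have h4 : ‖h s‖ ≤ ‖V‖ / √(nn s) + |c| / √(nn s) := by
          refine (norm_add_le _ _).trans (add_le_add ?_ ?_)
          · rw [norm_div, Complex.norm_real, Real.norm_of_nonneg (Real.sqrt_nonneg _)]
          · rw [Complex.norm_real, Real.norm_eq_abs, abs_div, abs_of_pos hn]
            apply div_le_div_of_nonneg_left (abs_nonneg c) (Real.sqrt_pos.mpr hn)
            rw [Real.sqrt_le_left hn.le]
            nlinarith only [hn, nn_ge_one s]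
        have h5 : 0 < √(nn s) := Real.sqrt_pos.mpr hn
        calc √(nn s) * ‖h s‖ ≤ √(nn s) * (‖V‖ / √(nn s) + |c| / √(nn s)) :=
              mul_le_mul_of_nonneg_left h4 h5.le
          _ = ‖V‖ + |c| := by field_simp
      calc nn s * ‖h s‖ ^ 2 = (√(nn s) * ‖h s‖) ^ 2 := by
            rw [mul_pow, Real.sq_sqrt hn.le]
        _ ≤ (‖V‖ + |c|) ^ 2 := by
            apply pow_le_pow_left₀ (by positivity) h3
    calc nn s * ‖Fh (u + h s) - Fh u - ph u * h s - ph' u * h s ^ 2 / 2‖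
        ≤ nn s * (ε / (2 * ((‖V‖ + |c|) ^ 2 + 1)) * ‖h s‖ ^ 2) :=
          mul_le_mul_of_nonneg_left h1 hn.le
      _ = ε / (2 * ((‖V‖ + |c|) ^ 2 + 1)) * (nn s * ‖h s‖ ^ 2) := by ring
      _ ≤ ε / (2 * ((‖V‖ + |c|) ^ 2 + 1)) * (‖V‖ + |c|) ^ 2 :=
          mul_le_mul_of_nonneg_left h2 (by positivity)
      _ < ε := by
          rw [div_mul_eq_mul_div, div_lt_iff₀ (by positivity)]
          nlinarith only [hε, sq_nonneg (‖V‖ + |c|)]
  -- the correction
  have hJ : Tendsto (fun s => J (nn s) (u + h s)) atTop (𝓝 0) := by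
    have h1 : Tendsto (fun s => 1 / (2 * Real.pi * Real.sin (Real.pi * δ)) / nn s) atTop (𝓝 0) :=
      tendsto_nn.const_div_atTop _
    refine squeeze_zero_norm' ?_ h1
    filter_upwards [hn0.eventually_lt_const hδ] with s hs
    exact norm_J_Sd hδ hδ2 (nn_pos s) (hSd _ hs.le)
  -- the quadratic term
  have hq : Tendsto (fun s => ph' u / 2 * (V + ((c : ℝ) : ℂ) / √(nn s)) ^ 2) atTop
      (𝓝 (ph' u / 2 * V ^ 2)) := by
    have h1 := ((tendsto_div_sqrt_nn c).const_add V).pow 2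
    rw [add_zero] at h1
    exact h1.const_mul _
  have hE := ((hR.add hJ).add hq).add_const (c * ph u)
  rw [zero_add, zero_add] at hE
  have hE' := (Complex.continuous_exp.tendsto _).comp hE
  refine hE'.congr' ?_
  filter_upwards [hn0.eventually_lt_const hδ, eventually_four] with s hs h4
  have hmem : u + h s ∈ strip := Sd_sub hδ (hSd _ hs.le)
  have e0 : u + V / √(nn s) + ((c / nn s : ℝ) : ℂ) = u + h s := by rw [hh]; ring
  have e1 : (((2 * s + 1 : ℕ) : ℝ)) = nn s := rfl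
  rw [e0, hSE _ h4 _ hmem, ← Complex.exp_add, Function.comp]
  congr 1
  unfold M
  rw [e1]
  have hq2 := sqrt_nn_sq s
  have hq0 := sqrt_nn_ne s
  have e2 : (nn s : ℂ) * h s = √(nn s) * V + c := by
    rw [hh]
    simp only
    rw [Complex.ofReal_div, ← hq2]
    field_simp
  have e3 : (nn s : ℂ) * h s ^ 2 = (V + (c : ℂ) / √(nn s)) ^ 2 := by
    rw [hh]
    simp only
    rw [Complex.ofReal_div, ← hq2]
    field_simp
  linear_combination (-(ph u)) * e2 - ph' u / 2 * e3

/-- **Bound of `SE` near an interior point.** -/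
theorem SE_near (hSE : SEok) {u : ℂ} (hu : u ∈ strip) (c : ℝ) :
    ∃ C r : ℝ, 0 < C ∧ 0 < r ∧ (∀ v : ℂ, ‖v‖ ≤ r → u + v ∈ strip) ∧
      ∀ᶠ s : ℕ in atTop, ∀ v : ℂ, ‖v‖ ≤ r →
      ‖SE (2 * s + 1) (u + v + ((c / nn s : ℝ) : ℂ))‖ ≤ C * Real.exp (nn s * (Fh (u + v)).re) := by
  obtain ⟨δ, hδ, hδ2, hSd⟩ := exists_Sd hu
  have hpi := Real.pi_pos
  have hsδ : 0 < Real.sin (Real.pi * δ) := VOL.sin_pi_pos hδ (by linarith only [hδ, hδ2])
  set K : ℝ := Real.pi / Real.sin (Real.pi * δ) with hK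
  have hK0 : 0 < K := by positivity
  set B : ℝ := K * |c| ^ 2 + |c| * (‖ph u‖ + K) + 1 / (2 * Real.pi * Real.sin (Real.pi * δ)) with hB
  refine ⟨Real.exp B, δ / 2, Real.exp_pos _, by positivity,
    fun v hv => Sd_sub hδ (hSd v (hv.trans (by linarith only [hδ]))), ?_⟩
  have hc0 : Tendsto (fun s => ‖((c / nn s : ℝ) : ℂ)‖) atTop (𝓝 0) := by
    simpa using (tendsto_div_nn c).norm
  filter_upwards [hc0.eventually_lt_const (show 0 < δ / 2 by positivity), eventually_four]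
    with s hs h4 v hv
  have hn := nn_pos s
  have hn1 := nn_ge_one s
  set d : ℂ := ((c / nn s : ℝ) : ℂ) with hd
  have hnd : nn s * ‖d‖ = |c| := by
    rw [hd, Complex.norm_real, Real.norm_eq_abs, abs_div, abs_of_pos hn]
    field_simp
  have hdc : ‖d‖ ≤ |c| := by
    have : ‖d‖ * 1 ≤ ‖d‖ * nn s := mul_le_mul_of_nonneg_left hn1 (norm_nonneg _)
    linarith only [hnd, this]
  have hv1 : u + v ∈ Sd δ := hSd v (hv.trans (by linarith only [hδ]))
  have hv2 : u + v + d ∈ Sd δ := by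
    rw [add_assoc]
    refine hSd _ ((norm_add_le _ _).trans ?_)
    linarith only [hv, hs]
  have hu1 : u ∈ Sd δ := by
    have := hSd 0 (by simp [hδ.le])
    rwa [add_zero] at this
  have e1 : (((2 * s + 1 : ℕ) : ℝ)) = nn s := rfl
  rw [hSE _ h4 _ (Sd_sub hδ hv2), Complex.norm_exp, ← Real.exp_add]
  apply Real.exp_le_exp.mpr
  have h1 := Fh_taylor hδ hδ2 hv2 hv1
  rw [add_sub_cancel_left, ← hK] at h1
  have h2 := norm_J_Sd hδ hδ2 hn hv2
  have h3 := ph_lip hδ hδ2 hv1 hu1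
  rw [add_sub_cancel_left, ← hK] at h3
  have h5 : ‖ph (u + v)‖ ≤ ‖ph u‖ + K := by
    have h6 := norm_sub_norm_le (ph (u + v)) (ph u)
    have h7 : K * ‖v‖ ≤ K * 1 := mul_le_mul_of_nonneg_left (hv.trans (by linarith only [hδ, hδ2])) hK0.le
    linarith only [h3, h6, h7]
  have h6 : (M (((2 * s + 1 : ℕ) : ℝ)) (u + v + d)).re =
      nn s * (Fh (u + v)).re + (nn s : ℝ) * (Fh (u + v + d) - Fh (u + v) - d * ph (u + v)).re +
        nn s * (d * ph (u + v)).re + (J (nn s) (u + v + d)).re := by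
    rw [e1]
    unfold M
    rw [Complex.add_re, Complex.re_ofReal_mul, Complex.sub_re, Complex.sub_re]
    ring
  rw [h6]
  have h7 : (nn s : ℝ) * (Fh (u + v + d) - Fh (u + v) - d * ph (u + v)).re ≤ K * |c| ^ 2 := by
    have h8 := (Complex.re_le_norm (Fh (u + v + d) - Fh (u + v) - d * ph (u + v))).trans h1
    calc (nn s : ℝ) * (Fh (u + v + d) - Fh (u + v) - d * ph (u + v)).re ≤
          nn s * (K * ‖d‖ ^ 2) := mul_le_mul_of_nonneg_left h8 hn.le
      _ = K * (nn s * ‖d‖) * ‖d‖ := by ring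
      _ = K * |c| * ‖d‖ := by rw [hnd]
      _ ≤ K * |c| * |c| := mul_le_mul_of_nonneg_left hdc (by positivity)
      _ = K * |c| ^ 2 := by ring
  have h8 : nn s * (d * ph (u + v)).re ≤ |c| * (‖ph u‖ + K) := by
    calc nn s * (d * ph (u + v)).re ≤ nn s * ‖d * ph (u + v)‖ :=
          mul_le_mul_of_nonneg_left (Complex.re_le_norm _) hn.le
      _ = nn s * ‖d‖ * ‖ph (u + v)‖ := by rw [norm_mul]; ring
      _ = |c| * ‖ph (u + v)‖ := by rw [hnd]
      _ ≤ |c| * (‖ph u‖ + K) := mul_le_mul_of_nonneg_left h5 (abs_nonneg c)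
  have h9 : (J (nn s) (u + v + d)).re ≤ 1 / (2 * Real.pi * Real.sin (Real.pi * δ)) := by
    refine (Complex.re_le_norm _).trans (h2.trans ?_)
    exact div_le_self (by positivity) hn1
  rw [hB]
  linarith only [h7, h8, h9]

/-- the exponent of the weight of a continuous variable -/
noncomputable def wq (b : ℤ) (z : ℂ) : ℂ := Real.pi * Complex.I * b * z ^ 2 + 2 * Real.pi * Complex.I * z

theorem wq_add (b : ℤ) (z y : ℂ) : wq b (z + y) = wq b z +
    2 * Real.pi * Complex.I * (b * z + 1) * y + Real.pi * Complex.I * b * y ^ 2 := by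
  unfold wq
  ring

theorem norm_sin_le' (w : ℂ) : ‖Complex.sin w‖ ≤ Real.exp |w.im| := by
  unfold Complex.sin
  rw [norm_div, norm_mul, Complex.norm_I, mul_one, Complex.norm_ofNat, div_le_iff₀ (by norm_num)]
  refine (norm_sub_le _ _).trans ?_
  rw [Complex.norm_exp, Complex.norm_exp]
  have e1 : (-w * Complex.I).re = w.im := by simp
  have e2 : (w * Complex.I).re = -w.im := by simp
  rw [e1, e2]
  have h1 := Real.exp_le_exp.mpr (le_abs_self w.im)
  have h2 := Real.exp_le_exp.mpr (neg_le_abs w.im)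
  linarith only [h1, h2]

/-- **Bound of the weight of a continuous variable.** -/
theorem Ec_near {ζ : ℂ} (h0 : 0 < ζ.im) (b : ℤ) : ∃ C : ℝ, 0 < C ∧ ∀ s : ℕ, ∀ v : ℝ,
    ‖Ec (2 * s + 1) b (ζ + v)‖ ≤ C * Real.exp (nn s * (wq b (ζ + v)).re) := by
  have hpi := Real.pi_pos
  set q0 : ℝ := Real.exp (-(2 * Real.pi * ζ.im)) with hq0
  have hq1 : q0 < 1 := by
    rw [hq0, Real.exp_lt_one_iff]
    have : 0 < 2 * Real.pi * ζ.im := by positivity
    linarith only [this]
  refine ⟨Real.exp (2 * Real.pi * ζ.im) * 4 / (1 - q0) ^ 2,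
    by have := sub_pos.mpr hq1; positivity, fun s v => ?_⟩
  have hn := nn_pos s
  have hn1 := nn_ge_one s
  set z : ℂ := ζ + v with hz
  have hzim : z.im = ζ.im := by rw [hz]; simp
  have hzp : 0 < z.im := by rw [hzim]; exact h0
  have ecast : ((2 * s + 1 : ℕ) : ℂ) = ((nn s : ℝ) : ℂ) := by
    unfold nn
    rw [Complex.ofReal_natCast]
  unfold Ec
  rw [div_eq_mul_one_div, inv_sin_sq hzp (Nat.succ_pos (2 * s)), ecast]
  have hqn : ‖Complex.exp (2 * Real.pi * Complex.I * (nn s : ℝ) * z)‖ ≤ q0 := by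
    rw [Complex.norm_exp, hq0]
    apply Real.exp_le_exp.mpr
    have : (2 * Real.pi * Complex.I * ((nn s : ℝ) : ℂ) * z).re = -(2 * Real.pi * nn s * z.im) := by
      simp
    rw [this, hzim]
    have : 2 * Real.pi * ζ.im * 1 ≤ 2 * Real.pi * ζ.im * nn s :=
      mul_le_mul_of_nonneg_left hn1 (by positivity)
    linarith only [this]
  have hden : (1 - q0) ^ 2 ≤ ‖(1 - Complex.exp (2 * Real.pi * Complex.I * (nn s : ℝ) * z)) ^ 2‖ := by
    rw [norm_pow]
    apply pow_le_pow_left₀ (sub_pos.mpr hq1).le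
    have := norm_sub_norm_le (1 : ℂ) (Complex.exp (2 * Real.pi * Complex.I * (nn s : ℝ) * z))
    rw [norm_one] at this
    linarith only [hqn, this]
  have hsin : ‖Complex.sin (2 * Real.pi * z)‖ ≤ Real.exp (2 * Real.pi * ζ.im) := by
    refine (norm_sin_le' _).trans (Real.exp_le_exp.mpr ?_)
    have : (2 * (Real.pi : ℂ) * z).im = 2 * Real.pi * z.im := by simp
    rw [this, hzim, abs_of_nonneg (by positivity)]
  have e : Complex.exp (Real.pi * Complex.I * b * (nn s : ℝ) * z ^ 2) * Complex.sin (2 * Real.pi * z) *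
      (-4 * Complex.exp (2 * Real.pi * Complex.I * (nn s : ℝ) * z) /
      (1 - Complex.exp (2 * Real.pi * Complex.I * (nn s : ℝ) * z)) ^ 2) =
      Complex.exp ((nn s : ℝ) * wq b z) * (Complex.sin (2 * Real.pi * z) * (-4) /
      (1 - Complex.exp (2 * Real.pi * Complex.I * (nn s : ℝ) * z)) ^ 2) := by
    have : ((nn s : ℝ) : ℂ) * wq b z = Real.pi * Complex.I * b * (nn s : ℝ) * z ^ 2 +
        2 * Real.pi * Complex.I * (nn s : ℝ) * z := by
      unfold wq
      ring
    rw [this, Complex.exp_add]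
    ring
  rw [e, norm_mul, Complex.norm_exp, Complex.re_ofReal_mul, norm_div, norm_mul, norm_neg,
    Complex.norm_ofNat, mul_comm]
  apply mul_le_mul_of_nonneg_right _ (Real.exp_pos _).le
  exact div_le_div₀ (by positivity) (mul_le_mul_of_nonneg_right hsin (by norm_num))
    (by have := sub_pos.mpr hq1; positivity) hden

end Pool.Agent.Work.MP_b30479_gtS.G2

end

section

/-!
# The main integral of a state sum

Local limit and sharp bound of the integrand of `Dat` near the saddle point, and the Laplace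
asymptotics of the integral over the main paths (`Dat.lap`).
-/

namespace Pool.Agent.Work.MP_b30479_gtS.G2

open Finset VOL LT MeasureTheory Filter Topology VC

section quad

variable {ι : Type*} [Fintype ι]

theorem isQ_mul [DecidableEq ι] (i j : ι) : IsQ fun X : ι → ℝ => (X i : ℂ) * X j := by
  have h1 := (IsQ.lin_sq i j (1 : ℂ) 1).const_mul (1 / 4)
  have h2 := (IsQ.lin_sq i j (1 : ℂ) (-1)).const_mul (1 / 4)
  have h3 := h1.sub h2
  refine cast (congrArg IsQ (funext fun X => ?_)) h3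
  ring

/-- a negative quadratic form is bounded by a negative multiple of the sum of squares -/
theorem IsQ_neg {Q : (ι → ℝ) → ℂ} (hQ : IsQ Q) (h : ∀ X, X ≠ 0 → (Q X).re < 0) :
    ∃ c : ℝ, 0 < c ∧ ∀ X, (Q X).re ≤ -(c * ∑ i, X i ^ 2) := by
  classical
  set Sp : Set (ι → ℝ) := {X | ∑ i, X i ^ 2 = 1} with hSp
  have hcl : IsClosed Sp := isClosed_eq (by fun_prop) continuous_const
  have hbd : Bornology.IsBounded Sp := by
    rw [isBounded_iff_forall_norm_le]
    refine ⟨1, fun X hX => ?_⟩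
    rw [pi_norm_le_iff_of_nonneg zero_le_one]
    intro i
    rw [Real.norm_eq_abs, abs_le_one_iff_mul_self_le_one, ← pow_two]
    have h1 : X i ^ 2 ≤ ∑ j, X j ^ 2 :=
      Finset.single_le_sum (f := fun j => X j ^ 2) (fun j _ => sq_nonneg _) (Finset.mem_univ i)
    exact h1.trans (le_of_eq hX)
  have hcomp : IsCompact Sp := Metric.isCompact_of_isClosed_isBounded hcl hbd
  have hcont : Continuous fun X => (Q X).re := Complex.continuous_re.comp hQ.continuous
  have key : ∃ c : ℝ, 0 < c ∧ ∀ X ∈ Sp, (Q X).re ≤ -c := by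
    rcases Sp.eq_empty_or_nonempty with he | hne
    · exact ⟨1, one_pos, fun X hX => by rw [he] at hX; exact absurd hX (Set.notMem_empty _)⟩
    · obtain ⟨X0, hX0, hmax⟩ := hcomp.exists_isMaxOn hne hcont.continuousOn
      refine ⟨-(Q X0).re, ?_, fun X hX => ?_⟩
      · have : X0 ≠ 0 := by
          rintro rfl
          rw [hSp, Set.mem_ofPred_eq] at hX0
          simp at hX0
        linarith only [h, this, h X0 this]
      · have := hmax hX
        simp only [Set.mem_ofPred_eq] at this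
        linarith only [this]
  obtain ⟨c, hc, hcb⟩ := key
  refine ⟨c, hc, fun X => ?_⟩
  by_cases hX : ∑ i, X i ^ 2 = 0
  · have h0 : X = 0 := by
      funext i
      have := (Finset.sum_eq_zero_iff_of_nonneg (fun j _ => sq_nonneg (X j))).mp hX i
        (Finset.mem_univ i)
      simpa using this
    rw [hX, h0]
    have h1 := hQ.homog 0 (0 : ι → ℝ)
    have h2 : (fun i => (0 : ℝ) * (0 : ι → ℝ) i) = (0 : ι → ℝ) := by funext i; simp
    rw [h2] at h1
    rw [h1]
    simp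
  · have hp : 0 < ∑ i, X i ^ 2 := lt_of_le_of_ne (Finset.sum_nonneg fun i _ => sq_nonneg _)
      (Ne.symm hX)
    set t : ℝ := √(∑ i, X i ^ 2) with ht
    have ht0 : 0 < t := Real.sqrt_pos.mpr hp
    have ht2 : t ^ 2 = ∑ i, X i ^ 2 := Real.sq_sqrt hp.le
    have h1 : X = fun i => t * (X i / t) := by
      funext i
      field_simp
    have h2 : (fun i => X i / t) ∈ Sp := by
      rw [hSp, Set.mem_ofPred_eq]
      have : ∑ i, (X i / t) ^ 2 = (∑ i, X i ^ 2) / t ^ 2 := by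
        rw [Finset.sum_div]
        exact Finset.sum_congr rfl fun i _ => by rw [div_pow]
      rw [this, ht2, div_self hX]
    have h3 := hQ.homog t (fun i => X i / t)
    rw [← h1] at h3
    rw [h3, ← Complex.ofReal_pow, Complex.re_ofReal_mul, ht2]
    nlinarith only [hp, hcb, h2, hcb _ h2]

end quad

variable {D Z K : Type} [Fintype D] [Fintype Z] [Fintype K]

/-- the integrand at complex points -/
noncomputable def Dat.H (S : Dat D Z K) (n : ℕ) (z : D ⊕ Z → ℂ) : ℂ :=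
  (∏ v, Ec n (S.b v) (z (.inr v))) * S.G n z

omit [Fintype K] in
theorem Dat.form_add' (S : Dat D Z K) (k : K) (z y : D ⊕ Z → ℂ) :
    S.form k (fun i => z i + y i) = S.form k z + ∑ i, S.A k i * y i := by
  unfold Dat.form
  rw [add_assoc, ← Finset.sum_add_distrib]
  congr 1
  exact Finset.sum_congr rfl fun i _ => by ring

/-- the linear part of the increment of `quad` -/
noncomputable def Dat.dq (S : Dat D Z K) (z : D ⊕ Z → ℂ) (i : D ⊕ Z) : ℂ :=
  ∑ j, (S.q i j + S.q j i) * z j + S.r i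

omit [Fintype K] in
theorem Dat.quad_add (S : Dat D Z K) (z y : D ⊕ Z → ℂ) :
    S.quad (fun i => z i + y i) = S.quad z + ∑ i, S.dq z i * y i + ∑ i, ∑ j, S.q i j * y i * y j := by
  unfold Dat.quad Dat.dq
  have h1 : ∑ i, ∑ j, S.q i j * (z i + y i) * (z j + y j) = ∑ i, ∑ j, S.q i j * z i * z j +
      (∑ i, ∑ j, S.q i j * z i * y j + ∑ i, ∑ j, S.q i j * y i * z j) +
      ∑ i, ∑ j, S.q i j * y i * y j := by
    simp only [← Finset.sum_add_distrib]
    exact Finset.sum_congr rfl fun i _ => Finset.sum_congr rfl fun j _ => by ring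
  have h2 : ∑ i, ∑ j, S.q i j * z i * y j = ∑ i, ∑ j, S.q j i * z j * y i := Finset.sum_comm
  have h3 : ∑ i, (∑ j, (S.q i j + S.q j i) * z j + S.r i) * y i =
      (∑ i, ∑ j, S.q j i * z j * y i + ∑ i, ∑ j, S.q i j * y i * z j) + ∑ i, S.r i * y i := by
    simp only [← Finset.sum_add_distrib]
    refine Finset.sum_congr rfl fun i _ => ?_
    rw [add_mul, Finset.sum_mul]
    congr 1
    exact Finset.sum_congr rfl fun j _ => by ring
  have h4 : ∑ i, S.r i * (z i + y i) = ∑ i, S.r i * z i + ∑ i, S.r i * y i := by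
    rw [← Finset.sum_add_distrib]
    exact Finset.sum_congr rfl fun i _ => by ring
  rw [h1, h2, h3, h4]
  ring

theorem Dat.sum_dT (S : Dat D Z K) (z y : D ⊕ Z → ℂ) :
    ∑ i, S.dT z i * y i = ∑ i, S.dq z i * y i +
      ∑ v, 2 * Real.pi * Complex.I * (S.b v * z (.inr v) + 1) * y (.inr v) +
      ∑ k, ph (S.form k z) * ∑ i, S.A k i * y i := by
  have h1 : ∑ i, Sum.elim (fun _ : D => (0 : ℂ))
      (fun v : Z => 2 * Real.pi * Complex.I * (S.b v * z (.inr v) + 1)) i * y i =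
      ∑ v, 2 * Real.pi * Complex.I * (S.b v * z (.inr v) + 1) * y (.inr v) := by
    rw [Fintype.sum_sum_type]
    simp
  have h2 : ∑ i, (∑ k, S.A k i * ph (S.form k z)) * y i =
      ∑ k, ph (S.form k z) * ∑ i, S.A k i * y i := by
    simp_rw [Finset.sum_mul, Finset.mul_sum]
    rw [Finset.sum_comm]
    exact Finset.sum_congr rfl fun k _ => Finset.sum_congr rfl fun i _ => by ring
  rw [← h1, ← h2, ← Finset.sum_add_distrib, ← Finset.sum_add_distrib]
  refine Finset.sum_congr rfl fun i _ => ?_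
  unfold Dat.dT Dat.dq
  ring

theorem Dat.T_eq (S : Dat D Z K) (z : D ⊕ Z → ℂ) :
    S.T z = S.quad z + ∑ v, wq (S.b v) (z (.inr v)) + ∑ k, Fh (S.form k z) := rfl

/-- the remainder of the second order expansion of `Fh` -/
noncomputable def R2 (u V : ℂ) : ℂ := Fh (u + V) - Fh u - ph u * V - ph' u * V ^ 2 / 2

/-- expansion of the potential along a real direction at a critical point -/
theorem Dat.T_add (S : Dat D Z K) {z : D ⊕ Z → ℂ} (hcr : ∀ i, S.dT z i = 0) (y : D ⊕ Z → ℝ) :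
    S.T (fun i => z i + y i) = S.T z + S.Q2 z y +
      ∑ k, R2 (S.form k z) (∑ i, S.A k i * (y i : ℂ)) := by
  have h0 := S.sum_dT z (fun i => (y i : ℂ))
  have h00 : ∑ i, S.dT z i * (y i : ℂ) = 0 := Finset.sum_eq_zero fun i _ => by rw [hcr i, zero_mul]
  rw [h00] at h0
  rw [S.T_eq, S.T_eq, S.quad_add z fun i => (y i : ℂ)]
  have h1 : ∑ v, wq (S.b v) (z (.inr v) + (y (.inr v) : ℂ)) = ∑ v, wq (S.b v) (z (.inr v)) +
      ∑ v, 2 * Real.pi * Complex.I * (S.b v * z (.inr v) + 1) * (y (.inr v) : ℂ) +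
      ∑ v, Real.pi * Complex.I * S.b v * (y (.inr v) : ℂ) ^ 2 := by
    simp only [← Finset.sum_add_distrib]
    exact Finset.sum_congr rfl fun v _ => wq_add _ _ _
  have h2 : ∑ k, Fh (S.form k fun i => z i + (y i : ℂ)) = ∑ k, Fh (S.form k z) +
      ∑ k, ph (S.form k z) * ∑ i, S.A k i * (y i : ℂ) +
      ∑ k, ph' (S.form k z) / 2 * (∑ i, S.A k i * (y i : ℂ)) ^ 2 +
      ∑ k, R2 (S.form k z) (∑ i, S.A k i * (y i : ℂ)) := by
    simp only [← Finset.sum_add_distrib]
    refine Finset.sum_congr rfl fun k _ => ?_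
    rw [S.form_add' k z fun i => (y i : ℂ)]
    unfold R2
    ring
  rw [h1, h2]
  unfold Dat.Q2
  linear_combination -h0

theorem Dat.isQ_Q2' [DecidableEq D] [DecidableEq Z] (S : Dat D Z K) (z : D ⊕ Z → ℂ) :
    IsQ (S.Q2 z) := by
  unfold Dat.Q2
  refine IsQ.add (IsQ.add ?_ ?_) ?_
  · refine IsQ.sum _ fun i _ => IsQ.sum _ fun j _ => ?_
    have := (isQ_mul (ι := D ⊕ Z) i j).const_mul (S.q i j)
    refine cast (congrArg IsQ (funext fun X => ?_)) this
    ring
  · exact IsQ.sum _ fun v _ => (IsQ.apply_sq (ι := D ⊕ Z) (.inr v)).const_mul _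
  · exact IsQ.sum _ fun k _ => (IsQ.sq fun i => (S.A k i : ℂ)).const_mul _

/-- the interior critical points -/
structure Dat.Crit (S : Dat D Z K) (zs : D ⊕ Z → ℂ) : Prop where
  inner : ∀ k, 0 < (S.form k zs).re ∧ (S.form k zs).re < 1
  pos : ∀ v, 0 < (zs (.inr v)).im
  crit : ∀ i, S.dT zs i = 0
  hess : ∀ X : D ⊕ Z → ℝ, X ≠ 0 → (S.Q2 zs X).re < 0

theorem sin_two_pi_ne {ζ : ℂ} (h : 0 < ζ.im) : Complex.sin (2 * Real.pi * ζ) ≠ 0 := by
  intro h0
  obtain ⟨k, hk⟩ := Complex.sin_eq_zero_iff.mp h0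
  have h1 := congrArg Complex.im hk
  have h2 : (2 * (Real.pi : ℂ) * ζ).im = 2 * Real.pi * ζ.im := by
    rw [show (2 * (Real.pi : ℂ) * ζ) = ((2 * Real.pi : ℝ) : ℂ) * ζ by push_cast; ring,
      Complex.im_ofReal_mul]
  have h3 : ((k : ℂ) * (Real.pi : ℂ)).im = 0 := by
    rw [show ((k : ℂ) * (Real.pi : ℂ)) = ((k * Real.pi : ℝ) : ℂ) by push_cast; ring,
      Complex.ofReal_im]
  rw [h2, h3] at h1
  have : 0 < 2 * Real.pi * ζ.im := by positivity
  linarith only [h1, this]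

/-- **Local limit of the integrand.** -/
theorem Dat.H_lim (hSE : SEok) (S : Dat D Z K) {zs : D ⊕ Z → ℂ} (h : S.Crit zs) :
    ∃ A : ℂ, A ≠ 0 ∧ ∀ X : D ⊕ Z → ℝ, Tendsto (fun s : ℕ =>
      Complex.exp (-((nn s : ℂ) * S.T zs)) *
        S.H (2 * s + 1) (fun i => zs i + ((X i / √(nn s) : ℝ) : ℂ))) atTop
      (𝓝 (A * Complex.exp (S.Q2 zs X))) := by
  refine ⟨Complex.exp (∑ i, S.e i * zs i) * (∏ v, (-4 * Complex.sin (2 * Real.pi * zs (.inr v)))) *
    ∏ k, Complex.exp (S.c k * ph (S.form k zs)), ?_, fun X => ?_⟩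
  · refine mul_ne_zero (mul_ne_zero (Complex.exp_ne_zero _) ?_) ?_
    · exact Finset.prod_ne_zero_iff.mpr fun v _ => mul_ne_zero (by norm_num)
        (sin_two_pi_ne (h.pos v))
    · exact Finset.prod_ne_zero_iff.mpr fun k _ => Complex.exp_ne_zero _
  · have hodd : Tendsto (fun s : ℕ => 2 * s + 1) atTop atTop :=
      tendsto_atTop_mono (fun s => by simp only [id]; omega) tendsto_id
    -- the amplitude
    have t1 : Tendsto (fun s => Complex.exp (∑ i, S.e i * (zs i + (X i : ℂ) / √(nn s)))) atTop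
        (𝓝 (Complex.exp (∑ i, S.e i * zs i))) := by
      refine (Complex.continuous_exp.tendsto _).comp ?_
      refine tendsto_finsetSum _ fun i _ => ?_
      have := (tendsto_div_sqrt_nn (X i)).const_add (zs i)
      rw [add_zero] at this
      exact this.const_mul _
    have t2 := tendsto_finsetProd (Finset.univ : Finset Z)
      fun v _ => (Ec_lim (b := S.b v) (h.pos v) (X (.inr v) : ℂ)).comp hodd
    have t3 := tendsto_finsetProd (Finset.univ : Finset K)
      fun k _ => SE_loc hSE (u := S.form k zs) (h.inner k) (S.c k) (∑ i, S.A k i * (X i : ℂ))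
    have t4 := ((t1.mul_const (Complex.exp (∑ i, ∑ j, S.q i j * X i * X j))).mul t2).mul t3
    have e1 : Complex.exp (∑ i, S.e i * zs i) * Complex.exp (∑ i, ∑ j, S.q i j * X i * X j) *
        (∏ v, (-4 * Complex.sin (2 * Real.pi * zs (.inr v)) *
          Complex.exp (Real.pi * Complex.I * S.b v * (X (.inr v) : ℂ) ^ 2))) *
        (∏ k, Complex.exp (ph' (S.form k zs) / 2 * (∑ i, S.A k i * (X i : ℂ)) ^ 2 +
          S.c k * ph (S.form k zs))) =
        Complex.exp (∑ i, S.e i * zs i) *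
          (∏ v, (-4 * Complex.sin (2 * Real.pi * zs (.inr v)))) *
          (∏ k, Complex.exp (S.c k * ph (S.form k zs))) * Complex.exp (S.Q2 zs X) := by
      unfold Dat.Q2
      rw [Finset.prod_mul_distrib, ← Complex.exp_sum, ← Complex.exp_sum, ← Complex.exp_sum,
        Finset.sum_add_distrib, Complex.exp_add, Complex.exp_add, Complex.exp_add]
      ring
    rw [e1] at t4
    refine t4.congr fun s => ?_
    have hcast : ((2 * s + 1 : ℕ) : ℝ) = nn s := rfl
    have hcastc : ((2 * s + 1 : ℕ) : ℂ) = ((nn s : ℝ) : ℂ) := by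
      rw [← hcast, Complex.ofReal_natCast]
    simp only [Function.comp, hcast, hcastc]
    set y : D ⊕ Z → ℂ := fun i => (X i : ℂ) / √(nn s) with hy
    have ey : (fun i => zs i + ((X i / √(nn s) : ℝ) : ℂ)) = fun i => zs i + y i := by
      funext i
      rw [hy, Complex.ofReal_div]
    rw [ey]
    unfold Dat.H Dat.G
    simp only [hcast, hcastc]
    have hf : ∀ k, S.form k (fun i => zs i + y i) =
        S.form k zs + (∑ i, S.A k i * (X i : ℂ)) / √(nn s) := by
      intro k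
      rw [S.form_add', Finset.sum_div]
      congr 1
      exact Finset.sum_congr rfl fun i _ => by rw [hy]; ring
    simp only [hf]
    rw [Finset.prod_mul_distrib, Finset.prod_mul_distrib, ← Complex.exp_sum, ← Complex.exp_sum]
    have hy2 : ∀ i, y i = (X i : ℂ) / √(nn s) := fun i => rfl
    simp only [hy2]
    have key : -((nn s : ℂ) * S.T zs) + (nn s : ℂ) * S.quad (fun i => zs i + (X i : ℂ) / √(nn s)) =
        ∑ i, ∑ j, S.q i j * X i * X j +
        ∑ v, (-((nn s : ℂ) * (Real.pi * Complex.I * S.b v * zs (.inr v) ^ 2 +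
          2 * Real.pi * Complex.I * zs (.inr v)) + (√(nn s) : ℝ) *
          (2 * Real.pi * Complex.I * (S.b v * zs (.inr v) + 1)) * X (.inr v))) +
        ∑ k, (-((nn s : ℂ) * Fh (S.form k zs)) - √(nn s) *
          (ph (S.form k zs) * ∑ i, S.A k i * (X i : ℂ))) := by
      have h0 := S.sum_dT zs (fun i => (X i : ℂ))
      have h00 : ∑ i, S.dT zs i * (X i : ℂ) = 0 :=
        Finset.sum_eq_zero fun i _ => by rw [h.crit i, zero_mul]
      rw [h00] at h0
      have h1 := S.quad_add zs fun i => (X i : ℂ) / √(nn s)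
      rw [h1, S.T_eq]
      have hq0 := sqrt_nn_ne s
      have hq2 := sqrt_nn_sq s
      have h2 : (nn s : ℂ) * ∑ i, S.dq zs i * ((X i : ℂ) / √(nn s)) =
          √(nn s) * ∑ i, S.dq zs i * (X i : ℂ) := by
        rw [Finset.mul_sum, Finset.mul_sum]
        refine Finset.sum_congr rfl fun i _ => ?_
        rw [← hq2]
        field_simp
      have h3 : (nn s : ℂ) * ∑ i, ∑ j, S.q i j * ((X i : ℂ) / √(nn s)) * ((X j : ℂ) / √(nn s)) =
          ∑ i, ∑ j, S.q i j * X i * X j := by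
        rw [Finset.mul_sum]
        refine Finset.sum_congr rfl fun i _ => ?_
        rw [Finset.mul_sum]
        refine Finset.sum_congr rfl fun j _ => ?_
        rw [← hq2]
        field_simp
      have h4 : ∑ v, (-((nn s : ℂ) * (Real.pi * Complex.I * S.b v * zs (.inr v) ^ 2 +
          2 * Real.pi * Complex.I * zs (.inr v)) + (√(nn s) : ℝ) *
          (2 * Real.pi * Complex.I * (S.b v * zs (.inr v) + 1)) * X (.inr v))) =
          -((nn s : ℂ) * ∑ v, wq (S.b v) (zs (.inr v))) - √(nn s) *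
          ∑ v, 2 * Real.pi * Complex.I * (S.b v * zs (.inr v) + 1) * (X (.inr v) : ℂ) := by
        rw [Finset.mul_sum, Finset.mul_sum, ← Finset.sum_neg_distrib, ← Finset.sum_sub_distrib]
        exact Finset.sum_congr rfl fun v _ => by unfold wq; ring
      have h5 : ∑ k, (-((nn s : ℂ) * Fh (S.form k zs)) - √(nn s) *
          (ph (S.form k zs) * ∑ i, S.A k i * (X i : ℂ))) =
          -((nn s : ℂ) * ∑ k, Fh (S.form k zs)) - √(nn s) *
          ∑ k, ph (S.form k zs) * ∑ i, S.A k i * (X i : ℂ) := by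
        rw [Finset.mul_sum, Finset.mul_sum, ← Finset.sum_neg_distrib, ← Finset.sum_sub_distrib]
      rw [h4, h5]
      linear_combination h2 + h3 - ((√(nn s) : ℝ) : ℂ) * h0
    have key2 : Complex.exp (-((nn s : ℂ) * S.T zs)) *
        Complex.exp ((nn s : ℂ) * S.quad (fun i => zs i + (X i : ℂ) / √(nn s))) =
        Complex.exp (∑ i, ∑ j, S.q i j * X i * X j) *
        Complex.exp (∑ v, (-((nn s : ℂ) * (Real.pi * Complex.I * S.b v * zs (.inr v) ^ 2 +
          2 * Real.pi * Complex.I * zs (.inr v)) + (√(nn s) : ℝ) *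
          (2 * Real.pi * Complex.I * (S.b v * zs (.inr v) + 1)) * X (.inr v)))) *
        Complex.exp (∑ k, (-((nn s : ℂ) * Fh (S.form k zs)) - √(nn s) *
          (ph (S.form k zs) * ∑ i, S.A k i * (X i : ℂ)))) := by
      rw [← Complex.exp_add, ← Complex.exp_add, ← Complex.exp_add, key]
    rw [Complex.exp_add ((nn s : ℂ) * _)]
    linear_combination (-(Complex.exp (∑ i, S.e i * (zs i + (X i : ℂ) / √(nn s))) *
      (∏ v, Ec (2 * s + 1) (S.b v) (zs (.inr v) + (X (.inr v) : ℂ) / √(nn s))) *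
      ∏ k, SE (2 * s + 1) (S.form k zs + (∑ i, S.A k i * (X i : ℂ)) / √(nn s) +
        ((S.c k / nn s : ℝ) : ℂ)))) * key2

/-- **Sharp bound of the integrand near the saddle point.** -/
theorem Dat.H_near (hSE : SEok) (S : Dat D Z K) {zs : D ⊕ Z → ℂ} (h : S.Crit zs) :
    ∃ C c r : ℝ, 0 < C ∧ 0 < c ∧ 0 < r ∧ ∀ᶠ s : ℕ in atTop, ∀ y : D ⊕ Z → ℝ, ∑ i, y i ^ 2 ≤ r →
      ‖S.H (2 * s + 1) (fun i => zs i + (y i : ℂ))‖ ≤
        C * Real.exp (nn s * ((S.T zs).re - c * ∑ i, y i ^ 2)) := by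
  classical
  obtain ⟨c0, hc0, hQ⟩ := IsQ_neg (S.isQ_Q2' zs) h.hess
  set a : K → ℝ := fun k => ∑ i, (S.A k i : ℝ) ^ 2 with ha
  have ha0 : ∀ k, 0 ≤ a k := fun k => Finset.sum_nonneg fun i _ => sq_nonneg _
  have hsa : 0 ≤ ∑ k, a k := Finset.sum_nonneg fun k _ => ha0 k
  have hV : ∀ k (y : D ⊕ Z → ℝ), ‖∑ i, S.A k i * (y i : ℂ)‖ ^ 2 ≤ a k * ∑ i, y i ^ 2 := by
    intro k y
    have e : ∑ i, (S.A k i : ℂ) * (y i : ℂ) = ((∑ i, (S.A k i : ℝ) * y i : ℝ) : ℂ) := by
      push_cast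
      rfl
    rw [e, Complex.norm_real, Real.norm_eq_abs, sq_abs]
    exact Finset.sum_mul_sq_le_sq_mul_sq _ _ _
  have hε0 : 0 < c0 / (2 * (∑ k, a k + 1)) := by positivity
  choose δ hδ hT using fun k => Fh_taylor_loc (show S.form k zs ∈ VOL.strip from h.inner k) hε0
  choose C1 r1 hC1 hr1 _ hSEn using fun k => SE_near hSE
    (show S.form k zs ∈ VOL.strip from h.inner k) (S.c k)
  choose C2 hC2 hEc using fun v => Ec_near (h.pos v) (S.b v)
  obtain ⟨ρ, hρ1, hρ⟩ : ∃ ρ : ℝ, (∀ k, a k * ρ < min (δ k) (r1 k) ^ 2) ∧ 0 < ρ := by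
    have h1 : ∀ᶠ ρ in 𝓝[>] (0 : ℝ), ∀ k, a k * ρ < min (δ k) (r1 k) ^ 2 := by
      rw [eventually_all]
      intro k
      have h2 : Tendsto (fun ρ : ℝ => a k * ρ) (𝓝[>] 0) (𝓝 0) := by
        have : Tendsto (fun ρ : ℝ => a k * ρ) (𝓝 0) (𝓝 (a k * 0)) :=
          (continuous_const.mul continuous_id).tendsto 0
        rw [mul_zero] at this
        exact this.mono_left nhdsWithin_le_nhds
      exact h2.eventually_lt_const (by have := lt_min (hδ k) (hr1 k); positivity)
    exact (h1.and self_mem_nhdsWithin).exists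
  set E : ℝ := ∑ i, ‖S.e i‖ * (‖zs i‖ + (ρ + 1)) with hE
  refine ⟨(∏ v, C2 v) * (Real.exp E * ∏ k, C1 k), c0 / 2, ρ, ?_, by positivity, hρ, ?_⟩
  · exact mul_pos (Finset.prod_pos fun v _ => hC2 v)
      (mul_pos (Real.exp_pos _) (Finset.prod_pos fun k _ => hC1 k))
  filter_upwards [eventually_all.mpr hSEn] with s hs y hy
  have hn := nn_pos s
  have hcast : ((2 * s + 1 : ℕ) : ℝ) = nn s := rfl
  have hcastc : ((2 * s + 1 : ℕ) : ℂ) = ((nn s : ℝ) : ℂ) := by
    rw [← hcast, Complex.ofReal_natCast]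
  have hy0 : 0 ≤ ∑ i, y i ^ 2 := Finset.sum_nonneg fun i _ => sq_nonneg _
  have hVk : ∀ k, ‖∑ i, S.A k i * (y i : ℂ)‖ < min (δ k) (r1 k) := by
    intro k
    have h1 := (hV k y).trans (mul_le_mul_of_nonneg_left hy (ha0 k))
    exact lt_of_pow_lt_pow_left₀ 2 (lt_min (hδ k) (hr1 k)).le (h1.trans_lt (hρ1 k))
  have hyi : ∀ i, ‖(y i : ℂ)‖ ≤ ρ + 1 := by
    intro i
    rw [Complex.norm_real, Real.norm_eq_abs]
    have h1 : y i ^ 2 ≤ ∑ j, y j ^ 2 :=
      Finset.single_le_sum (f := fun j => y j ^ 2) (fun j _ => sq_nonneg _) (Finset.mem_univ i)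
    have h2 := sq_abs (y i)
    nlinarith only [hρ, hy, h1, h2, sq_nonneg (|y i| - 1), abs_nonneg (y i)]
  -- the potential
  have hTb : (S.T (fun i => zs i + (y i : ℂ))).re ≤ (S.T zs).re - c0 / 2 * ∑ i, y i ^ 2 := by
    rw [S.T_add h.crit y, Complex.add_re, Complex.add_re, Complex.re_sum]
    have h1 : ∑ k, (R2 (S.form k zs) (∑ i, S.A k i * (y i : ℂ))).re ≤
        ∑ k, c0 / (2 * (∑ k, a k + 1)) * (a k * ∑ i, y i ^ 2) := by
      refine Finset.sum_le_sum fun k _ => ?_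
      refine (Complex.re_le_norm _).trans ((hT k _ ((hVk k).trans_le (min_le_left _ _))).trans ?_)
      exact mul_le_mul_of_nonneg_left (hV k y) hε0.le
    have h2 : ∑ k, c0 / (2 * (∑ k, a k + 1)) * (a k * ∑ i, y i ^ 2) ≤ c0 / 2 * ∑ i, y i ^ 2 := by
      rw [← Finset.mul_sum, ← Finset.sum_mul, ← mul_assoc]
      apply mul_le_mul_of_nonneg_right _ hy0
      rw [div_mul_eq_mul_div, div_le_div_iff₀ (by positivity) (by norm_num)]
      nlinarith only [hc0]
    have h3 := hQ y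
    linarith only [h1, h2, h3]
  -- the amplitude
  have hEb : (∑ i, S.e i * (zs i + (y i : ℂ))).re ≤ E := by
    refine (Complex.re_le_norm _).trans ((norm_sum_le _ _).trans ?_)
    refine Finset.sum_le_sum fun i _ => ?_
    rw [norm_mul]
    exact mul_le_mul_of_nonneg_left ((norm_add_le _ _).trans (by linarith only [hyi, hyi i])) (norm_nonneg _)
  unfold Dat.H Dat.G
  rw [norm_mul, norm_mul, norm_prod, norm_prod, Complex.norm_exp]
  have b1 : ∏ v, ‖Ec (2 * s + 1) (S.b v) (zs (.inr v) + (y (.inr v) : ℂ))‖ ≤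
      ∏ v, C2 v * Real.exp (nn s * (wq (S.b v) (zs (.inr v) + (y (.inr v) : ℂ))).re) :=
    Finset.prod_le_prod (fun v _ => norm_nonneg _) fun v _ => hEc v s (y (.inr v))
  have b2 : ∏ k, ‖SE (2 * s + 1) (S.form k (fun i => zs i + (y i : ℂ)) +
      ((S.c k / ((2 * s + 1 : ℕ) : ℝ) : ℝ) : ℂ))‖ ≤
      ∏ k, C1 k * Real.exp (nn s * (Fh (S.form k (fun i => zs i + (y i : ℂ)))).re) := by
    refine Finset.prod_le_prod (fun k _ => norm_nonneg _) fun k _ => ?_
    rw [S.form_add' k zs fun i => (y i : ℂ), hcast]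
    exact hs k _ ((hVk k).le.trans (min_le_right _ _))
  have b3 : (((2 * s + 1 : ℕ) : ℂ) * S.quad (fun i => zs i + (y i : ℂ)) +
      ∑ i, S.e i * (zs i + (y i : ℂ))).re ≤
      nn s * (S.quad (fun i => zs i + (y i : ℂ))).re + E := by
    rw [Complex.add_re, hcastc, Complex.re_ofReal_mul]
    linarith only [hEb]
  refine (mul_le_mul b1 (mul_le_mul (Real.exp_le_exp.mpr b3) b2
    (Finset.prod_nonneg fun k _ => norm_nonneg _) (Real.exp_pos _).le)
    (by positivity) (Finset.prod_nonneg fun v _ => by have := hC2 v; positivity)).trans ?_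
  have e1 : (∏ v, C2 v * Real.exp (nn s * (wq (S.b v) (zs (.inr v) + (y (.inr v) : ℂ))).re)) *
      (Real.exp (nn s * (S.quad (fun i => zs i + (y i : ℂ))).re + E) *
      ∏ k, C1 k * Real.exp (nn s * (Fh (S.form k (fun i => zs i + (y i : ℂ)))).re)) =
      (∏ v, C2 v) * (Real.exp E * ∏ k, C1 k) *
        Real.exp (nn s * (S.T (fun i => zs i + (y i : ℂ))).re) := by
    rw [Finset.prod_mul_distrib, Finset.prod_mul_distrib, ← Real.exp_sum, ← Real.exp_sum,
      Real.exp_add, S.T_eq, Complex.add_re, Complex.add_re, Complex.re_sum, Complex.re_sum,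
      mul_add, mul_add, Real.exp_add, Real.exp_add, Finset.mul_sum, Finset.mul_sum]
    ring
  rw [e1]
  have hCpos : 0 < (∏ v, C2 v) * (Real.exp E * ∏ k, C1 k) :=
    mul_pos (Finset.prod_pos fun v _ => hC2 v)
      (mul_pos (Real.exp_pos _) (Finset.prod_pos fun k _ => hC1 k))
  exact mul_le_mul_of_nonneg_left (Real.exp_le_exp.mpr (mul_le_mul_of_nonneg_left hTb hn.le))
    hCpos.le

/-- **Laplace asymptotics of the main integral** (paths and boxes depending on `n`). -/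
theorem Dat.lap (hSE : SEok) (S : Dat D Z K) {zs : D ⊕ Z → ℂ} (h : S.Crit zs)
    {z d : ℕ → D ⊕ Z → ℝ → ℂ} (hG : ∀ n, Measurable (S.G n)) (hmz : ∀ s i, Measurable (z s i))
    (hmd : ∀ s i, Measurable (d s i)) {rp : ℝ} (hrp : 0 < rp)
    (hst : ∀ᶠ s in atTop, ∀ i, ∀ x : ℝ, |x - (zs i).re| < rp →
      z s i x = zs i + ((x - (zs i).re : ℝ) : ℂ) ∧ d s i x = 1)
    {B : ℕ → Set (D ⊕ Z → ℝ)} (hB : ∀ s, MeasurableSet (B s)) {R : ℝ}
    (hR : ∀ s, ∀ x ∈ B s, ∀ i, |x i| ≤ R)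
    {U : Set (D ⊕ Z → ℝ)} (hU : U ∈ 𝓝 fun i => (zs i).re) (hUB : ∀ᶠ s in atTop, U ⊆ B s)
    (far : ∀ r : ℝ, 0 < r → ∃ C κ δ : ℝ, 0 < δ ∧ ∀ᶠ s in atTop, ∀ x ∈ B s,
      r ≤ ∑ i, (x i - (zs i).re) ^ 2 →
      ‖S.H (2 * s + 1) (fun i => z s i (x i)) * ∏ i, d s i (x i)‖ ≤
        C * nn s ^ κ * Real.exp (nn s * ((S.T zs).re - δ))) :
    ∃ L : ℂ, L ≠ 0 ∧ Tendsto (fun s => ((nn s ^ ((Fintype.card (D ⊕ Z) : ℝ) / 2) : ℝ) : ℂ) *
      Complex.exp (-((nn s : ℂ) * S.T zs)) *
      ∫ x in B s, S.H (2 * s + 1) (fun i => z s i (x i)) * ∏ i, d s i (x i)) atTop (𝓝 L) := by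
  classical
  set x0 : D ⊕ Z → ℝ := fun i => (zs i).re with hx0
  obtain ⟨C, c, r, hC, hc0, hr, hnear⟩ := S.H_near hSE h
  obtain ⟨A, hA, hlim⟩ := S.H_lim hSE h
  set f : ℕ → (D ⊕ Z → ℝ) → ℂ := fun s x =>
    S.H (2 * s + 1) (fun i => z s i (x i)) * ∏ i, d s i (x i) with hf
  -- a radius
  obtain ⟨ρ, hρ1, hρ⟩ : ∃ ρ : ℝ, (ρ ≤ r ∧ ρ ≤ rp ^ 2) ∧ 0 < ρ :=
    ⟨min r (rp ^ 2), ⟨min_le_left _ _, min_le_right _ _⟩, lt_min hr (by positivity)⟩
  have hstr : ∀ᶠ s in atTop, ∀ x : D ⊕ Z → ℝ, sq x0 x < ρ → ∀ i,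
      z s i (x i) = zs i + ((x i - x0 i : ℝ) : ℂ) ∧ d s i (x i) = 1 := by
    filter_upwards [hst] with s hs x hx i
    have h1 : (x i - x0 i) ^ 2 ≤ sq x0 x :=
      Finset.single_le_sum (f := fun j => (x j - x0 j) ^ 2) (fun j _ => sq_nonneg _)
        (Finset.mem_univ i)
    exact hs i (x i) (abs_lt_of_sq_lt_sq ((h1.trans_lt hx).trans_le hρ1.2) hrp.le)
  -- the integrand
  set F : ℕ → (D ⊕ Z → ℝ) → ℂ := fun s => (B s).indicator (f s) with hF
  have hFs : ∀ s, F s = (B s).indicator (f s) := fun _ => rfl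
  have hm : ∀ s, Measurable (F s) := by
    intro s
    refine Measurable.indicator ?_ (hB s)
    have h1 : Measurable fun x : D ⊕ Z → ℝ => S.G (2 * s + 1) (fun i => z s i (x i)) :=
      (hG _).comp (measurable_pi_lambda _ fun i => (hmz s i).comp (measurable_pi_apply _))
    have h2 : Measurable fun x : D ⊕ Z → ℝ =>
        ∏ v, Ec (2 * s + 1) (S.b v) (z s (.inr v) (x (.inr v))) :=
      Finset.measurable_prod _ fun v _ =>
        (measurable_Ec _ _).comp ((hmz s (.inr v)).comp (measurable_pi_apply _))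
    have h3 : Measurable fun x : D ⊕ Z → ℝ => ∏ i, d s i (x i) :=
      Finset.measurable_prod _ fun i _ => (hmd s i).comp (measurable_pi_apply _)
    exact (h2.mul h1).mul h3
  -- the domain
  set R' : ℝ := |R| + ∑ i, |x0 i| + 1 with hR'
  have hxR : ∀ i, |x0 i| ≤ ∑ j, |x0 j| := fun i =>
    Finset.single_le_sum (f := fun j => |x0 j|) (fun j _ => abs_nonneg _) (Finset.mem_univ i)
  have hR'0 : 0 ≤ R' := by
    have : 0 ≤ ∑ j, |x0 j| := Finset.sum_nonneg fun j _ => abs_nonneg _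
    positivity
  set S0 : Set (D ⊕ Z → ℝ) := Set.univ.pi fun _ => Set.Icc (-R') R' with hS0
  have hS0m : MeasurableSet S0 := MeasurableSet.univ_pi fun _ => measurableSet_Icc
  have hS0n : S0 ∈ 𝓝 x0 := by
    refine set_pi_mem_nhds Set.finite_univ fun i _ => ?_
    have h1 := abs_le.mp (hxR i)
    have h2 := abs_nonneg R
    exact Icc_mem_nhds (by rw [hR']; linarith only [h1, h2, h1.1]) (by rw [hR']; linarith only [h1, h2, h1.2])
  have hBS : ∀ s, B s ⊆ S0 := by
    intro s x hx i _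
    have h1 := abs_le.mp ((hR s x hx i).trans (le_abs_self R))
    have h2 : 0 ≤ ∑ j, |x0 j| := Finset.sum_nonneg fun j _ => abs_nonneg _
    exact ⟨by rw [hR']; linarith only [h1, h2, h1.1], by rw [hR']; linarith only [h1, h2, h1.2]⟩
  have hSR : ∀ x ∈ S0, sq x0 x ≤ (Fintype.card (D ⊕ Z) : ℝ) * (2 * R') ^ 2 := by
    intro x hx
    unfold sq
    calc ∑ i, (x i - x0 i) ^ 2 ≤ ∑ _i : D ⊕ Z, (2 * R') ^ 2 := by
          refine Finset.sum_le_sum fun i _ => ?_
          have h1 := hx i (Set.mem_univ i)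
          have h2 := abs_le.mp ((hxR i).trans (show ∑ j, |x0 j| ≤ R' by
            rw [hR']; linarith only [abs_nonneg R]))
          exact sq_le_sq' (by linarith only [h2, h1, h1.1, h2.2]) (by linarith only [h2, h1, h1.2, h2.1])
      _ = (Fintype.card (D ⊕ Z) : ℝ) * (2 * R') ^ 2 := by
          rw [Finset.sum_const, nsmul_eq_mul, Finset.card_univ]
  obtain ⟨C', κ', δ', hδ', hfar⟩ := far ρ hρ
  have hcore := core_lim (ι := D ⊕ Z) (S := S0) (U := {x | sq x0 x < ρ}) hS0m hS0n hSR (F := F) hm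
    (κ := 0) (Ψ := S.T zs) ⟨C, c, hc0, by
      filter_upwards [hnear, hstr] with s hs hs1 x hx hxU
      rw [Real.rpow_zero, mul_one, hFs s]
      by_cases hxB : x ∈ B s
      · rw [Set.indicator_of_mem hxB]
        have h1 := hs1 x hxU
        have h2 : f s x = S.H (2 * s + 1) (fun i => zs i + ((x i - x0 i : ℝ) : ℂ)) := by
          rw [hf]
          simp only
          rw [Finset.prod_eq_one fun i _ => (h1 i).2, mul_one]
          congr 1
          funext i
          exact (h1 i).1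
        rw [h2]
        have h3 : ∑ i, (x i - x0 i) ^ 2 ≤ r := (le_of_lt hxU).trans hρ1.1
        exact hs (fun i => x i - x0 i) h3
      · rw [Set.indicator_of_notMem hxB, norm_zero]
        positivity⟩
    ⟨|C'|, κ', δ', hδ', by
      filter_upwards [hfar] with s hs x hx hxU
      have hn := nn_pos s
      rw [hFs s]
      by_cases hxB : x ∈ B s
      · rw [Set.indicator_of_mem hxB]
        refine (hs x hxB (not_lt.mp hxU)).trans ?_
        gcongr
        exact le_abs_self C'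
      · rw [Set.indicator_of_notMem hxB, norm_zero]
        positivity⟩
    hA (S.isQ_Q2' zs) (fun X => by
      rw [neg_zero]
      have h1 := hlim X
      refine h1.congr' ?_
      have h2 : Tendsto (fun s => fun i => x0 i + X i / √(nn s)) atTop (𝓝 x0) := by
        rw [tendsto_pi_nhds]
        intro i
        have h3 : Tendsto (fun s => X i / √(nn s)) atTop (𝓝 0) :=
          tendsto_sqrt_nn.const_div_atTop (X i)
        simpa using h3.const_add (x0 i)
      have h4 : {x | sq x0 x < ρ} ∈ 𝓝 x0 := by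
        have hcs : Continuous fun x : D ⊕ Z → ℝ => sq x0 x := by
          unfold sq
          fun_prop
        refine hcs.continuousAt.eventually_lt continuousAt_const ?_
        simp [sq, hρ]
      filter_upwards [h2.eventually_mem hU, h2.eventually_mem h4, hUB, hstr] with s hs hs2 hPs hs1
      rw [Real.rpow_zero, Complex.ofReal_one, one_mul, hFs s, Set.indicator_of_mem (hPs hs), hf]
      have h5 := hs1 _ hs2
      simp only
      rw [Finset.prod_eq_one fun i _ => (h5 i).2, mul_one]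
      congr 2
      funext i
      rw [(h5 i).1, add_sub_cancel_left])
  obtain ⟨L, hL, hLt⟩ := hcore
  refine ⟨L, hL, ?_⟩
  refine hLt.congr fun s => ?_
  rw [sub_zero, hFs s]
  congr 1
  rw [setIntegral_indicator (hB s), Set.inter_eq_self_of_subset_right (hBS s)]

end Pool.Agent.Work.MP_b30479_gtS.G2

end

section

/-!
# Asymptotics of the main integral
-/

namespace Pool.Agent.Work.MP_b30479_gtS.G2

open Finset VOL MeasureTheory Filter Topology

variable {D Z K : Type} [Fintype D] [Fintype Z] [Fintype K] [DecidableEq D]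

theorem seOk : SEok := fun _ hn _ hu => SE_eq_exp hn hu.1 hu.2

/-! ### paths of level `n` as functions of one parameter each -/

/-- the paths of level `n` -/
noncomputable def Par.zz (P : Par D) (zs : D ⊕ Z → ℂ) (n : ℕ) : D ⊕ Z → ℝ → ℂ :=
  Sum.elim (fun i x => P.ga n (zs (.inl i)).im i x) fun v x => LT.zt (zs (.inr v)).im x

/-- their derivatives -/
noncomputable def Par.dd (P : Par D) (zs : D ⊕ Z → ℂ) (n : ℕ) : D ⊕ Z → ℝ → ℂ :=
  Sum.elim (fun i x => 1 + (((zs (.inl i)).im * deriv (tr (ea n) (P.eb n i) (P.cl i) (P.cr i)) x : ℝ) : ℂ)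
    * Complex.I) fun v x => LT.dzt (zs (.inr v)).im x

/-- the box of the parameters -/
def Par.bb (P : Par D) (n : ℕ) : Set (D ⊕ Z → ℝ) :=
  Set.univ.pi (Sum.elim (fun i => Set.Icc (ea n) (P.eb n i)) fun _ => Set.Ioo (-(1 / 2)) (1 / 2))

theorem measurableSet_bb (P : Par D) (n : ℕ) : MeasurableSet (P.bb (Z := Z) n) := by
  refine MeasurableSet.univ_pi fun i => ?_
  rcases i with i | v
  · exact measurableSet_Icc
  · exact measurableSet_Ioo

theorem ea_eq {n : ℕ} : ea n = 1 / (2 * n) := by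
  unfold ea
  push_cast
  rw [zero_add, div_div]

theorem ea_pos {n : ℕ} (hn : 1 ≤ n) : 0 < ea n := by
  have : (0 : ℝ) < n := by exact_mod_cast hn
  rw [ea_eq]
  positivity

omit [Fintype D] [DecidableEq D] in
theorem eb_le (P : Par D) {n : ℕ} (hn : 2 ≤ n) (i : D) : P.eb n i ≤ 1 - 1 / n := by
  have hn0 : (0 : ℝ) < n := by
    have : 0 < n := by omega
    exact_mod_cast this
  have h1 : P.m n i ≤ n - 2 := min_le_right _ _
  have h2 : (P.m n i : ℝ) ≤ n - 2 := by
    have : (P.m n i : ℝ) ≤ ((n - 2 : ℕ) : ℝ) := by exact_mod_cast h1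
    rw [Nat.cast_sub hn] at this
    exact_mod_cast this
  unfold Par.eb
  rw [div_le_iff₀ hn0]
  have : (1 - 1 / (n : ℝ)) * n = n - 1 := by field_simp
  linarith only [h2, this]

omit [Fintype D] [DecidableEq D] in
theorem eb_ge (P : Par D) {n : ℕ} (hn : 8 ≤ n) {i : D} (hX : 0 < P.XM i ∧ P.XM i ≤ 1) :
    P.XM i - 3 / (2 * n) ≤ P.eb n i := by
  have hn8 : (8 : ℝ) ≤ n := by exact_mod_cast hn
  have hn0 : (0 : ℝ) < n := by linarith only [hn8]
  have hm2 : P.XM i * n - 2 ≤ (P.m n i : ℝ) := by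
    unfold Par.m
    rw [Nat.cast_min]
    apply le_min
    · have := Nat.lt_floor_add_one (P.XM i * n)
      linarith only [this]
    · rw [Nat.cast_sub (by omega)]
      push_cast
      nlinarith only [hX, hX.2]
  unfold Par.eb
  rw [le_div_iff₀ hn0]
  have : (P.XM i - 3 / (2 * n)) * n = P.XM i * n - 3 / 2 := by field_simp
  linarith only [hm2, this]

theorem th_le_one1 (σ : ℝ) : LT.th σ ≤ 1 := min_le_left _ _

theorem th_nonneg' {σ : ℝ} (h : |σ| ≤ 1 / 2) : 0 ≤ LT.th σ := by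
  unfold LT.th
  exact le_min zero_le_one (by linarith only [h])

omit [Fintype D] [Fintype Z] [DecidableEq D] in
theorem zz_im_le (P : Par D) (zs : D ⊕ Z → ℂ) (n : ℕ) {Y : ℝ} (hY : ∀ i, |(zs i).im| ≤ Y)
    {x : D ⊕ Z → ℝ} (hx : x ∈ P.bb n) (i : D ⊕ Z) : |(P.zz zs n i (x i)).im| ≤ Y := by
  rcases i with i | v
  · have h1 : (P.zz zs n (.inl i) (x (.inl i))).im =
        (zs (.inl i)).im * tr (ea n) (P.eb n i) (P.cl i) (P.cr i) (x (.inl i)) := pt_im _ _ _ _ _ _
    rw [h1, abs_mul, abs_of_nonneg (tr_nonneg _ _ _ _ _)]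
    exact (mul_le_of_le_one_right (abs_nonneg _) (tr_le_one _ _ _ _ _)).trans (hY _)
  · have h2 : x (.inr v) ∈ Set.Ioo (-(1 / 2) : ℝ) (1 / 2) := hx (.inr v) (Set.mem_univ _)
    have h3 : |x (.inr v)| ≤ 1 / 2 := abs_le.mpr ⟨h2.1.le, h2.2.le⟩
    have h1 : (P.zz zs n (.inr v) (x (.inr v))).im = (zs (.inr v)).im * LT.th (x (.inr v)) := by
      unfold Par.zz LT.zt
      simp
    rw [h1, abs_mul, abs_of_nonneg (th_nonneg' h3)]
    exact (mul_le_of_le_one_right (abs_nonneg _) (th_le_one1 _)).trans (hY _)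

omit [Fintype D] [Fintype Z] [DecidableEq D] in
theorem zz_re (P : Par D) (zs : D ⊕ Z → ℂ) (n : ℕ) (i : D ⊕ Z) (x : ℝ) :
    (P.zz zs n i x).re = x := by
  rcases i with i | v
  · exact pt_re _ _ _ _ _ _
  · unfold Par.zz LT.zt
    simp

omit [Fintype D] [Fintype Z] [DecidableEq D] in
theorem zz_inBox (P : Par D) (zs : D ⊕ Z → ℂ) {n : ℕ} (hn : 2 ≤ n) {x : D ⊕ Z → ℝ}
    (hx : x ∈ P.bb n) : InBox n fun i => P.zz zs n i (x i) := by
  refine ⟨fun i => ?_, fun i => ?_, fun v => ?_⟩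
  · rw [zz_re]
    have h1 : x (.inl i) ∈ Set.Icc (ea n) (P.eb n i) := hx (.inl i) (Set.mem_univ _)
    exact (ea_pos (by omega)).le.trans h1.1
  · rw [zz_re]
    have h1 : x (.inl i) ∈ Set.Icc (ea n) (P.eb n i) := hx (.inl i) (Set.mem_univ _)
    exact h1.2.trans (eb_le P hn i)
  · rw [zz_re]
    have h2 : x (.inr v) ∈ Set.Ioo (-(1 / 2) : ℝ) (1 / 2) := hx (.inr v) (Set.mem_univ _)
    exact abs_lt.mpr ⟨h2.1, h2.2⟩

theorem odd_nn (s : ℕ) : Odd (2 * s + 1) := ⟨s, rfl⟩

/-- the weighted integrand -/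
noncomputable def Dat.ff (S : Dat D Z K) (P : Par D) (zs : D ⊕ Z → ℂ) (n : ℕ) (x : D ⊕ Z → ℝ) : ℂ :=
  S.H n (fun i => P.zz zs n i (x i)) * ∏ i, P.dd zs n i (x i)

/-- growth of the integrand -/
theorem ff_growth {S : Dat D Z K} (hS : S.Ok) {P : Par D} (hcl : ∀ i, 0 < P.cl i)
    (hcr : ∀ i, 0 < P.cr i) {zs : D ⊕ Z → ℂ} (hz : ∀ v, 0 < (zs (.inr v)).im) :
    ∃ (C : ℝ) (k : ℕ), 0 ≤ C ∧ ∀ s : ℕ, 2 ≤ s → ∀ x ∈ P.bb (2 * s + 1),
      ‖S.ff P zs (2 * s + 1) x‖ ≤ C * (nn s) ^ k *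
        Real.exp (nn s * S.V fun i => P.zz zs (2 * s + 1) i (x i)) := by
  set Y : ℝ := ∑ i, |(zs i).im| with hY
  have hYi : ∀ i, |(zs i).im| ≤ Y := fun i =>
    Finset.single_le_sum (f := fun i => |(zs i).im|) (fun _ _ => abs_nonneg _) (Finset.mem_univ i)
  have hY0 : 0 ≤ Y := Finset.sum_nonneg fun _ _ => abs_nonneg _
  obtain ⟨C, k, hC, hG⟩ := G_growth hS hY0
  choose CE hCE hE using fun v => EE_growth (S.b v) (hz v)
  set L : D → ℝ := fun i => 1 + (|(zs (.inl i)).im| / P.cl i + |(zs (.inl i)).im| / P.cr i) with hL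
  have hL0 : ∀ i, 0 ≤ L i := fun i => by
    have := hcl i
    have := hcr i
    positivity
  refine ⟨(∏ v, CE v) * C * ∏ i, L i, k, ?_, fun s hs x hx => ?_⟩
  · exact mul_nonneg (mul_nonneg (Finset.prod_nonneg fun v _ => hCE v) hC.le)
      (Finset.prod_nonneg fun i _ => hL0 i)
  have hcast : ((2 * s + 1 : ℕ) : ℝ) = nn s := rfl
  set z : D ⊕ Z → ℂ := fun i => P.zz zs (2 * s + 1) i (x i) with hzdef
  have h1 := hG (2 * s + 1) z (by omega) (zz_inBox P zs (by omega) hx)
    (fun i => zz_im_le P zs _ hYi hx i)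
  rw [hcast] at h1
  -- the weights of the discrete variables
  have h2 : ∀ i : D, ‖P.dd zs (2 * s + 1) (.inl i) (x (.inl i))‖ ≤ L i := by
    intro i
    unfold Par.dd
    simp only [Sum.elim_inl]
    refine (norm_add_le _ _).trans ?_
    rw [norm_one, norm_mul, Complex.norm_I, mul_one, Complex.norm_real, Real.norm_eq_abs]
    have h3 := slope_le (a := ea (2 * s + 1)) (b := P.eb (2 * s + 1) i) (t := (zs (.inl i)).im)
      (L := |(zs (.inl i)).im| / P.cl i + |(zs (.inl i)).im| / P.cr i) (hcl i) (hcr i)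
      (by have := div_nonneg (abs_nonneg (zs (.inl i)).im) (hcr i).le; linarith only [this])
      (by have := div_nonneg (abs_nonneg (zs (.inl i)).im) (hcl i).le; linarith only [this]) (x (.inl i))
    have h4 : (VC.trap (ea (2 * s + 1)) (P.eb (2 * s + 1) i) (P.cl i) (P.cr i)) =
        tr (ea (2 * s + 1)) (P.eb (2 * s + 1) i) (P.cl i) (P.cr i) := by
      funext x
      rfl
    rw [h4] at h3
    rw [hL]
    linarith only [h3]
  -- the weights of the continuous variables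
  have h3 : ∀ v : Z, ‖LT.Ec (2 * s + 1) (S.b v) (z (.inr v)) *
      P.dd zs (2 * s + 1) (.inr v) (x (.inr v))‖ ≤ CE v * Real.exp (nn s *
      (Real.pi * Complex.I * S.b v * z (.inr v) ^ 2 + 2 * Real.pi * Complex.I * z (.inr v)).re) := by
    intro v
    have h4 : x (.inr v) ∈ Set.Ioo (-(1 / 2) : ℝ) (1 / 2) := hx (.inr v) (Set.mem_univ _)
    have h5 := hE v (2 * s + 1) (by omega) (odd_nn s) (x (.inr v))
      (abs_le.mpr ⟨h4.1.le, h4.2.le⟩)
    rw [hcast] at h5
    exact h5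
  have e1 : S.ff P zs (2 * s + 1) x = (∏ v, (LT.Ec (2 * s + 1) (S.b v) (z (.inr v)) *
      P.dd zs (2 * s + 1) (.inr v) (x (.inr v)))) * S.G (2 * s + 1) z *
      ∏ i : D, P.dd zs (2 * s + 1) (.inl i) (x (.inl i)) := by
    unfold Dat.ff Dat.H
    rw [Fintype.prod_sum_type, Finset.prod_mul_distrib]
    ring
  rw [e1, norm_mul, norm_mul, norm_prod, norm_prod]
  have b1 : ∏ v, ‖LT.Ec (2 * s + 1) (S.b v) (z (.inr v)) *
      P.dd zs (2 * s + 1) (.inr v) (x (.inr v))‖ ≤ ∏ v, (CE v * Real.exp (nn s *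
      (Real.pi * Complex.I * S.b v * z (.inr v) ^ 2 + 2 * Real.pi * Complex.I * z (.inr v)).re)) :=
    Finset.prod_le_prod (fun v _ => norm_nonneg _) fun v _ => h3 v
  have b2 : ∏ i : D, ‖P.dd zs (2 * s + 1) (.inl i) (x (.inl i))‖ ≤ ∏ i, L i :=
    Finset.prod_le_prod (fun v _ => norm_nonneg _) fun v _ => h2 v
  have hp1 : 0 ≤ ∏ v, (CE v * Real.exp (nn s *
      (Real.pi * Complex.I * S.b v * z (.inr v) ^ 2 + 2 * Real.pi * Complex.I * z (.inr v)).re)) :=
    Finset.prod_nonneg fun v _ => mul_nonneg (hCE v) (Real.exp_pos _).le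
  have hn := nn_pos s
  refine (mul_le_mul (mul_le_mul b1 h1 (norm_nonneg _) hp1) b2
    (Finset.prod_nonneg fun i _ => norm_nonneg _) (mul_nonneg hp1 (by positivity))).trans ?_
  refine le_of_eq ?_
  rw [S.V_eq, mul_add, Real.exp_add, Finset.prod_mul_distrib, ← Real.exp_sum, ← Finset.mul_sum]
  unfold Dat.W
  ring

/-- the points of the main paths are near admissible points -/
theorem zz_near {S : Dat D Z K} {P : Par D} {nb : Finset D → Finset (D ⊕ Z)} {zs : D ⊕ Z → ℂ}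
    (h : Sadl S P nb zs) {η : ℝ} (hη : 0 < η) : ∀ᶠ s : ℕ in atTop, ∀ x ∈ P.bb (2 * s + 1),
    ∃ z : D ⊕ Z → ℂ, Adm S P zs ∅ ∅ z 0 ∧ ∀ i, ‖P.zz zs (2 * s + 1) i (x i) - z i‖ ≤ η := by
  choose C hC using fun i => On_near (P := P) (i := i)
    ⟨(h.par i).1, (h.par i).2.1, (h.par i).2.2.1, (h.par i).2.2.2.1⟩
  have hlim : ∀ i : D, Tendsto (fun s : ℕ => C i * (1 + |(zs (.inl i)).im|) / nn s) atTop (𝓝 0) :=
    fun i => tendsto_nn.const_div_atTop _
  filter_upwards [eventually_all.mpr fun i => (hlim i).eventually_lt_const hη,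
    eventually_ge_atTop 4] with s hs hs4 x hx
  have hx1 : ∀ i : D, ∃ x' : ℝ, 0 ≤ x' ∧ x' ≤ P.XM i ∧
      ‖P.ga (2 * s + 1) (zs (.inl i)).im i (x (.inl i)) -
        pt 0 (P.XM i) (P.cl i) (P.cr i) (zs (.inl i)).im x'‖ ≤ η := by
    intro i
    have h1 : x (.inl i) ∈ Set.Icc (ea (2 * s + 1)) (P.eb (2 * s + 1) i) :=
      hx (.inl i) (Set.mem_univ _)
    obtain ⟨x', a1, a2, a3, -⟩ := hC i (2 * s + 1) (zs (.inl i)).im (x (.inl i)) (by omega) h1.1 h1.2
    exact ⟨x', a1, a2, a3.trans (hs i).le⟩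
  choose x' hx0 hxM hxn using hx1
  refine ⟨Sum.elim (fun i => pt 0 (P.XM i) (P.cl i) (P.cr i) (zs (.inl i)).im (x' i))
    fun v => LT.zt (zs (.inr v)).im (x (.inr v)), ?_, fun i => ?_⟩
  · refine ⟨by simp, by simp, by simp, fun i _ => ?_, fun v _ => ?_, fun k h1 h2 => ?_⟩
    · exact ⟨x' i, hx0 i, hxM i, Or.inl ⟨rfl, rfl⟩⟩
    · have h1 : x (.inr v) ∈ Set.Ioo (-(1 / 2) : ℝ) (1 / 2) := hx (.inr v) (Set.mem_univ _)
      exact ⟨x (.inr v), abs_le.mpr ⟨h1.1.le, h1.2.le⟩, rfl⟩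
    · have h3 : ∀ i : D ⊕ Z, S.A k i = 0 := by
        intro i
        rcases i with i | v
        · by_contra hne
          exact absurd (h2 i hne) (Finset.notMem_empty _)
        · exact h1 v
      have h4 : ∀ z : D ⊕ Z → ℂ, S.form k z = S.a k := by
        intro z
        unfold Dat.form
        simp [h3]
      rw [h4]
      have h5 := (h.inner k).2
      rw [h4] at h5
      exact h5.le
  · rcases i with i | v
    · exact hxn i
    · have : P.zz zs (2 * s + 1) (.inr v) (x (.inr v)) -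
          LT.zt (zs (.inr v)).im (x (.inr v)) = 0 := sub_self _
      simp only [Sum.elim_inr]
      rw [this, norm_zero]
      exact hη.le

/-- **far bound** -/
theorem ff_far {S : Dat D Z K} (hS : S.Ok) {P : Par D} {nb : Finset D → Finset (D ⊕ Z)}
    {zs : D ⊕ Z → ℂ} (h : Sadl S P nb zs) {r : ℝ} (hr : 0 < r) : ∃ C κ δ : ℝ, 0 < δ ∧
    ∀ᶠ s : ℕ in atTop, ∀ x ∈ P.bb (2 * s + 1), r ≤ ∑ i, (x i - (zs i).re) ^ 2 →
      ‖S.ff P zs (2 * s + 1) x‖ ≤ C * nn s ^ κ * Real.exp (nn s * ((S.T zs).re - δ)) := by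
  obtain ⟨C, k, hC, hgr⟩ := ff_growth hS (fun i => (h.par i).2.2.1) (fun i => (h.par i).2.2.2.1)
    (fun v => (h.flatZ v).2)
  set N : ℝ := (Fintype.card (D ⊕ Z) : ℝ) with hN
  set r' : ℝ := √(r / (N + 1)) with hr'
  have hN0 : 0 ≤ N := Nat.cast_nonneg _
  have hr'0 : 0 < r' := Real.sqrt_pos.mpr (by positivity)
  obtain ⟨δ, hδ, η, hη, hdom⟩ := dom_main h (half_pos hr'0)
  refine ⟨C, k, δ, hδ, ?_⟩
  filter_upwards [zz_near h (lt_min hη (half_pos hr'0)), eventually_ge_atTop 2] with s hs hs2 x hx hxr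
  obtain ⟨z, hz, hzn⟩ := hs x hx
  -- one coordinate is far
  have hfar : ∃ i, r' ≤ |x i - (zs i).re| := by
    by_contra hcon
    push Not at hcon
    have h1 : ∑ i, (x i - (zs i).re) ^ 2 ≤ ∑ _i : D ⊕ Z, r / (N + 1) := by
      refine Finset.sum_le_sum fun i _ => ?_
      have h2 := hcon i
      rw [← sq_abs]
      have h3 : r' ^ 2 = r / (N + 1) := Real.sq_sqrt (by positivity)
      rw [← h3]
      exact pow_le_pow_left₀ (abs_nonneg _) h2.le 2
    rw [Finset.sum_const, nsmul_eq_mul, Finset.card_univ, ← hN] at h1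
    have h2 : N * (r / (N + 1)) < r := by
      rw [mul_div_assoc', div_lt_iff₀ (by positivity)]
      nlinarith only [hr]
    linarith only [hxr, h1, h2]
  obtain ⟨i, hi⟩ := hfar
  have hzi : r' / 2 ≤ ‖z i - zs i‖ := by
    have h1 : (P.zz zs (2 * s + 1) i (x i) - zs i).re = x i - (zs i).re := by
      rw [Complex.sub_re, zz_re]
    have h2 := Complex.abs_re_le_norm (P.zz zs (2 * s + 1) i (x i) - zs i)
    rw [h1] at h2
    have h3 : P.zz zs (2 * s + 1) i (x i) - zs i =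
        (P.zz zs (2 * s + 1) i (x i) - z i) + (z i - zs i) := by ring
    rw [h3] at h2
    have h4 := norm_add_le (P.zz zs (2 * s + 1) i (x i) - z i) (z i - zs i)
    have h5 := (hzn i).trans (min_le_right _ _)
    linarith only [hi, h2, h4, h5]
  have hV := hdom z (fun i => P.zz zs (2 * s + 1) i (x i)) 0 0 hz (Or.inl ⟨i, hzi⟩)
    (fun i => (hzn i).trans (min_le_left _ _)) (by simp [hη.le])
  simp only [Pi.zero_apply, Finset.sum_const_zero, mul_zero, sub_zero] at hV
  refine (hgr s hs2 x hx).trans ?_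
  rw [Real.rpow_natCast]
  have hn := nn_pos s
  gcongr

/-- the integrand is bounded -/
theorem ff_bdd {S : Dat D Z K} (hS : S.Ok) {P : Par D} {nb : Finset D → Finset (D ⊕ Z)}
    {zs : D ⊕ Z → ℂ} (h : Sadl S P nb zs) {s : ℕ} (hs : 2 ≤ s) : ∃ B : ℝ,
    ∀ x ∈ P.bb (2 * s + 1), ‖S.ff P zs (2 * s + 1) x‖ ≤ B := by
  obtain ⟨C, k, hC, hgr⟩ := ff_growth hS (fun i => (h.par i).2.2.1) (fun i => (h.par i).2.2.2.1)
    (fun v => (h.flatZ v).2)
  set Y : ℝ := ∑ i, |(zs i).im| with hY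
  have hYi : ∀ i, |(zs i).im| ≤ Y := fun i =>
    Finset.single_le_sum (f := fun i => |(zs i).im|) (fun _ _ => abs_nonneg _) (Finset.mem_univ i)
  have hY0 : 0 ≤ Y := Finset.sum_nonneg fun _ _ => abs_nonneg _
  obtain ⟨B, hB⟩ := (isCompact_closedBall (0 : D ⊕ Z → ℂ) (1 + Y)).exists_bound_of_continuousOn
    S.continuous_V.continuousOn
  refine ⟨C * nn s ^ k * Real.exp (nn s * B), fun x hx => (hgr s hs x hx).trans ?_⟩
  have hn := nn_pos s
  have h1 : (fun i => P.zz zs (2 * s + 1) i (x i)) ∈ Metric.closedBall (0 : D ⊕ Z → ℂ) (1 + Y) := by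
    rw [mem_closedBall_zero_iff, pi_norm_le_iff_of_nonneg (by positivity)]
    intro i
    have h2 := zz_im_le P zs _ hYi hx i
    have h3 : |(P.zz zs (2 * s + 1) i (x i)).re| ≤ 1 := by
      have h4 := zz_inBox P zs (n := 2 * s + 1) (by omega) hx
      rcases i with i | v
      · have h5 := h4.d0 i
        have h6 := h4.d1 i
        have h7 : 0 ≤ 1 / ((2 * s + 1 : ℕ) : ℝ) := by positivity
        exact abs_le.mpr ⟨by linarith only [h5], by linarith only [h6, h7]⟩
      · have h5 := h4.c v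
        exact h5.le.trans (by norm_num)
    have h4 := Complex.norm_le_abs_re_add_abs_im (P.zz zs (2 * s + 1) i (x i))
    linarith only [h2, h3, h4]
  have h2 := (Real.norm_eq_abs _ ▸ hB _ h1)
  have h3 := (le_abs_self _).trans h2
  gcongr

theorem measurable_zz (P : Par D) (zs : D ⊕ Z → ℂ) (n : ℕ) (i : D ⊕ Z) :
    Measurable (P.zz zs n i) := by
  rcases i with i | v
  · have h1 : Continuous (P.ga n (zs (.inl i)).im i) := by
      unfold Par.ga pt tr
      fun_prop
    exact h1.measurable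
  · exact (LT.continuous_zt _).measurable

theorem measurable_dd (P : Par D) (zs : D ⊕ Z → ℂ) (n : ℕ) (i : D ⊕ Z) :
    Measurable (P.dd zs n i) := by
  rcases i with i | v
  · have h := measurable_deriv (tr (ea n) (P.eb n i) (P.cl i) (P.cr i))
    unfold Par.dd
    simp only [Sum.elim_inl]
    fun_prop
  · exact LT.measurable_dzt _

/-- the main integral as an integral over the box -/
theorem main_eq {S : Dat D Z K} (hS : S.Ok) {P : Par D} {nb : Finset D → Finset (D ⊕ Z)}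
    {zs : D ⊕ Z → ℂ} (h : Sadl S P nb zs) {s : ℕ} (hs : 2 ≤ s) :
    S.main P zs (2 * s + 1) = (nn s : ℂ) ^ Fintype.card D *
      ∫ x in P.bb (2 * s + 1), S.ff P zs (2 * s + 1) x := by
  obtain ⟨B, hB⟩ := ff_bdd hS h hs
  set n : ℕ := 2 * s + 1 with hn
  set U : Set (Z → ℝ) := Set.univ.pi fun _ => Set.Ioo (-(1 / 2) : ℝ) (1 / 2) with hU
  have hUm : MeasurableSet U := MeasurableSet.univ_pi fun _ => measurableSet_Ioo
  have hUae : U =ᵐ[volume] LT.cube Z := by
    unfold LT.cube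
    have h2 := Measure.univ_pi_Ioo_ae_eq_Icc (μ := fun _ : Z => (volume : Measure ℝ))
      (f := fun _ => -(1 / 2)) (g := fun _ => 1 / 2)
    rw [← Set.pi_univ_Icc] at h2
    exact h2
  have hbx : MeasurableSet (P.bx n) := MeasurableSet.univ_pi fun _ => measurableSet_Icc
  -- the integrand
  have e1 : ∀ (x : D → ℝ) (σ : Z → ℝ), S.F P zs n x σ =
      (nn s : ℂ) ^ Fintype.card D * S.ff P zs n (Sum.elim x σ) := by
    intro x σ
    unfold Dat.F Dat.ff Dat.H
    have e2 : P.pz zs n x σ = fun i => P.zz zs n i (Sum.elim x σ i) := by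
      funext i
      rcases i with i | v <;> rfl
    have e3 : ∏ i, P.om n (zs (.inl i)).im i (x i) = (nn s : ℂ) ^ Fintype.card D *
        ∏ i : D, P.dd zs n (.inl i) (x i) := by
      unfold Par.om Par.dd
      rw [Finset.prod_mul_distrib, Finset.prod_const, Finset.card_univ]
      congr 2
    have e4 : ∏ v, LT.EE n (S.b v) (zs (.inr v)).im (σ v) =
        (∏ v, LT.Ec n (S.b v) (P.zz zs n (.inr v) (σ v))) * ∏ v : Z, P.dd zs n (.inr v) (σ v) := by
      rw [← Finset.prod_mul_distrib]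
      rfl
    rw [e2, e3, e4, Fintype.prod_sum_type]
    simp only [Sum.elim_inl, Sum.elim_inr]
    ring
  -- the measure
  set e := MeasurableEquiv.sumPiEquivProdPi (fun _ : D ⊕ Z => ℝ) with he
  have hmp : MeasurePreserving e.symm (volume : Measure ((D → ℝ) × (Z → ℝ))) volume :=
    volume_measurePreserving_sumPiEquivProdPi_symm (fun _ : D ⊕ Z => ℝ)
  have hes : ∀ q : (D → ℝ) × (Z → ℝ), e.symm q = Sum.elim q.1 q.2 := by
    intro q
    funext i
    rcases i with i | v <;> rfl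
  have hpre : e.symm ⁻¹' P.bb n = P.bx n ×ˢ U := by
    ext q
    simp only [Set.mem_preimage, hes, Set.mem_prod]
    unfold Par.bb Par.bx
    simp only [Set.mem_pi, Set.mem_univ, forall_true_left, Sum.forall, Sum.elim_inl, Sum.elim_inr,
      hU]
  have hint : Integrable (fun q : (D → ℝ) × (Z → ℝ) => S.F P zs n q.1 q.2)
      ((volume.restrict (P.bx n)).prod (volume.restrict U)) := by
    have hfin : IsFiniteMeasure ((volume.restrict (P.bx n)).prod (volume.restrict U)) := by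
      rw [Measure.prod_restrict]
      refine ⟨?_⟩
      rw [Measure.restrict_apply_univ, Measure.prod_prod]
      refine ENNReal.mul_lt_top ?_ ?_
      · have hc : IsCompact (P.bx n) := isCompact_univ_pi fun _ => isCompact_Icc
        exact hc.measure_lt_top
      · rw [measure_congr hUae]
        have hc : IsCompact (LT.cube Z) := isCompact_univ_pi fun _ => isCompact_Icc
        exact hc.measure_lt_top
    refine Integrable.of_bound (C := ‖(nn s : ℂ) ^ Fintype.card D‖ * B)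
      (S.measurable_F P zs n).aestronglyMeasurable ?_
    rw [Measure.prod_restrict]
    refine (ae_restrict_iff' (hbx.prod hUm)).mpr (Eventually.of_forall fun q hq => ?_)
    rw [e1, norm_mul]
    refine mul_le_mul_of_nonneg_left (hB _ ?_) (norm_nonneg _)
    have : q ∈ e.symm ⁻¹' P.bb n := by
      rw [hpre]
      exact hq
    rw [Set.mem_preimage, hes] at this
    exact this
  have h1 : S.main P zs n = ∫ q in P.bx n ×ˢ U, S.F P zs n q.1 q.2 := by
    unfold Dat.main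
    rw [Measure.volume_eq_prod, ← Measure.prod_restrict, integral_prod_symm _ hint,
      Measure.restrict_congr_set hUae]
  rw [h1, ← hpre]
  have h2 := hmp.setIntegral_preimage_emb e.symm.measurableEmbedding
    (fun x => (nn s : ℂ) ^ Fintype.card D * S.ff P zs n x) (P.bb n)
  rw [← integral_const_mul, ← h2]
  refine integral_congr_ae (Eventually.of_forall fun q => ?_)
  simp only [e1, hes]

theorem main_lim [DecidableEq Z] {S : Dat D Z K} (hS : S.Ok) {P : Par D}
    {nb : Finset D → Finset (D ⊕ Z)} {zs : D ⊕ Z → ℂ} (h : Sadl S P nb zs) :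
    ∃ L : ℂ, L ≠ 0 ∧ Tendsto (fun s : ℕ =>
      ((nn s ^ (((Fintype.card Z : ℝ) - Fintype.card D) / 2) : ℝ) : ℂ) *
      Complex.exp (-((nn s : ℂ) * S.T zs)) * S.main P zs (2 * s + 1)) atTop (𝓝 L) := by
  have hcr : S.Crit zs := ⟨h.inner, fun v => (h.flatZ v).2, h.crit, h.hess⟩
  -- margins
  set mg : D ⊕ Z → ℝ := Sum.elim (fun i => min ((zs (.inl i)).re - P.cl i)
    (P.XM i - P.cr i - (zs (.inl i)).re)) fun v => 1 / 4 - |(zs (.inr v)).re| with hmg
  have hmg0 : ∀ i, 0 < mg i := by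
    intro i
    rcases i with i | v
    · have := h.flatD i
      simp only [hmg, Sum.elim_inl]
      exact lt_min (by linarith only [this]) (by linarith only [this])
    · have := (h.flatZ v).1
      simp only [hmg, Sum.elim_inr]
      linarith only [this]
  obtain ⟨rp, hrp1, hrp⟩ : ∃ rp : ℝ, (∀ i, 2 * rp < mg i) ∧ 0 < rp := by
    have h1 : ∀ᶠ ρ in 𝓝[>] (0 : ℝ), ∀ i, 2 * ρ < mg i := by
      rw [eventually_all]
      intro i
      have h2 : Tendsto (fun ρ : ℝ => 2 * ρ) (𝓝[>] 0) (𝓝 0) := by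
        have : Tendsto (fun ρ : ℝ => 2 * ρ) (𝓝 0) (𝓝 (2 * 0)) :=
          (continuous_const.mul continuous_id).tendsto 0
        rw [mul_zero] at this
        exact this.mono_left nhdsWithin_le_nhds
      exact h2.eventually_lt_const (hmg0 i)
    exact (h1.and self_mem_nhdsWithin).exists
  have hnear : ∀ᶠ s : ℕ in atTop, 3 / (2 * nn s) < rp := by
    have h1 : Tendsto (fun s => (3 / 2) / nn s) atTop (𝓝 0) := tendsto_nn.const_div_atTop _
    filter_upwards [h1.eventually_lt_const hrp] with s hs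
    have : 3 / (2 * nn s) = (3 / 2) / nn s := by rw [div_div]
    linarith only [hs, this]
  have hea : ∀ᶠ s : ℕ in atTop, ea (2 * s + 1) < rp ∧
      ∀ i, P.XM i - rp < P.eb (2 * s + 1) i := by
    filter_upwards [hnear, eventually_ge_atTop 4] with s hs hs4
    have hn := nn_pos s
    have hcast : ((2 * s + 1 : ℕ) : ℝ) = nn s := rfl
    refine ⟨?_, fun i => ?_⟩
    · rw [ea_eq, hcast]
      have : 1 / (2 * nn s) ≤ 3 / (2 * nn s) := div_le_div_of_nonneg_right (by norm_num)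
        (by positivity)
      linarith only [hs, this]
    · have h1 := eb_ge P (n := 2 * s + 1) (i := i) (by omega) ⟨(h.par i).1, (h.par i).2.1⟩
      rw [hcast] at h1
      linarith only [hs, h1]
  obtain ⟨L, hL, hlim⟩ := S.lap seOk hcr (z := fun s => P.zz zs (2 * s + 1))
    (d := fun s => P.dd zs (2 * s + 1)) S.measurable_G (fun s i => measurable_zz P zs _ i)
    (fun s i => measurable_dd P zs _ i) hrp (by
      filter_upwards [hea] with s hs i x hx
      have hx' := abs_lt.mp hx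
      have hm := hrp1 i
      rcases i with i | v
      · simp only [hmg, Sum.elim_inl] at hm
        have hm1 := hm.trans_le (min_le_left _ _)
        have hm2 := hm.trans_le (min_le_right _ _)
        have hs2 := hs.2 i
        have hc := (h.par i).2.2.1
        have hc' := (h.par i).2.2.2.1
        have htr : ∀ y : ℝ, |y - (zs (.inl i)).re| < rp →
            tr (ea (2 * s + 1)) (P.eb (2 * s + 1) i) (P.cl i) (P.cr i) y = 1 := by
          intro y hy
          have hy' := abs_lt.mp hy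
          unfold tr
          rw [min_eq_left, max_eq_right zero_le_one]
          refine le_min ?_ ?_
          · rw [le_div_iff₀ hc]
            linarith only [hs, hm1, hy', hs.1]
          · rw [le_div_iff₀ hc']
            linarith only [hm2, hs2, hy']
        have hd : deriv (tr (ea (2 * s + 1)) (P.eb (2 * s + 1) i) (P.cl i) (P.cr i)) x = 0 := by
          have h1 : tr (ea (2 * s + 1)) (P.eb (2 * s + 1) i) (P.cl i) (P.cr i) =ᶠ[𝓝 x]
              fun _ => 1 := by
            have h2 : {y : ℝ | |y - (zs (.inl i)).re| < rp} ∈ 𝓝 x := by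
              have h3 : IsOpen {y : ℝ | |y - (zs (.inl i)).re| < rp} :=
                isOpen_lt (by fun_prop) continuous_const
              exact h3.mem_nhds hx
            filter_upwards [h2] with y hy
            exact htr y hy
          rw [h1.deriv_eq, deriv_const]
        constructor
        · have h1 : P.zz zs (2 * s + 1) (.inl i) x = (x : ℂ) + (((zs (.inl i)).im *
              tr (ea (2 * s + 1)) (P.eb (2 * s + 1) i) (P.cl i) (P.cr i) x : ℝ) : ℂ) *
              Complex.I := rfl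
          rw [h1, htr x hx, mul_one, Complex.ofReal_sub]
          have h2 := Complex.re_add_im (zs (.inl i))
          linear_combination h2
        · have h1 : P.dd zs (2 * s + 1) (.inl i) x = 1 + (((zs (.inl i)).im *
              deriv (tr (ea (2 * s + 1)) (P.eb (2 * s + 1) i) (P.cl i) (P.cr i)) x : ℝ) : ℂ) *
              Complex.I := rfl
          rw [h1, hd]
          simp
      · simp only [hmg, Sum.elim_inr] at hm
        have h1 : |x| < 1 / 4 := by
          have := abs_add_le (x - (zs (.inr v)).re) (zs (.inr v)).re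
          rw [sub_add_cancel] at this
          linarith only [hrp, hx, hm, this]
        constructor
        · have h2 := LT.zt_eq (ζ := zs (.inr v)) (u := x - (zs (.inr v)).re)
            (by rw [add_sub_cancel]; exact h1.le)
          rw [add_sub_cancel] at h2
          exact h2
        · have h2 : P.dd zs (2 * s + 1) (.inr v) x = LT.dzt (zs (.inr v)).im x := rfl
          rw [h2]
          unfold LT.dzt
          rw [if_pos h1]
          simp)
    (B := fun s => P.bb (2 * s + 1)) (fun s => measurableSet_bb P _) (R := 1) (by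
      intro s x hx i
      rcases i with i | v
      · have h1 : x (.inl i) ∈ Set.Icc (ea (2 * s + 1)) (P.eb (2 * s + 1) i) :=
          hx (.inl i) (Set.mem_univ _)
        have h2 := ea_pos (n := 2 * s + 1) (by omega)
        have h3 : P.eb (2 * s + 1) i ≤ 1 := by
          have hn0 : (0 : ℝ) < ((2 * s + 1 : ℕ) : ℝ) := by positivity
          unfold Par.eb
          rw [div_le_one hn0]
          have h4 : P.m (2 * s + 1) i ≤ 2 * s := (min_le_right _ _).trans (by omega)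
          have h5 : (P.m (2 * s + 1) i : ℝ) ≤ 2 * s := by exact_mod_cast h4
          push_cast
          linarith only [h5]
        exact abs_le.mpr ⟨by linarith only [h2, h1, h1.1], by linarith only [h3, h1, h1.2]⟩
      · have h1 : x (.inr v) ∈ Set.Ioo (-(1 / 2) : ℝ) (1 / 2) := hx (.inr v) (Set.mem_univ _)
        exact abs_le.mpr ⟨by linarith only [h1, h1.1], by linarith only [h1, h1.2]⟩)
    (U := Set.univ.pi fun i => Set.Ioo ((zs i).re - rp) ((zs i).re + rp)) (by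
      refine set_pi_mem_nhds Set.finite_univ fun i _ => ?_
      exact Ioo_mem_nhds (by linarith only [hrp]) (by linarith only [hrp])) (by
      filter_upwards [hea] with s hs x hx i _
      have hxi : x i ∈ Set.Ioo ((zs i).re - rp) ((zs i).re + rp) := hx i (Set.mem_univ _)
      have hm := hrp1 i
      rcases i with i | v
      · simp only [hmg, Sum.elim_inl] at hm
        have hm1 := hm.trans_le (min_le_left _ _)
        have hm2 := hm.trans_le (min_le_right _ _)
        have hs2 := hs.2 i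
        have hc := (h.par i).2.2.1
        have hc' := (h.par i).2.2.2.1
        exact ⟨by linarith only [hs, hm1, hc, hxi, hxi.1, hs.1], by linarith only [hm2, hs2, hc', hxi, hxi.2]⟩
      · simp only [hmg, Sum.elim_inr] at hm
        have h1 := abs_le.mp (le_refl |(zs (.inr v)).re|)
        exact ⟨by linarith only [hrp, hm, h1, hxi, hxi.1, h1.1], by linarith only [hrp, hm, h1, hxi, hxi.2, h1.2]⟩)
    (fun r hr => ff_far hS h hr)
  refine ⟨L, hL, hlim.congr' ?_⟩
  filter_upwards [eventually_ge_atTop 2] with s hs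
  have hn := nn_pos s
  rw [main_eq hS h hs]
  have e1 : nn s ^ ((Fintype.card (D ⊕ Z) : ℝ) / 2) =
      nn s ^ (((Fintype.card Z : ℝ) - Fintype.card D) / 2) * nn s ^ Fintype.card D := by
    rw [← Real.rpow_natCast, ← Real.rpow_add hn, Fintype.card_sum]
    congr 1
    push_cast
    ring
  rw [e1, Complex.ofReal_mul, Complex.ofReal_pow]
  unfold Dat.ff
  ring

end Pool.Agent.Work.MP_b30479_gtS.G2

end

section

/-!
# The analytic core
-/

namespace Pool.Agent.Work.MP_b30479_gtS.G2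

open Finset VOL MeasureTheory Filter Topology

variable {D Z K : Type} [Fintype D] [Fintype Z] [Fintype K] [DecidableEq D]

/-- The analytic core. -/
theorem core [DecidableEq Z] {S : Dat D Z K} (hS : S.Ok) {P : Par D}
    {nb : Finset D → Finset (D ⊕ Z)} {zs : D ⊕ Z → ℂ} (h : Sadl S P nb zs) :
    ∃ L : ℂ, L ≠ 0 ∧ Tendsto (fun s : ℕ =>
      ((((2 * s + 1 : ℕ) : ℝ) ^ (((Fintype.card Z : ℝ) - Fintype.card D) / 2) : ℝ) : ℂ) *
      Complex.exp (-(((2 * s + 1 : ℕ) : ℂ) * S.T zs)) *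
      S.sum (2 * s + 1) fun v => (zs (.inr v)).im) atTop (𝓝 L) := by
  obtain ⟨L, hL, h1⟩ := main_lim hS h
  refine ⟨L, hL, ?_⟩
  have h2 := final_lim (κ := 0) (p := ((Fintype.card Z : ℝ) - Fintype.card D) / 2)
    (Ψ := S.T zs) (I := fun s => S.main P zs (2 * s + 1))
    (a := fun s => S.sum (2 * s + 1) fun v => (zs (.inr v)).im) h1 (sum_sub_main hS h)
  refine h2.congr fun s => ?_
  unfold nn
  push_cast
  rfl

end Pool.Agent.Work.MP_b30479_gtS.G2

end
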